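import Pool.Agent.Helper42.Jef.Defs2

/-! # Further shared definitions -/

open MeasureTheory Set Filter Topology
open scoped ENNReal ContDiff

namespace Pool.Agent.Helper42.Jef

variable {n : ℕ}

/-- `(v · ∇) v` as a vector field, from `v` and its gradient -/
noncomputable def hvec (v : ST n → Eu n) (G : ST n → Mt n) (z : ST n) : Eu n :=
  WithLp.toLp 2 fun i => ∑ l, v z l * G z (i, l)

/-- extension by the initial value on the time interval `(-1, 0)` -/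
noncomputable def ext0 {E : Type*} (u0 : Eu n → E) (u : ST n → E) (z : ST n) : E :=
  open Classical in if z.1 ∈ Ioo (-1 : ℝ) 0 then u0 z.2 else u z

/-- decomposition property of the approximate spins (see `spin_var`) -/
def SpinProp (S : ℕ → ST n → Mt n) (G : ST n → Mt n) (gk : ℕ → ST n → Mt n)
    (ga : ℕ → ST n → ℝ) (M : ℝ) : Prop :=
  ∀ j : ℕ, ∃ S1 S2 : ℕ → ST n → Mt n,
    (∀ m, S m =ᵐ[volume] fun z => S1 m z + S2 m z) ∧
    (∀ m, MemLp (S1 m) 2 volume) ∧ (∃ C : ℝ, ∀ m, eLpNorm (S1 m) 2 volume ≤ ENNReal.ofReal C) ∧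
    (∀ m, Integrable (S2 m) volume) ∧ (∀ m, ∫ z, ‖S2 m z‖ ≤ M / ((j : ℝ) + 1)) ∧
    ∀ (ζ : ST n → ℝ) (L : ℝ), Measurable ζ → (∀ z, 0 ≤ ζ z ∧ ζ z ≤ L) → MemLp ζ 2 volume →
      ∀ ε : ℝ, 0 < ε → ∀ᶠ m in atTop,
        ∫ z, ζ z * ‖S1 m z - sp (G z)‖ ^ 2 ≤
          (∫ z, ζ z * (ga j z - 2 * inner ℝ (gk j z) (G z) + ‖G z‖ ^ 2)) + ε

end Pool.Agent.Helper42.Jef
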