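import Pool.Agent.Helper42.Jef.Defs

/-! # Matrix algebra: symmetric part, spin, commutator -/

open MeasureTheory Set Filter Topology
open scoped ENNReal NNReal ContDiff

namespace Pool.Agent.Helper42.Jef

set_option maxHeartbeats 400000

variable {n : ℕ}

@[simp] theorem tr_apply (A : Mt n) (p : Fin n × Fin n) : tr A p = A p.swap := rfl

theorem tr_add (A B : Mt n) : tr (A + B) = tr A + tr B := by ext p; simp

theorem tr_sub (A B : Mt n) : tr (A - B) = tr A - tr B := by ext p; simp

theorem tr_smul (c : ℝ) (A : Mt n) : tr (c • A) = c • tr A := by ext p; simp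

@[simp] theorem tr_tr (A : Mt n) : tr (tr A) = A := by ext p; simp

theorem norm_tr (A : Mt n) : ‖tr A‖ = ‖A‖ := by
  rw [EuclideanSpace.norm_eq, EuclideanSpace.norm_eq]
  congr 1
  exact (Equiv.prodComm (Fin n) (Fin n)).sum_comp (fun p => ‖A p‖ ^ 2)

theorem inner_tr (A B : Mt n) : inner ℝ (tr A) (tr B) = inner ℝ A B := by
  simp only [PiLp.inner_apply, tr_apply]
  exact (Equiv.prodComm (Fin n) (Fin n)).sum_comp (fun p => inner ℝ (A p) (B p))

/-- transpose as a linear map -/
noncomputable def trL (n : ℕ) : Mt n →L[ℝ] Mt n :=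
  LinearMap.toContinuousLinearMap
    { toFun := tr, map_add' := tr_add, map_smul' := fun c A => tr_smul c A }

@[simp] theorem trL_apply (A : Mt n) : trL n A = tr A := rfl

noncomputable def syL (n : ℕ) : Mt n →L[ℝ] Mt n := (1 / 2 : ℝ) • (ContinuousLinearMap.id ℝ _ + trL n)
noncomputable def spL (n : ℕ) : Mt n →L[ℝ] Mt n := (1 / 2 : ℝ) • (ContinuousLinearMap.id ℝ _ - trL n)

@[simp] theorem syL_apply (A : Mt n) : syL n A = sy A := rfl
@[simp] theorem spL_apply (A : Mt n) : spL n A = sp A := rfl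

theorem sy_apply (A : Mt n) (p : Fin n × Fin n) : sy A p = (1 / 2) * (A p + A p.swap) := rfl
theorem sp_apply (A : Mt n) (p : Fin n × Fin n) : sp A p = (1 / 2) * (A p - A p.swap) := rfl

theorem norm_sy_le (A : Mt n) : ‖sy A‖ ≤ ‖A‖ := by
  unfold sy
  rw [norm_smul]
  have := norm_add_le A (tr A)
  rw [norm_tr] at this
  simp only [Real.norm_eq_abs]
  rw [abs_of_pos (by norm_num)]
  linarith

theorem norm_sp_le (A : Mt n) : ‖sp A‖ ≤ ‖A‖ := by
  unfold sp
  rw [norm_smul]
  have := norm_sub_le A (tr A)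
  rw [norm_tr] at this
  simp only [Real.norm_eq_abs]
  rw [abs_of_pos (by norm_num)]
  linarith

theorem tr_sp (A : Mt n) : tr (sp A) = - sp A := by
  ext p; simp [sp_apply]; ring

theorem tr_sy (A : Mt n) : tr (sy A) = sy A := by
  ext p; simp [sy_apply]; ring

theorem sp_of_antisym {W : Mt n} (hW : tr W = -W) : sp W = W := by
  ext p
  have h : W p.swap = - W p := by
    have := congrArg (fun A : Mt n => A p) hW
    simpa using this
  rw [sp_apply, h]; ring

theorem inner_sy_left (A B : Mt n) : inner ℝ (sy A) B = inner ℝ A (sy B) := by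
  unfold sy
  rw [inner_smul_left, inner_smul_right, inner_add_left, inner_add_right]
  have : inner ℝ (tr A) B = inner ℝ A (tr B) := by
    rw [← inner_tr (tr A) B, tr_tr]
  rw [this]; rfl

theorem inner_sp_left (A B : Mt n) : inner ℝ (sp A) B = inner ℝ A (sp B) := by
  unfold sp
  rw [inner_smul_left, inner_smul_right, inner_sub_left, inner_sub_right]
  have : inner ℝ (tr A) B = inner ℝ A (tr B) := by
    rw [← inner_tr (tr A) B, tr_tr]
  rw [this]; rfl

theorem sy_sy (A : Mt n) : sy (sy A) = sy A := by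
  ext p; simp [sy_apply]; ring

/-! ## the commutator -/

theorem br_apply (A W : Mt n) (i j : Fin n) :
    br A W (i, j) = ∑ l, (A (i, l) * W (l, j) - W (i, l) * A (l, j)) := rfl

theorem br_add_left (A B W : Mt n) : br (A + B) W = br A W + br B W := by
  ext ⟨i, j⟩
  simp only [br_apply, PiLp.add_apply]
  rw [← Finset.sum_add_distrib]
  exact Finset.sum_congr rfl fun l _ => by ring

theorem br_add_right (A W V : Mt n) : br A (W + V) = br A W + br A V := by
  ext ⟨i, j⟩
  simp only [br_apply, PiLp.add_apply]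
  rw [← Finset.sum_add_distrib]
  exact Finset.sum_congr rfl fun l _ => by ring

theorem br_smul_left (c : ℝ) (A W : Mt n) : br (c • A) W = c • br A W := by
  ext ⟨i, j⟩
  simp only [br_apply, PiLp.smul_apply, smul_eq_mul, Finset.mul_sum]
  exact Finset.sum_congr rfl fun l _ => by ring

theorem br_smul_right (c : ℝ) (A W : Mt n) : br A (c • W) = c • br A W := by
  ext ⟨i, j⟩
  simp only [br_apply, PiLp.smul_apply, smul_eq_mul, Finset.mul_sum]
  exact Finset.sum_congr rfl fun l _ => by ring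

theorem inner_br (A W : Mt n) (hW : tr W = -W) : inner ℝ (br A W) A = 0 := by
  have hs : ∀ i j, W (i, j) = - W (j, i) := by
    intro i j
    have := congrArg (fun A : Mt n => A (j, i)) hW
    simpa using this
  simp only [PiLp.inner_apply, Fintype.sum_prod_type, br_apply]
  have key : ∀ i j, inner ℝ (∑ l, (A (i, l) * W (l, j) - W (i, l) * A (l, j))) (A (i, j)) =
      ∑ l, (A (i, l) * W (l, j) * A (i, j)) - ∑ l, (W (i, l) * A (l, j) * A (i, j)) := by
    intro i j
    simp only [RCLike.inner_apply, conj_trivial]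
    rw [← Finset.sum_sub_distrib, Finset.mul_sum]
    exact Finset.sum_congr rfl fun l _ => by ring
  have key2 : ∑ i, ∑ j, inner ℝ (∑ l, (A (i, l) * W (l, j) - W (i, l) * A (l, j))) (A (i, j)) =
      ∑ i, ∑ j, ∑ l, (A (i, l) * W (l, j) * A (i, j)) -
        ∑ i, ∑ j, ∑ l, (W (i, l) * A (l, j) * A (i, j)) := by
    rw [← Finset.sum_sub_distrib]
    refine Finset.sum_congr rfl fun i _ => ?_
    rw [← Finset.sum_sub_distrib]
    exact Finset.sum_congr rfl fun j _ => key i j
  rw [key2]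
  have h1 : ∑ i, ∑ j, ∑ l, (A (i, l) * W (l, j) * A (i, j)) = 0 := by
    refine Finset.sum_eq_zero fun i _ => ?_
    have h2 : ∑ j, ∑ l, (A (i, l) * W (l, j) * A (i, j)) =
        - ∑ j, ∑ l, (A (i, l) * W (l, j) * A (i, j)) := by
      conv_lhs => rw [Finset.sum_comm]
      rw [← Finset.sum_neg_distrib]
      refine Finset.sum_congr rfl fun j _ => ?_
      rw [← Finset.sum_neg_distrib]
      refine Finset.sum_congr rfl fun l _ => ?_
      rw [hs j l]; ring
    linarith
  have h3 : ∑ i, ∑ j, ∑ l, (W (i, l) * A (l, j) * A (i, j)) = 0 := by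
    rw [Finset.sum_comm]
    refine Finset.sum_eq_zero fun j _ => ?_
    have h2 : ∑ i, ∑ l, (W (i, l) * A (l, j) * A (i, j)) =
        - ∑ i, ∑ l, (W (i, l) * A (l, j) * A (i, j)) := by
      conv_lhs => rw [Finset.sum_comm]
      rw [← Finset.sum_neg_distrib]
      refine Finset.sum_congr rfl fun i _ => ?_
      rw [← Finset.sum_neg_distrib]
      refine Finset.sum_congr rfl fun l _ => ?_
      rw [hs l i]; ring
    linarith
  rw [h1, h3, sub_zero]

theorem tr_br (A W : Mt n) (hW : tr W = -W) : tr (br A W) = br (tr A) W := by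
  have hs : ∀ i j, W (i, j) = - W (j, i) := by
    intro i j
    have := congrArg (fun A : Mt n => A (j, i)) hW
    simpa using this
  ext ⟨i, j⟩
  simp only [tr_apply, Prod.swap_prod_mk, br_apply]
  refine Finset.sum_congr rfl fun l _ => ?_
  rw [hs l i, hs j l]
  ring

/-- product part bound -/
theorem sum_mul_sq_le (A W : Mt n) :
    ∑ i, ∑ j, (∑ l, A (i, l) * W (l, j)) ^ 2 ≤ ‖A‖ ^ 2 * ‖W‖ ^ 2 := by
  rw [EuclideanSpace.norm_sq_eq, EuclideanSpace.norm_sq_eq]
  simp only [Fintype.sum_prod_type, Real.norm_eq_abs, sq_abs]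
  calc ∑ i, ∑ j, (∑ l, A (i, l) * W (l, j)) ^ 2
      ≤ ∑ i, ∑ j, (∑ l, A (i, l) ^ 2) * (∑ l, W (l, j) ^ 2) :=
        Finset.sum_le_sum fun i _ => Finset.sum_le_sum fun j _ =>
          Finset.sum_mul_sq_le_sq_mul_sq _ _ _
    _ = (∑ i, ∑ l, A (i, l) ^ 2) * (∑ j, ∑ l, W (l, j) ^ 2) := by
        rw [Finset.sum_mul_sum]
    _ = _ := by
        congr 1
        rw [Finset.sum_comm]

theorem norm_br_le (A W : Mt n) : ‖br A W‖ ≤ 2 * (‖A‖ * ‖W‖) := by
  have h1 : ∀ (A W : Mt n), ‖(WithLp.toLp 2 fun p : Fin n × Fin n => ∑ l, A (p.1, l) * W (l, p.2) : Mt n)‖ ≤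
      ‖A‖ * ‖W‖ := by
    intro A W
    have h2 := sum_mul_sq_le A W
    rw [EuclideanSpace.norm_eq]
    have h3 : ∑ p : Fin n × Fin n, ‖(WithLp.toLp 2
        fun p : Fin n × Fin n => ∑ l, A (p.1, l) * W (l, p.2) : Mt n) p‖ ^ 2 =
        ∑ i, ∑ j, (∑ l, A (i, l) * W (l, j)) ^ 2 := by
      rw [Fintype.sum_prod_type]
      refine Finset.sum_congr rfl fun i _ => Finset.sum_congr rfl fun j _ => ?_
      simp
    rw [h3]
    calc Real.sqrt _ ≤ Real.sqrt (‖A‖ ^ 2 * ‖W‖ ^ 2) := Real.sqrt_le_sqrt h2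
      _ = ‖A‖ * ‖W‖ := by
        rw [← mul_pow, Real.sqrt_sq (by positivity)]
  have h4 : br A W = (WithLp.toLp 2 fun p : Fin n × Fin n => ∑ l, A (p.1, l) * W (l, p.2) : Mt n) -
      (WithLp.toLp 2 fun p : Fin n × Fin n => ∑ l, W (p.1, l) * A (l, p.2) : Mt n) := by
    ext p
    simp [br, Finset.sum_sub_distrib]
  rw [h4]
  calc _ ≤ _ := norm_sub_le _ _
    _ ≤ ‖A‖ * ‖W‖ + ‖W‖ * ‖A‖ := add_le_add (h1 A W) (h1 W A)
    _ = _ := by ring

/-- the commutator as a continuous bilinear map -/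
noncomputable def brL (n : ℕ) : Mt n →L[ℝ] Mt n →L[ℝ] Mt n :=
  LinearMap.mkContinuous₂
    (LinearMap.mk₂ ℝ br br_add_left (fun c A W => br_smul_left c A W) br_add_right
      (fun c A W => br_smul_right c A W)) 2
    (fun A W => by
      have := norm_br_le A W
      simpa [mul_assoc] using this)

@[simp] theorem brL_apply (A W : Mt n) : brL n A W = br A W := rfl

theorem br_sub_left (A B W : Mt n) : br (A - B) W = br A W - br B W := by
  exact (brL n).map_sub₂ A B W

theorem br_sub_right (A W V : Mt n) : br A (W - V) = br A W - br A V := by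
  exact (brL n A).map_sub W V

@[simp] theorem br_zero_right (A : Mt n) : br A 0 = 0 := by
  exact (brL n A).map_zero

@[simp] theorem br_zero_left (A : Mt n) : br 0 A = 0 := by
  exact (brL n).map_zero₂ A

end Pool.Agent.Helper42.Jef
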