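import Pool.Agent.Helper42.Jef.Defs2

/-! # Weak convergence in `L²`, function level -/

open MeasureTheory Set Filter Topology
open scoped ENNReal NNReal ContDiff

namespace Pool.Agent.Helper42.Jef

set_option maxHeartbeats 400000

section Hilbert

variable {H : Type*} [NormedAddCommGroup H] [InnerProductSpace ℝ H]

/-- the subspace of vectors against which a bounded sequence has a Cauchy sequence of inner
products -/
def cauchySub (x : ℕ → H) : Submodule ℝ H where
  carrier := {y | CauchySeq fun m => inner ℝ (x m) y}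
  add_mem' := by
    intro a b ha hb
    have : (fun m => inner ℝ (x m) (a + b)) = fun m => inner ℝ (x m) a + inner ℝ (x m) b := by
      funext m; rw [inner_add_right]
    show CauchySeq _
    rw [this]
    exact ha.add hb
  zero_mem' := by
    show CauchySeq _
    simp only [inner_zero_right]
    exact cauchySeq_const _
  smul_mem' := by
    intro c a ha
    have : (fun m => inner ℝ (x m) (c • a)) = fun m => c * inner ℝ (x m) a := by
      funext m; rw [inner_smul_right]
    show CauchySeq _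
    rw [this]
    exact ((uniformContinuous_const_smul c).comp_cauchySeq ha)

theorem cauchySub_closed (x : ℕ → H) {C : ℝ} (hC : ∀ m, ‖x m‖ ≤ C) :
    IsClosed (cauchySub x : Set H) := by
  have hC0 : 0 ≤ C := (norm_nonneg _).trans (hC 0)
  refine isClosed_of_closure_subset fun y hy => ?_
  show CauchySeq _
  rw [Metric.cauchySeq_iff]
  intro ε hε
  obtain ⟨y', hy', hd⟩ := Metric.mem_closure_iff.1 hy (ε / (3 * (C + 1))) (by positivity)
  have hy'' : CauchySeq fun m => inner ℝ (x m) y' := hy'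
  obtain ⟨N, hN⟩ := Metric.cauchySeq_iff.1 hy'' (ε / 3) (by positivity)
  refine ⟨N, fun m hm k hk => ?_⟩
  have h1 : ∀ m, |inner ℝ (x m) y - inner ℝ (x m) y'| ≤ ε / 3 := by
    intro m
    rw [← inner_sub_right]
    have h2 : ‖y - y'‖ ≤ ε / (3 * (C + 1)) := by rw [← dist_eq_norm]; exact hd.le
    calc |inner ℝ (x m) (y - y')| ≤ ‖x m‖ * ‖y - y'‖ := abs_real_inner_le_norm _ _
      _ ≤ (C + 1) * (ε / (3 * (C + 1))) :=
        mul_le_mul ((hC m).trans (by linarith)) h2 (norm_nonneg _) (by positivity)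
      _ = ε / 3 := by field_simp
  have h2 := hN m hm k hk
  rw [Real.dist_eq] at h2 ⊢
  have h3 := h1 m
  have h4 := h1 k
  rw [abs_le] at h3 h4
  rw [abs_lt] at h2 ⊢
  constructor <;> linarith [h3.1, h3.2, h4.1, h4.2, h2.1, h2.2]

theorem hilbert_wc [CompleteSpace H] {ι : Type*} [Countable ι] (x : ι → ℕ → H)
    (hb : ∀ i, ∃ C : ℝ, ∀ m, ‖x i m‖ ≤ C) :
    ∃ φ : ℕ → ℕ, StrictMono φ ∧ ∀ i, ∃ U : H, ∀ y,
      Tendsto (fun m => inner ℝ (x i (φ m)) y) atTop (𝓝 (inner ℝ U y)) := by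
  choose C hC using hb
  have hC0 : ∀ i, 0 ≤ C i := fun i => (norm_nonneg _).trans (hC i 0)
  -- the sequence of all inner products lives in a compact set
  let κ := ι × (ι × ℕ)
  let s : ∀ _ : κ, Set ℝ := fun p => Icc (-(C p.1 * C p.2.1)) (C p.1 * C p.2.1)
  have hcpt : IsCompact (Set.pi univ s) := isCompact_univ_pi fun p => isCompact_Icc
  let z : ℕ → κ → ℝ := fun m p => inner ℝ (x p.1 m) (x p.2.1 p.2.2)
  have hz : ∀ m, z m ∈ Set.pi univ s := by
    intro m p _
    have : |z m p| ≤ C p.1 * C p.2.1 :=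
      (abs_real_inner_le_norm _ _).trans (mul_le_mul (hC _ _) (hC _ _) (norm_nonneg _) (hC0 _))
    exact abs_le.1 this
  obtain ⟨a, -, φ, hφ, ha⟩ := hcpt.tendsto_subseq hz
  refine ⟨φ, hφ, fun i => ?_⟩
  set xi : ℕ → H := fun m => x i (φ m) with hxi
  have hCi : ∀ m, ‖xi m‖ ≤ C i := fun m => hC i _
  set Y : Submodule ℝ H := (Submodule.span ℝ (range fun p : ι × ℕ => x p.1 p.2)).topologicalClosure
    with hY
  have hYc : Y ≤ cauchySub xi := by
    refine Submodule.topologicalClosure_minimal _ ?_ (cauchySub_closed xi hCi)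
    refine Submodule.span_le.2 ?_
    rintro _ ⟨p, rfl⟩
    have h1 : Tendsto (fun m => z (φ m) (i, p)) atTop (𝓝 (a (i, p))) :=
      (tendsto_pi_nhds.1 ha) (i, p)
    exact h1.cauchySeq
  have hYo : Yᗮ ≤ cauchySub xi := by
    intro y hy
    show CauchySeq _
    have : (fun m => inner ℝ (xi m) y) = fun _ => (0 : ℝ) := by
      funext m
      refine (Submodule.mem_orthogonal _ _).1 hy _ ?_
      exact Submodule.le_topologicalClosure _ (Submodule.subset_span ⟨(i, φ m), rfl⟩)
    rw [this]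
    exact cauchySeq_const _
  have hYcl : IsClosed (Y : Set H) := Submodule.isClosed_topologicalClosure _
  haveI : CompleteSpace Y := hYcl.completeSpace_coe
  have hall : ∀ y, CauchySeq fun m => inner ℝ (xi m) y := by
    intro y
    have h1 : y ∈ cauchySub xi := by
      have h2 : (⊤ : Submodule ℝ H) ≤ cauchySub xi := by
        rw [← Submodule.sup_orthogonal_of_hasOrthogonalProjection (K := Y)]
        exact sup_le hYc hYo
      exact h2 trivial
    exact h1
  have hlim : ∀ y, ∃ L : ℝ, Tendsto (fun m => inner ℝ (xi m) y) atTop (𝓝 L) := fun y =>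
    cauchySeq_tendsto_of_complete (hall y)
  choose L hL using hlim
  let Λ : H →ₗ[ℝ] ℝ :=
    { toFun := L
      map_add' := by
        intro y y'
        refine tendsto_nhds_unique (hL (y + y')) ?_
        have := (hL y).add (hL y')
        simpa only [inner_add_right] using this
      map_smul' := by
        intro c y
        refine tendsto_nhds_unique (hL (c • y)) ?_
        have := (hL y).const_mul c
        simpa only [inner_smul_right, RingHom.id_apply, smul_eq_mul] using this }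
  have hΛ : ∀ y, ‖Λ y‖ ≤ C i * ‖y‖ := by
    intro y
    have h1 : Tendsto (fun m => ‖inner ℝ (xi m) y‖) atTop (𝓝 ‖L y‖) := (hL y).norm
    refine le_of_tendsto' h1 fun m => ?_
    exact (norm_inner_le_norm _ _).trans (mul_le_mul_of_nonneg_right (hCi m) (norm_nonneg _))
  let Λc : H →L[ℝ] ℝ := Λ.mkContinuous (C i) hΛ
  refine ⟨(InnerProductSpace.toDual ℝ H).symm Λc, fun y => ?_⟩
  have h1 : inner ℝ ((InnerProductSpace.toDual ℝ H).symm Λc) y = Λc y := by
    rw [InnerProductSpace.toDual_symm_apply]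
  rw [h1]
  exact hL y

end Hilbert

section Fn

variable {α : Type*} [MeasurableSpace α] {μ : Measure α}
variable {E : Type*} [NormedAddCommGroup E] [InnerProductSpace ℝ E]

theorem inner_toLp {f g : α → E} (hf : MemLp f 2 μ) (hg : MemLp g 2 μ) :
    inner ℝ (hf.toLp f) (hg.toLp g) = ∫ x, inner ℝ (f x) (g x) ∂μ := by
  rw [L2.inner_def]
  refine integral_congr_ae ?_
  filter_upwards [hf.coeFn_toLp, hg.coeFn_toLp] with x h1 h2
  rw [h1, h2]

theorem inner_toLp_left {g : α → E} (f : Lp E 2 μ) (hg : MemLp g 2 μ) :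
    inner ℝ f (hg.toLp g) = ∫ x, inner ℝ (f x) (g x) ∂μ := by
  rw [L2.inner_def]
  refine integral_congr_ae ?_
  filter_upwards [hg.coeFn_toLp] with x h2
  rw [h2]

theorem memLp_inner_integrable {f g : α → E} (hf : MemLp f 2 μ) (hg : MemLp g 2 μ) :
    Integrable (fun x => inner ℝ (f x) (g x)) μ := by
  have := L2.integrable_inner (𝕜 := ℝ) (hf.toLp f) (hg.toLp g)
  refine this.congr ?_
  filter_upwards [hf.coeFn_toLp, hg.coeFn_toLp] with x h1 h2
  rw [h1, h2]

/-- Cauchy–Schwarz -/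
theorem integral_inner_le {f g : α → E} (hf : MemLp f 2 μ) (hg : MemLp g 2 μ) :
    |∫ x, inner ℝ (f x) (g x) ∂μ| ≤ (eLpNorm f 2 μ).toReal * (eLpNorm g 2 μ).toReal := by
  rw [← inner_toLp hf hg, ← Lp.norm_toLp f hf, ← Lp.norm_toLp g hg]
  exact abs_real_inner_le_norm _ _

theorem wc_compact [CompleteSpace E] {ι : Type*} [Countable ι] (u : ι → ℕ → α → E)
    (hu : ∀ i m, MemLp (u i m) 2 μ)
    (hb : ∀ i, ∃ C : ℝ, ∀ m, eLpNorm (u i m) 2 μ ≤ ENNReal.ofReal C) :
    ∃ φ : ℕ → ℕ, StrictMono φ ∧ ∀ i, ∃ U : α → E, WC μ (fun m => u i (φ m)) U := by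
  obtain ⟨φ, hφ, h⟩ := hilbert_wc (fun i m => (hu i m).toLp (u i m)) (by
    intro i
    obtain ⟨C, hC⟩ := hb i
    refine ⟨max C 0, fun m => ?_⟩
    rw [Lp.norm_toLp]
    refine ENNReal.toReal_le_of_le_ofReal (le_max_right _ _) ((hC m).trans ?_)
    exact ENNReal.ofReal_le_ofReal (le_max_left _ _))
  refine ⟨φ, hφ, fun i => ?_⟩
  obtain ⟨U, hU⟩ := h i
  obtain ⟨C, hC⟩ := hb i
  refine ⟨U, fun m => hu i _, ⟨C, fun m => hC _⟩, Lp.memLp U, fun g hg => ?_⟩
  have h1 := hU (hg.toLp g)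
  rw [inner_toLp_left] at h1
  refine h1.congr fun m => ?_
  rw [inner_toLp]

theorem wc_unique {u : ℕ → α → E} {U V : α → E} (h : WC μ u U) (h' : WC μ u V) : U =ᵐ[μ] V := by
  have hUV : MemLp (U - V) 2 μ := h.memU.sub h'.memU
  have h1 := tendsto_nhds_unique (h.conv _ hUV) (h'.conv _ hUV)
  have h2 : ∫ x, inner ℝ ((U - V) x) ((U - V) x) ∂μ = 0 := by
    have h3 : ∫ x, inner ℝ ((U - V) x) ((U - V) x) ∂μ =
        ∫ x, inner ℝ (U x) ((U - V) x) ∂μ - ∫ x, inner ℝ (V x) ((U - V) x) ∂μ := by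
      rw [← integral_sub (memLp_inner_integrable h.memU hUV) (memLp_inner_integrable h'.memU hUV)]
      refine integral_congr_ae (Eventually.of_forall fun x => ?_)
      simp only [Pi.sub_apply, inner_sub_left]
    rw [h3, h1, sub_self]
  rw [← inner_toLp hUV hUV, inner_self_eq_zero] at h2
  have h3 : eLpNorm (U - V) 2 μ = 0 := by
    have := congrArg norm h2
    rw [Lp.norm_toLp, norm_zero, ENNReal.toReal_eq_zero_iff] at this
    exact this.resolve_right hUV.2.ne
  rw [eLpNorm_eq_zero_iff hUV.1 (by norm_num)] at h3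
  filter_upwards [h3] with x hx
  have : U x - V x = 0 := hx
  exact sub_eq_zero.1 this

theorem WC.congr {u : ℕ → α → E} {U V : α → E} (h : WC μ u U) (hUV : U =ᵐ[μ] V) : WC μ u V := by
  refine ⟨h.mem, h.bdd, h.memU.ae_eq hUV, fun g hg => ?_⟩
  have h1 := h.conv g hg
  have h2 : ∫ x, inner ℝ (U x) (g x) ∂μ = ∫ x, inner ℝ (V x) (g x) ∂μ :=
    integral_congr_ae (by filter_upwards [hUV] with x hx; rw [hx])
  rwa [h2] at h1

theorem WC.congr_seq {u u' : ℕ → α → E} {U : α → E} (h : WC μ u U)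
    (huu : ∀ m, u m =ᵐ[μ] u' m) : WC μ u' U := by
  refine ⟨fun m => (h.mem m).ae_eq (huu m), ?_, h.memU, fun g hg => ?_⟩
  · obtain ⟨C, hC⟩ := h.bdd
    exact ⟨C, fun m => by rw [← eLpNorm_congr_ae (huu m)]; exact hC m⟩
  · refine (h.conv g hg).congr fun m => ?_
    exact integral_congr_ae (by filter_upwards [huu m] with x hx; rw [hx])

theorem WC.subseq {u : ℕ → α → E} {U : α → E} (h : WC μ u U) {φ : ℕ → ℕ} (hφ : StrictMono φ) :
    WC μ (fun m => u (φ m)) U := by
  obtain ⟨C, hC⟩ := h.bdd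
  exact ⟨fun m => h.mem _, ⟨C, fun m => hC _⟩, h.memU, fun g hg =>
    (h.conv g hg).comp hφ.tendsto_atTop⟩

/-- strong convergence implies weak convergence -/
theorem wc_of_strong {u : ℕ → α → E} {U : α → E} (hu : ∀ m, MemLp (u m) 2 μ) (hU : MemLp U 2 μ)
    (hs : Tendsto (fun m => eLpNorm (fun x => u m x - U x) 2 μ) atTop (𝓝 0))
    (hb : ∃ C : ℝ, ∀ m, eLpNorm (u m) 2 μ ≤ ENNReal.ofReal C) : WC μ u U := by
  refine ⟨hu, hb, hU, fun g hg => ?_⟩
  have h1 : Tendsto (fun m => (eLpNorm (fun x => u m x - U x) 2 μ).toReal *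
      (eLpNorm g 2 μ).toReal) atTop (𝓝 0) := by
    have := (ENNReal.tendsto_toReal (by simp : (0:ℝ≥0∞) ≠ ⊤)).comp hs
    simpa using this.mul_const _
  rw [tendsto_iff_norm_sub_tendsto_zero]
  refine squeeze_zero (fun m => norm_nonneg _) (fun m => ?_) h1
  have hd : MemLp (fun x => u m x - U x) 2 μ := (hu m).sub hU
  rw [← integral_sub (memLp_inner_integrable (hu m) hg) (memLp_inner_integrable hU hg)]
  have h2 : ∫ x, (inner ℝ (u m x) (g x) - inner ℝ (U x) (g x)) ∂μ =
      ∫ x, inner ℝ (u m x - U x) (g x) ∂μ :=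
    integral_congr_ae (Eventually.of_forall fun x => by simp only [inner_sub_left])
  rw [h2]
  exact integral_inner_le hd hg

theorem WC.add {u w : ℕ → α → E} {U W : α → E} (h : WC μ u U) (h' : WC μ w W) :
    WC μ (fun m x => u m x + w m x) (fun x => U x + W x) := by
  obtain ⟨C, hC⟩ := h.bdd
  obtain ⟨C', hC'⟩ := h'.bdd
  refine ⟨fun m => (h.mem m).add (h'.mem m), ⟨max C 0 + max C' 0, fun m => ?_⟩,
    h.memU.add h'.memU, fun g hg => ?_⟩
  · refine (eLpNorm_add_le (h.mem m).1 (h'.mem m).1 (by norm_num)).trans ?_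
    rw [ENNReal.ofReal_add (le_max_right _ _) (le_max_right _ _)]
    exact add_le_add ((hC m).trans (ENNReal.ofReal_le_ofReal (le_max_left _ _)))
      ((hC' m).trans (ENNReal.ofReal_le_ofReal (le_max_left _ _)))
  · have h1 := (h.conv g hg).add (h'.conv g hg)
    have e1 : ∀ {a b : α → E}, MemLp a 2 μ → MemLp b 2 μ →
        ∫ x, inner ℝ (a x) (g x) ∂μ + ∫ x, inner ℝ (b x) (g x) ∂μ =
          ∫ x, inner ℝ (a x + b x) (g x) ∂μ := by
      intro a b ha hb
      rw [← integral_add (memLp_inner_integrable ha hg) (memLp_inner_integrable hb hg)]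
      exact integral_congr_ae (Eventually.of_forall fun x => by simp only [inner_add_left])
    rw [e1 h.memU h'.memU] at h1
    exact h1.congr fun m => e1 (h.mem m) (h'.mem m)

theorem WC.const_smul {u : ℕ → α → E} {U : α → E} (h : WC μ u U) (c : ℝ) :
    WC μ (fun m x => c • u m x) (fun x => c • U x) := by
  obtain ⟨C, hC⟩ := h.bdd
  refine ⟨fun m => (h.mem m).const_smul c, ⟨‖c‖ * max C 0, fun m => ?_⟩,
    h.memU.const_smul c, fun g hg => ?_⟩
  · have h1 : eLpNorm (fun x => c • u m x) 2 μ = ‖c‖ₑ * eLpNorm (u m) 2 μ :=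
      eLpNorm_const_smul c (u m) 2 μ
    rw [h1, ENNReal.ofReal_mul (norm_nonneg _)]
    refine mul_le_mul' ?_ ((hC m).trans (ENNReal.ofReal_le_ofReal (le_max_left _ _)))
    rw [ofReal_norm_eq_enorm]
  · have h1 := (h.conv g hg).const_mul c
    have e1 : ∀ {a : α → E}, c * ∫ x, inner ℝ (a x) (g x) ∂μ = ∫ x, inner ℝ (c • a x) (g x) ∂μ := by
      intro a
      rw [← integral_const_mul]
      exact integral_congr_ae (Eventually.of_forall fun x => by
        simp only [inner_smul_left]; rfl)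
    rw [e1] at h1
    exact h1.congr fun m => e1

theorem WC.sub {u w : ℕ → α → E} {U W : α → E} (h : WC μ u U) (h' : WC μ w W) :
    WC μ (fun m x => u m x - w m x) (fun x => U x - W x) := by
  have := h.add (h'.const_smul (-1))
  simpa only [neg_one_smul, ← sub_eq_add_neg] using this

theorem wc_const {U : α → E} (h : MemLp U 2 μ) : WC μ (fun _ => U) U := by
  refine ⟨fun _ => h, ⟨(eLpNorm U 2 μ).toReal, fun _ => ?_⟩, h, fun g _ => tendsto_const_nhds⟩
  rw [ENNReal.ofReal_toReal h.2.ne]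

section findim

variable [FiniteDimensional ℝ E]
variable {E' : Type*} [NormedAddCommGroup E'] [InnerProductSpace ℝ E'] [FiniteDimensional ℝ E']

/-- continuous linear images -/
theorem wc_clm {u : ℕ → α → E} {U : α → E} (h : WC μ u U) (L : E →L[ℝ] E') :
    WC μ (fun m x => L (u m x)) (fun x => L (U x)) := by
  haveI : CompleteSpace E := FiniteDimensional.complete ℝ E
  haveI : CompleteSpace E' := FiniteDimensional.complete ℝ E'
  obtain ⟨C, hC⟩ := h.bdd
  refine ⟨fun m => L.comp_memLp' (h.mem m), ⟨‖L‖ * max C 0, fun m => ?_⟩,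
    L.comp_memLp' h.memU, fun g hg => ?_⟩
  · have h1 : eLpNorm (fun x => L (u m x)) 2 μ ≤ ENNReal.ofReal ‖L‖ * eLpNorm (u m) 2 μ := by
      refine eLpNorm_le_mul_eLpNorm_of_ae_le_mul (Eventually.of_forall fun x => L.le_opNorm _) 2
    rw [ENNReal.ofReal_mul (norm_nonneg _)]
    exact h1.trans (mul_le_mul' le_rfl ((hC m).trans (ENNReal.ofReal_le_ofReal (le_max_left _ _))))
  · have hg' : MemLp (fun x => (ContinuousLinearMap.adjoint L) (g x)) 2 μ :=
      (ContinuousLinearMap.adjoint L).comp_memLp' hg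
    have h1 := h.conv _ hg'
    simpa only [ContinuousLinearMap.adjoint_inner_right] using h1

/-- bounded weights against weakly convergent sequences -/
theorem wc_weight {u : ℕ → α → E} {U : α → E} (h : WC μ u U) {ζ : α → ℝ}
    (hζ : AEStronglyMeasurable ζ μ) {C : ℝ} (hC : ∀ x, |ζ x| ≤ C) :
    WC μ (fun m x => ζ x • u m x) (fun x => ζ x • U x) := by
  have hmem : ∀ {a : α → E}, MemLp a 2 μ → MemLp (fun x => ζ x • a x) 2 μ := by
    intro a ha
    refine ha.of_le_mul (c := C) (hζ.smul ha.1) (Eventually.of_forall fun x => ?_)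
    rw [norm_smul]
    exact mul_le_mul_of_nonneg_right (hC x) (norm_nonneg _)
  obtain ⟨D, hD⟩ := h.bdd
  refine ⟨fun m => hmem (h.mem m), ⟨C * max D 0, fun m => ?_⟩, hmem h.memU, fun g hg => ?_⟩
  · rcases isEmpty_or_nonempty α with hα | ⟨⟨x0⟩⟩
    · have : (fun x => ζ x • u m x) = 0 := by funext x; exact (hα.false x).elim
      rw [this]; simp
    have hC0 : 0 ≤ C := (abs_nonneg _).trans (hC x0)
    have h1 : eLpNorm (fun x => ζ x • u m x) 2 μ ≤ ENNReal.ofReal C * eLpNorm (u m) 2 μ := by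
      refine eLpNorm_le_mul_eLpNorm_of_ae_le_mul (Eventually.of_forall fun x => ?_) 2
      rw [norm_smul]
      exact mul_le_mul_of_nonneg_right (hC x) (norm_nonneg _)
    rw [ENNReal.ofReal_mul hC0]
    exact h1.trans (mul_le_mul' le_rfl ((hD m).trans (ENNReal.ofReal_le_ofReal (le_max_left _ _))))
  · have h1 := h.conv _ (hmem hg)
    have e1 : ∀ {a : α → E}, ∫ x, inner ℝ (a x) (ζ x • g x) ∂μ =
        ∫ x, inner ℝ (ζ x • a x) (g x) ∂μ := by
      intro a
      exact integral_congr_ae (Eventually.of_forall fun x => by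
        simp only [inner_smul_left, inner_smul_right]; rfl)
    rw [e1] at h1
    exact h1.congr fun m => e1

/-- a bounded sequence of integrals against a bilinear map with a fixed function -/
theorem wc_bilin_fixed {F : Type*} [NormedAddCommGroup F] [InnerProductSpace ℝ F]
    [FiniteDimensional ℝ F]
    {u : ℕ → α → E} {U : α → E} (h : WC μ u U) {W : α → E'} (hW : MemLp W 2 μ)
    (B : E →L[ℝ] E' →L[ℝ] F) :
    Tendsto (fun m => ∫ x, B (u m x) (W x) ∂μ) atTop (𝓝 (∫ x, B (U x) (W x) ∂μ)) := by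
  haveI : CompleteSpace E := FiniteDimensional.complete ℝ E
  haveI : CompleteSpace E' := FiniteDimensional.complete ℝ E'
  haveI : CompleteSpace F := FiniteDimensional.complete ℝ F
  set f := stdOrthonormalBasis ℝ F
  have hint : ∀ {a : α → E}, MemLp a 2 μ → Integrable (fun x => B (a x) (W x)) μ := by
    intro a ha
    have h1 : Integrable (fun x => ‖a x‖ * ‖W x‖) μ := ha.norm.integrable_mul hW.norm
    refine (h1.const_mul ‖B‖).mono' ?_ (Eventually.of_forall fun x => ?_)
    · exact B.aestronglyMeasurable_comp₂ ha.1 hW.1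
    · calc ‖B (a x) (W x)‖ ≤ ‖B‖ * ‖a x‖ * ‖W x‖ := B.le_opNorm₂ _ _
        _ = _ := by ring
  have hrep : ∀ {a : α → E}, MemLp a 2 μ → ∫ x, B (a x) (W x) ∂μ =
      ∑ k, (∫ x, inner ℝ (a x) (ContinuousLinearMap.adjoint (B.flip (W x)) (f k)) ∂μ) • f k := by
    intro a ha
    conv_lhs => rw [← f.sum_repr' (∫ x, B (a x) (W x) ∂μ)]
    refine Finset.sum_congr rfl fun k _ => ?_
    congr 1
    rw [← integral_inner (hint ha) (f k)]
    refine integral_congr_ae (Eventually.of_forall fun x => ?_)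
    simp only [ContinuousLinearMap.adjoint_inner_right, ContinuousLinearMap.flip_apply]
    exact real_inner_comm _ _
  rw [hrep h.memU]
  have h2 : (fun m => ∫ x, B (u m x) (W x) ∂μ) = fun m =>
      ∑ k, (∫ x, inner ℝ (u m x) (ContinuousLinearMap.adjoint (B.flip (W x)) (f k)) ∂μ) • f k := by
    funext m; exact hrep (h.mem m)
  rw [h2]
  refine tendsto_finset_sum _ fun k _ => Tendsto.smul ?_ tendsto_const_nhds
  refine h.conv _ ?_
  refine hW.of_le_mul (c := ‖B‖ * ‖f k‖) ?_ (Eventually.of_forall fun x => ?_)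
  · have hc : Continuous fun w : E' => ContinuousLinearMap.adjoint (B.flip w) (f k) := by
      have h1 : Continuous fun w : E' => ContinuousLinearMap.adjoint (B.flip w) :=
        (LinearIsometryEquiv.continuous _).comp B.flip.continuous
      exact h1.clm_apply continuous_const
    exact hc.comp_aestronglyMeasurable hW.1
  · calc ‖ContinuousLinearMap.adjoint (B.flip (W x)) (f k)‖
        ≤ ‖ContinuousLinearMap.adjoint (B.flip (W x))‖ * ‖f k‖ := ContinuousLinearMap.le_opNorm _ _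
      _ = ‖B.flip (W x)‖ * ‖f k‖ := by rw [LinearIsometryEquiv.norm_map]
      _ ≤ (‖B.flip‖ * ‖W x‖) * ‖f k‖ :=
        mul_le_mul_of_nonneg_right (B.flip.le_opNorm _) (norm_nonneg _)
      _ = ‖B‖ * ‖f k‖ * ‖W x‖ := by rw [ContinuousLinearMap.opNorm_flip]; ring

/-- weak times strong, bounded bilinear map -/
theorem wc_bilin_strong {F : Type*} [NormedAddCommGroup F] [InnerProductSpace ℝ F]
    [FiniteDimensional ℝ F]
    {u : ℕ → α → E} {U : α → E} (h : WC μ u U) {w : ℕ → α → E'} {W : α → E'}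
    (hw : ∀ m, MemLp (w m) 2 μ) (hW : MemLp W 2 μ)
    (hs : Tendsto (fun m => eLpNorm (fun x => w m x - W x) 2 μ) atTop (𝓝 0))
    (B : E →L[ℝ] E' →L[ℝ] F) :
    Tendsto (fun m => ∫ x, B (u m x) (w m x) ∂μ) atTop (𝓝 (∫ x, B (U x) (W x) ∂μ)) := by
  haveI : CompleteSpace F := FiniteDimensional.complete ℝ F
  have hint : ∀ {a : α → E} {b : α → E'}, MemLp a 2 μ → MemLp b 2 μ →
      Integrable (fun x => B (a x) (b x)) μ := by
    intro a b ha hb
    have h1 : Integrable (fun x => ‖a x‖ * ‖b x‖) μ := ha.norm.integrable_mul hb.norm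
    refine (h1.const_mul ‖B‖).mono' ?_ (Eventually.of_forall fun x => ?_)
    · exact B.aestronglyMeasurable_comp₂ ha.1 hb.1
    · calc ‖B (a x) (b x)‖ ≤ ‖B‖ * ‖a x‖ * ‖b x‖ := B.le_opNorm₂ _ _
        _ = _ := by ring
  obtain ⟨C, hC⟩ := h.bdd
  have h0 : Tendsto (fun m => ∫ x, B (u m x) (w m x - W x) ∂μ) atTop (𝓝 0) := by
    have h1 : Tendsto (fun m => ‖B‖ * (max C 0 * (eLpNorm (fun x => w m x - W x) 2 μ).toReal))
        atTop (𝓝 0) := by
      have := (ENNReal.tendsto_toReal (by simp : (0:ℝ≥0∞) ≠ ⊤)).comp hs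
      have h2 := (this.const_mul (max C 0)).const_mul ‖B‖
      simpa using h2
    refine squeeze_zero_norm (fun m => ?_) h1
    have hd : MemLp (fun x => w m x - W x) 2 μ := (hw m).sub hW
    calc ‖∫ x, B (u m x) (w m x - W x) ∂μ‖ ≤ ∫ x, ‖B (u m x) (w m x - W x)‖ ∂μ :=
          norm_integral_le_integral_norm _
      _ ≤ ∫ x, ‖B‖ * (‖u m x‖ * ‖w m x - W x‖) ∂μ := by
          refine integral_mono (hint (h.mem m) hd).norm
            (((h.mem m).norm.integrable_mul hd.norm).const_mul _) fun x => ?_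
          calc ‖B (u m x) (w m x - W x)‖ ≤ ‖B‖ * ‖u m x‖ * ‖w m x - W x‖ := B.le_opNorm₂ _ _
            _ = _ := by ring
      _ = ‖B‖ * ∫ x, ‖u m x‖ * ‖w m x - W x‖ ∂μ := integral_const_mul _ _
      _ ≤ ‖B‖ * (max C 0 * (eLpNorm (fun x => w m x - W x) 2 μ).toReal) := by
          refine mul_le_mul_of_nonneg_left ?_ (ContinuousLinearMap.opNorm_nonneg B)
          have h3 := integral_inner_le (E := ℝ) (h.mem m).norm hd.norm
          have h4 : ∫ x, inner ℝ (‖u m x‖ : ℝ) (‖w m x - W x‖ : ℝ) ∂μ =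
              ∫ x, ‖u m x‖ * ‖w m x - W x‖ ∂μ :=
            integral_congr_ae (Eventually.of_forall fun x => by
              simp only [RCLike.inner_apply, conj_trivial]; ring)
          rw [h4, eLpNorm_norm, eLpNorm_norm] at h3
          refine (le_abs_self _).trans (h3.trans ?_)
          refine mul_le_mul_of_nonneg_right ?_ ENNReal.toReal_nonneg
          refine ENNReal.toReal_le_of_le_ofReal (le_max_right _ _) ((hC m).trans ?_)
          exact ENNReal.ofReal_le_ofReal (le_max_left _ _)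
  have h1 := h0.add (wc_bilin_fixed h hW B)
  rw [zero_add] at h1
  refine h1.congr fun m => ?_
  have hd : MemLp (fun x => w m x - W x) 2 μ := (hw m).sub hW
  rw [← integral_add (hint (h.mem m) hd) (hint (h.mem m) hW)]
  refine integral_congr_ae (Eventually.of_forall fun x => ?_)
  simp only [map_sub]
  abel

/-- weak times strong, bounded bilinear map, bounded weight -/
theorem wc_mul_strong {F : Type*} [NormedAddCommGroup F] [InnerProductSpace ℝ F]
    [FiniteDimensional ℝ F]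
    {u : ℕ → α → E} {U : α → E} (h : WC μ u U) {w : ℕ → α → E'} {W : α → E'}
    (hw : ∀ m, MemLp (w m) 2 μ) (hW : MemLp W 2 μ)
    (hs : Tendsto (fun m => eLpNorm (fun x => w m x - W x) 2 μ) atTop (𝓝 0))
    (B : E →L[ℝ] E' →L[ℝ] F) (ζ : α → ℝ) (hζ : AEStronglyMeasurable ζ μ) (C : ℝ)
    (hC : ∀ x, |ζ x| ≤ C) :
    Tendsto (fun m => ∫ x, ζ x • B (u m x) (w m x) ∂μ) atTop (𝓝 (∫ x, ζ x • B (U x) (W x) ∂μ)) := by
  have h1 := wc_bilin_strong (wc_weight h hζ hC) hw hW hs B
  simpa only [map_smul, ContinuousLinearMap.smul_apply] using h1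

end findim

/-- weak lower semicontinuity with a weight -/
theorem wc_lsc {u : ℕ → α → E} {U : α → E} (h : WC μ u U) (ζ : α → ℝ)
    (hζ : AEStronglyMeasurable ζ μ) (C : ℝ) (hC : ∀ x, 0 ≤ ζ x ∧ ζ x ≤ C) (X : ℝ)
    (hX : ∀ᶠ m in atTop, ∫ x, ζ x * ‖u m x‖ ^ 2 ∂μ ≤ X) :
    ∫ x, ζ x * ‖U x‖ ^ 2 ∂μ ≤ X := by
  have hmem : ∀ {a : α → E}, MemLp a 2 μ → MemLp (fun x => ζ x • a x) 2 μ := by
    intro a ha
    refine ha.of_le_mul (c := C) (hζ.smul ha.1) (Eventually.of_forall fun x => ?_)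
    rw [norm_smul, Real.norm_eq_abs, abs_of_nonneg (hC x).1]
    exact mul_le_mul_of_nonneg_right (hC x).2 (norm_nonneg _)
  have hint : ∀ {a : α → E}, MemLp a 2 μ → Integrable (fun x => ζ x * ‖a x‖ ^ 2) μ := by
    intro a ha
    have h1 := memLp_inner_integrable ha (hmem ha)
    refine h1.congr (Eventually.of_forall fun x => ?_)
    simp only [inner_smul_right, real_inner_self_eq_norm_sq]
  set Y := ∫ x, ζ x * ‖U x‖ ^ 2 ∂μ with hY
  have h1 := h.conv _ (hmem h.memU)
  have h2 : ∫ x, inner ℝ (U x) (ζ x • U x) ∂μ = Y :=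
    integral_congr_ae (Eventually.of_forall fun x => by
      simp only [inner_smul_right, real_inner_self_eq_norm_sq])
  rw [h2] at h1
  have h3 : Y ≤ (1 / 2) * X + (1 / 2) * Y := by
    refine le_of_tendsto h1 ?_
    filter_upwards [hX] with m hm
    calc ∫ x, inner ℝ (u m x) (ζ x • U x) ∂μ
        ≤ ∫ x, ((1 / 2) * (ζ x * ‖u m x‖ ^ 2) + (1 / 2) * (ζ x * ‖U x‖ ^ 2)) ∂μ := by
          refine integral_mono (memLp_inner_integrable (h.mem m) (hmem h.memU))
            (((hint (h.mem m)).const_mul _).add ((hint h.memU).const_mul _)) fun x => ?_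
          simp only [inner_smul_right]
          have h4 : inner ℝ (u m x) (U x) ≤ (1 / 2) * ‖u m x‖ ^ 2 + (1 / 2) * ‖U x‖ ^ 2 := by
            have := real_inner_le_norm (u m x) (U x)
            nlinarith [sq_nonneg (‖u m x‖ - ‖U x‖)]
          have := mul_le_mul_of_nonneg_left h4 (hC x).1
          linarith
      _ = (1 / 2) * ∫ x, ζ x * ‖u m x‖ ^ 2 ∂μ + (1 / 2) * Y := by
          rw [integral_add ((hint (h.mem m)).const_mul _) ((hint h.memU).const_mul _),
            integral_const_mul, integral_const_mul]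
      _ ≤ _ := by linarith
  linarith

/-- weak lower semicontinuity of the `L¹` norm with a weight in `L²` -/
theorem wc_lsc_one {u : ℕ → α → E} {U : α → E} (h : WC μ u U) (ζ : α → ℝ)
    (hζ : MemLp ζ 2 μ) (hC : ∀ x, 0 ≤ ζ x) (X : ℝ)
    (hX : ∀ᶠ m in atTop, ∫ x, ζ x * ‖u m x‖ ∂μ ≤ X) :
    ∫ x, ζ x * ‖U x‖ ∂μ ≤ X := by
  have hg : MemLp (fun x => ζ x • (‖U x‖⁻¹ • U x)) 2 μ := by
    refine hζ.of_le (hζ.1.smul ?_) (Eventually.of_forall fun x => ?_)
    · exact (h.memU.1.norm.aemeasurable.inv.aestronglyMeasurable).smul h.memU.1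
    · rw [norm_smul, norm_smul, norm_inv, norm_norm]
      have : ‖U x‖⁻¹ * ‖U x‖ ≤ 1 := inv_mul_le_one
      calc ‖ζ x‖ * (‖U x‖⁻¹ * ‖U x‖) ≤ ‖ζ x‖ * 1 :=
          mul_le_mul_of_nonneg_left this (norm_nonneg _)
        _ = _ := mul_one _
  have h1 := h.conv _ hg
  have h2 : ∫ x, inner ℝ (U x) (ζ x • (‖U x‖⁻¹ • U x)) ∂μ = ∫ x, ζ x * ‖U x‖ ∂μ := by
    refine integral_congr_ae (Eventually.of_forall fun x => ?_)
    simp only [inner_smul_right, real_inner_self_eq_norm_sq]
    rcases eq_or_ne (‖U x‖) 0 with h0 | h0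
    · rw [h0]; simp
    · field_simp
  rw [h2] at h1
  refine le_of_tendsto h1 ?_
  filter_upwards [hX] with m hm
  refine le_trans ?_ hm
  have hint : Integrable (fun x => ζ x * ‖u m x‖) μ := hζ.integrable_mul (h.mem m).norm
  refine integral_mono (memLp_inner_integrable (h.mem m) hg) hint fun x => ?_
  simp only [inner_smul_right]
  refine mul_le_mul_of_nonneg_left ?_ (hC x)
  have h3 := real_inner_le_norm (u m x) (U x)
  calc ‖U x‖⁻¹ * inner ℝ (u m x) (U x) ≤ ‖U x‖⁻¹ * (‖u m x‖ * ‖U x‖) :=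
        mul_le_mul_of_nonneg_left h3 (by positivity)
    _ = ‖u m x‖ * (‖U x‖⁻¹ * ‖U x‖) := by ring
    _ ≤ ‖u m x‖ * 1 := mul_le_mul_of_nonneg_left inv_mul_le_one (norm_nonneg _)
    _ = _ := mul_one _

end Fn

end Pool.Agent.Helper42.Jef
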