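import Pool.Agent.Helper42.Jef.RegK
import Pool.Agent.Helper22.JefBk
import Pool.Agent.Helper22.JefTVar

/-! # Closure theorem: extraction of the weak limits -/

open MeasureTheory Set Filter Topology
open scoped ENNReal NNReal ContDiff

namespace Pool.Agent.Helper42.Jef

open Pool.Agent.Helper22.Jef

set_option maxHeartbeats 1000000

variable {n : ℕ}

section tools

variable {α : Type*} [MeasurableSpace α] {μ : Measure α}
variable {E : Type*} [NormedAddCommGroup E]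
variable {F : Type*} [NormedAddCommGroup F]

theorem bnd_of_le {u : α → E} {w : α → F} (hu : MemLp u 2 μ)
    (hw : AEStronglyMeasurable w μ) {C M : ℝ} (hC : 0 ≤ C) (h : ∀ z, ‖w z‖ ≤ C * ‖u z‖)
    (hM : eLpNorm u 2 μ ≤ ENNReal.ofReal M) :
    MemLp w 2 μ ∧ eLpNorm w 2 μ ≤ ENNReal.ofReal (C * M) := by
  refine ⟨hu.of_le_mul hw (Eventually.of_forall h), ?_⟩
  refine (eLpNorm_le_mul_eLpNorm_of_ae_le_mul (Eventually.of_forall h) 2).trans ?_
  rw [ENNReal.ofReal_mul hC]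
  exact mul_le_mul_right hM _

/-- a weak limit vanishes where the sequence vanishes -/
theorem wc_zero [InnerProductSpace ℝ E] [FiniteDimensional ℝ E] {u : ℕ → α → E} {U : α → E}
    (h : WC μ u U) {A : Set α} (hA : MeasurableSet A) (h0 : ∀ m, ∀ᵐ x ∂μ, x ∈ A → u m x = 0) :
    ∀ᵐ x ∂μ, x ∈ A → U x = 0 := by
  have h1 := wc_weight h (ζ := A.indicator fun _ => (1:ℝ)) (C := 1)
    ((measurable_const.indicator hA).aestronglyMeasurable) (fun x => by
      by_cases hx : x ∈ A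
      · simp [indicator_of_mem hx]
      · simp [indicator_of_notMem hx])
  have h2 : WC μ (fun (_ : ℕ) (_ : α) => (0 : E))
      (fun x => A.indicator (fun _ => (1:ℝ)) x • U x) := by
    refine h1.congr_seq fun m => ?_
    filter_upwards [h0 m] with x hx
    by_cases hxA : x ∈ A
    · rw [hx hxA, smul_zero]
    · rw [indicator_of_notMem hxA, zero_smul]
  have h3 : WC μ (fun (_ : ℕ) (_ : α) => (0 : E)) (fun _ => (0 : E)) := wc_const MemLp.zero'
  filter_upwards [wc_unique h2 h3] with x hx hxA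
  rw [indicator_of_mem hxA, one_smul] at hx
  exact hx

end tools

section bkfacts

variable {α : Type*} [MeasurableSpace α] {μ : Measure α}
variable {E : Type*} [NormedAddCommGroup E] [InnerProductSpace ℝ E]

theorem bk_cont (k : ℝ) : Continuous (bk k : E → E) := (bk_contDiff k).continuous

theorem bk_bnd {u : α → E} (hu : MemLp u 2 μ) {M : ℝ} (hM : eLpNorm u 2 μ ≤ ENNReal.ofReal M)
    (k : ℝ) : MemLp (fun x => bk k (u x)) 2 μ ∧
      eLpNorm (fun x => bk k (u x)) 2 μ ≤ ENNReal.ofReal (1 * M) :=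
  bnd_of_le hu ((bk_cont k).comp_aestronglyMeasurable hu.1) zero_le_one
    (fun z => by rw [one_mul]; exact bk_norm_le k _) hM

theorem bksq_bnd {u : α → E} (hu : MemLp u 2 μ) {M : ℝ} (hM : eLpNorm u 2 μ ≤ ENNReal.ofReal M)
    {k : ℝ} (hk : 0 < k) : MemLp (fun x => ‖bk k (u x)‖ ^ 2) 2 μ ∧
      eLpNorm (fun x => ‖bk k (u x)‖ ^ 2) 2 μ ≤ ENNReal.ofReal (k * M) := by
  refine bnd_of_le hu (((bk_cont k).norm.pow 2).comp_aestronglyMeasurable hu.1) hk.le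
    (fun z => ?_) hM
  rw [Real.norm_eq_abs, abs_of_nonneg (sq_nonneg _), sq]
  exact mul_le_mul (bk_norm_le_k hk _) (bk_norm_le k _) (norm_nonneg _) hk.le

theorem dbk_cont [FiniteDimensional ℝ E] (k : ℝ) :
    Continuous fun p : E × E => fderiv ℝ (bk k) p.1 p.2 := by
  have h1 : Continuous (fderiv ℝ (bk k : E → E)) := (bk_contDiff k).continuous_fderiv (by simp)
  exact (h1.comp continuous_fst).clm_apply continuous_snd

theorem dbk_bnd [FiniteDimensional ℝ E] {u X : α → E} (hu : MemLp u 2 μ) (hX : MemLp X 2 μ) {M : ℝ}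
    (hM : eLpNorm X 2 μ ≤ ENNReal.ofReal M) (k : ℝ) :
    MemLp (fun x => fderiv ℝ (bk k) (u x) (X x)) 2 μ ∧
      eLpNorm (fun x => fderiv ℝ (bk k) (u x) (X x)) 2 μ ≤ ENNReal.ofReal (1 * M) :=
  bnd_of_le hX ((dbk_cont k).comp_aestronglyMeasurable (hu.1.prodMk hX.1)) zero_le_one
    (fun z => by rw [one_mul]; exact bk_fderiv_apply_norm k _ _) hM

theorem qbk_bnd [FiniteDimensional ℝ E] {u X : α → E} (hu : MemLp u 2 μ) (hX : MemLp X 2 μ) {M : ℝ}
    (hM : eLpNorm X 2 μ ≤ ENNReal.ofReal M) {k : ℝ} (hk : 0 < k) :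
    MemLp (fun x => 2 * inner ℝ (bk k (u x)) (fderiv ℝ (bk k) (u x) (X x))) 2 μ ∧
      eLpNorm (fun x => 2 * inner ℝ (bk k (u x)) (fderiv ℝ (bk k) (u x) (X x))) 2 μ ≤
        ENNReal.ofReal ((2 * k) * M) := by
  refine bnd_of_le hX ?_ (by positivity) (fun z => ?_) hM
  · have h1 := (dbk_bnd hu hX hM k).1.1
    have h2 := (bk_cont k).comp_aestronglyMeasurable hu.1
    exact (h2.inner h1).const_mul 2
  · rw [norm_mul, Real.norm_eq_abs, Real.norm_eq_abs, abs_two, mul_assoc]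
    refine mul_le_mul_of_nonneg_left ?_ (by norm_num)
    refine (abs_real_inner_le_norm _ _).trans ?_
    exact mul_le_mul (bk_norm_le_k hk _) (bk_fderiv_apply_norm k _ _) (norm_nonneg _) hk.le

theorem brbk_bnd {u S : α → Mt n} (hu : MemLp u 2 μ) (hS : MemLp S 2 μ) {M : ℝ}
    (hM : eLpNorm S 2 μ ≤ ENNReal.ofReal M) {k : ℝ} (hk : 0 < k) :
    MemLp (fun x => br (bk k (u x)) (S x)) 2 μ ∧
      eLpNorm (fun x => br (bk k (u x)) (S x)) 2 μ ≤ ENNReal.ofReal ((2 * k) * M) := by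
  refine bnd_of_le hS ?_ (by positivity) (fun z => ?_) hM
  · exact (brL n).aestronglyMeasurable_comp₂ ((bk_cont k).comp_aestronglyMeasurable hu.1) hS.1
  · refine (norm_br_le _ _).trans ?_
    rw [mul_assoc]
    refine mul_le_mul_of_nonneg_left ?_ (by norm_num)
    exact mul_le_mul_of_nonneg_right (bk_norm_le_k hk _) (norm_nonneg _)

end bkfacts

/-- linear part of the right side -/
noncomputable def xx (a c : ℝ) (G τ : ST n → Mt n) (z : ST n) : Mt n := c • sy (G z) - a • τ z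

theorem xx_bnd (a c : ℝ) {G τ : ST n → Mt n} (hG : MemLp G 2 volume) (hτ : MemLp τ 2 volume) {M : ℝ}
    (hGM : eLpNorm G 2 volume ≤ ENNReal.ofReal M) (hτM : eLpNorm τ 2 volume ≤ ENNReal.ofReal M) :
    MemLp (xx a c G τ) 2 volume ∧
      eLpNorm (xx a c G τ) 2 volume ≤ ENNReal.ofReal (|c| * M + |a| * M) := by
  have h1 := bnd_of_le (w := fun z => c • sy (G z)) hG
    (((syL n).continuous.comp_aestronglyMeasurable hG.1).const_smul c) (abs_nonneg c)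
    (fun z => by
      rw [norm_smul, Real.norm_eq_abs]
      exact mul_le_mul_of_nonneg_left (norm_sy_le _) (abs_nonneg _)) hGM
  have h2 := bnd_of_le (w := fun z => a • τ z) hτ (hτ.1.const_smul a) (abs_nonneg a)
    (fun z => by rw [norm_smul, Real.norm_eq_abs]) hτM
  refine ⟨h1.1.sub h2.1, ?_⟩
  refine (eLpNorm_sub_le h1.1.1 h2.1.1 (by norm_num)).trans ((add_le_add h1.2 h2.2).trans ?_)
  by_cases hM : 0 ≤ M
  · rw [← ENNReal.ofReal_add (by positivity) (by positivity)]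
  · have hM' : M ≤ 0 := (not_le.1 hM).le
    have e1 : |c| * M ≤ 0 := mul_nonpos_of_nonneg_of_nonpos (abs_nonneg _) hM'
    have e2 : |a| * M ≤ 0 := mul_nonpos_of_nonneg_of_nonpos (abs_nonneg _) hM'
    rw [ENNReal.ofReal_of_nonpos e1, ENNReal.ofReal_of_nonpos e2]
    simp

/-- common weak limits of all truncated quantities along a subsequence -/
theorem extract (a c : ℝ) {Gs τs Ss : ℕ → ST n → Mt n} (hG : ∀ m, MemLp (Gs m) 2 volume)
    (hτ : ∀ m, MemLp (τs m) 2 volume) (hS : ∀ m, MemLp (Ss m) 2 volume) {M : ℝ}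
    (hGM : ∀ m, eLpNorm (Gs m) 2 volume ≤ ENNReal.ofReal M)
    (hτM : ∀ m, eLpNorm (τs m) 2 volume ≤ ENNReal.ofReal M)
    (hSM : ∀ m, eLpNorm (Ss m) 2 volume ≤ ENNReal.ofReal M) :
    ∃ φ : ℕ → ℕ, StrictMono φ ∧ ∃ (tk gk F D : ℕ → ST n → Mt n) (ta ga Q : ℕ → ST n → ℝ),
      (∀ k : ℕ, WC volume (fun m z => bk ((k : ℝ) + 1) (τs (φ m) z)) (tk k)) ∧
      (∀ k : ℕ, WC volume (fun m z => bk ((k : ℝ) + 1) (Gs (φ m) z)) (gk k)) ∧
      (∀ k : ℕ, WC volume (fun m z => ‖bk ((k : ℝ) + 1) (τs (φ m) z)‖ ^ 2) (ta k)) ∧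
      (∀ k : ℕ, WC volume (fun m z => ‖bk ((k : ℝ) + 1) (Gs (φ m) z)‖ ^ 2) (ga k)) ∧
      (∀ k : ℕ, WC volume (fun m z => fderiv ℝ (bk ((k : ℝ) + 1)) (τs (φ m) z)
        (c • sy (Gs (φ m) z) - a • τs (φ m) z)) (F k)) ∧
      (∀ k : ℕ, WC volume (fun m z => br (bk ((k : ℝ) + 1) (τs (φ m) z)) (Ss (φ m) z)) (D k)) ∧
      (∀ k : ℕ, WC volume (fun m z => 2 * inner ℝ (bk ((k : ℝ) + 1) (τs (φ m) z))
        (fderiv ℝ (bk ((k : ℝ) + 1)) (τs (φ m) z)
          (c • sy (Gs (φ m) z) - a • τs (φ m) z))) (Q k)) := by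
  have hk : ∀ k : ℕ, (0:ℝ) < (k : ℝ) + 1 := fun k => by positivity
  have hX : ∀ m, MemLp (xx a c (Gs m) (τs m)) 2 volume ∧
      eLpNorm (xx a c (Gs m) (τs m)) 2 volume ≤ ENNReal.ofReal (|c| * M + |a| * M) := fun m =>
    xx_bnd a c (hG m) (hτ m) (hGM m) (hτM m)
  obtain ⟨φ1, hφ1, w1⟩ := wc_compact (ι := Fin 4 × ℕ) (μ := (volume : Measure (ST n)))
    (fun i m => (![fun z => bk ((i.2 : ℝ) + 1) (τs m z), fun z => bk ((i.2 : ℝ) + 1) (Gs m z),
      fun z => fderiv ℝ (bk ((i.2 : ℝ) + 1)) (τs m z) (xx a c (Gs m) (τs m) z),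
      fun z => br (bk ((i.2 : ℝ) + 1) (τs m z)) (Ss m z)] : Fin 4 → ST n → Mt n) i.1)
    (by
      rintro ⟨i, k⟩ m
      fin_cases i
      · exact (bk_bnd (hτ m) (hτM m) _).1
      · exact (bk_bnd (hG m) (hGM m) _).1
      · exact (dbk_bnd (hτ m) (hX m).1 (hX m).2 _).1
      · exact (brbk_bnd (hτ m) (hS m) (hSM m) (hk k)).1)
    (by
      rintro ⟨i, k⟩
      fin_cases i
      · exact ⟨_, fun m => (bk_bnd (hτ m) (hτM m) _).2⟩
      · exact ⟨_, fun m => (bk_bnd (hG m) (hGM m) _).2⟩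
      · exact ⟨_, fun m => (dbk_bnd (hτ m) (hX m).1 (hX m).2 _).2⟩
      · exact ⟨_, fun m => (brbk_bnd (hτ m) (hS m) (hSM m) (hk k)).2⟩)
  obtain ⟨φ2, hφ2, w2⟩ := wc_compact (ι := Fin 3 × ℕ) (μ := (volume : Measure (ST n)))
    (fun i m => (![fun z => ‖bk ((i.2 : ℝ) + 1) (τs (φ1 m) z)‖ ^ 2,
      fun z => ‖bk ((i.2 : ℝ) + 1) (Gs (φ1 m) z)‖ ^ 2,
      fun z => 2 * inner ℝ (bk ((i.2 : ℝ) + 1) (τs (φ1 m) z))
        (fderiv ℝ (bk ((i.2 : ℝ) + 1)) (τs (φ1 m) z) (xx a c (Gs (φ1 m)) (τs (φ1 m)) z))] :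
        Fin 3 → ST n → ℝ) i.1)
    (by
      rintro ⟨i, k⟩ m
      fin_cases i
      · exact (bksq_bnd (hτ _) (hτM _) (hk k)).1
      · exact (bksq_bnd (hG _) (hGM _) (hk k)).1
      · exact (qbk_bnd (hτ _) (hX _).1 (hX _).2 (hk k)).1)
    (by
      rintro ⟨i, k⟩
      fin_cases i
      · exact ⟨_, fun m => (bksq_bnd (hτ _) (hτM _) (hk k)).2⟩
      · exact ⟨_, fun m => (bksq_bnd (hG _) (hGM _) (hk k)).2⟩
      · exact ⟨_, fun m => (qbk_bnd (hτ _) (hX _).1 (hX _).2 (hk k)).2⟩)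
  choose U1 hU1 using w1
  choose U2 hU2 using w2
  refine ⟨fun m => φ1 (φ2 m), hφ1.comp hφ2, fun k => U1 (0, k), fun k => U1 (1, k),
    fun k => U1 (2, k), fun k => U1 (3, k), fun k => U2 (0, k), fun k => U2 (1, k),
    fun k => U2 (2, k), ?_, ?_, ?_, ?_, ?_, ?_, ?_⟩
  · exact fun k => (hU1 (0, k)).subseq hφ2
  · exact fun k => (hU1 (1, k)).subseq hφ2
  · exact fun k => hU2 (0, k)
  · exact fun k => hU2 (1, k)
  · exact fun k => (hU1 (2, k)).subseq hφ2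
  · exact fun k => (hU1 (3, k)).subseq hφ2
  · exact fun k => hU2 (2, k)

end Pool.Agent.Helper42.Jef
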