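import Pool.Agent.Helper42.Jef.Vel

/-! # Integration by parts in the velocity class -/

open MeasureTheory Set Filter Topology
open scoped ENNReal NNReal ContDiff

namespace Pool.Agent.Helper42.Jef

set_option maxHeartbeats 400000

variable {n : ℕ} {Ω : Set (Eu n)} {T : ℝ}

instance instHaarST : (volume : Measure (ST n)).IsAddHaarMeasure :=
  MeasureTheory.Measure.prod.instIsAddHaarMeasure _ _

/-- approximating sequence -/
theorem IsVel.exists_seq {v : ST n → Eu n} {G : ST n → Mt n} (h : IsVel Ω T v G) :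
    ∃ (vs : ℕ → ST n → Eu n) (Gs : ℕ → ST n → Mt n), (∀ k, IsElem Ω T (vs k) (Gs k)) ∧
      Tendsto (fun k => eLpNorm (fun z => vs k z - v z) 2 volume) atTop (𝓝 0) ∧
      Tendsto (fun k => eLpNorm (fun z => Gs k z - G z) 2 volume) atTop (𝓝 0) ∧
      (∃ C : ℝ, ∀ k, eLpNorm (vs k) 2 volume ≤ ENNReal.ofReal C) ∧
      (∃ C : ℝ, ∀ k, eLpNorm (Gs k) 2 volume ≤ ENNReal.ofReal C) := by
  have h1 : ∀ k : ℕ, ∃ (v' : ST n → Eu n) (G' : ST n → Mt n), IsElem Ω T v' G' ∧
      eLpNorm (v - v') 2 volume ≤ ENNReal.ofReal (1 / ((k : ℝ) + 1)) ∧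
      eLpNorm (G - G') 2 volume ≤ ENNReal.ofReal (1 / ((k : ℝ) + 1)) :=
    fun k => h.approx _ (by positivity)
  choose vs Gs he hv hG using h1
  have h2 : Tendsto (fun k : ℕ => ENNReal.ofReal (1 / ((k : ℝ) + 1))) atTop (𝓝 0) := by
    have := ENNReal.tendsto_ofReal (tendsto_one_div_add_atTop_nhds_zero_nat (𝕜 := ℝ))
    simpa using this
  have hv' : ∀ k, eLpNorm (fun z => vs k z - v z) 2 volume ≤ ENNReal.ofReal (1 / ((k : ℝ) + 1)) := by
    intro k
    have : (fun z => vs k z - v z) = -(v - vs k) := by funext z; simp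
    rw [this, eLpNorm_neg]; exact hv k
  have hG' : ∀ k, eLpNorm (fun z => Gs k z - G z) 2 volume ≤ ENNReal.ofReal (1 / ((k : ℝ) + 1)) := by
    intro k
    have : (fun z => Gs k z - G z) = -(G - Gs k) := by funext z; simp
    rw [this, eLpNorm_neg]; exact hG k
  have hone : ∀ k : ℕ, ENNReal.ofReal (1 / ((k : ℝ) + 1)) ≤ ENNReal.ofReal 1 := by
    intro k
    refine ENNReal.ofReal_le_ofReal ?_
    rw [div_le_one (by positivity)]
    have : (0 : ℝ) ≤ k := Nat.cast_nonneg k
    linarith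
  refine ⟨vs, Gs, he, tendsto_of_tendsto_of_tendsto_of_le_of_le tendsto_const_nhds h2
    (fun k => zero_le) hv', tendsto_of_tendsto_of_tendsto_of_le_of_le tendsto_const_nhds h2
    (fun k => zero_le) hG', ⟨1 + (eLpNorm v 2 volume).toReal, fun k => ?_⟩,
    ⟨1 + (eLpNorm G 2 volume).toReal, fun k => ?_⟩⟩
  · rw [ENNReal.ofReal_add (by norm_num) ENNReal.toReal_nonneg, ENNReal.ofReal_toReal h.memv.2.ne]
    have e : vs k = (fun z => vs k z - v z) + v := by funext z; simp
    calc eLpNorm (vs k) 2 volume = eLpNorm ((fun z => vs k z - v z) + v) 2 volume := by rw [← e]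
      _ ≤ eLpNorm (fun z => vs k z - v z) 2 volume + eLpNorm v 2 volume :=
        eLpNorm_add_le ((he k).memLp.1.sub h.memv).1 h.memv.1 (by norm_num)
      _ ≤ _ := add_le_add ((hv' k).trans (hone k)) le_rfl
  · rw [ENNReal.ofReal_add (by norm_num) ENNReal.toReal_nonneg, ENNReal.ofReal_toReal h.memG.2.ne]
    have e : Gs k = (fun z => Gs k z - G z) + G := by funext z; simp
    calc eLpNorm (Gs k) 2 volume = eLpNorm ((fun z => Gs k z - G z) + G) 2 volume := by rw [← e]
      _ ≤ eLpNorm (fun z => Gs k z - G z) 2 volume + eLpNorm G 2 volume :=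
        eLpNorm_add_le ((he k).memLp.2.sub h.memG).1 h.memG.1 (by norm_num)
      _ ≤ _ := add_le_add ((hG' k).trans (hone k)) le_rfl

/-- a field vanishing a.e. where its approximants vanish -/
theorem ae_zero_of_approx {E : Type*} [NormedAddCommGroup E] {u : ST n → E} {us : ℕ → ST n → E}
    (hu : MemLp u 2 volume) (hus : ∀ k, MemLp (us k) 2 volume)
    (hs : Tendsto (fun k => eLpNorm (fun z => us k z - u z) 2 volume) atTop (𝓝 0))
    {A : Set (ST n)} (hA : MeasurableSet A) (h0 : ∀ k, ∀ z ∈ A, us k z = 0) :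
    ∀ᵐ z, z ∈ A → u z = 0 := by
  have h1 : ∀ k, eLpNorm (A.indicator u) 2 volume ≤ eLpNorm (fun z => us k z - u z) 2 volume := by
    intro k
    refine eLpNorm_mono fun z => ?_
    by_cases hz : z ∈ A
    · rw [indicator_of_mem hz, h0 k z hz, zero_sub, norm_neg]
    · rw [indicator_of_notMem hz, norm_zero]; exact norm_nonneg _
  have h2 : eLpNorm (A.indicator u) 2 volume = 0 := by
    refine le_antisymm ?_ zero_le
    exact ge_of_tendsto hs (Eventually.of_forall h1)
  rw [eLpNorm_eq_zero_iff (hu.1.indicator hA) (by norm_num)] at h2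
  filter_upwards [h2] with z hz hzA
  rw [indicator_of_mem hzA] at hz
  exact hz

theorem IsElem.zero_out {v : ST n → Eu n} {G : ST n → Mt n} (h : IsElem Ω T v G) (z : ST n)
    (hz : z.1 ∉ Ioo 0 T ∨ z.2 ∉ Ω) : v z = 0 ∧ G z = 0 := by
  obtain ⟨N, c, φ, hm, hb, h0, hφ, hv, hG⟩ := h
  rw [hv z, hG z]
  rcases hz with hz | hz
  · exact ⟨Finset.sum_eq_zero fun j _ => by rw [h0 j _ hz, zero_smul],
      Finset.sum_eq_zero fun j _ => by rw [h0 j _ hz, zero_smul]⟩
  · have h1 : ∀ j, φ j z.2 = 0 := fun j =>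
      image_eq_zero_of_notMem_tsupport fun hc => hz ((hφ j).supp hc)
    have h2 : ∀ j, grad (φ j) z.2 = 0 := by
      intro j
      have h3 : fderiv ℝ (φ j) z.2 = 0 := by
        have h4 : z.2 ∉ tsupport (fderiv ℝ (φ j)) := fun hc =>
          hz ((hφ j).supp (tsupport_fderiv_subset ℝ hc))
        exact image_eq_zero_of_notMem_tsupport h4
      rw [grad_eq, h3, map_zero]
    exact ⟨Finset.sum_eq_zero fun j _ => by rw [h1, smul_zero],
      Finset.sum_eq_zero fun j _ => by rw [h2, smul_zero]⟩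

theorem IsVel.zero_out {v : ST n → Eu n} {G : ST n → Mt n} (h : IsVel Ω T v G)
    (hΩ : MeasurableSet Ω) :
    (∀ᵐ z : ST n, (z.1 ∉ Ioo 0 T ∨ z.2 ∉ Ω) → v z = 0) ∧
    (∀ᵐ z : ST n, (z.1 ∉ Ioo 0 T ∨ z.2 ∉ Ω) → G z = 0) := by
  obtain ⟨vs, Gs, he, h1, h2, -, -⟩ := h.exists_seq
  have hA : MeasurableSet {z : ST n | z.1 ∉ Ioo 0 T ∨ z.2 ∉ Ω} := by
    have h3 : MeasurableSet {z : ST n | z.1 ∈ Ioo 0 T} := measurable_fst measurableSet_Ioo
    have h4 : MeasurableSet {z : ST n | z.2 ∈ Ω} := measurable_snd hΩ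
    exact h3.compl.union h4.compl
  exact ⟨ae_zero_of_approx h.memv (fun k => (he k).memLp.1) h1 hA
      fun k z hz => ((he k).zero_out z hz).1,
    ae_zero_of_approx h.memG (fun k => (he k).memLp.2) h2 hA
      fun k z hz => ((he k).zero_out z hz).2⟩

theorem IsElem.trace {v : ST n → Eu n} {G : ST n → Mt n} (h : IsElem Ω T v G) (z : ST n) :
    ∑ i, G z (i, i) = 0 := by
  obtain ⟨N, c, φ, hm, hb, h0, hφ, hv, hG⟩ := h
  rw [hG z]
  have h1 : ∀ i, (∑ j, c j z.1 • grad (φ j) z.2 : Mt n) (i, i) =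
      ∑ j, c j z.1 * grad (φ j) z.2 (i, i) := by
    intro i
    simp
  simp only [h1]
  rw [Finset.sum_comm]
  refine Finset.sum_eq_zero fun j _ => ?_
  rw [← Finset.mul_sum, ← dvg_eq_grad, (hφ j).div0, mul_zero]

theorem IsVel.trace {v : ST n → Eu n} {G : ST n → Mt n} (h : IsVel Ω T v G) :
    ∀ᵐ z : ST n, ∑ i, G z (i, i) = 0 := by
  obtain ⟨vs, Gs, he, h1, h2, -, -⟩ := h.exists_seq
  let L : Mt n →L[ℝ] ℝ := LinearMap.toContinuousLinearMap
    { toFun := fun A => ∑ i, A (i, i)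
      map_add' := by intro A B; simp [Finset.sum_add_distrib]
      map_smul' := by intro c A; simp [Finset.mul_sum] }
  have hL : ∀ A : Mt n, L A = ∑ i, A (i, i) := fun A => rfl
  have h3 := ae_zero_of_approx (u := fun z => L (G z)) (us := fun k z => L (Gs k z))
    (L.comp_memLp' h.memG) (fun k => L.comp_memLp' (he k).memLp.2) ?_ MeasurableSet.univ
    (fun k z _ => by rw [hL]; exact (he k).trace z)
  · filter_upwards [h3] with z hz
    exact hz trivial
  · have h4 : ∀ k, eLpNorm (fun z => L (Gs k z) - L (G z)) 2 volume ≤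
        ENNReal.ofReal ‖L‖ * eLpNorm (fun z => Gs k z - G z) 2 volume := by
      intro k
      refine eLpNorm_le_mul_eLpNorm_of_ae_le_mul (Eventually.of_forall fun z => ?_) 2
      rw [← map_sub]
      exact L.le_opNorm _
    have h5 : Tendsto (fun k => ENNReal.ofReal ‖L‖ * eLpNorm (fun z => Gs k z - G z) 2 volume)
        atTop (𝓝 0) := by
      have := ENNReal.Tendsto.const_mul h2 (Or.inr (ENNReal.ofReal_ne_top (r := ‖L‖)))
      simpa using this
    exact tendsto_of_tendsto_of_tendsto_of_le_of_le tendsto_const_nhds h5 (fun k => zero_le) h4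

/-- line derivative of an elementary field in space directions -/
theorem IsElem.lineDeriv {v : ST n → Eu n} {G : ST n → Mt n} (h : IsElem Ω T v G) (z : ST n)
    (i j : Fin n) : HasLineDerivAt ℝ (fun z => v z i) (G z (i, j)) z (0, bv j) := by
  obtain ⟨N, c, φ, hm, hb, h0, hφ, hv, hG⟩ := h
  have h1 : ∀ k, HasDerivAt (fun s : ℝ => (c k z.1) * (φ k (z.2 + s • bv j)) i)
      (c k z.1 * grad (φ k) z.2 (i, j)) 0 := by
    intro k
    have h2 : HasLineDerivAt ℝ (φ k) (fderiv ℝ (φ k) z.2 (bv j)) z.2 (bv j) :=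
      ((hφ k).diff z.2).hasFDerivAt.hasLineDerivAt (bv j)
    have h3 : HasDerivAt (fun s : ℝ => φ k (z.2 + s • bv j)) (fderiv ℝ (φ k) z.2 (bv j)) 0 := h2
    have h4 : HasDerivAt (fun s : ℝ => (φ k (z.2 + s • bv j)) i)
        ((fderiv ℝ (φ k) z.2 (bv j)) i) 0 :=
      (EuclideanSpace.proj (𝕜 := ℝ) i).hasFDerivAt.comp_hasDerivAt (0 : ℝ) h3
    exact h4.const_mul _
  have h5 := HasDerivAt.fun_sum (u := Finset.univ) fun k _ => h1 k
  have h6 : (fun s : ℝ => v (z + s • ((0 : ℝ), (bv j : Eu n))) i) =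
      fun s => ∑ k, (c k z.1) * (φ k (z.2 + s • bv j)) i := by
    funext s
    rw [hv]
    simp
  have h7 : G z (i, j) = ∑ k, c k z.1 * grad (φ k) z.2 (i, j) := by
    rw [hG]; simp
  show HasDerivAt (fun s : ℝ => v (z + s • ((0 : ℝ), (bv j : Eu n))) i) (G z (i, j)) 0
  rw [h6, h7]
  exact h5

/-- basic integration by parts for elementary fields -/
theorem IsElem.ibp {v : ST n → Eu n} {G : ST n → Mt n} (h : IsElem Ω T v G) (i j : Fin n)
    {f f' : ST n → ℝ} (hf : ∀ z, HasLineDerivAt ℝ f (f' z) z (0, bv j))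
    (h1 : Integrable (fun z => v z i * f' z)) (h2 : Integrable (fun z => G z (i, j) * f z))
    (h3 : Integrable (fun z => v z i * f z)) :
    ∫ z, v z i * f' z = - ∫ z, G z (i, j) * f z := by
  have := integral_bilinear_hasLineDerivAt_right_eq_neg_left_of_integrable
    (μ := (volume : Measure (ST n))) (f := fun z => v z i) (f' := fun z => G z (i, j)) (g := f)
    (g' := f') (v := ((0 : ℝ), (bv j : Eu n))) (B := ContinuousLinearMap.mul ℝ ℝ) h2 h1 h3
    (fun z _ => h.lineDeriv z i j) (fun z _ => hf z)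
  exact this

/-- divergence free fields are orthogonal to gradients (elementary fields) -/
theorem IsElem.div {v : ST n → Eu n} {G : ST n → Mt n} (h : IsElem Ω T v G)
    {f : ST n → ℝ} {f' : Fin n → ST n → ℝ} (hf : ∀ j z, HasLineDerivAt ℝ f (f' j z) z (0, bv j))
    (h1 : ∀ j, Integrable (fun z => v z j * f' j z))
    (h2 : ∀ j, Integrable (fun z => G z (j, j) * f z))
    (h3 : ∀ j, Integrable (fun z => v z j * f z)) :
    ∫ z, ∑ j, v z j * f' j z = 0 := by
  rw [integral_finsetSum _ fun j _ => h1 j]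
  have h4 : ∀ j, ∫ z, v z j * f' j z = - ∫ z, G z (j, j) * f z := fun j =>
    h.ibp j j (hf j) (h1 j) (h2 j) (h3 j)
  simp only [h4]
  rw [Finset.sum_neg_distrib, ← integral_finsetSum _ fun j _ => h2 j]
  have h5 : ∫ z, ∑ j, G z (j, j) * f z = 0 := by
    have : (fun z => ∑ j, G z (j, j) * f z) = fun _ => (0 : ℝ) := by
      funext z
      rw [← Finset.sum_mul, h.trace, zero_mul]
    rw [this]; simp
  rw [h5, neg_zero]

end Pool.Agent.Helper42.Jef
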