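import Pool.Agent.Helper42.Jef.RegH
import Pool.Agent.Helper50.JefSlices

/-! # The regularised problem: setup of the limit -/

open MeasureTheory Set Filter Topology
open scoped ENNReal NNReal ContDiff

namespace Pool.Agent.Helper42.Jef

set_option maxHeartbeats 400000

variable {n : ℕ} {Ω : Set (Eu n)}

/-- `L^∞(0,T;L²)` bound in averaged form -/
def LB {E : Type*} [NormedAddCommGroup E] (T M : ℝ) (u : ST n → E) : Prop :=
  ∀ I : Set ℝ, MeasurableSet I → I ⊆ Ioo 0 T →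
    ∫⁻ z in I ×ˢ (univ : Set (Eu n)), ‖u z‖ₑ ^ 2 ≤ ENNReal.ofReal M * volume I

/-- the bounds of the approximate solutions on all shorter time intervals -/
structure Bd (Mf : ℝ → ℝ) (T : ℝ) (v : ST n → Eu n) (G τ : ST n → Mt n) : Prop where
  v : ∀ T' : ℝ, 0 ≤ T' → T' ≤ T → LB T' (Mf T') v
  τ : ∀ T' : ℝ, 0 ≤ T' → T' ≤ T → LB T' (Mf T') τ
  G : ∀ T' : ℝ, 0 ≤ T' → T' ≤ T →
    ∫⁻ z in Ioo 0 T' ×ˢ (univ : Set (Eu n)), ‖G z‖ₑ ^ 2 ≤ ENNReal.ofReal (Mf T')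

theorem LB.of_wc {E : Type*} [NormedAddCommGroup E] [InnerProductSpace ℝ E] {T M : ℝ}
    (hM : 0 ≤ M) {us : ℕ → ST n → E} {u : ST n → E} (h : WC volume us u)
    (hb : ∀ m, LB T M (us m)) : LB T M u := by
  intro I hI hIT
  have hfin : volume I ≠ ⊤ := by
    refine ((measure_mono hIT).trans_lt ?_).ne
    rw [Real.volume_Ioo]; exact ENNReal.ofReal_lt_top
  have e1 : ENNReal.ofReal M * volume I = ENNReal.ofReal (M * (volume I).toReal) := by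
    rw [ENNReal.ofReal_mul hM, ENNReal.ofReal_toReal hfin]
  rw [e1]
  refine Pool.Agent.Helper50.JS.bound_of_wc h hI (Eventually.of_forall fun m => ?_)
  rw [← e1]
  exact hb m I hI hIT

theorem Bd.of_wc {Mf : ℝ → ℝ} (hM : ∀ T, 0 ≤ Mf T) {T : ℝ} {vs : ℕ → ST n → Eu n}
    {Gs τs : ℕ → ST n → Mt n} {v : ST n → Eu n} {G τ : ST n → Mt n} (hv : WC volume vs v)
    (hG : WC volume Gs G) (hτ : WC volume τs τ) (h : ∀ m, Bd Mf T (vs m) (Gs m) (τs m)) :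
    Bd Mf T v G τ where
  v T' h1 h2 := LB.of_wc (hM T') hv fun m => (h m).v T' h1 h2
  τ T' h1 h2 := LB.of_wc (hM T') hτ fun m => (h m).τ T' h1 h2
  G T' h1 h2 := Pool.Agent.Helper50.JS.bound_of_wc hG measurableSet_Ioo
    (Eventually.of_forall fun m => (h m).G T' h1 h2)

/-- bounds of a Galerkin curve -/
theorem gal_bd {S : Submodule ℝ (DD Ω)} [FiniteDimensional ℝ S] {T : ℝ} (hT : 0 < T) {U : ℝ → S}
    (hU : Continuous U) {Mf : ℝ → ℝ} (h : ∀ T' : ℝ, 0 ≤ T' → T' ≤ T →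
      (∀ t ∈ Icc 0 T', ‖U t‖ ^ 2 ≤ Mf T') ∧ ∫ s in Ioo 0 T', dir (U s : DD Ω) ≤ Mf T') :
    Bd Mf T (gv T fun t => (U t : DD Ω)) (gG T fun t => (U t : DD Ω))
      (gt T fun t => (U t : DD Ω)) := by
  have hel := (curve_elem hT hU).memLp
  have hgt := curve_gt hT hU
  constructor
  · intro T' h1 h2 I hI hIT
    exact slab_bound hel.1.1 hI fun t ht => gv_slice_lint t fun _ =>
      (h T' h1 h2).1 t (Ioo_subset_Icc_self (hIT ht))
  · intro T' h1 h2 I hI hIT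
    exact slab_bound hgt.1 hI fun t ht => gt_slice_lint t fun _ =>
      (h T' h1 h2).1 t (Ioo_subset_Icc_self (hIT ht))
  · intro T' h1 h2
    have hdc : Continuous fun s => dir (U s : DD Ω) := dir_cont hU
    have hdi : IntegrableOn (fun s => dir (U s : DD Ω)) (Ioo 0 T') :=
      (hdc.integrableOn_Icc (a := 0) (b := T')).mono_set Ioo_subset_Icc_self
    rw [gG_slab h2 hel.2.1 hdi]
    exact ENNReal.ofReal_le_ofReal (h T' h1 h2).2

/-- the statement of the compactness module -/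
def StrongConv (n : ℕ) : Prop :=
  ∀ (Ω : Set (Eu n)), IsOpen Ω → Bornology.IsBounded Ω → ∀ (T : ℝ), 0 < T →
    ∀ (vs : ℕ → ST n → Eu n) (Gs : ℕ → ST n → Mt n) (v : ST n → Eu n) (G : ST n → Mt n),
    (∀ m, IsVel Ω T (vs m) (Gs m)) → IsVel Ω T v G → ∀ M : ℝ,
    (∀ m, eLpNorm (Gs m) 2 volume ≤ ENNReal.ofReal M) → WC volume vs v →
    (∀ m, ∀ I : Set ℝ, MeasurableSet I →
      ∫⁻ z in I ×ˢ (univ : Set (Eu n)), ‖vs m z‖ₑ ^ 2 ≤ ENNReal.ofReal M * volume I) →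
    (∀ φ, IsVT Ω φ → ∀ ε : ℝ, 0 < ε → ∃ (C : ℝ) (m0 : ℕ), ∀ m ≥ m0, ∀ η, IsTime 0 T η →
      |∫ z : ST n, deriv η z.1 * inner ℝ (vs m z) (φ z.2)| ≤
        C * Real.sqrt (∫ t, η t ^ 2) + ε * ∫ t, |deriv η t|) →
    Tendsto (fun m => eLpNorm (fun z => vs m z - v z) 2 volume) atTop (𝓝 0)

noncomputable def SSp (d : ℕ → DD Ω) (N : ℕ) : Submodule ℝ (DD Ω) :=
  Submodule.span ℝ (d '' Iio N)

instance instFDSSp (d : ℕ → DD Ω) (N : ℕ) : FiniteDimensional ℝ (SSp d N) :=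
  FiniteDimensional.span_of_finite ℝ ((finite_Iio N).image d)

theorem mem_SSp (d : ℕ → DD Ω) {i N : ℕ} (h : i < N) : d i ∈ SSp d N :=
  Submodule.subset_span ⟨i, h, rfl⟩

/-- `L²` bound from `LB` -/
theorem LB.eLpNorm {E : Type*} [NormedAddCommGroup E] {T M : ℝ} (hM : 0 ≤ M) (hT : 0 ≤ T)
    {u : ST n → E} (h0 : ∀ z : ST n, z.1 ∉ Ioo 0 T → u z = 0) (h : LB T M u) :
    eLpNorm u 2 volume ≤ ENNReal.ofReal (Real.sqrt (M * T)) := by
  have h1 := eLpNorm_of_slab h0 (h _ measurableSet_Ioo Subset.rfl)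
  refine h1.trans (le_of_eq ?_)
  rw [Real.volume_Ioo, sub_zero, ← ENNReal.ofReal_mul hM,
    ENNReal.ofReal_rpow_of_nonneg (mul_nonneg hM hT) (by norm_num), Real.sqrt_eq_rpow]

theorem slab_eLpNorm {E : Type*} [NormedAddCommGroup E] {T M : ℝ} (hM : 0 ≤ M)
    {u : ST n → E} (h0 : ∀ z : ST n, z.1 ∉ Ioo 0 T → u z = 0)
    (h : ∫⁻ z in Ioo 0 T ×ˢ (univ : Set (Eu n)), ‖u z‖ₑ ^ 2 ≤ ENNReal.ofReal M) :
    eLpNorm u 2 volume ≤ ENNReal.ofReal (Real.sqrt M) := by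
  have h1 := eLpNorm_of_slab h0 h
  refine h1.trans (le_of_eq ?_)
  rw [ENNReal.ofReal_rpow_of_nonneg hM (by norm_num), Real.sqrt_eq_rpow]

/-- common weakly convergent subsequence of the three fields -/
theorem wc_three {vs : ℕ → ST n → Eu n} {Gs τs : ℕ → ST n → Mt n}
    (h1 : ∀ m, MemLp (vs m) 2 volume) (h2 : ∀ m, MemLp (Gs m) 2 volume)
    (h3 : ∀ m, MemLp (τs m) 2 volume) {C : ℝ}
    (b1 : ∀ m, eLpNorm (vs m) 2 volume ≤ ENNReal.ofReal C)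
    (b2 : ∀ m, eLpNorm (Gs m) 2 volume ≤ ENNReal.ofReal C)
    (b3 : ∀ m, eLpNorm (τs m) 2 volume ≤ ENNReal.ofReal C) :
    ∃ φ : ℕ → ℕ, StrictMono φ ∧ ∃ (v : ST n → Eu n) (G τ : ST n → Mt n),
      WC volume (fun m => vs (φ m)) v ∧ WC volume (fun m => Gs (φ m)) G ∧
      WC volume (fun m => τs (φ m)) τ := by
  obtain ⟨φ1, hφ1, w1⟩ := wc_compact (ι := Unit) (fun _ m => vs m) (fun _ => h1)
    (fun _ => ⟨C, b1⟩)
  obtain ⟨v, hv⟩ := w1 ()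
  obtain ⟨φ2, hφ2, w2⟩ := wc_compact (ι := Bool) (μ := (volume : Measure (ST n)))
    (fun b m => if b then Gs (φ1 m) else τs (φ1 m))
    (fun b m => by cases b <;> simp [h2, h3])
    (fun b => ⟨C, fun m => by cases b <;> simp [b2, b3]⟩)
  obtain ⟨G, hG⟩ := w2 true
  obtain ⟨τ, hτ⟩ := w2 false
  refine ⟨fun m => φ1 (φ2 m), hφ1.comp hφ2, v, G, τ, ?_, ?_, ?_⟩
  · exact hv.subseq hφ2
  · simpa using hG
  · simpa using hτ

end Pool.Agent.Helper42.Jef
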