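import Pool.Agent.Helper42.Jef.Clo1
import Pool.Agent.Helper42.Jef.RegI

/-! # Closure theorem: auxiliary facts -/

open MeasureTheory Set Filter Topology
open scoped ENNReal NNReal ContDiff

namespace Pool.Agent.Helper42.Jef

open Pool.Agent.Helper22.Jef

set_option maxHeartbeats 1000000

variable {n : ℕ} {Ω : Set (Eu n)}

theorem mspin_norm_le (Ω : Set (Eu n)) {δ : ℝ} (hδ : 0 < δ) {G : ST n → Mt n}
    (hG : MemLp G 2 volume) {M : ℝ} (hM : eLpNorm G 2 volume ≤ ENNReal.ofReal M) :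
    eLpNorm (mspin Ω δ G) 2 volume ≤ ENNReal.ofReal M := by
  rw [mspin_eq]
  refine (eLpNorm_indicator_le _).trans ?_
  refine (spc_eLpNorm_le (ro_integrable hδ).1 (sp_memLp hG).1).trans ?_
  rw [ro_lint hδ, one_mul]
  refine (eLpNorm_mono fun z => ?_).trans hM
  exact norm_sp_le _

theorem LB.all {E : Type*} [NormedAddCommGroup E] {T M : ℝ} {u : ST n → E} (h : LB T M u)
    (h0 : ∀ᵐ z : ST n, z.1 ∉ Ioo 0 T → u z = 0) {I : Set ℝ} (hI : MeasurableSet I) :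
    ∫⁻ z in I ×ˢ (univ : Set (Eu n)), ‖u z‖ₑ ^ 2 ≤ ENNReal.ofReal M * volume I := by
  have h1 := h (I ∩ Ioo 0 T) (hI.inter measurableSet_Ioo) inter_subset_right
  have hS : MeasurableSet (I ×ˢ (univ : Set (Eu n))) := hI.prod MeasurableSet.univ
  have hS' : MeasurableSet ((I ∩ Ioo 0 T) ×ˢ (univ : Set (Eu n))) :=
    (hI.inter measurableSet_Ioo).prod MeasurableSet.univ
  have h2 : ∫⁻ z in I ×ˢ (univ : Set (Eu n)), ‖u z‖ₑ ^ 2 =
      ∫⁻ z in (I ∩ Ioo 0 T) ×ˢ (univ : Set (Eu n)), ‖u z‖ₑ ^ 2 := by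
    rw [← lintegral_indicator hS, ← lintegral_indicator hS']
    refine lintegral_congr_ae ?_
    filter_upwards [h0] with z hz
    by_cases h3 : z.1 ∈ I
    · rw [indicator_of_mem (by exact ⟨h3, trivial⟩)]
      by_cases h4 : z.1 ∈ Ioo 0 T
      · rw [indicator_of_mem (by exact ⟨⟨h3, h4⟩, trivial⟩)]
      · rw [indicator_of_notMem (by exact fun hc => h4 hc.1.2), hz h4, enorm_zero]
        simp
    · rw [indicator_of_notMem (by exact fun hc => h3 hc.1),
        indicator_of_notMem (by exact fun hc => h3 hc.1.1)]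
  rw [h2]
  refine h1.trans ?_
  gcongr
  exact inter_subset_left

theorem LB.mono {E : Type*} [NormedAddCommGroup E] {T M M' : ℝ} {u : ST n → E} (h : LB T M u)
    (hMM : M ≤ M') : LB T M' u := fun I hI hIT =>
  (h I hI hIT).trans (by gcongr)

theorem int_abs_sq_sub {α : Type*} [MeasurableSpace α] {μ : Measure α} {E : Type*}
    [NormedAddCommGroup E] [InnerProductSpace ℝ E] {u w : α → E} (hu : MemLp u 2 μ)
    (hw : MemLp w 2 μ) : ∫ x, |‖u x‖ ^ 2 - ‖w x‖ ^ 2| ∂μ ≤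
      (eLpNorm (fun x => u x - w x) 2 μ).toReal * ((eLpNorm u 2 μ).toReal +
        (eLpNorm w 2 μ).toReal) := by
  have hd : MemLp (fun x => u x - w x) 2 μ := hu.sub hw
  have i1 : Integrable (fun x => ‖u x - w x‖ * ‖u x‖) μ := hd.norm.integrable_mul hu.norm
  have i2 : Integrable (fun x => ‖u x - w x‖ * ‖w x‖) μ := hd.norm.integrable_mul hw.norm
  have h1 : ∫ x, |‖u x‖ ^ 2 - ‖w x‖ ^ 2| ∂μ ≤
      ∫ x, (‖u x - w x‖ * ‖u x‖ + ‖u x - w x‖ * ‖w x‖) ∂μ := by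
    refine integral_mono_of_nonneg (Eventually.of_forall fun x => abs_nonneg _) (i1.add i2)
      (Eventually.of_forall fun x => ?_)
    show |‖u x‖ ^ 2 - ‖w x‖ ^ 2| ≤ ‖u x - w x‖ * ‖u x‖ + ‖u x - w x‖ * ‖w x‖
    have e1 : ‖u x‖ ^ 2 - ‖w x‖ ^ 2 = (‖u x‖ - ‖w x‖) * (‖u x‖ + ‖w x‖) := by ring
    rw [e1, abs_mul, abs_of_nonneg (by positivity : 0 ≤ ‖u x‖ + ‖w x‖), ← mul_add]
    exact mul_le_mul_of_nonneg_right (abs_norm_sub_norm_le _ _) (by positivity)
  rw [integral_add i1 i2] at h1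
  have c1 := cs_norm hd hu
  have c2 := cs_norm hd hw
  rw [← toReal_eLpNorm_sq hd, ← toReal_eLpNorm_sq hu, Real.sqrt_sq ENNReal.toReal_nonneg,
    Real.sqrt_sq ENNReal.toReal_nonneg] at c1
  rw [← toReal_eLpNorm_sq hd, ← toReal_eLpNorm_sq hw, Real.sqrt_sq ENNReal.toReal_nonneg,
    Real.sqrt_sq ENNReal.toReal_nonneg] at c2
  rw [mul_add]
  linarith

/-- the truncated defects converge in `L¹` to the defect -/
theorem defect_conv {α : Type*} [MeasurableSpace α] {μ : Measure α} {E : Type*}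
    [NormedAddCommGroup E] [InnerProductSpace ℝ E] {uk : ℕ → α → E} {U : α → E} {ak : ℕ → α → ℝ}
    {A : α → ℝ} (hA : Integrable A μ) (hak : ∀ k, Integrable (ak k) μ)
    (huk : ∀ k, MemLp (uk k) 2 μ) (hU : MemLp U 2 μ)
    (h1 : Tendsto (fun k => ∫ x, |A x - ak k x| ∂μ) atTop (𝓝 0))
    (h2 : Tendsto (fun k => eLpNorm (fun x => uk k x - U x) 2 μ) atTop (𝓝 0)) :
    Tendsto (fun k => ∫ x, |ak k x - ‖uk k x‖ ^ 2 - (A x - ‖U x‖ ^ 2)| ∂μ) atTop (𝓝 0) := by
  set e : ℕ → ℝ := fun k => (eLpNorm (fun x => uk k x - U x) 2 μ).toReal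
  set B := (eLpNorm U 2 μ).toReal
  have he : Tendsto e atTop (𝓝 0) := by
    have := (ENNReal.tendsto_toReal ENNReal.zero_ne_top).comp h2
    rw [ENNReal.toReal_zero] at this
    exact this
  have h3 : ∀ k, ∫ x, |ak k x - ‖uk k x‖ ^ 2 - (A x - ‖U x‖ ^ 2)| ∂μ ≤
      (∫ x, |A x - ak k x| ∂μ) + e k * ((e k + B) + B) := by
    intro k
    have i1 : Integrable (fun x => |A x - ak k x|) μ := (hA.sub (hak k)).abs
    have i2 : Integrable (fun x => |‖uk k x‖ ^ 2 - ‖U x‖ ^ 2|) μ := by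
      have a1 : Integrable (fun x => ‖uk k x‖ ^ 2) μ := by
        have := (huk k).norm.integrable_sq
        exact this
      have a2 : Integrable (fun x => ‖U x‖ ^ 2) μ := by
        have := hU.norm.integrable_sq
        exact this
      exact (a1.sub a2).abs
    have h4 : ∫ x, |ak k x - ‖uk k x‖ ^ 2 - (A x - ‖U x‖ ^ 2)| ∂μ ≤
        ∫ x, (|A x - ak k x| + |‖uk k x‖ ^ 2 - ‖U x‖ ^ 2|) ∂μ := by
      refine integral_mono_of_nonneg (Eventually.of_forall fun x => abs_nonneg _) (i1.add i2)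
        (Eventually.of_forall fun x => ?_)
      show |ak k x - ‖uk k x‖ ^ 2 - (A x - ‖U x‖ ^ 2)| ≤
        |A x - ak k x| + |‖uk k x‖ ^ 2 - ‖U x‖ ^ 2|
      have e1 : ak k x - ‖uk k x‖ ^ 2 - (A x - ‖U x‖ ^ 2) =
          -(A x - ak k x) - (‖uk k x‖ ^ 2 - ‖U x‖ ^ 2) := by ring
      rw [e1]
      refine (abs_sub _ _).trans ?_
      rw [abs_neg]
    rw [integral_add i1 i2] at h4
    have h5 := int_abs_sq_sub (huk k) hU
    have h6 : (eLpNorm (uk k) 2 μ).toReal ≤ e k + B := by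
      have h7 : eLpNorm (uk k) 2 μ ≤ eLpNorm (fun x => uk k x - U x) 2 μ + eLpNorm U 2 μ := by
        have h8 : uk k = (fun x => uk k x - U x) + U := by funext x; simp
        calc eLpNorm (uk k) 2 μ = eLpNorm ((fun x => uk k x - U x) + U) 2 μ := by rw [← h8]
          _ ≤ _ := eLpNorm_add_le ((huk k).1.sub hU.1) hU.1 (by norm_num)
      have h9 : eLpNorm (fun x => uk k x - U x) 2 μ ≠ ⊤ := ((huk k).sub hU).2.ne
      have h10 := ENNReal.toReal_mono (ENNReal.add_ne_top.2 ⟨h9, hU.2.ne⟩) h7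
      rwa [ENNReal.toReal_add h9 hU.2.ne] at h10
    have h11 : (eLpNorm (fun x => uk k x - U x) 2 μ).toReal * ((eLpNorm (uk k) 2 μ).toReal +
        (eLpNorm U 2 μ).toReal) ≤ e k * ((e k + B) + B) :=
      mul_le_mul_of_nonneg_left (add_le_add h6 le_rfl) ENNReal.toReal_nonneg
    linarith
  have h4 : Tendsto (fun k => (∫ x, |A x - ak k x| ∂μ) + e k * ((e k + B) + B)) atTop (𝓝 0) := by
    have := h1.add (he.mul ((he.add_const B).add_const B))
    simpa using this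
  exact squeeze_zero (fun k => integral_nonneg fun x => abs_nonneg _) h3 h4

end Pool.Agent.Helper42.Jef
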