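import Pool.Agent.Helper42.Jef.Clo2
import Pool.Agent.Helper94.JefSpin
import Pool.Agent.Helper94.JefMsp
import Pool.Agent.Helper47.JefRenormLoc
import Pool.Agent.Helper41.Jef.Strong
import Pool.Agent.Helper41.Jef.P6
import Pool.Agent.Helper1.JefP.E
import Pool.Agent.Helper50.JefThetaE
import Pool.Agent.Helper50.JefMom
import Pool.Agent.Helper38.JefDiff
import Pool.Agent.Helper76.Jef.Lim
import Pool.Agent.Helper57.JefTeIff
import Pool.Agent.Helper81.Jef.TeBk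
import Pool.Agent.Helper63.JefFinal

/-! # Closure theorem -/

open MeasureTheory Set Filter Topology
open scoped ENNReal NNReal ContDiff

namespace Pool.Agent.Helper42.Jef

open Pool.Agent.Helper22.Jef
open Pool.Agent.Helper47.Jef (renorm_loc)
open Pool.Agent.Helper81.Jef (RenLoc te_bk)
open Pool.Agent.Helper41.Jef (ReprStar)
open Pool.Agent.Helper50.JM (tc_of_mom mom_limit)
open Pool.Agent.Helper38.JefDiff (diff_facts)
open Pool.Agent.Helper1.JefP (lemmaP)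
open Pool.Agent.Helper76.Jef (te_limit wc_ext0)
open Pool.Agent.Helper63.Jef (te_final)
open Pool.Agent.Helper94.Jef (wc_mspin)

set_option maxHeartbeats 1000000

variable {n : ℕ} {Ω : Set (Eu n)}

theorem renLoc1 (hΩ : IsOpen Ω) (hΩb : Bornology.IsBounded Ω) {T : ℝ} (hT : 0 < T)
    {v : ST n → Eu n} {G : ST n → Mt n} (hv : IsVel Ω T v G) : RenLoc n T v (Mt n) (Mt n) :=
  fun _ _ hu hF h β hβ L hL => renorm_loc hΩ hΩb hT hv hu hF h convex_univ isClosed_univ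
    (mem_univ _) (Eventually.of_forall fun _ => mem_univ _) β hβ L fun x _ => hL x

theorem renLoc2 (hΩ : IsOpen Ω) (hΩb : Bornology.IsBounded Ω) {T : ℝ} (hT : 0 < T)
    {v : ST n → Eu n} {G : ST n → Mt n} (hv : IsVel Ω T v G) : RenLoc n T v (Mt n) ℝ :=
  fun _ _ hu hF h β hβ L hL => renorm_loc hΩ hΩb hT hv hu hF h convex_univ isClosed_univ
    (mem_univ _) (Eventually.of_forall fun _ => mem_univ _) β hβ L fun x _ => hL x

theorem ren_of (hΩ : IsOpen Ω) (hΩb : Bornology.IsBounded Ω) {T : ℝ} (hT : 0 < T)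
    {v : ST n → Eu n} {G : ST n → Mt n} (hv : IsVel Ω T v G) :
    Pool.Agent.Helper50.JT.Ren T v :=
  fun _ _ hu hF h _ hK hKc hK0 huK β hβ L hL =>
    renorm_loc hΩ hΩb hT hv hu hF h hK hKc hK0 huK β hβ L hL

/-- the compactness module -/
theorem strongConv (n : ℕ) : StrongConv n :=
  fun _ hΩ hΩb _ hT _ _ _ _ hv hvl M hG hw hM hTC =>
    Pool.Agent.Helper41.Jef.strong_conv hΩ hΩb hT hv hvl M hG hw hM hTC

/-- integrability of the right side of the stress equation against test functions -/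
theorem rhs_test_int {a c : ℝ} {v : ST n → Eu n} {G τ S : ST n → Mt n} (hv : MemLp v 2 volume)
    (hG : MemLp G 2 volume) (hτ : MemLp τ 2 volume) (hS : MemLp S 2 volume) (η : ℝ → ℝ)
    (ψ : Eu n → ℝ) {T : ℝ} (hη : IsTime (-1) T η) (hψ : IsTest ψ) :
    Integrable (fun z : ST n => (η z.1 * ψ z.2) • (c • sy (G z) - a • τ z - br (τ z) (S z))) := by
  have h1 := stI_int (a := a) (c := c) hv hG hτ hS hη hψ
  have m1 : MemLp (fun z : ST n => deriv η z.1 * ψ z.2) 2 volume :=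
    memLp_test (E := ℝ) hη.dcont hη.cpt.deriv hψ.smooth.continuous hψ.cpt
  have m2 : MemLp (fun z : ST n => η z.1 * fderiv ℝ ψ z.2 (v z)) 2 volume :=
    (strong_D (vs := fun _ => v) (fun _ => hv) hv (by simp) hη.cont hη.cpt hψ.smooth
      hψ.cpt).2.1
  have i1 : Integrable (fun z => (deriv η z.1 * ψ z.2 + η z.1 * fderiv ℝ ψ z.2 (v z)) • τ z) :=
    smul_int2 (m1.add m2) hτ
  refine (h1.sub i1).congr (Eventually.of_forall fun z => ?_)
  simp only [Pi.sub_apply, stI, add_sub_cancel_left]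

theorem closure_thm (hSC : StrongConv n) (hΩ : IsOpen Ω) (hΩb : Bornology.IsBounded Ω)
    {T μ a c : ℝ} (hT : 0 < T) (hμ : 0 < μ) (hRS : ReprStar n μ c)
    {f : ℝ → (Eu n → Eu n) → ℝ} {g : ℝ → ℝ} (hf : IsForce Ω f g) {v0 : Eu n → Eu n}
    {τ0 : Eu n → Mt n} (hτ0 : MemLp τ0 2 volume) {M : ℝ} {δ : ℕ → ℝ} (hδ : ∀ m, 0 < δ m)
    (hδ0 : Tendsto δ atTop (𝓝 0)) {vs : ℕ → ST n → Eu n} {Gs τs : ℕ → ST n → Mt n}
    (hsol : ∀ m, IsSol Ω T μ a c f v0 τ0 (mspin Ω (δ m) (Gs m)) (vs m) (Gs m) (τs m))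
    (hLB : ∀ m, LB T M (vs m)) {v : ST n → Eu n} {G τ : ST n → Mt n}
    (wv : WC volume vs v) (wG : WC volume Gs G) (wτ : WC volume τs τ)
    (hsup : ∀ z : ST n, z.1 ∉ Ioo 0 T → τ z = 0) :
    IsSol Ω T μ a c f v0 τ0 (fun z => sp (G z)) v G τ := by
  have hΩm := hΩ.measurableSet
  -- common bound
  obtain ⟨C1, hC1⟩ := wv.bdd
  obtain ⟨C2, hC2⟩ := wG.bdd
  obtain ⟨C3, hC3⟩ := wτ.bdd
  obtain ⟨M1, hM10, hMM, hb1, hb2, hb3⟩ : ∃ M1 : ℝ, 0 ≤ M1 ∧ M ≤ M1 ∧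
      (∀ m, eLpNorm (vs m) 2 volume ≤ ENNReal.ofReal M1) ∧
      (∀ m, eLpNorm (Gs m) 2 volume ≤ ENNReal.ofReal M1) ∧
      (∀ m, eLpNorm (τs m) 2 volume ≤ ENNReal.ofReal M1) := by
    refine ⟨|M| + |C1| + |C2| + |C3|, by positivity, ?_, fun m => ?_, fun m => ?_, fun m => ?_⟩
    · have := le_abs_self M
      have h1 := abs_nonneg C1
      have h2 := abs_nonneg C2
      have h3 := abs_nonneg C3
      linarith
    · refine (hC1 m).trans (ENNReal.ofReal_le_ofReal ?_)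
      linarith [le_abs_self C1, abs_nonneg M, abs_nonneg C2, abs_nonneg C3]
    · refine (hC2 m).trans (ENNReal.ofReal_le_ofReal ?_)
      linarith [le_abs_self C2, abs_nonneg M, abs_nonneg C1, abs_nonneg C3]
    · refine (hC3 m).trans (ENNReal.ofReal_le_ofReal ?_)
      linarith [le_abs_self C3, abs_nonneg M, abs_nonneg C1, abs_nonneg C2]
  have hvel : ∀ m, IsVel Ω T (vs m) (Gs m) := fun m => (hsol m).vel
  have hvl : IsVel Ω T v G := IsVel.of_wc hvel wv wG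
  have hSm : ∀ m, MemLp (mspin Ω (δ m) (Gs m)) 2 volume := fun m => (hsol m).memS
  have hSM : ∀ m, eLpNorm (mspin Ω (δ m) (Gs m)) 2 volume ≤ ENNReal.ofReal M1 := fun m =>
    mspin_norm_le Ω (hδ m) (hvel m).memG (hb2 m)
  -- strong convergence of the velocities
  have hstrong : Tendsto (fun m => eLpNorm (fun z => vs m z - v z) 2 volume) atTop (𝓝 0) := by
    refine hSC Ω hΩ hΩb T hT vs Gs v G hvel hvl M1 hb2 wv ?_ ?_
    · intro m I hI
      refine ((hLB m).mono hMM).all ?_ hI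
      filter_upwards [((hvel m).zero_out hΩm).1] with z hz h1
      exact hz (Or.inl h1)
    · intro φ hφ ε hε
      obtain ⟨C, hC⟩ := tc_of_mom (μ := μ) (a := a) (c := c) (v0 := v0) (τ0 := τ0) hT hf hM10 hφ
      refine ⟨C, 0, fun m _ η hη => ?_⟩
      refine (hC _ _ _ _ (hsol m) ((hLB m).mono hMM) (hb2 m) (hb3 m) η hη).trans ?_
      have h1 : 0 ≤ ε * ∫ t, |deriv η t| :=
        mul_nonneg hε.le (integral_nonneg fun t => abs_nonneg _)
      linarith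
  have hmom := mom_limit hT hsol wv wG wτ hstrong
  -- truncated limits
  obtain ⟨φ, hφ, tk, gk, F, D, ta, ga, Q, h1, h2, h3, h4, h5, h6, h7⟩ :=
    extract a c (fun m => (hvel m).memG) (fun m => (hsol m).memτ) hSm hb2 hb3 hSM
  have hTVτ : TV volume (fun m => τs (φ m)) τ tk ta := ⟨wτ.subseq hφ, h1, h3⟩
  have hTVG : TV volume (fun m => Gs (φ m)) G gk ga := ⟨wG.subseq hφ, h2, h4⟩
  obtain ⟨A, hAi, hA1, hA2, hA3, hA4, hA5, hA6, hA7⟩ := tv_main hTVτ
  obtain ⟨B, hBi, hB1, hB2, hB3, hB4, hB5, hB6, hB7⟩ := tv_main hTVG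
  set θ : ST n → ℝ := fun z => A z - ‖τ z‖ ^ 2 with hθdef
  set V : ST n → ℝ := fun z => B z - ‖G z‖ ^ 2 with hVdef
  have hτsq : Integrable (fun z => ‖τ z‖ ^ 2) := by
    have := wτ.memU.norm.integrable_sq
    exact this
  have hGsq : Integrable (fun z => ‖G z‖ ^ 2) := by
    have := wG.memU.norm.integrable_sq
    exact this
  have hθi : Integrable θ := hAi.sub hτsq
  have hVi : Integrable V := hBi.sub hGsq
  have hθc : Tendsto (fun k => ∫ z, |ta k z - ‖tk k z‖ ^ 2 - θ z|) atTop (𝓝 0) :=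
    defect_conv hAi hA5 (fun k => (h1 k).memU) wτ.memU hA6 hA7
  have hVc : Tendsto (fun k => ∫ z, |ga k z - ‖gk k z‖ ^ 2 - V z|) atTop (𝓝 0) :=
    defect_conv hBi hB5 (fun k => (h2 k).memU) wG.memU hB6 hB7
  -- the variance inequality
  obtain ⟨A', hA'0, hRS'⟩ := hRS
  obtain ⟨d1, d2, ⟨M2, d3⟩, d4, d5⟩ := diff_facts hΩ hT hsol wv wG wτ hstrong hmom
  have hVθ0 : ∀ᵐ z : ST n, z.1 ∈ Ioo 0 T → z.2 ∈ Ω → V z ≤ A' * θ z :=
    hRS' Ω hΩ hΩb T hT (fun m z => vs (φ m) z - v z) (fun m => Gs (φ m)) G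
      (fun m z => hvec (vs (φ m)) (Gs (φ m)) z - hvec v G z) (fun m => τs (φ m)) τ gk tk ga ta
      V θ M2 (fun m => d1 (φ m)) (hstrong.comp hφ.tendsto_atTop) (fun m => d2 (φ m))
      (fun m => d3 (φ m)) (fun ψ hψ i => (d4 ψ hψ i).comp hφ.tendsto_atTop)
      (fun m => d5 (φ m)) hTVG hTVτ hVi hθi hVc hθc
  -- vanishing outside
  have hout : MeasurableSet {z : ST n | z.1 ∉ Ioo 0 T ∨ z.2 ∉ Ω} := by
    have e1 : {z : ST n | z.1 ∉ Ioo 0 T ∨ z.2 ∉ Ω} = (Ioo 0 T ×ˢ Ω)ᶜ := by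
      ext z
      simp only [mem_setOf_eq, mem_compl_iff, mem_prod, not_and_or]
    rw [e1]
    exact (measurableSet_Ioo.prod hΩm).compl
  have hout1 : MeasurableSet {z : ST n | z.1 ∉ Ioo 0 T} := by
    have e1 : {z : ST n | z.1 ∉ Ioo 0 T} = Prod.fst ⁻¹' (Ioo 0 T)ᶜ := rfl
    rw [e1]
    exact measurableSet_Ioo.compl.preimage measurable_fst
  have bk0 : ∀ k : ℝ, bk k (0 : Mt n) = 0 := fun k => by simp [bk]
  have hGs0 : ∀ m, ∀ᵐ z : ST n, (z.1 ∉ Ioo 0 T ∨ z.2 ∉ Ω) → Gs m z = 0 := fun m =>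
    ((hvel m).zero_out hΩm).2
  have hG0 := (hvl.zero_out hΩm).2
  have hga0 : ∀ k, ∀ᵐ z : ST n, z ∈ {z : ST n | z.1 ∉ Ioo 0 T ∨ z.2 ∉ Ω} → ga k z = 0 := by
    intro k
    refine wc_zero (h4 k) hout fun m => ?_
    filter_upwards [hGs0 (φ m)] with z hz hz'
    rw [hz hz', bk0, norm_zero]; norm_num
  have htk0 : ∀ k, ∀ᵐ z : ST n, z ∈ {z : ST n | z.1 ∉ Ioo 0 T} → tk k z = 0 := by
    intro k
    refine wc_zero (h1 k) hout1 fun m => Eventually.of_forall fun z hz => ?_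
    rw [(hsol (φ m)).supτ z hz, bk0]
  have hta0 : ∀ k, ∀ᵐ z : ST n, z ∈ {z : ST n | z.1 ∉ Ioo 0 T} → ta k z = 0 := by
    intro k
    refine wc_zero (h3 k) hout1 fun m => Eventually.of_forall fun z hz => ?_
    rw [(hsol (φ m)).supτ z hz, bk0, norm_zero]; norm_num
  have hsy0 : sy (0 : Mt n) = 0 := (syL n).map_zero
  have hF0 : ∀ k, ∀ᵐ z : ST n, z ∈ {z : ST n | z.1 ∉ Ioo 0 T} → F k z = 0 := by
    intro k
    refine wc_zero (h5 k) hout1 fun m => ?_
    filter_upwards [hGs0 (φ m)] with z hz hz'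
    rw [hz (Or.inl hz'), (hsol (φ m)).supτ z hz', hsy0, smul_zero, smul_zero, sub_zero, map_zero]
  have hD0 : ∀ k, ∀ᵐ z : ST n, z ∈ {z : ST n | z.1 ∉ Ioo 0 T} → D k z = 0 := by
    intro k
    refine wc_zero (h6 k) hout1 fun m => Eventually.of_forall fun z hz => ?_
    rw [(hsol (φ m)).supτ z hz, bk0, br_zero_left]
  have hQ0 : ∀ k, ∀ᵐ z : ST n, z ∈ {z : ST n | z.1 ∉ Ioo 0 T} → Q k z = 0 := by
    intro k
    refine wc_zero (h7 k) hout1 fun m => Eventually.of_forall fun z hz => ?_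
    rw [(hsol (φ m)).supτ z hz, bk0, inner_zero_left, mul_zero]
  have hVθ : ∀ᵐ z, V z ≤ A' * θ z := by
    filter_upwards [hVθ0, ae_all_iff.2 hga0, hG0, hB2, hA4] with z g1 g2 g3 g4 g5
    by_cases hz : z.1 ∉ Ioo 0 T ∨ z.2 ∉ Ω
    · have e1 : B z = 0 := by
        refine tendsto_nhds_unique g4 ?_
        have : (fun k => ga k z) = fun _ => 0 := funext fun k => g2 k hz
        rw [this]; exact tendsto_const_nhds
      have e2 : V z = 0 := by simp [hVdef, e1, g3 hz]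
      rw [e2]
      have e3 : 0 ≤ θ z := by simp only [hθdef]; linarith
      positivity
    · rw [not_or, not_not, not_not] at hz
      exact g1 hz.1 hz.2
  -- spins and the key inequality
  have hG0' : ∀ᵐ z : ST n, z.2 ∉ Ω → G z = 0 := by
    filter_upwards [hG0] with z hz h
    exact hz (Or.inr h)
  have hδφ : Tendsto (fun m => δ (φ m)) atTop (𝓝 0) := hδ0.comp hφ.tendsto_atTop
  have hSp : SpinProp (fun m => mspin Ω (δ (φ m)) (Gs (φ m))) G gk ga (M1 ^ 2) :=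
    Pool.Agent.Helper94.Jef.spin_var hΩ hTVG hM10 (fun m => hb2 (φ m)) (fun m => hδ (φ m)) hδφ hG0'
  obtain ⟨C', hP⟩ := lemmaP hTVτ hTVG hθi hVi hθc hVc hVθ (fun m => hSm (φ m))
    (fun m => Eventually.of_forall fun z => mspin_antisym Ω _ _ z) hSp h5 h6 h7
  -- the renormalised equations
  have hTEm : ∀ m, TE T (vs m) (ext0 τ0 (τs m)) (fun z => c • sy (Gs m z) - a • τs m z -
      br (τs m z) (mspin Ω (δ m) (Gs m) z)) := by
    intro m
    rw [te_iff hΩ hT (hvel m) (hsol m).memτ (hsol m).supτ hτ0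
      (fun η ψ hη hψ => rhs_test_int (hvel m).memv (hvel m).memG (hsol m).memτ (hSm m) η ψ hη hψ)]
    exact (hsol m).str
  have hbkτ0 : ∀ k : ℕ, MemLp (fun x => bk ((k : ℝ) + 1) (τ0 x)) 2 volume := fun k =>
    (bk_bnd hτ0 (M := (eLpNorm τ0 2 volume).toReal)
      (by rw [ENNReal.ofReal_toReal hτ0.2.ne]) _).1
  have hbkτ0' : ∀ k : ℕ, MemLp (fun x => ‖bk ((k : ℝ) + 1) (τ0 x)‖ ^ 2) 2 volume := fun k =>
    (bksq_bnd hτ0 (M := (eLpNorm τ0 2 volume).toReal)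
      (by rw [ENNReal.ofReal_toReal hτ0.2.ne]) (by positivity)).1
  have hren : ∀ m (k : ℕ), _ := fun m k => te_bk (Ω := Ω) hT
    (renLoc1 hΩ hΩb hT (hvel m)) (renLoc2 hΩ hΩb hT (hvel m)) (hvel m).memG (hsol m).memτ (hSm m)
    (Eventually.of_forall fun z => mspin_antisym Ω _ _ z) (hsol m).supτ (hGs0 m) hτ0 (hTEm m)
    (k := (k : ℝ) + 1) (by positivity)
  have hstrong' : Tendsto (fun m => eLpNorm (fun z => vs (φ m) z - v z) 2 volume) atTop (𝓝 0) :=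
    hstrong.comp hφ.tendsto_atTop
  have hTE1 : ∀ k : ℕ, TE T v (ext0 (fun x => bk ((k : ℝ) + 1) (τ0 x)) (tk k))
      (fun z => F k z - D k z) := fun k =>
    te_limit (fun m => (hvel (φ m)).memv) hvl.memv hstrong' (wc_ext0 (h1 k) (hbkτ0 k))
      ((h5 k).sub (h6 k)) (fun m => (hren (φ m) k).1)
  have hTE2 : ∀ k : ℕ, TE T v (ext0 (fun x => ‖bk ((k : ℝ) + 1) (τ0 x)‖ ^ 2) (ta k)) (Q k) :=
    fun k => te_limit (fun m => (hvel (φ m)).memv) hvl.memv hstrong'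
      (wc_ext0 (h3 k) (hbkτ0' k)) (h7 k) (fun m => (hren (φ m) k).2)
  -- the defect vanishes
  have hθ0 : ∀ᵐ z : ST n, z.1 ∈ Ioo 0 T → θ z = 0 :=
    Pool.Agent.Helper50.JT.theta_zero_of_ren hΩ hΩb hT hvl (ren_of hΩ hΩb hT hvl) hτ0 (tk := tk) (ta := ta) (τ := τ) hAi
      (by
        filter_upwards [hA1] with z hz k
        exact ⟨(hz k).1, (hz k).2.2.1, (hz k).2.2.2.1, (hz k).2.2.2.2⟩)
      hA2 hA3 (Eventually.of_forall fun z => rfl) (fun k => (h1 k).memU) (fun k => (h3 k).memU)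
      htk0 hta0 (H := fun k z => F k z - D k z) (Q := Q)
      (fun k => (h5 k).memU.sub (h6 k).memU) (fun k => (h7 k).memU)
      (fun k => by
        filter_upwards [hF0 k, hD0 k] with z e1 e2 hz
        rw [e1 hz, e2 hz, sub_zero]) hQ0 hTE1 hTE2 hP
  have hAτ : ∀ᵐ z, A z = ‖τ z‖ ^ 2 := by
    filter_upwards [hθ0, ae_all_iff.2 hta0, hA2] with z e1 e2 e3
    by_cases hz : z.1 ∈ Ioo 0 T
    · have := e1 hz
      simp only [hθdef] at this
      linarith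
    · have e4 : A z = 0 := by
        refine tendsto_nhds_unique e3 ?_
        have : (fun k => ta k z) = fun _ => 0 := funext fun k => e2 k hz
        rw [this]; exact tendsto_const_nhds
      rw [e4, hsup z hz, norm_zero]; norm_num
  -- conclusion
  have wS : WC volume (fun m => mspin Ω (δ (φ m)) (Gs (φ m))) (fun z => sp (G z)) :=
    wc_mspin hΩ (wG.subseq hφ) hG0' (fun m => hδ (φ m)) hδφ
  have hfin := te_final hT hvl.memv hTVτ (wG.subseq hφ) (fun m => hb3 (φ m)) (fun m => hb2 (φ m))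
    (fun m => hSm (φ m)) (fun m => hSM (φ m)) wS hAi hAτ
    (by
      filter_upwards [hA1] with z hz k
      exact ⟨(hz k).1, (hz k).2.2.1⟩) hA7 h5 h6 hτ0 hTE1
  have hspG : MemLp (fun z => sp (G z)) 2 volume := sp_memLp hvl.memG
  rw [te_iff hΩ hT hvl wτ.memU hsup hτ0
    (fun η ψ hη hψ => rhs_test_int hvl.memv hvl.memG wτ.memU hspG η ψ hη hψ)] at hfin
  exact ⟨hvl, wτ.memU, hsup, hspG, hmom, hfin⟩

end Pool.Agent.Helper42.Jef
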