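import Mathlib

/-!
# Corotational Jeffreys model: shared vocabulary

`Eu n = ℝⁿ`, `Mt n = ` real `n × n` matrices with the Frobenius norm (indexed by `(row, column)`),
`ST n = ℝ × ℝⁿ` space-time (time first).  All fields are functions on the whole space-time which
vanish outside the time interval `(0, T)`.
-/

open MeasureTheory Set Filter Topology
open scoped ENNReal ContDiff

namespace Pool.Agent.Helper42.Jef

abbrev Eu (n : ℕ) := EuclideanSpace ℝ (Fin n)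
abbrev Mt (n : ℕ) := EuclideanSpace ℝ (Fin n × Fin n)
abbrev ST (n : ℕ) := ℝ × Eu n

variable {n : ℕ}

/-- coordinate vector -/
noncomputable def bv (j : Fin n) : Eu n := EuclideanSpace.single j (1 : ℝ)

/-- gradient matrix: `(grad φ x) (i, j) = ∂_j φ_i (x)` -/
noncomputable def grad (φ : Eu n → Eu n) (x : Eu n) : Mt n :=
  WithLp.toLp 2 fun p => (fderiv ℝ φ x (bv p.2)) p.1

/-- divergence -/
noncomputable def dvg (φ : Eu n → Eu n) (x : Eu n) : ℝ := ∑ i, (fderiv ℝ φ x (bv i)) i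

/-- transpose -/
noncomputable def tr (A : Mt n) : Mt n := WithLp.toLp 2 fun p => A p.swap

/-- symmetric part -/
noncomputable def sy (A : Mt n) : Mt n := (1 / 2 : ℝ) • (A + tr A)

/-- antisymmetric part (the spin, when `A = grad v`) -/
noncomputable def sp (A : Mt n) : Mt n := (1 / 2 : ℝ) • (A - tr A)

/-- commutator `A W - W A` -/
noncomputable def br (A W : Mt n) : Mt n :=
  WithLp.toLp 2 fun p => ∑ l, (A (p.1, l) * W (l, p.2) - W (p.1, l) * A (l, p.2))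

/-- divergence free velocity test fields, compactly supported in `Ω` -/
structure IsVT (Ω : Set (Eu n)) (φ : Eu n → Eu n) : Prop where
  smooth : ContDiff ℝ ∞ φ
  cpt : HasCompactSupport φ
  supp : tsupport φ ⊆ Ω
  div0 : ∀ x, dvg φ x = 0

/-- scalar test functions `C_c^∞(ℝⁿ)` -/
structure IsTest (ψ : Eu n → ℝ) : Prop where
  smooth : ContDiff ℝ ∞ ψ
  cpt : HasCompactSupport ψ

/-- time test functions: `C_c^∞`, supported in the open interval `(a, b)` -/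
structure IsTime (a b : ℝ) (η : ℝ → ℝ) : Prop where
  smooth : ContDiff ℝ ∞ η
  cpt : HasCompactSupport η
  supp : tsupport η ⊆ Ioo a b

/-- elementary velocity fields `∑ c_j(t) φ_j(x)` with gradient -/
def IsElem (Ω : Set (Eu n)) (T : ℝ) (v : ST n → Eu n) (G : ST n → Mt n) : Prop :=
  ∃ (N : ℕ) (c : Fin N → ℝ → ℝ) (φ : Fin N → Eu n → Eu n),
    (∀ j, Measurable (c j)) ∧ (∀ j, ∃ C : ℝ, ∀ t, |c j t| ≤ C) ∧
    (∀ j, ∀ t, t ∉ Ioo 0 T → c j t = 0) ∧ (∀ j, IsVT Ω (φ j)) ∧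
    (∀ z, v z = ∑ j, c j z.1 • φ j z.2) ∧ (∀ z, G z = ∑ j, c j z.1 • grad (φ j) z.2)

/-- `v ∈ L²(0,T;V)` with gradient `G`: closure of the elementary fields -/
structure IsVel (Ω : Set (Eu n)) (T : ℝ) (v : ST n → Eu n) (G : ST n → Mt n) : Prop where
  memv : MemLp v 2 volume
  memG : MemLp G 2 volume
  approx : ∀ ε : ℝ, 0 < ε → ∃ (v' : ST n → Eu n) (G' : ST n → Mt n), IsElem Ω T v' G' ∧
    eLpNorm (v - v') 2 volume ≤ ENNReal.ofReal ε ∧ eLpNorm (G - G') 2 volume ≤ ENNReal.ofReal ε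

/-- `∂_t u + div (v u) = F` in the sense of distributions on `(-1,T) × ℝⁿ`
(product test functions) -/
def TE {E : Type*} [NormedAddCommGroup E] [NormedSpace ℝ E] (T : ℝ) (v : ST n → Eu n)
    (u F : ST n → E) : Prop :=
  ∀ (η : ℝ → ℝ) (ψ : Eu n → ℝ), IsTime (-1) T η → IsTest ψ →
    ∫ z : ST n, ((deriv η z.1 * ψ z.2 + η z.1 * fderiv ℝ ψ z.2 (v z)) • u z +
      (η z.1 * ψ z.2) • F z) = 0

/-- weak convergence in `L²(μ; E)`, function level -/
structure WC {α : Type*} [MeasurableSpace α] {E : Type*} [NormedAddCommGroup E]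
    [InnerProductSpace ℝ E] (μ : Measure α) (u : ℕ → α → E) (U : α → E) : Prop where
  mem : ∀ m, MemLp (u m) 2 μ
  bdd : ∃ C : ℝ, ∀ m, eLpNorm (u m) 2 μ ≤ ENNReal.ofReal C
  memU : MemLp U 2 μ
  conv : ∀ g : α → E, MemLp g 2 μ →
    Tendsto (fun m => ∫ x, inner ℝ (u m x) (g x) ∂μ) atTop (𝓝 (∫ x, inner ℝ (U x) (g x) ∂μ))

/-- the truncation `x / √(1 + |x|²/k²)` -/
noncomputable def bk {E : Type*} [NormedAddCommGroup E] [InnerProductSpace ℝ E] (k : ℝ) (x : E) :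
    E := (Real.sqrt (1 + ‖x‖ ^ 2 / k ^ 2))⁻¹ • x

/-- the standard bump of radius one, with integral one -/
noncomputable def rho (n : ℕ) : Eu n → ℝ :=
  (⟨1 / 2, 1, by norm_num, by norm_num⟩ : ContDiffBump (0 : Eu n)).normed volume

/-- spatial mollifier of radius `ε` -/
noncomputable def ro (ε : ℝ) (x : Eu n) : ℝ := (ε ^ n)⁻¹ * rho n (ε⁻¹ • x)

/-- spatial mollification of a space-time function -/
noncomputable def mo {E : Type*} [NormedAddCommGroup E] [NormedSpace ℝ E] (ε : ℝ) (u : ST n → E)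
    (z : ST n) : E := ∫ y : Eu n, ro ε (z.2 - y) • u (z.1, y)

/-- the mollified spin `1_Ω (ρ_δ * sp G)` -/
noncomputable def mspin (Ω : Set (Eu n)) (δ : ℝ) (G : ST n → Mt n) (z : ST n) : Mt n :=
  Ω.indicator (fun _ => mo δ (fun y => sp (G y)) z) z.2

/-- convolution on space-time -/
noncomputable def cv (k u : ST n → ℝ) (z : ST n) : ℝ := ∫ y, k (z - y) * u y

/-- forces: `f t` is a linear functional on velocity test fields, bounded by `g t` times the
`H¹` norm, with `g ∈ L²_loc`, measurable in time -/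
structure IsForce (Ω : Set (Eu n)) (f : ℝ → (Eu n → Eu n) → ℝ) (g : ℝ → ℝ) : Prop where
  add : ∀ t φ ψ, IsVT Ω φ → IsVT Ω ψ → f t (φ + ψ) = f t φ + f t ψ
  smul : ∀ t (c : ℝ) φ, IsVT Ω φ → f t (c • φ) = c * f t φ
  bound : ∀ t φ, IsVT Ω φ → |f t φ| ≤ g t * Real.sqrt ((∫ x, ‖φ x‖ ^ 2) + ∫ x, ‖grad φ x‖ ^ 2)
  meas : ∀ φ, IsVT Ω φ → AEStronglyMeasurable (fun t => f t φ) volume
  gmeas : AEStronglyMeasurable g volume
  gnn : ∀ t, 0 ≤ g t
  gint : ∀ T : ℝ, IntegrableOn (fun t => g t ^ 2) (Ioo 0 T)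

/-- weak solutions on `(0,T)` of the (rescaled) system with spin field `S`
(`μ` viscosity, `a` damping, `c` coupling); product test functions -/
structure IsSol (Ω : Set (Eu n)) (T μ a c : ℝ) (f : ℝ → (Eu n → Eu n) → ℝ)
    (v0 : Eu n → Eu n) (τ0 : Eu n → Mt n) (S : ST n → Mt n)
    (v : ST n → Eu n) (G τ : ST n → Mt n) : Prop where
  vel : IsVel Ω T v G
  memτ : MemLp τ 2 volume
  supτ : ∀ z : ST n, z.1 ∉ Ioo 0 T → τ z = 0
  memS : MemLp S 2 volume
  mom : ∀ (η : ℝ → ℝ) (φ : Eu n → Eu n), IsTime (-1) T η → IsVT Ω φ →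
    (∫ z : ST n, (deriv η z.1 * inner ℝ (v z) (φ z.2) +
      η z.1 * (inner ℝ (v z) (fderiv ℝ φ z.2 (v z)) - μ * inner ℝ (G z) (grad φ z.2) -
        c * inner ℝ (τ z) (sy (grad φ z.2))))) + (∫ t in Ioo 0 T, η t * f t φ) +
      η 0 * ∫ x, inner ℝ (v0 x) (φ x) = 0
  str : ∀ (η : ℝ → ℝ) (ψ : Eu n → ℝ), IsTime (-1) T η → IsTest ψ →
    (∫ z : ST n, ((deriv η z.1 * ψ z.2 + η z.1 * fderiv ℝ ψ z.2 (v z)) • τ z +
      (η z.1 * ψ z.2) • (c • sy (G z) - a • τ z - br (τ z) (S z)))) +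
      η 0 • ∫ x, ψ x • τ0 x = 0

end Pool.Agent.Helper42.Jef
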