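import Pool.Agent.Helper42.Jef.Defs

/-! # Further shared definitions: truncated weak limits, heat kernels, convolution matrices -/

open MeasureTheory Set Filter Topology
open scoped ENNReal ContDiff

namespace Pool.Agent.Helper42.Jef

variable {n : ℕ}

/-- `u_m ⇀ U`, `bk_{k+1}(u_m) ⇀ uk k`, `|bk_{k+1}(u_m)|² ⇀ ak k` weakly in `L²` -/
structure TV {α : Type*} [MeasurableSpace α] {E : Type*} [NormedAddCommGroup E]
    [InnerProductSpace ℝ E] (μ : Measure α) (u : ℕ → α → E) (U : α → E) (uk : ℕ → α → E)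
    (ak : ℕ → α → ℝ) : Prop where
  w : WC μ u U
  wk : ∀ k : ℕ, WC μ (fun m x => bk ((k : ℝ) + 1) (u m x)) (uk k)
  wa : ∀ k : ℕ, WC μ (fun m x => ‖bk ((k : ℝ) + 1) (u m x)‖ ^ 2) (ak k)

/-- directional derivative in a coordinate direction -/
noncomputable def pd (i : Fin n) (f : Eu n → ℝ) (x : Eu n) : ℝ := fderiv ℝ f x (bv i)

/-- iterated directional derivatives -/
noncomputable def pds : List (Fin n) → (Eu n → ℝ) → Eu n → ℝ
  | [], f => f
  | i :: l, f => pd i (pds l f)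

/-- heat kernel for `∂_s = Δ` -/
noncomputable def Gs (s : ℝ) (x : Eu n) : ℝ :=
  (4 * Real.pi * s) ^ (-(n : ℝ) / 2) * Real.exp (-‖x‖ ^ 2 / (4 * s))

/-- `Θ_ε(r) ∂^α G_{μ r + s}(x)`; vanishes for `r ≤ 0` -/
noncomputable def Kr (μ ε s : ℝ) (l : List (Fin n)) (z : ST n) : ℝ :=
  Real.smoothTransition (z.1 / ε) * pds l (Gs (μ * z.1 + s)) z.2

/-- `Θ_ε'(r) ∂^α G_{μ r + s}(x)` -/
noncomputable def Kp (μ ε s : ℝ) (l : List (Fin n)) (z : ST n) : ℝ :=
  deriv (fun r => Real.smoothTransition (r / ε)) z.1 * pds l (Gs (μ * z.1 + s)) z.2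

/-- matrix of convolution operators -/
noncomputable def KK (κ : (Fin n × Fin n) → (Fin n × Fin n) → ST n → ℝ) (u : ST n → Mt n)
    (z : ST n) : Mt n :=
  WithLp.toLp 2 fun p => ∑ q, cv (κ p q) (fun y => u y q) z

/-- time and space derivatives of scalar functions on space-time -/
noncomputable def dt (ψ : ST n → ℝ) (z : ST n) : ℝ := fderiv ℝ ψ z (1, 0)
noncomputable def dx (i : Fin n) (ψ : ST n → ℝ) (z : ST n) : ℝ := fderiv ℝ ψ z (0, bv i)

/-- scalar test functions on `(0,T) × Ω` -/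
structure IsTestST (Ω : Set (Eu n)) (T : ℝ) (ψ : ST n → ℝ) : Prop where
  smooth : ContDiff ℝ ∞ ψ
  cpt : HasCompactSupport ψ
  supp : tsupport ψ ⊆ Ioo 0 T ×ˢ Ω

end Pool.Agent.Helper42.Jef
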