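import Pool.Agent.Helper42.Jef.Defs3

/-! # Further shared definitions -/

open MeasureTheory Set Filter Topology
open scoped ENNReal ContDiff

namespace Pool.Agent.Helper42.Jef

variable {n : ℕ}

/-- restriction of a space-time field to the time interval `(0,T)` -/
noncomputable def rs {E : Type*} [Zero E] (T : ℝ) (u : ST n → E) (z : ST n) : E :=
  (Ioo 0 T).indicator (fun t => u (t, z.2)) z.1

end Pool.Agent.Helper42.Jef
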