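import Pool.Agent.Helper42.Jef.TestSpace

/-! # A countable `C¹`-dense family of pairs of test fields -/

open MeasureTheory Set Filter Topology Metric
open scoped ENNReal NNReal ContDiff

namespace Pool.Agent.Helper42.Jef

set_option maxHeartbeats 400000

variable {n : ℕ} {Ω : Set (Eu n)}

/-- target of the `C¹` embedding -/
abbrev WW (n : ℕ) := (Eu n × Mt n) × ((Eu n →L[ℝ] Eu n) × (Eu n →L[ℝ] Mt n))

/-- `C¹` jet of a pair of test fields on the closed ball of radius `R` -/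
noncomputable def jet (R : ℝ) (p : DD Ω) : C(closedBall (0 : Eu n) R, WW n) where
  toFun x := ((vf p x, tf p x), (fderiv ℝ (vf p) x, fderiv ℝ (tf p) x))
  continuous_toFun := by
    have h1 : Continuous (vf p) := (vf_smooth p).continuous
    have h2 : Continuous (tf p) := (tf_smooth p).continuous
    have h3 : Continuous (fderiv ℝ (vf p)) := (vf_smooth p).continuous_fderiv (by simp)
    have h4 : Continuous (fderiv ℝ (tf p)) := (tf_smooth p).continuous_fderiv (by simp)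
    exact ((h1.comp continuous_subtype_val).prodMk (h2.comp continuous_subtype_val)).prodMk
      ((h3.comp continuous_subtype_val).prodMk (h4.comp continuous_subtype_val))

/-- both components vanish outside the closed ball of radius `R` -/
def Van (R : ℝ) (p : DD Ω) : Prop := ∀ x, R < ‖x‖ → vf p x = 0 ∧ tf p x = 0

theorem Van.fderiv {R : ℝ} {p : DD Ω} (h : Van R p) (x : Eu n) (hx : R < ‖x‖) :
    fderiv ℝ (vf p) x = 0 ∧ fderiv ℝ (tf p) x = 0 := by
  have ho : IsOpen {y : Eu n | R < ‖y‖} := isOpen_lt continuous_const continuous_norm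
  have hn : {y : Eu n | R < ‖y‖} ∈ 𝓝 x := ho.mem_nhds hx
  constructor
  · have h1 : vf p =ᶠ[𝓝 x] fun _ => 0 := by
      filter_upwards [hn] with y hy
      exact (h y hy).1
    rw [h1.fderiv_eq]; simp
  · have h1 : tf p =ᶠ[𝓝 x] fun _ => 0 := by
      filter_upwards [hn] with y hy
      exact (h y hy).2
    rw [h1.fderiv_eq]; simp

theorem exists_van (p : DD Ω) : ∃ N : ℕ, Van (N : ℝ) p := by
  obtain ⟨R1, h1⟩ := (vf_cpt p).isCompact.isBounded.subset_closedBall (0 : Eu n)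
  obtain ⟨R2, h2⟩ := (tf_cpt p).isCompact.isBounded.subset_closedBall (0 : Eu n)
  obtain ⟨N, hN⟩ := exists_nat_ge (max R1 R2)
  refine ⟨N, fun x hx => ⟨?_, ?_⟩⟩
  · by_contra h0
    have := h1 (subset_closure h0)
    rw [mem_closedBall_zero_iff] at this
    linarith [le_max_left R1 R2]
  · by_contra h0
    have := h2 (subset_closure h0)
    rw [mem_closedBall_zero_iff] at this
    linarith [le_max_right R1 R2]

theorem dense_seq (Ω : Set (Eu n)) :
    ∃ d : ℕ → DD Ω, ∀ p : DD Ω, ∃ R : ℝ, Van R p ∧ ∀ ε : ℝ, 0 < ε → ∃ i, Van R (d i) ∧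
      (∀ x, ‖vf (d i) x - vf p x‖ ≤ ε) ∧ (∀ x, ‖tf (d i) x - tf p x‖ ≤ ε) ∧
      (∀ x, ‖fderiv ℝ (vf (d i)) x - fderiv ℝ (vf p) x‖ ≤ ε) ∧
      (∀ x, ‖fderiv ℝ (tf (d i)) x - fderiv ℝ (tf p) x‖ ≤ ε) := by
  classical
  have key : ∀ N : ℕ, ∃ P : Set (DD Ω), P.Countable ∧ (∀ q ∈ P, Van (N : ℝ) q) ∧
      ∀ p : DD Ω, Van (N : ℝ) p → ∀ ε : ℝ, 0 < ε → ∃ q ∈ P, dist (jet (N : ℝ) q) (jet (N : ℝ) p) < ε := by
    intro N
    have hs : TopologicalSpace.IsSeparable (jet (N : ℝ) '' {p : DD Ω | Van (N : ℝ) p}) :=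
      TopologicalSpace.IsSeparable.of_separableSpace _
    obtain ⟨t, ht, htc, hts⟩ := hs.exists_countable_dense_subset
    have hch : ∀ f : t, ∃ q : DD Ω, Van (N : ℝ) q ∧ jet (N : ℝ) q = f := by
      intro f
      obtain ⟨q, hq, hqf⟩ := ht f.2
      exact ⟨q, hq, hqf⟩
    choose q hq hqf using hch
    refine ⟨range q, ?_, ?_, ?_⟩
    · haveI := htc.to_subtype
      exact countable_range q
    · rintro _ ⟨f, rfl⟩; exact hq f
    · intro p hp ε hε
      have h1 : jet (N : ℝ) p ∈ closure t := hts ⟨p, hp, rfl⟩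
      obtain ⟨f, hf, hd⟩ := (Metric.mem_closure_iff (α := C(closedBall (0 : Eu n) (N : ℝ), WW n))
        (s := t) (a := jet (N : ℝ) p)).1 h1 ε hε
      refine ⟨q ⟨f, hf⟩, ⟨_, rfl⟩, ?_⟩
      rw [hqf, dist_comm]; exact hd
  choose P hPc hPv hPd using key
  have hc : (⋃ N, P N ∪ {0}).Countable := countable_iUnion fun N => (hPc N).union (countable_singleton _)
  have hne : (⋃ N, P N ∪ {0}).Nonempty := ⟨0, mem_iUnion.2 ⟨0, Or.inr rfl⟩⟩
  obtain ⟨d, hd⟩ := hc.exists_eq_range hne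
  refine ⟨d, fun p => ?_⟩
  obtain ⟨N, hN⟩ := exists_van p
  refine ⟨N, hN, fun ε hε => ?_⟩
  obtain ⟨q, hq, hqd⟩ := hPd N p hN ε hε
  have hq' : q ∈ range d := by
    rw [← hd]
    exact mem_iUnion.2 ⟨N, Or.inl hq⟩
  obtain ⟨i, rfl⟩ := hq'
  have hv := hPv N _ hq
  have hjet : ∀ x : closedBall (0 : Eu n) (N : ℝ),
      dist (jet (N : ℝ) (d i) x) (jet (N : ℝ) p x) ≤ ε := fun x =>
    (ContinuousMap.dist_apply_le_dist x).trans hqd.le
  have hball : ∀ x : Eu n, ¬ ((N : ℝ) < ‖x‖) → x ∈ closedBall (0 : Eu n) (N : ℝ) := by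
    intro x hx
    rw [mem_closedBall_zero_iff]; linarith
  refine ⟨i, hv, fun x => ?_, fun x => ?_, fun x => ?_, fun x => ?_⟩
  · by_cases hx : (N : ℝ) < ‖x‖
    · rw [(hv x hx).1, (hN x hx).1, sub_zero, norm_zero]; exact hε.le
    · have := hjet ⟨x, hball x hx⟩
      rw [← dist_eq_norm]
      refine le_trans ?_ this
      exact le_trans (le_max_left _ _) (le_max_left _ _)
  · by_cases hx : (N : ℝ) < ‖x‖
    · rw [(hv x hx).2, (hN x hx).2, sub_zero, norm_zero]; exact hε.le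
    · have := hjet ⟨x, hball x hx⟩
      rw [← dist_eq_norm]
      refine le_trans ?_ this
      exact le_trans (le_max_right _ _) (le_max_left _ _)
  · by_cases hx : (N : ℝ) < ‖x‖
    · rw [(hv.fderiv x hx).1, (hN.fderiv x hx).1, sub_zero, norm_zero]; exact hε.le
    · have := hjet ⟨x, hball x hx⟩
      rw [← dist_eq_norm]
      refine le_trans ?_ this
      exact le_trans (le_max_left _ _) (le_max_right _ _)
  · by_cases hx : (N : ℝ) < ‖x‖
    · rw [(hv.fderiv x hx).2, (hN.fderiv x hx).2, sub_zero, norm_zero]; exact hε.le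
    · have := hjet ⟨x, hball x hx⟩
      rw [← dist_eq_norm]
      refine le_trans ?_ this
      exact le_trans (le_max_right _ _) (le_max_right _ _)

end Pool.Agent.Helper42.Jef
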