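import Pool.Agent.Helper42.Jef.RegL
import Pool.Agent.Helper94.JefGT

/-! # General space-time test functions -/

open MeasureTheory Set Filter Topology
open scoped ENNReal NNReal ContDiff

namespace Pool.Agent.Helper42.Jef

set_option maxHeartbeats 1000000

variable {n : ℕ} {Ω : Set (Eu n)}

section gen

variable {E : Type*} [NormedAddCommGroup E] [InnerProductSpace ℝ E] [FiniteDimensional ℝ E]

/-- integrability of the pairing with a bounded continuous test field -/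
theorem int_pair {ν : Measure (Eu n)} {p : Eu n → E} (hp : Integrable p ν) {φ : Eu n → E}
    (hφ : Continuous φ) {c : ℝ} (hc : ∀ x, ‖φ x‖ ≤ c) :
    Integrable (fun x => inner ℝ (p x) (φ x)) ν ∧
      |∫ x, inner ℝ (p x) (φ x) ∂ν| ≤ (∫ x, ‖p x‖ ∂ν) * c := by
  have h1 : ∀ x, ‖inner ℝ (p x) (φ x)‖ ≤ ‖p x‖ * c := fun x =>
    (norm_inner_le_norm _ _).trans (mul_le_mul_of_nonneg_left (hc x) (norm_nonneg _))
  have h2 : Integrable (fun x => inner ℝ (p x) (φ x)) ν :=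
    (hp.norm.mul_const c).mono' (hp.1.inner hφ.aestronglyMeasurable) (Eventually.of_forall h1)
  refine ⟨h2, ?_⟩
  rw [← integral_mul_const, ← Real.norm_eq_abs]
  exact (norm_integral_le_integral_norm _).trans (integral_mono h2.norm (hp.norm.mul_const c) h1)

/-- the pairing `⟨q₀, φ⟩ + ∑_j ⟨q_j, ∂_j φ⟩` at a point -/
noncomputable def prg (q0 : ST n → E) (q : Fin n → ST n → E) (φ : Eu n → E) (t : ℝ) (x : Eu n) :
    ℝ := inner ℝ (q0 (t, x)) (φ x) + ∑ j, inner ℝ (q j (t, x)) (fderiv ℝ φ x (bv j))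

theorem norm_bv (j : Fin n) : ‖(bv j : Eu n)‖ = 1 := by
  simp [bv]

theorem prg_int {ν : Measure (Eu n)} {q0 : ST n → E} {q : Fin n → ST n → E} {t : ℝ}
    (h0 : Integrable (fun x => q0 (t, x)) ν) (h1 : ∀ j, Integrable (fun x => q j (t, x)) ν)
    {φ : Eu n → E} (hφ : Continuous φ) (hφ' : Continuous (fderiv ℝ φ)) {c : ℝ}
    (hc : ∀ x, ‖φ x‖ ≤ c ∧ ‖fderiv ℝ φ x‖ ≤ c) :
    Integrable (prg q0 q φ t) ν ∧ |∫ x, prg q0 q φ t x ∂ν| ≤
      ((∫ x, ‖q0 (t, x)‖ ∂ν) + ∑ j, ∫ x, ‖q j (t, x)‖ ∂ν) * c := by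
  have hcj : ∀ (j : Fin n) x, ‖fderiv ℝ φ x (bv j)‖ ≤ c := by
    intro j x
    refine (ContinuousLinearMap.le_opNorm _ _).trans ?_
    rw [norm_bv, mul_one]; exact (hc x).2
  have i0 := int_pair h0 hφ fun x => (hc x).1
  have i1 := fun j => int_pair (h1 j) (hφ'.clm_apply (continuous_const (y := (bv j : Eu n))))
    (hcj j)
  have i2 : Integrable (fun x => ∑ j, inner ℝ (q j (t, x)) (fderiv ℝ φ x (bv j))) ν :=
    integrable_finsetSum _ fun j _ => (i1 j).1
  refine ⟨i0.1.add i2, ?_⟩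
  have e1 : ∫ x, prg q0 q φ t x ∂ν = (∫ x, inner ℝ (q0 (t, x)) (φ x) ∂ν) +
      ∑ j, ∫ x, inner ℝ (q j (t, x)) (fderiv ℝ φ x (bv j)) ∂ν := by
    rw [← integral_finsetSum _ fun j _ => (i1 j).1, ← integral_add i0.1 i2]
    rfl
  rw [e1, add_mul, Finset.sum_mul]
  refine (abs_add_le _ _).trans (add_le_add i0.2 ?_)
  exact (Finset.abs_sum_le_sum_abs _ _).trans (Finset.sum_le_sum fun j _ => (i1 j).2)

/-- general test functions from product test functions -/
theorem gt_gen {T : ℝ} (hT : 0 < T) (P : Submodule ℝ (Eu n → E))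
    (hPs : ∀ φ ∈ P, ContDiff ℝ ∞ φ ∧ HasCompactSupport φ)
    {p q0 : ST n → E} {q : Fin n → ST n → E}
    (hp : IntegrableOn p (Ioo 0 T ×ˢ Ω) volume) (hq0 : IntegrableOn q0 (Ioo 0 T ×ˢ Ω) volume)
    (hq : ∀ j, IntegrableOn (q j) (Ioo 0 T ×ˢ Ω) volume)
    {ℓ : ℝ → (Eu n → E) → ℝ} (hℓ1 : ∀ t, ∀ φ ∈ P, ∀ ψ ∈ P, ℓ t (φ + ψ) = ℓ t φ + ℓ t ψ)
    (hℓ2 : ∀ t (r : ℝ), ∀ φ ∈ P, ℓ t (r • φ) = r * ℓ t φ)
    {k0 : ℝ → ℝ} (hk0 : ∀ t, 0 ≤ k0 t) (hk0i : IntegrableOn k0 (Ioo 0 T))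
    (hℓb : ∀ φ ∈ P, ∀ c : ℝ, (∀ x, ‖φ x‖ ≤ c ∧ ‖fderiv ℝ φ x‖ ≤ c) →
      ∀ t ∈ Ioo 0 T, |ℓ t φ| ≤ k0 t * c)
    (hℓm : ∀ φ ∈ P, AEStronglyMeasurable (fun t => ℓ t φ) (volume.restrict (Ioo 0 T)))
    {u0 : Eu n → E} (hu0 : IntegrableOn u0 Ω volume)
    (heq : ∀ η, IsTime (-1) T η → ∀ φ ∈ P,
      (∫ z in Ioo 0 T ×ˢ Ω, (deriv η z.1 * inner ℝ (p z) (φ z.2) +
        η z.1 * prg q0 q φ z.1 z.2)) + (∫ t in Ioo 0 T, η t * ℓ t φ) +
        η 0 * ∫ x in Ω, inner ℝ (u0 x) (φ x) = 0)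
    (Φ : ST n → E) (hΦ : ContDiff ℝ ∞ Φ) (hc : HasCompactSupport Φ)
    (hs : tsupport Φ ⊆ {z : ST n | z.1 < T}) (hP : ∀ t, (fun x => Φ (t, x)) ∈ P)
    (hP' : ∀ t, (fun x => fderiv ℝ Φ (t, x) (1, 0)) ∈ P) :
    (∫ t in Ioo 0 T, ((∫ x in Ω, (inner ℝ (p (t, x)) (fderiv ℝ Φ (t, x) (1, 0)) +
      prg q0 q (fun y => Φ (t, y)) t x)) +
      ℓ t (fun x => Φ (t, x)))) + ∫ x in Ω, inner ℝ (u0 x) (Φ (0, x)) = 0 := by
  classical
  set ν : Measure (Eu n) := volume.restrict Ω with hν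
  have hprod : (volume : Measure (ST n)).restrict (Ioo 0 T ×ˢ Ω) =
      ((volume : Measure ℝ).restrict (Ioo 0 T)).prod ν := by
    have hvol : (volume : Measure (ST n)) = (volume : Measure ℝ).prod (volume : Measure (Eu n)) :=
      rfl
    rw [hvol, ← Measure.prod_restrict]
  have ip : Integrable p (((volume : Measure ℝ).restrict (Ioo 0 T)).prod ν) := by
    rw [← hprod]; exact hp
  have iq0 : Integrable q0 (((volume : Measure ℝ).restrict (Ioo 0 T)).prod ν) := by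
    rw [← hprod]; exact hq0
  have iq : ∀ j, Integrable (q j) (((volume : Measure ℝ).restrict (Ioo 0 T)).prod ν) := by
    intro j
    rw [← hprod]; exact hq j
  let good : Set ℝ := {t | Integrable (fun x => p (t, x)) ν ∧ Integrable (fun x => q0 (t, x)) ν ∧
    ∀ j, Integrable (fun x => q j (t, x)) ν}
  have hgood : ∀ᵐ t ∂((volume : Measure ℝ).restrict (Ioo 0 T)), t ∈ good := by
    filter_upwards [ip.prod_right_ae, iq0.prod_right_ae,
      ae_all_iff.2 fun j => (iq j).prod_right_ae] with t h1 h2 h3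
    exact ⟨h1, h2, h3⟩
  let A : (Eu n → E) → ℝ → ℝ := fun φ t => if t ∈ good then ∫ x, inner ℝ (p (t, x)) (φ x) ∂ν else 0
  let B0 : (Eu n → E) → ℝ → ℝ := fun φ t =>
    if t ∈ good then ∫ x, prg q0 q φ t x ∂ν else 0
  let C : (Eu n → E) → ℝ := fun φ => ∫ x, inner ℝ (u0 x) (φ x) ∂ν
  let k : ℝ → ℝ := fun t => (∫ x, ‖p (t, x)‖ ∂ν) + ((∫ x, ‖q0 (t, x)‖ ∂ν) +
    ∑ j, ∫ x, ‖q j (t, x)‖ ∂ν) + k0 t
  have hk : IntegrableOn k (Ioo 0 T) := by
    have h1 : IntegrableOn (fun t => ∑ j, ∫ x, ‖q j (t, x)‖ ∂ν) (Ioo 0 T) :=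
      integrable_finsetSum _ fun j _ => (iq j).norm.integral_prod_left
    exact (ip.norm.integral_prod_left.add (iq0.norm.integral_prod_left.add h1)).add hk0i
  have hn1 : ∀ t, 0 ≤ ∫ x, ‖p (t, x)‖ ∂ν := fun t => integral_nonneg fun x => norm_nonneg _
  have hn2 : ∀ t, 0 ≤ (∫ x, ‖q0 (t, x)‖ ∂ν) + ∑ j, ∫ x, ‖q j (t, x)‖ ∂ν := fun t =>
    add_nonneg (integral_nonneg fun x => norm_nonneg _)
      (Finset.sum_nonneg fun j _ => integral_nonneg fun x => norm_nonneg _)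
  have hkn : ∀ t, 0 ≤ k t := fun t => add_nonneg (add_nonneg (hn1 t) (hn2 t)) (hk0 t)
  have hcd : ∀ φ ∈ P, Continuous φ ∧ Continuous (fderiv ℝ φ) ∧ (∃ c : ℝ, ∀ x, ‖φ x‖ ≤ c) ∧
      ∃ c : ℝ, ∀ x, ‖fderiv ℝ φ x‖ ≤ c := by
    intro φ hφ
    obtain ⟨h1, h2⟩ := hPs φ hφ
    have h3 : Continuous (fderiv ℝ φ) := h1.continuous_fderiv (by simp)
    exact ⟨h1.continuous, h3, h1.continuous.bounded_above_of_compact_support h2,
      h3.bounded_above_of_compact_support (h2.fderiv (𝕜 := ℝ))⟩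
  have iA : ∀ φ ∈ P, ∀ t ∈ good, Integrable (fun x => inner ℝ (p (t, x)) (φ x)) ν := by
    intro φ hφ t ht
    obtain ⟨h1, h2, ⟨c, h3⟩, -⟩ := hcd φ hφ
    exact (int_pair ht.1 h1 h3).1
  have iB : ∀ φ ∈ P, ∀ t ∈ good, Integrable (prg q0 q φ t) ν := by
    intro φ hφ t ht
    obtain ⟨h1, h2, ⟨c, h3⟩, ⟨c', h4⟩⟩ := hcd φ hφ
    exact (prg_int ht.2.1 ht.2.2 h1 h2 (c := max c c') fun x =>
      ⟨(h3 x).trans (le_max_left _ _), (h4 x).trans (le_max_right _ _)⟩).1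
  have iC : ∀ φ ∈ P, Integrable (fun x => inner ℝ (u0 x) (φ x)) ν := by
    intro φ hφ
    obtain ⟨h1, h2, ⟨c, h3⟩, -⟩ := hcd φ hφ
    exact (int_pair hu0 h1 h3).1
  have fadd : ∀ φ ∈ P, ∀ ψ ∈ P, ∀ x, fderiv ℝ (φ + ψ) x = fderiv ℝ φ x + fderiv ℝ ψ x := by
    intro φ hφ ψ hψ x
    exact fderiv_add ((hPs φ hφ).1.differentiable (by simp) x)
      ((hPs ψ hψ).1.differentiable (by simp) x)
  have fsmul : ∀ φ ∈ P, ∀ (r : ℝ), ∀ x, fderiv ℝ (r • φ) x = r • fderiv ℝ φ x := by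
    intro φ hφ r x
    exact fderiv_const_smul ((hPs φ hφ).1.differentiable (by simp) x) r
  have hAeq : ∀ φ, ∀ t ∈ good, A φ t = ∫ x, inner ℝ (p (t, x)) (φ x) ∂ν := by
    intro φ t ht
    simp only [A, if_pos ht]
  have hBeq : ∀ φ, ∀ t ∈ good, B0 φ t = ∫ x, prg q0 q φ t x ∂ν := by
    intro φ t ht
    simp only [B0, if_pos ht]
  have hA0 : ∀ φ, ∀ t, t ∉ good → A φ t = 0 := fun φ t ht => by simp only [A, if_neg ht]
  have hB0 : ∀ φ, ∀ t, t ∉ good → B0 φ t = 0 := fun φ t ht => by simp only [B0, if_neg ht]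
  -- product integrands
  have hAm : ∀ φ ∈ P, AEStronglyMeasurable (A φ) (volume.restrict (Ioo 0 T)) := by
    intro φ hφ
    have h1 : AEStronglyMeasurable (fun z : ℝ × Eu n => inner ℝ (p z) (φ z.2))
        (((volume : Measure ℝ).restrict (Ioo 0 T)).prod ν) :=
      ip.1.inner ((hcd φ hφ).1.comp continuous_snd).aestronglyMeasurable
    refine h1.integral_prod_right'.congr ?_
    filter_upwards [hgood] with t ht
    exact (hAeq φ t ht).symm
  have hprm : ∀ φ ∈ P, AEStronglyMeasurable (fun z : ℝ × Eu n => prg q0 q φ z.1 z.2)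
        (((volume : Measure ℝ).restrict (Ioo 0 T)).prod ν) := by
    intro φ hφ
    have h1 : AEStronglyMeasurable (fun z : ℝ × Eu n => inner ℝ (q0 z) (φ z.2))
        (((volume : Measure ℝ).restrict (Ioo 0 T)).prod ν) :=
      iq0.1.inner ((hcd φ hφ).1.comp continuous_snd).aestronglyMeasurable
    have h2 : ∀ j, AEStronglyMeasurable
        (fun z : ℝ × Eu n => inner ℝ (q j z) (fderiv ℝ φ z.2 (bv j)))
        (((volume : Measure ℝ).restrict (Ioo 0 T)).prod ν) := fun j =>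
      (iq j).1.inner (((hcd φ hφ).2.1.comp continuous_snd).clm_apply
        continuous_const).aestronglyMeasurable
    have h3 := h1.add (Finset.aestronglyMeasurable_sum Finset.univ fun j _ => h2 j)
    refine h3.congr (Eventually.of_forall fun z => ?_)
    simp only [Pi.add_apply, Finset.sum_apply, prg]
  have hBm : ∀ φ ∈ P, AEStronglyMeasurable (B0 φ) (volume.restrict (Ioo 0 T)) := by
    intro φ hφ
    refine (hprm φ hφ).integral_prod_right'.congr ?_
    filter_upwards [hgood] with t ht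
    exact (hBeq φ t ht).symm
  have hAb : ∀ φ ∈ P, ∀ c : ℝ, (∀ x, ‖φ x‖ ≤ c ∧ ‖fderiv ℝ φ x‖ ≤ c) → ∀ t, |A φ t| ≤ k t * c := by
    intro φ hφ c hcb t
    have hc0 : 0 ≤ c := (norm_nonneg _).trans (hcb 0).1
    by_cases ht : t ∈ good
    · rw [hAeq φ t ht]
      refine (int_pair ht.1 (hcd φ hφ).1 fun x => (hcb x).1).2.trans ?_
      refine mul_le_mul_of_nonneg_right ?_ hc0
      have h2 := hn2 t
      have h3 := hk0 t
      simp only [k]
      linarith
    · rw [hA0 φ t ht, abs_zero]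
      exact mul_nonneg (hkn t) hc0
  have hBb : ∀ φ ∈ P, ∀ c : ℝ, (∀ x, ‖φ x‖ ≤ c ∧ ‖fderiv ℝ φ x‖ ≤ c) → ∀ t ∈ Ioo 0 T,
      |B0 φ t + ℓ t φ| ≤ k t * c := by
    intro φ hφ c hcb t htT
    have hc0 : 0 ≤ c := (norm_nonneg _).trans (hcb 0).1
    have h3 := hℓb φ hφ c hcb t htT
    have h4 : |B0 φ t| ≤ ((∫ x, ‖q0 (t, x)‖ ∂ν) + ∑ j, ∫ x, ‖q j (t, x)‖ ∂ν) * c := by
      by_cases ht : t ∈ good
      · rw [hBeq φ t ht]
        exact (prg_int ht.2.1 ht.2.2 (hcd φ hφ).1 (hcd φ hφ).2.1 hcb).2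
      · rw [hB0 φ t ht, abs_zero]
        exact mul_nonneg (hn2 t) hc0
    have h5 : 0 ≤ (∫ x, ‖p (t, x)‖ ∂ν) * c := mul_nonneg (hn1 t) hc0
    calc |B0 φ t + ℓ t φ| ≤ |B0 φ t| + |ℓ t φ| := abs_add_le _ _
      _ ≤ ((∫ x, ‖q0 (t, x)‖ ∂ν) + ∑ j, ∫ x, ‖q j (t, x)‖ ∂ν) * c + k0 t * c := add_le_add h4 h3
      _ ≤ k t * c := by simp only [k]; nlinarith
  have heq' : ∀ η, IsTime (-1) T η → ∀ φ ∈ P,
      (∫ t in Ioo 0 T, (deriv η t * A φ t + η t * (B0 φ t + ℓ t φ))) + η 0 * C φ = 0 := by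
    intro η hη φ hφ
    refine Eq.trans ?_ (heq η hη φ hφ)
    obtain ⟨Cη, hCη⟩ := hη.bounded.1
    obtain ⟨Cη', hCη'⟩ := hη.bounded.2
    obtain ⟨h1, h2, ⟨c1, h3⟩, ⟨c2, h4⟩⟩ := hcd φ hφ
    have j1 : Integrable (fun z : ℝ × Eu n => deriv η z.1 * inner ℝ (p z) (φ z.2))
        (((volume : Measure ℝ).restrict (Ioo 0 T)).prod ν) := by
      have h5 : Integrable (fun z : ℝ × Eu n => inner ℝ (p z) (φ z.2))
          (((volume : Measure ℝ).restrict (Ioo 0 T)).prod ν) :=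
        (ip.norm.mul_const c1).mono' (ip.1.inner (h1.comp continuous_snd).aestronglyMeasurable)
          (Eventually.of_forall fun z => (norm_inner_le_norm _ _).trans
            (mul_le_mul_of_nonneg_left (h3 z.2) (norm_nonneg _)))
      exact h5.bdd_mul (hη.dcont.comp continuous_fst).aestronglyMeasurable
        (Eventually.of_forall fun z => hCη' z.1)
    have j0 : Integrable (fun z : ℝ × Eu n => prg q0 q φ z.1 z.2)
        (((volume : Measure ℝ).restrict (Ioo 0 T)).prod ν) := by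
      have h5 : Integrable (fun z : ℝ × Eu n => (‖q0 z‖ + ∑ j, ‖q j z‖) * max c1 c2)
          (((volume : Measure ℝ).restrict (Ioo 0 T)).prod ν) :=
        (iq0.norm.add (integrable_finsetSum _ fun j _ => (iq j).norm)).mul_const _
      refine h5.mono' (hprm φ hφ) (Eventually.of_forall fun z => ?_)
      have g1 : ‖inner ℝ (q0 z) (φ z.2)‖ ≤ ‖q0 z‖ * max c1 c2 :=
        (norm_inner_le_norm _ _).trans (mul_le_mul_of_nonneg_left
          ((h3 z.2).trans (le_max_left _ _)) (norm_nonneg _))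
      have g2 : ∀ j, ‖inner ℝ (q j z) (fderiv ℝ φ z.2 (bv j))‖ ≤ ‖q j z‖ * max c1 c2 := by
        intro j
        refine (norm_inner_le_norm _ _).trans (mul_le_mul_of_nonneg_left ?_ (norm_nonneg _))
        refine (ContinuousLinearMap.le_opNorm _ _).trans ?_
        rw [norm_bv, mul_one]
        exact (h4 z.2).trans (le_max_right _ _)
      calc ‖prg q0 q φ z.1 z.2‖ ≤ ‖inner ℝ (q0 z) (φ z.2)‖ +
            ‖∑ j, inner ℝ (q j z) (fderiv ℝ φ z.2 (bv j))‖ := norm_add_le _ _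
        _ ≤ ‖q0 z‖ * max c1 c2 + ∑ j, ‖q j z‖ * max c1 c2 :=
            add_le_add g1 ((norm_sum_le _ _).trans (Finset.sum_le_sum fun j _ => g2 j))
        _ = (‖q0 z‖ + ∑ j, ‖q j z‖) * max c1 c2 := by rw [add_mul, Finset.sum_mul]
    have j2 : Integrable (fun z : ℝ × Eu n => η z.1 * prg q0 q φ z.1 z.2)
        (((volume : Measure ℝ).restrict (Ioo 0 T)).prod ν) :=
      j0.bdd_mul (hη.cont.comp continuous_fst).aestronglyMeasurable
        (Eventually.of_forall fun z => hCη z.1)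
    have e1 : ∫ z in Ioo 0 T ×ˢ Ω, (deriv η z.1 * inner ℝ (p z) (φ z.2) +
        η z.1 * prg q0 q φ z.1 z.2) =
        ∫ t in Ioo 0 T, (deriv η t * A φ t + η t * B0 φ t) := by
      have j3 : Integrable (fun z : ℝ × Eu n => deriv η z.1 * inner ℝ (p z) (φ z.2) +
          η z.1 * prg q0 q φ z.1 z.2) (((volume : Measure ℝ).restrict (Ioo 0 T)).prod ν) :=
        j1.add j2
      rw [hprod, integral_prod _ j3]
      refine integral_congr_ae ?_
      filter_upwards [hgood] with t ht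
      have k1 : Integrable (fun x => deriv η t * inner ℝ (p (t, x)) (φ x)) ν :=
        (iA φ hφ t ht).const_mul _
      have k2 : Integrable (fun x => η t * prg q0 q φ t x) ν := (iB φ hφ t ht).const_mul _
      have k3 : ∫ x, (deriv η t * inner ℝ (p (t, x)) (φ x) +
          η t * prg q0 q φ t x) ∂ν =
          deriv η t * A φ t + η t * B0 φ t := by
        rw [integral_add k1 k2, integral_const_mul, integral_const_mul, hAeq φ t ht, hBeq φ t ht]
      exact k3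
    have i1 : IntegrableOn (fun t => deriv η t * A φ t + η t * B0 φ t) (Ioo 0 T) := by
      have h5 := (j1.add j2).integral_prod_left
      refine h5.congr ?_
      filter_upwards [hgood] with t ht
      have k1 : Integrable (fun x => deriv η t * inner ℝ (p (t, x)) (φ x)) ν :=
        (iA φ hφ t ht).const_mul _
      have k2 : Integrable (fun x => η t * prg q0 q φ t x) ν := (iB φ hφ t ht).const_mul _
      have k3 : ∫ x, (deriv η t * inner ℝ (p (t, x)) (φ x) +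
          η t * prg q0 q φ t x) ∂ν =
          deriv η t * A φ t + η t * B0 φ t := by
        rw [integral_add k1 k2, integral_const_mul, integral_const_mul, hAeq φ t ht, hBeq φ t ht]
      exact k3
    have i2 : IntegrableOn (fun t => η t * ℓ t φ) (Ioo 0 T) := by
      have h5 : IntegrableOn (fun t => ℓ t φ) (Ioo 0 T) := by
        refine (hk0i.mul_const (max c1 c2)).mono' (hℓm φ hφ) ?_
        rw [ae_restrict_iff' measurableSet_Ioo]
        refine Eventually.of_forall fun t ht => ?_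
        exact hℓb φ hφ _ (fun x => ⟨(h3 x).trans (le_max_left _ _),
          (h4 x).trans (le_max_right _ _)⟩) t ht
      exact h5.bdd_mul hη.cont.aestronglyMeasurable (Eventually.of_forall fun t => hCη t)
    rw [e1]
    congr 1
    rw [← integral_add i1 i2]
    refine integral_congr_ae (Eventually.of_forall fun t => ?_)
    simp only
    ring
  have main := Pool.Agent.Helper94.Jef.gt_abs hT P A (fun φ t => B0 φ t + ℓ t φ) C ?_ ?_ ?_ ?_ ?_ ?_
    k hkn hk (∫ x, ‖u0 x‖ ∂ν) (fun φ hφ c hcb t _ => hAb φ hφ c hcb t) hBb ?_ hAm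
    (fun φ hφ => (hBm φ hφ).add (hℓm φ hφ)) heq' Φ hΦ hc hs hP hP'
  · refine Eq.trans ?_ main.2
    congr 1
    refine integral_congr_ae ?_
    filter_upwards [hgood] with t ht
    rw [hAeq _ t ht, hBeq _ t ht]
    have k1 := iA _ (hP' t) t ht
    have k2 := iB _ (hP t) t ht
    rw [integral_add k1 k2]
    ring
  · intro t φ hφ ψ hψ
    by_cases ht : t ∈ good
    · rw [hAeq _ t ht, hAeq _ t ht, hAeq _ t ht, ← integral_add (iA φ hφ t ht) (iA ψ hψ t ht)]
      refine integral_congr_ae (Eventually.of_forall fun x => ?_)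
      simp only [Pi.add_apply, inner_add_right]
    · rw [hA0 _ t ht, hA0 _ t ht, hA0 _ t ht, add_zero]
  · intro t r φ hφ
    by_cases ht : t ∈ good
    · rw [hAeq _ t ht, hAeq _ t ht, ← integral_const_mul]
      refine integral_congr_ae (Eventually.of_forall fun x => ?_)
      simp only [Pi.smul_apply, inner_smul_right]
    · rw [hA0 _ t ht, hA0 _ t ht, mul_zero]
  · intro t φ hφ ψ hψ
    show B0 (φ + ψ) t + ℓ t (φ + ψ) = B0 φ t + ℓ t φ + (B0 ψ t + ℓ t ψ)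
    rw [hℓ1 t φ hφ ψ hψ]
    by_cases ht : t ∈ good
    · rw [hBeq _ t ht, hBeq _ t ht, hBeq _ t ht]
      have k3 : ∫ x, prg q0 q (φ + ψ) t x ∂ν =
          (∫ x, prg q0 q φ t x ∂ν) + ∫ x, prg q0 q ψ t x ∂ν := by
        rw [← integral_add (iB φ hφ t ht) (iB ψ hψ t ht)]
        refine integral_congr_ae (Eventually.of_forall fun x => ?_)
        simp only [prg, Pi.add_apply, fadd φ hφ ψ hψ, _root_.add_apply, inner_add_right,
          Finset.sum_add_distrib]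
        ring
      rw [k3]; ring
    · rw [hB0 _ t ht, hB0 _ t ht, hB0 _ t ht]; ring
  · intro t r φ hφ
    show B0 (r • φ) t + ℓ t (r • φ) = r * (B0 φ t + ℓ t φ)
    rw [hℓ2 t r φ hφ]
    by_cases ht : t ∈ good
    · rw [hBeq _ t ht, hBeq _ t ht]
      have k3 : ∫ x, prg q0 q (r • φ) t x ∂ν = r * ∫ x, prg q0 q φ t x ∂ν := by
        rw [← integral_const_mul]
        refine integral_congr_ae (Eventually.of_forall fun x => ?_)
        simp only [prg, Pi.smul_apply, fsmul φ hφ, _root_.smul_apply, inner_smul_right, mul_add,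
          Finset.mul_sum]
      rw [k3]; ring
    · rw [hB0 _ t ht, hB0 _ t ht]; ring
  · intro φ hφ ψ hψ
    show ∫ x, inner ℝ (u0 x) ((φ + ψ) x) ∂ν = _
    rw [← integral_add (iC φ hφ) (iC ψ hψ)]
    refine integral_congr_ae (Eventually.of_forall fun x => ?_)
    simp only [Pi.add_apply, inner_add_right]
  · intro r φ hφ
    show ∫ x, inner ℝ (u0 x) ((r • φ) x) ∂ν = _
    rw [← integral_const_mul]
    refine integral_congr_ae (Eventually.of_forall fun x => ?_)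
    simp only [Pi.smul_apply, inner_smul_right]
  · intro φ hφ c hcb
    exact (int_pair hu0 (hcd φ hφ).1 fun x => (hcb x).1).2

end gen

end Pool.Agent.Helper42.Jef
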