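import Pool.Agent.Helper42.Jef.FinalDefs
import Pool.Agent.Helper42.Jef.Fin1

/-! # Slices of space-time test functions -/

open MeasureTheory Set Filter Topology
open scoped ENNReal NNReal ContDiff

namespace Pool.Agent.Helper42.Jef

set_option maxHeartbeats 1000000

variable {n : ℕ} {Ω : Set (Eu n)}

section slices

variable {E : Type*} [NormedAddCommGroup E] [NormedSpace ℝ E]

theorem slice_hasFDerivAt {Φ : ST n → E} (hΦ : ContDiff ℝ ∞ Φ) (t : ℝ) (x : Eu n) :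
    HasFDerivAt (fun y => Φ (t, y))
      ((fderiv ℝ Φ (t, x)).comp (ContinuousLinearMap.inr ℝ ℝ (Eu n))) x := by
  have h1 : HasFDerivAt Φ (fderiv ℝ Φ (t, x)) (t, x) :=
    (hΦ.differentiable (by simp) (t, x)).hasFDerivAt
  have h2 : HasFDerivAt (fun y : Eu n => (t, y)) (ContinuousLinearMap.inr ℝ ℝ (Eu n)) x :=
    hasFDerivAt_prodMk_right t x
  exact h1.comp x h2

theorem slice_fderiv {Φ : ST n → E} (hΦ : ContDiff ℝ ∞ Φ) (t : ℝ) (x w : Eu n) :
    fderiv ℝ (fun y => Φ (t, y)) x w = fderiv ℝ Φ (t, x) (0, w) := by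
  rw [(slice_hasFDerivAt hΦ t x).fderiv]; rfl

theorem slice_smooth {Φ : ST n → E} (hΦ : ContDiff ℝ ∞ Φ) (t : ℝ) :
    ContDiff ℝ ∞ (fun y : Eu n => Φ (t, y)) :=
  hΦ.comp (contDiff_const.prodMk contDiff_id)

theorem slice_tsupport {Φ : ST n → E} (t : ℝ) :
    tsupport (fun y : Eu n => Φ (t, y)) ⊆ {y | (t, y) ∈ tsupport Φ} := by
  refine closure_minimal (fun y hy => subset_closure hy) ?_
  exact (isClosed_tsupport Φ).preimage (continuous_const.prodMk continuous_id)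

theorem slice_cpt {Φ : ST n → E} (hc : HasCompactSupport Φ) (t : ℝ) :
    HasCompactSupport (fun y : Eu n => Φ (t, y)) := by
  have h1 : IsCompact (Prod.snd '' tsupport Φ) := hc.isCompact.image continuous_snd
  refine HasCompactSupport.of_support_subset_isCompact h1 fun y hy => ?_
  exact ⟨(t, y), subset_closure hy, rfl⟩

/-- the time derivative of a smooth space-time field -/
theorem dt_smooth {Φ : ST n → E} (hΦ : ContDiff ℝ ∞ Φ) :
    ContDiff ℝ ∞ (fun z : ST n => fderiv ℝ Φ z (1, 0)) :=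
  (hΦ.fderiv_right (m := ∞) (by simp)).clm_apply contDiff_const

theorem dt_tsupport {Φ : ST n → E} :
    tsupport (fun z : ST n => fderiv ℝ Φ z (1, 0)) ⊆ tsupport Φ := by
  refine (closure_mono fun z hz => ?_).trans (tsupport_fderiv_subset ℝ (f := Φ))
  intro h0
  apply hz
  show fderiv ℝ Φ z (1, 0) = 0
  have h0' : fderiv ℝ Φ z = 0 := h0
  rw [h0']; rfl

theorem dt_cpt {Φ : ST n → E} (hc : HasCompactSupport Φ) :
    HasCompactSupport (fun z : ST n => fderiv ℝ Φ z (1, 0)) :=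
  hc.of_isClosed_subset (isClosed_tsupport _) dt_tsupport

end slices

/-- the second derivatives commute -/
theorem dt_dx_comm {Φ : ST n → Eu n} (hΦ : ContDiff ℝ ∞ Φ) (t : ℝ) (x : Eu n) (i : Fin n) :
    fderiv ℝ (fun y => fderiv ℝ Φ (t, y) (1, 0)) x (bv i) =
      fderiv ℝ (fun s => fderiv ℝ Φ (s, x) (0, bv i)) t 1 := by
  have hd : ContDiff ℝ ∞ (fderiv ℝ Φ) := hΦ.fderiv_right (m := ∞) (by simp)
  have hD : HasFDerivAt (fderiv ℝ Φ) (fderiv ℝ (fderiv ℝ Φ) (t, x)) (t, x) :=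
    (hd.differentiable (by simp) (t, x)).hasFDerivAt
  have h1 : HasFDerivAt (fun y : Eu n => fderiv ℝ Φ (t, y))
      ((fderiv ℝ (fderiv ℝ Φ) (t, x)).comp (ContinuousLinearMap.inr ℝ ℝ (Eu n))) x :=
    hD.comp x (hasFDerivAt_prodMk_right t x)
  have h2 : HasFDerivAt (fun s : ℝ => fderiv ℝ Φ (s, x))
      ((fderiv ℝ (fderiv ℝ Φ) (t, x)).comp (ContinuousLinearMap.inl ℝ ℝ (Eu n))) t :=
    hD.comp t (hasFDerivAt_prodMk_left t x)
  have e1 : fderiv ℝ (fun y => fderiv ℝ Φ (t, y) (1, 0)) x (bv i) =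
      fderiv ℝ (fderiv ℝ Φ) (t, x) (0, bv i) (1, 0) := by
    have := (h1.clm_apply (hasFDerivAt_const ((1:ℝ), (0 : Eu n)) x)).fderiv
    rw [this]
    simp
  have e2 : fderiv ℝ (fun s => fderiv ℝ Φ (s, x) (0, bv i)) t 1 =
      fderiv ℝ (fderiv ℝ Φ) (t, x) (1, 0) (0, bv i) := by
    have := (h2.clm_apply (hasFDerivAt_const ((0:ℝ), (bv i : Eu n)) t)).fderiv
    rw [this]
    simp
  rw [e1, e2]
  have hsym : IsSymmSndFDerivAt ℝ Φ (t, x) :=
    (hΦ.contDiffAt).isSymmSndFDerivAt (by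
      simp only [minSmoothness_of_isRCLikeNormedField]
      exact ENat.LEInfty.out)
  exact hsym.eq _ _

/-- velocity test submodule -/
def PV (Ω : Set (Eu n)) : Submodule ℝ (Eu n → Eu n) where
  carrier := {φ | IsVT Ω φ}
  add_mem' := fun h h' => h.add h'
  zero_mem' := IsVT.zero
  smul_mem' := fun c _ h => h.smul c

/-- matrix test submodule -/
def PM (Ω : Set (Eu n)) : Submodule ℝ (Eu n → Mt n) where
  carrier := {φ | ContDiff ℝ ∞ φ ∧ HasCompactSupport φ ∧ tsupport φ ⊆ Ω}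
  add_mem' := fun h h' => ⟨h.1.add h'.1, h.2.1.add h'.2.1,
    (tsupport_add _ _).trans (union_subset h.2.2 h'.2.2)⟩
  zero_mem' := ⟨contDiff_const, HasCompactSupport.zero, by
    have : tsupport (0 : Eu n → Mt n) = ∅ := by simp [tsupport]
    rw [this]; exact empty_subset _⟩
  smul_mem' := fun c φ h => ⟨contDiff_const.smul h.1, h.2.1.smul_left,
    (closure_mono (Function.support_const_smul_subset c φ)).trans h.2.2⟩

theorem vtest_slice {T : ℝ} {Φ : ST n → Eu n} (h : IsVTest Ω T Φ) (t : ℝ) :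
    IsVT Ω (fun x => Φ (t, x)) where
  smooth := slice_smooth h.smooth t
  cpt := slice_cpt h.cpt t
  supp := fun x hx => (h.supp (slice_tsupport t hx)).2
  div0 := h.div0 t

theorem vtest_dt_slice {T : ℝ} {Φ : ST n → Eu n} (h : IsVTest Ω T Φ) (t : ℝ) :
    IsVT Ω (fun x => fderiv ℝ Φ (t, x) (1, 0)) where
  smooth := slice_smooth (dt_smooth h.smooth) t
  cpt := slice_cpt (dt_cpt h.cpt) t
  supp := fun x hx => (h.supp (dt_tsupport (slice_tsupport
    (Φ := fun z : ST n => fderiv ℝ Φ z (1, 0)) t hx))).2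
  div0 := by
    intro x
    simp only [dvg]
    have h1 : ∀ i : Fin n, (fderiv ℝ (fun y => fderiv ℝ Φ (t, y) (1, 0)) x (bv i)) i =
        fderiv ℝ (fun s => (fderiv ℝ Φ (s, x) (0, bv i)) i) t 1 := by
      intro i
      rw [dt_dx_comm h.smooth]
      have hd : ContDiff ℝ ∞ (fun s : ℝ => fderiv ℝ Φ (s, x) (0, bv i)) :=
        ((h.smooth.fderiv_right (m := ∞) (by simp)).comp
          (contDiff_id.prodMk contDiff_const)).clm_apply contDiff_const
      have h2 := ((EuclideanSpace.proj (𝕜 := ℝ) i : Eu n →L[ℝ] ℝ).hasFDerivAt.comp t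
        (hd.differentiable (by simp) t).hasFDerivAt).fderiv
      have h3 : (fun s => (fderiv ℝ Φ (s, x) (0, bv i)) i) =
        (EuclideanSpace.proj (𝕜 := ℝ) i : Eu n →L[ℝ] ℝ) ∘
          (fun s : ℝ => fderiv ℝ Φ (s, x) (0, bv i)) := rfl
      rw [h3, h2]
      rfl
    simp only [h1]
    have h4 : ∀ i : Fin n, DifferentiableAt ℝ (fun s => (fderiv ℝ Φ (s, x) (0, bv i)) i) t := by
      intro i
      have hd : ContDiff ℝ ∞ (fun s : ℝ => fderiv ℝ Φ (s, x) (0, bv i)) :=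
        ((h.smooth.fderiv_right (m := ∞) (by simp)).comp
          (contDiff_id.prodMk contDiff_const)).clm_apply contDiff_const
      exact (EuclideanSpace.proj (𝕜 := ℝ) i : Eu n →L[ℝ] ℝ).differentiableAt.comp t
        (hd.differentiable (by simp) t)
    have h5 : ∑ i, fderiv ℝ (fun s => (fderiv ℝ Φ (s, x) (0, bv i)) i) t 1 =
        fderiv ℝ (fun s => ∑ i, (fderiv ℝ Φ (s, x) (0, bv i)) i) t 1 := by
      rw [fderiv_fun_sum fun i _ => h4 i]
      simp
    rw [h5]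
    have h6 : (fun s => ∑ i, (fderiv ℝ Φ (s, x) (0, bv i)) i) = fun _ => (0:ℝ) := by
      funext s
      have := h.div0 s x
      simp only [dvg, slice_fderiv h.smooth] at this
      exact this
    rw [h6]
    simp

theorem mtest_slice {T : ℝ} {Ψ : ST n → Mt n} (h : IsMTest Ω T Ψ) (t : ℝ) :
    (fun x => Ψ (t, x)) ∈ PM Ω :=
  ⟨slice_smooth h.smooth t, slice_cpt h.cpt t, fun x hx => (h.supp (slice_tsupport t hx)).2⟩

theorem mtest_dt_slice {T : ℝ} {Ψ : ST n → Mt n} (h : IsMTest Ω T Ψ) (t : ℝ) :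
    (fun x => fderiv ℝ Ψ (t, x) (1, 0)) ∈ PM Ω :=
  ⟨slice_smooth (dt_smooth h.smooth) t, slice_cpt (dt_cpt h.cpt) t, fun x hx =>
    (h.supp (dt_tsupport (slice_tsupport (Φ := fun z : ST n => fderiv ℝ Ψ z (1, 0)) t hx))).2⟩

end Pool.Agent.Helper42.Jef
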