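import Pool.Agent.Helper42.Jef.RegJ

/-! # From the functional form to `IsSol` -/

open MeasureTheory Set Filter Topology
open scoped ENNReal NNReal ContDiff

namespace Pool.Agent.Helper42.Jef

set_option maxHeartbeats 400000

variable {n : ℕ} {Ω : Set (Eu n)}

/-- matrix unit -/
noncomputable def ep (p : Fin n × Fin n) : Mt n := EuclideanSpace.single p (1 : ℝ)

theorem inner_ep (A : Mt n) (p : Fin n × Fin n) : inner ℝ A (ep p) = A p := by
  simp [ep, EuclideanSpace.inner_single_right]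

/-- the pair `(0, ψ e_p)` -/
noncomputable def tpair (Ω : Set (Eu n)) {ψ : Eu n → ℝ} (hψ : IsTest ψ) (p : Fin n × Fin n) :
    DD Ω :=
  DD.mk 0 (fun x => ψ x • ep p) IsVT.zero (hψ.smooth.smul contDiff_const) hψ.cpt.smul_right

theorem smul_int2 {α : Type*} [MeasurableSpace α] {μ : Measure α} {E : Type*}
    [NormedAddCommGroup E] [NormedSpace ℝ E] {f : α → ℝ} {u : α → E} (hf : MemLp f 2 μ)
    (hu : MemLp u 2 μ) : Integrable (fun x => f x • u x) μ := by
  have h1 : Integrable (fun x => ‖f x‖ * ‖u x‖) μ := hf.norm.integrable_mul hu.norm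
  exact h1.mono' (hf.1.smul hu.1) (Eventually.of_forall fun x => by rw [norm_smul])

/-- integrand of the stress equation -/
noncomputable def stI (a c : ℝ) (v : ST n → Eu n) (G τ S : ST n → Mt n) (η : ℝ → ℝ)
    (ψ : Eu n → ℝ) (z : ST n) : Mt n :=
  (deriv η z.1 * ψ z.2 + η z.1 * fderiv ℝ ψ z.2 (v z)) • τ z +
      (η z.1 * ψ z.2) • (c • sy (G z) - a • τ z - br (τ z) (S z))

theorem stI_int {a c : ℝ} {v : ST n → Eu n} {G τ S : ST n → Mt n} (hv : MemLp v 2 volume)
    (hG : MemLp G 2 volume) (hτ : MemLp τ 2 volume) (hS : MemLp S 2 volume) {s b : ℝ}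
    {η : ℝ → ℝ} (hη : IsTime s b η) {ψ : Eu n → ℝ} (hψ : IsTest ψ) :
    Integrable (stI a c v G τ S η ψ) := by
  have m1 : MemLp (fun z : ST n => deriv η z.1 * ψ z.2) 2 volume :=
    memLp_test (E := ℝ) hη.dcont hη.cpt.deriv hψ.smooth.continuous hψ.cpt
  have m2 : MemLp (fun z : ST n => η z.1 * fderiv ℝ ψ z.2 (v z)) 2 volume :=
    (strong_D (vs := fun _ => v) (fun _ => hv) hv (by simp) hη.cont hη.cpt hψ.smooth
      hψ.cpt).2.1
  have m3 : MemLp (fun z : ST n => η z.1 * ψ z.2) 2 volume :=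
    memLp_test (E := ℝ) hη.cont hη.cpt hψ.smooth.continuous hψ.cpt
  have hsG : MemLp (fun z => sy (G z)) 2 volume := (syL n).comp_memLp' hG
  have i1 : Integrable (fun z => (deriv η z.1 * ψ z.2 + η z.1 * fderiv ℝ ψ z.2 (v z)) • τ z) :=
    smul_int2 (m1.add m2) hτ
  have i2 : Integrable (fun z : ST n => (η z.1 * ψ z.2) • (c • sy (G z) - a • τ z)) :=
    smul_int2 m3 ((hsG.const_smul c).sub (hτ.const_smul a))
  have i3 : Integrable (fun z : ST n => (η z.1 * ψ z.2) • br (τ z) (S z)) := by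
    have h1 : Integrable (fun z => br (τ z) (S z)) volume := by
      have h2 : Integrable (fun x => ‖τ x‖ * ‖S x‖) volume := hτ.norm.integrable_mul hS.norm
      refine (h2.const_mul 2).mono' ((brL n).aestronglyMeasurable_comp₂ hτ.1 hS.1)
        (Eventually.of_forall fun x => norm_br_le _ _)
    obtain ⟨C1, hC1⟩ := hη.bounded.1
    obtain ⟨C2, hC2⟩ := hψ.smooth.continuous.bounded_above_of_compact_support hψ.cpt
    refine h1.bdd_smul (C1 * C2) m3.1 (Eventually.of_forall fun z => ?_)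
    rw [norm_mul]
    exact mul_le_mul (hC1 _) (hC2 _) (norm_nonneg _) ((abs_nonneg _).trans (hC1 0))
  refine (i1.add (i2.sub i3)).congr (Eventually.of_forall fun z => ?_)
  simp only [Pi.add_apply, Pi.sub_apply, stI, ← smul_sub]

theorem isSol_of_fun {μ a c : ℝ} {f : ℝ → (Eu n → Eu n) → ℝ} {g : ℝ → ℝ} (hf : IsForce Ω f g)
    {v0 : Eu n → Eu n}
    {τ0 : Eu n → Mt n} (hv0 : MemLp v0 2 volume) (hτ0 : MemLp τ0 2 volume) {T : ℝ}
    {v : ST n → Eu n} {G τ S : ST n → Mt n} (hv : IsVel Ω T v G)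
    (hτ : MemLp τ 2 volume) (hS : MemLp S 2 volume)
    (hsup : ∀ z : ST n, z.1 ∉ Ioo 0 T → τ z = 0)
    (h : ∀ η, IsTime (-1) T η → ∀ V : DD Ω, Fun μ a c f hv0 hτ0 T v G τ S η V = 0) :
    IsSol Ω T μ a c f v0 τ0 S v G τ where
  vel := hv
  memτ := hτ
  supτ := hsup
  memS := hS
  mom := by
    intro η φ hη hφ
    have h1 := h η hη (vpair hφ)
    simp only [Fun] at h1
    have e1 : ∀ z, LLi μ a c v G τ S η (vpair hφ) z =
        (deriv η z.1 * inner ℝ (v z) (φ z.2) +
      η z.1 * (inner ℝ (v z) (fderiv ℝ φ z.2 (v z)) - μ * inner ℝ (G z) (grad φ z.2) -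
        c * inner ℝ (τ z) (sy (grad φ z.2)))) := by
      intro z
      have ht : tf (vpair hφ) = 0 := rfl
      have hv' : vf (vpair hφ) = φ := rfl
      simp only [LLi, ht, hv', Pi.zero_apply, inner_zero_right, fderiv_zero,
        _root_.zero_apply, mul_zero, add_zero, sub_zero]
    have e2 : initL hv0 hτ0 (vpair hφ) = ∫ x, inner ℝ (v0 x) (φ x) := by
      have : initL hv0 hτ0 (vpair hφ) = (∫ x, inner ℝ (v0 x) (vf (vpair hφ) x)) +
        ∫ x, inner ℝ (τ0 x) (tf (vpair hφ) x) := rfl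
      rw [this]
      have ht : tf (vpair hφ) = 0 := rfl
      have hv' : vf (vpair hφ) = φ := rfl
      simp only [ht, hv', Pi.zero_apply, inner_zero_right, integral_zero, add_zero]
    simp only [e1] at h1
    rw [e2] at h1
    exact h1
  str := by
    intro η ψ hη hψ
    have hint := stI_int (a := a) (c := c) hv.memv hv.memG hτ hS hη hψ
    have hi2 : Integrable (fun x => ψ x • τ0 x) :=
      smul_int2 (memLp_cc hψ.smooth.continuous hψ.cpt 2) hτ0
    show (∫ z, stI a c v G τ S η ψ z) + η 0 • ∫ x, ψ x • τ0 x = 0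
    ext p
    have h1 := h η hη (tpair Ω hψ p)
    simp only [Fun] at h1
    have hv' : vf (tpair Ω hψ p) = 0 := rfl
    have ht : tf (tpair Ω hψ p) = fun x => ψ x • ep p := rfl
    have hfd : ∀ x w, fderiv ℝ (fun x => ψ x • ep p) x w = (fderiv ℝ ψ x w) • ep p := by
      intro x w
      rw [fderiv_smul_const (hψ.smooth.differentiable (by simp) x)]
      rfl
    have hg0 : ∀ x : Eu n, grad (0 : Eu n → Eu n) x = 0 := by
      intro x
      rw [grad_eq, fderiv_zero]
      exact map_zero _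
    have hs0 : sy (0 : Mt n) = 0 := (syL n).map_zero
    have e1 : ∀ z, LLi μ a c v G τ S η (tpair Ω hψ p) z = (stI a c v G τ S η ψ z) p := by
      intro z
      have r1 : (stI a c v G τ S η ψ z) p =
          (deriv η z.1 * ψ z.2 + η z.1 * fderiv ℝ ψ z.2 (v z)) * τ z p +
          (η z.1 * ψ z.2) * (c * sy (G z) p - a * τ z p - br (τ z) (S z) p) := rfl
      rw [r1]
      simp only [LLi, ht, hv', Pi.zero_apply, inner_zero_right, fderiv_zero,
        _root_.zero_apply, mul_zero, add_zero, sub_zero, hfd, hg0, hs0, inner_smul_right,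
        inner_ep, zero_add]
      ring
    have e2 : initL hv0 hτ0 (tpair Ω hψ p) = (∫ x, ψ x • τ0 x) p := by
      have r1 : initL hv0 hτ0 (tpair Ω hψ p) = (∫ x, inner ℝ (v0 x) (vf (tpair Ω hψ p) x)) +
        ∫ x, inner ℝ (τ0 x) (tf (tpair Ω hψ p) x) := rfl
      have r2 := (EuclideanSpace.proj (𝕜 := ℝ) p : Mt n →L[ℝ] ℝ).integral_comp_comm hi2
      rw [r1]
      simp only [ht, hv', Pi.zero_apply, inner_zero_right, integral_zero, zero_add,
        inner_smul_right, inner_ep]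
      exact r2
    have e3 : ∫ t in Ioo 0 T, η t * f t (vf (tpair Ω hψ p)) = 0 := by
      rw [hv']
      simp only [force_zero hf IsVT.zero, mul_zero, integral_zero]
    have e4 : (∫ z, stI a c v G τ S η ψ z) p = ∫ z, (stI a c v G τ S η ψ z) p :=
      ((EuclideanSpace.proj (𝕜 := ℝ) p : Mt n →L[ℝ] ℝ).integral_comp_comm hint).symm
    simp only [e1] at h1
    rw [e2, e3, add_zero, ← e4] at h1
    exact h1

end Pool.Agent.Helper42.Jef
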