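import Pool.Agent.Helper42.Jef.Fin2
import Pool.Agent.Helper42.Jef.RegK

/-! # From product test functions to general test functions -/

open MeasureTheory Set Filter Topology
open scoped ENNReal NNReal ContDiff

namespace Pool.Agent.Helper42.Jef

set_option maxHeartbeats 1000000

variable {n : ℕ} {Ω : Set (Eu n)}

theorem sy_br (A W : Mt n) (hW : tr W = -W) : sy (br A W) = br (sy A) W := by
  simp only [sy]
  rw [tr_br A W hW, ← br_add_left, br_smul_left]

/-- symmetrisation of the stress -/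
theorem IsSol.symm {T μ a c : ℝ} {f : ℝ → (Eu n → Eu n) → ℝ} {v0 : Eu n → Eu n}
    {τ0 : Eu n → Mt n} {S : ST n → Mt n} {v : ST n → Eu n} {G τ : ST n → Mt n}
    (h : IsSol Ω T μ a c f v0 τ0 S v G τ) (hS : ∀ z, tr (S z) = - S z)
    (hτ0 : MemLp τ0 2 volume) (hs : ∀ᵐ x, tr (τ0 x) = τ0 x) :
    IsSol Ω T μ a c f v0 τ0 S v G (fun z => sy (τ z)) where
  vel := h.vel
  memτ := (syL n).comp_memLp' h.memτ
  supτ := fun z hz => by
    rw [h.supτ z hz]; exact (syL n).map_zero
  memS := h.memS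
  mom := by
    intro η φ hη hφ
    have h1 := h.mom η φ hη hφ
    have e1 : ∀ z : ST n, inner ℝ (sy (τ z)) (sy (grad φ z.2)) =
        inner ℝ (τ z) (sy (grad φ z.2)) := by
      intro z
      rw [inner_sy_left, sy_sy]
    simp only [e1]
    exact h1
  str := by
    intro η ψ hη hψ
    have h1 := h.str η ψ hη hψ
    have hint := stI_int (a := a) (c := c) h.vel.memv h.vel.memG h.memτ h.memS hη hψ
    have hi2 : Integrable (fun x => ψ x • τ0 x) :=
      smul_int2 (memLp_cc hψ.smooth.continuous hψ.cpt 2) hτ0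
    have h1' : (∫ z, stI a c v G τ S η ψ z) + η 0 • ∫ x, ψ x • τ0 x = 0 := h1
    have h2 := congrArg (syL n) h1'
    rw [map_add, map_smul, map_zero, ← (syL n).integral_comp_comm hint,
      ← (syL n).integral_comp_comm hi2] at h2
    refine Eq.trans ?_ h2
    congr 1
    · refine integral_congr_ae (Eventually.of_forall fun z => ?_)
      simp only [stI, map_add, map_smul, map_sub, syL_apply]
      rw [sy_sy, sy_br _ _ (hS z)]
    · congr 1
      refine integral_congr_ae ?_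
      filter_upwards [hs] with x hx
      have e2 : sy (τ0 x) = τ0 x := by
        simp only [sy]
        rw [hx, ← two_smul ℝ (τ0 x), smul_smul]
        norm_num
      simp only [map_smul, syL_apply, e2]

/-- column `j` of a matrix -/
noncomputable def clv (j : Fin n) : Mt n →L[ℝ] Eu n :=
  LinearMap.toContinuousLinearMap
    { toFun := fun A => WithLp.toLp 2 fun i => A (i, j)
      map_add' := fun _ _ => rfl
      map_smul' := fun _ _ => rfl }

theorem clv_apply (j : Fin n) (A : Mt n) (i : Fin n) : clv j A i = A (i, j) := rfl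

theorem inner_grad (A : Mt n) (φ : Eu n → Eu n) (x : Eu n) :
    inner ℝ A (grad φ x) = ∑ j, inner ℝ (clv j A) (fderiv ℝ φ x (bv j)) := by
  simp only [PiLp.inner_apply, RCLike.inner_apply, conj_trivial, clv_apply]
  rw [Fintype.sum_prod_type, Finset.sum_comm]
  rfl

theorem vec_sum (w : Eu n) : w = ∑ j, w j • (bv j : Eu n) := by
  have := (EuclideanSpace.basisFun (Fin n) ℝ).sum_repr w
  simp only [EuclideanSpace.basisFun_repr, EuclideanSpace.basisFun_apply] at this
  exact this.symm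

theorem inner_conv {E : Type*} [NormedAddCommGroup E] [InnerProductSpace ℝ E] (u : E) (w : Eu n)
    (D : Eu n →L[ℝ] E) : inner ℝ u (D w) = ∑ j, inner ℝ (w j • u) (D (bv j)) := by
  conv_lhs => rw [vec_sum w]
  rw [map_sum, inner_sum]
  refine Finset.sum_congr rfl fun j _ => ?_
  rw [map_smul, inner_smul_right, inner_smul_left, conj_trivial]

theorem slab_finite (hΩb : Bornology.IsBounded Ω) (T : ℝ) :
    volume (Ioo (0:ℝ) T ×ˢ Ω : Set (ST n)) < ⊤ := by
  have hvol : (volume : Measure (ST n)) = (volume : Measure ℝ).prod (volume : Measure (Eu n)) := rfl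
  rw [hvol, Measure.prod_prod]
  refine ENNReal.mul_lt_top ?_ hΩb.measure_lt_top
  rw [Real.volume_Ioo]; exact ENNReal.ofReal_lt_top

theorem slab_int {E : Type*} [NormedAddCommGroup E] (hΩb : Bornology.IsBounded Ω) (T : ℝ)
    {u : ST n → E} (hu : MemLp u 2 volume) : IntegrableOn u (Ioo 0 T ×ˢ Ω) volume := by
  haveI : IsFiniteMeasure ((volume : Measure (ST n)).restrict (Ioo (0:ℝ) T ×ˢ Ω)) :=
    ⟨by rw [Measure.restrict_apply_univ]; exact slab_finite hΩb T⟩
  exact memLp_one_iff_integrable.1 ((hu.restrict _).mono_exponent (by norm_num))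

theorem coord_smul_int {E : Type*} [NormedAddCommGroup E] [NormedSpace ℝ E]
    {v : ST n → Eu n} {u : ST n → E} (hv : MemLp v 2 volume) (hu : MemLp u 2 volume) (j : Fin n) :
    Integrable (fun z => v z j • u z) := by
  have h1 : MemLp (fun z => v z j) 2 volume :=
    (EuclideanSpace.proj (𝕜 := ℝ) j : Eu n →L[ℝ] ℝ).comp_memLp' hv
  exact smul_int2 h1 hu

/-- the full integral reduces to the slab -/
theorem int_slab_eq {T : ℝ} {F F' : ST n → ℝ} (hΩ : MeasurableSet Ω)
    (h : ∀ᵐ z : ST n, z ∉ Ioo 0 T ×ˢ Ω → F z = 0) (h' : ∀ z : ST n, z ∈ Ioo 0 T ×ˢ Ω → F' z = F z) :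
    ∫ z in Ioo 0 T ×ˢ Ω, F' z = ∫ z, F z := by
  rw [← integral_indicator (measurableSet_Ioo.prod hΩ)]
  refine integral_congr_ae ?_
  filter_upwards [h] with z hz
  by_cases hz' : z ∈ Ioo 0 T ×ˢ Ω
  · rw [indicator_of_mem hz', h' z hz']
  · rw [indicator_of_notMem hz', hz hz']

theorem vt_zero_out {φ : Eu n → Eu n} (h : IsVT Ω φ) {x : Eu n} (hx : x ∉ Ω) :
    φ x = 0 ∧ fderiv ℝ φ x = 0 ∧ grad φ x = 0 := by
  have h1 : x ∉ tsupport φ := fun hc => hx (h.supp hc)
  have h2 : fderiv ℝ φ x = 0 := by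
    have : x ∉ tsupport (fderiv ℝ φ) := fun hc => h1 (tsupport_fderiv_subset ℝ hc)
    exact image_eq_zero_of_notMem_tsupport this
  refine ⟨image_eq_zero_of_notMem_tsupport h1, h2, ?_⟩
  rw [grad_eq, h2, map_zero]

/-- `H¹` norm of test fields with `C¹` bound -/
theorem h1_bound (hΩm : MeasurableSet Ω) (hΩb : Bornology.IsBounded Ω) {φ : Eu n → Eu n}
    (hφ : IsVT Ω φ) {c : ℝ}
    (hc : ∀ x, ‖φ x‖ ≤ c ∧ ‖fderiv ℝ φ x‖ ≤ c) :
    Real.sqrt ((∫ x, ‖φ x‖ ^ 2) + ∫ x, ‖grad φ x‖ ^ 2) ≤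
      c * Real.sqrt ((1 + cg n ^ 2) * (volume Ω).toReal) := by
  have hc0 : 0 ≤ c := (norm_nonneg _).trans (hc 0).1
  have hgen : ∀ {E : Type} [NormedAddCommGroup E] (u : Eu n → E) (C : ℝ), 0 ≤ C → (∀ x, ‖u x‖ ≤ C) →
      (∀ x, x ∉ Ω → u x = 0) → ∫ x, ‖u x‖ ^ 2 ≤ C ^ 2 * (volume Ω).toReal := by
    intro E _ u C hC hu h0
    have e1 : ∫ x, ‖u x‖ ^ 2 = ∫ x in Ω, ‖u x‖ ^ 2 := by
      rw [← integral_indicator hΩm]
      refine integral_congr_ae (Eventually.of_forall fun x => ?_)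
      by_cases hx : x ∈ Ω
      · exact (indicator_of_mem hx (fun x => ‖u x‖ ^ 2)).symm
      · refine Eq.trans ?_ (indicator_of_notMem hx (fun x => ‖u x‖ ^ 2)).symm
        simp only [h0 x hx, norm_zero]; norm_num
    rw [e1]
    have e2 := norm_setIntegral_le_of_norm_le_const (μ := volume) (s := Ω)
      (f := fun x => ‖u x‖ ^ 2) (C := C ^ 2) hΩb.measure_lt_top (fun x _ => by
        rw [Real.norm_eq_abs, abs_of_nonneg (by positivity)]
        exact pow_le_pow_left₀ (norm_nonneg _) (hu x) 2)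
    refine (le_abs_self _).trans ?_
    rw [← Real.norm_eq_abs]
    exact e2
  have i1 := hgen φ c hc0 (fun x => (hc x).1) (fun x hx => (vt_zero_out hφ hx).1)
  have i2 := hgen (grad φ) (cg n * c) (mul_nonneg (cg_nonneg n) hc0)
    (fun x => (norm_grad_le _ _).trans (mul_le_mul_of_nonneg_left (hc x).2 (cg_nonneg n)))
    (fun x hx => (vt_zero_out hφ hx).2.2)
  calc Real.sqrt ((∫ x, ‖φ x‖ ^ 2) + ∫ x, ‖grad φ x‖ ^ 2)
      ≤ Real.sqrt (c ^ 2 * ((1 + cg n ^ 2) * (volume Ω).toReal)) := by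
        refine Real.sqrt_le_sqrt ?_
        calc _ ≤ _ := add_le_add i1 i2
          _ = _ := by ring
    _ = c * Real.sqrt ((1 + cg n ^ 2) * (volume Ω).toReal) := by
        rw [Real.sqrt_mul (by positivity), Real.sqrt_sq hc0]

theorem mom_final (hΩ : IsOpen Ω) (hΩb : Bornology.IsBounded Ω) {T μ a c : ℝ} (hT : 0 < T)
    {f : ℝ → (Eu n → Eu n) → ℝ} {g : ℝ → ℝ} (hf : IsForce Ω f g) {v0 : Eu n → Eu n}
    (hv0 : MemLp v0 2 volume)
    {τ0 : Eu n → Mt n} {S : ST n → Mt n} {v : ST n → Eu n} {G τ : ST n → Mt n}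
    (h : IsSol Ω T μ a c f v0 τ0 S v G τ) {Φ : ST n → Eu n} (hΦ : IsVTest Ω T Φ) :
    (∫ t in Ioo 0 T, ((∫ x in Ω, (inner ℝ (v (t, x)) (fderiv ℝ Φ (t, x) (1, 0)) +
      inner ℝ (v (t, x)) (fderiv ℝ Φ (t, x) (0, v (t, x))) -
      μ * inner ℝ (G (t, x)) (grad (fun y => Φ (t, y)) x) -
      c * inner ℝ (τ (t, x)) (sy (grad (fun y => Φ (t, y)) x)))) +
      f t (fun x => Φ (t, x)))) + ∫ x in Ω, inner ℝ (v0 x) (Φ (0, x)) = 0 := by
  have hΩm := hΩ.measurableSet
  let q : Fin n → ST n → Eu n := fun j z => v z j • v z - μ • clv j (G z) - c • clv j (sy (τ z))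
  have hq : ∀ (z : ST n) (φ : Eu n → Eu n) (x : Eu n), ∑ j, inner ℝ (q j z) (fderiv ℝ φ x (bv j)) =
      inner ℝ (v z) (fderiv ℝ φ x (v z)) - μ * inner ℝ (G z) (grad φ x) -
        c * inner ℝ (τ z) (sy (grad φ x)) := by
    intro z φ x
    simp only [q, inner_sub_left, Finset.sum_sub_distrib]
    rw [← inner_conv, ← inner_sy_left, inner_grad, inner_grad, Finset.mul_sum, Finset.mul_sum]
    simp only [inner_smul_left, conj_trivial]
  have hsτ : MemLp (fun z => sy (τ z)) 2 volume := (syL n).comp_memLp' h.memτ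
  have hqi : ∀ j, IntegrableOn (q j) (Ioo 0 T ×ˢ Ω) volume := by
    intro j
    have h1 := (coord_smul_int h.vel.memv h.vel.memv j).integrableOn (s := Ioo 0 T ×ˢ Ω)
    have h2 : IntegrableOn (fun z => clv j (G z)) (Ioo 0 T ×ˢ Ω) volume :=
      slab_int hΩb T ((clv j).comp_memLp' h.vel.memG)
    have h3 : IntegrableOn (fun z => clv j (sy (τ z))) (Ioo 0 T ×ˢ Ω) volume :=
      slab_int hΩb T ((clv j).comp_memLp' hsτ)
    exact (h1.sub (h2.smul μ)).sub (h3.smul c)
  have hgi : IntegrableOn g (Ioo 0 T) := by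
    have hgm : MemLp g 2 (volume.restrict (Ioo 0 T)) := by
      rw [memLp_two_iff_integrable_sq hf.gmeas.restrict]
      exact hf.gint T
    haveI : IsFiniteMeasure ((volume : Measure ℝ).restrict (Ioo 0 T)) :=
      ⟨by rw [Measure.restrict_apply_univ, Real.volume_Ioo]; exact ENNReal.ofReal_lt_top⟩
    exact memLp_one_iff_integrable.1 (hgm.mono_exponent (by norm_num))
  haveI : IsFiniteMeasure ((volume : Measure (Eu n)).restrict Ω) :=
    ⟨by rw [Measure.restrict_apply_univ]; exact hΩb.measure_lt_top⟩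
  have hu0 : IntegrableOn v0 Ω volume :=
    memLp_one_iff_integrable.1 ((hv0.restrict Ω).mono_exponent (by norm_num))
  set B := Real.sqrt ((1 + cg n ^ 2) * (volume Ω).toReal) with hB
  have main := gt_gen (Ω := Ω) hT (PV Ω) (fun φ hφ => ⟨hφ.smooth, hφ.cpt⟩)
    (p := v) (q0 := fun _ => 0) (q := q)
    (slab_int hΩb T h.vel.memv) integrableOn_zero hqi
    (ℓ := f) (fun t φ hφ ψ hψ => hf.add t φ ψ hφ hψ) (fun t r φ hφ => hf.smul t r φ hφ)
    (k0 := fun t => g t * B) (fun t => mul_nonneg (hf.gnn t) (Real.sqrt_nonneg _))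
    (hgi.mul_const B)
    (fun φ hφ c' hc' t _ => by
      refine (hf.bound t φ hφ).trans ?_
      have h1 := mul_le_mul_of_nonneg_left (h1_bound hΩm hΩb hφ hc') (hf.gnn t)
      calc _ ≤ _ := h1
        _ = g t * B * c' := by rw [hB]; ring)
    (fun φ hφ => (hf.meas φ hφ).restrict)
    (u0 := v0) hu0 ?_ Φ hΦ.smooth hΦ.cpt (fun z hz => (hΦ.supp hz).1)
    (fun t => vtest_slice hΦ t) (fun t => vtest_dt_slice hΦ t)
  · refine Eq.trans ?_ main
    congr 1
    refine integral_congr_ae (Eventually.of_forall fun t => ?_)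
    simp only
    congr 1
    refine integral_congr_ae (Eventually.of_forall fun x => ?_)
    simp only [prg, inner_zero_left, zero_add, hq]
    rw [slice_fderiv hΦ.smooth]
    ring
  · intro η hη φ hφ
    have h1 := h.mom η φ hη hφ
    have e1 : ∫ z in Ioo 0 T ×ˢ Ω, (deriv η z.1 * inner ℝ (v z) (φ z.2) +
        η z.1 * prg (fun _ => 0) q φ z.1 z.2) =
        ∫ z : ST n, (deriv η z.1 * inner ℝ (v z) (φ z.2) +
      η z.1 * (inner ℝ (v z) (fderiv ℝ φ z.2 (v z)) - μ * inner ℝ (G z) (grad φ z.2) -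
        c * inner ℝ (τ z) (sy (grad φ z.2)))) := by
      refine int_slab_eq hΩm ?_ ?_
      · filter_upwards [(h.vel.zero_out hΩm).1, (h.vel.zero_out hΩm).2] with z hz1 hz2 hz
        have hs0 : sy (0 : Mt n) = 0 := (syL n).map_zero
        by_cases hx : z.2 ∈ Ω
        · have ht : z.1 ∉ Ioo 0 T := fun hc => hz ⟨hc, hx⟩
          simp only [hz1 (Or.inl ht), hz2 (Or.inl ht), h.supτ z ht, inner_zero_left, mul_zero,
            sub_zero, add_zero]
        · obtain ⟨k1, k2, k3⟩ := vt_zero_out hφ hx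
          simp only [k1, k2, k3, hs0, inner_zero_right, mul_zero, _root_.zero_apply, sub_zero,
            add_zero]
      · intro z _
        simp only [prg, inner_zero_left, zero_add, Prod.mk.eta, hq]
    have e2 : ∫ x in Ω, inner ℝ (v0 x) (φ x) = ∫ x, inner ℝ (v0 x) (φ x) := by
      rw [← integral_indicator hΩm]
      refine integral_congr_ae (Eventually.of_forall fun x => ?_)
      by_cases hx : x ∈ Ω
      · rw [indicator_of_mem hx]
      · rw [indicator_of_notMem hx]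
        simp only [(vt_zero_out hφ hx).1, inner_zero_right]
    rw [e1, e2]
    exact h1

end Pool.Agent.Helper42.Jef
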