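import Pool.Agent.Helper42.Jef.Fin3

/-! # The constitutive law with general test functions -/

open MeasureTheory Set Filter Topology
open scoped ENNReal NNReal ContDiff

namespace Pool.Agent.Helper42.Jef

set_option maxHeartbeats 1000000

variable {n : ℕ} {Ω : Set (Eu n)}

theorem pm_zero_out {φ : Eu n → Mt n} (h : φ ∈ PM Ω) {x : Eu n} (hx : x ∉ Ω) :
    φ x = 0 ∧ fderiv ℝ φ x = 0 := by
  have h1 : x ∉ tsupport φ := fun hc => hx (h.2.2 hc)
  refine ⟨image_eq_zero_of_notMem_tsupport h1, ?_⟩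
  have : x ∉ tsupport (fderiv ℝ φ) := fun hc => h1 (tsupport_fderiv_subset ℝ hc)
  exact image_eq_zero_of_notMem_tsupport this

/-- stress equation with product test functions with matrix values -/
theorem str_matrix {T μ a c : ℝ} {f : ℝ → (Eu n → Eu n) → ℝ} {v0 : Eu n → Eu n}
    {τ0 : Eu n → Mt n} {S : ST n → Mt n} {v : ST n → Eu n} {G τ : ST n → Mt n}
    (h : IsSol Ω T μ a c f v0 τ0 S v G τ) (hτ0 : MemLp τ0 2 volume) {η : ℝ → ℝ}
    (hη : IsTime (-1) T η) {ψ : Eu n → Mt n} (hψ : ContDiff ℝ ∞ ψ) (hψc : HasCompactSupport ψ) :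
    (∫ z : ST n, (deriv η z.1 * inner ℝ (τ z) (ψ z.2) + η z.1 *
      (inner ℝ (c • sy (G z) - a • τ z - br (τ z) (S z)) (ψ z.2) +
        inner ℝ (τ z) (fderiv ℝ ψ z.2 (v z))))) + η 0 * ∫ x, inner ℝ (τ0 x) (ψ x) = 0 := by
  let ψp : Fin n × Fin n → Eu n → ℝ := fun p x => ψ x p
  have hψp : ∀ p, IsTest (ψp p) := fun p =>
    ⟨(EuclideanSpace.proj (𝕜 := ℝ) p : Mt n →L[ℝ] ℝ).contDiff.comp hψ,
      hψc.comp_left (g := fun A : Mt n => A p) rfl⟩
  have hfd : ∀ p x w, fderiv ℝ (ψp p) x w = (fderiv ℝ ψ x w) p := by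
    intro p x w
    have h1 := ((EuclideanSpace.proj (𝕜 := ℝ) p : Mt n →L[ℝ] ℝ).hasFDerivAt.comp x
      (hψ.differentiable (by simp) x).hasFDerivAt).fderiv
    have h2 : ψp p = (EuclideanSpace.proj (𝕜 := ℝ) p : Mt n →L[ℝ] ℝ) ∘ ψ := rfl
    rw [h2, h1]; rfl
  have hint : ∀ p, Integrable (stI a c v G τ S η (ψp p)) := fun p =>
    stI_int h.vel.memv h.vel.memG h.memτ h.memS hη (hψp p)
  have hi2 : ∀ p, Integrable (fun x => ψp p x • τ0 x) := fun p =>
    smul_int2 (memLp_cc (hψp p).smooth.continuous (hψp p).cpt 2) hτ0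
  have hp : ∀ p, (∫ z, (stI a c v G τ S η (ψp p) z) p) + η 0 * ∫ x, ψp p x * τ0 x p = 0 := by
    intro p
    have h1 : (∫ z, stI a c v G τ S η (ψp p) z) + η 0 • ∫ x, ψp p x • τ0 x = 0 :=
      h.str η (ψp p) hη (hψp p)
    have h2 := congrArg (EuclideanSpace.proj (𝕜 := ℝ) p : Mt n →L[ℝ] ℝ) h1
    rw [map_add, map_smul, map_zero,
      ← (EuclideanSpace.proj (𝕜 := ℝ) p : Mt n →L[ℝ] ℝ).integral_comp_comm (hint p),
      ← (EuclideanSpace.proj (𝕜 := ℝ) p : Mt n →L[ℝ] ℝ).integral_comp_comm (hi2 p)] at h2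
    exact h2
  have hsum : ∑ p, ((∫ z, (stI a c v G τ S η (ψp p) z) p) + η 0 * ∫ x, ψp p x * τ0 x p) = 0 :=
    Finset.sum_eq_zero fun p _ => hp p
  rw [Finset.sum_add_distrib, ← Finset.mul_sum, ← integral_finsetSum, ← integral_finsetSum] at hsum
  · refine Eq.trans ?_ hsum
    congr 1
    · refine integral_congr_ae (Eventually.of_forall fun z => ?_)
      have e1 : ∀ p, (stI a c v G τ S η (ψp p) z) p =
          (deriv η z.1 * ψ z.2 p + η z.1 * (fderiv ℝ ψ z.2 (v z)) p) * τ z p +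
          (η z.1 * ψ z.2 p) * (c • sy (G z) - a • τ z - br (τ z) (S z)) p := by
        intro p
        have r1 : (stI a c v G τ S η (ψp p) z) p =
          (deriv η z.1 * ψp p z.2 + η z.1 * fderiv ℝ (ψp p) z.2 (v z)) * τ z p +
          (η z.1 * ψp p z.2) * (c • sy (G z) - a • τ z - br (τ z) (S z)) p := rfl
        rw [r1, hfd]
      simp only [e1, PiLp.inner_apply, RCLike.inner_apply, conj_trivial]
      rw [← Finset.sum_add_distrib, Finset.mul_sum, Finset.mul_sum, ← Finset.sum_add_distrib]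
      refine Finset.sum_congr rfl fun p _ => ?_
      ring
  · intro p _
    exact (EuclideanSpace.proj (𝕜 := ℝ) p : Mt n →L[ℝ] ℝ).integrable_comp (hi2 p)
  · intro p _
    exact (EuclideanSpace.proj (𝕜 := ℝ) p : Mt n →L[ℝ] ℝ).integrable_comp (hint p)

theorem law_final (hΩ : IsOpen Ω) (hΩb : Bornology.IsBounded Ω) {T μ a c : ℝ} (hT : 0 < T)
    {f : ℝ → (Eu n → Eu n) → ℝ} {v0 : Eu n → Eu n}
    {τ0 : Eu n → Mt n} (hτ0 : MemLp τ0 2 volume) {S : ST n → Mt n} {v : ST n → Eu n}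
    {G τ : ST n → Mt n} (h : IsSol Ω T μ a c f v0 τ0 S v G τ) {Ψ : ST n → Mt n}
    (hΨ : IsMTest Ω T Ψ) :
    (∫ t in Ioo 0 T, ∫ x in Ω, (inner ℝ (τ (t, x)) (fderiv ℝ Ψ (t, x) (1, 0)) +
      inner ℝ (τ (t, x)) (fderiv ℝ Ψ (t, x) (0, v (t, x))) +
      inner ℝ (c • sy (G (t, x)) - a • τ (t, x) - br (τ (t, x)) (S (t, x))) (Ψ (t, x)))) +
      ∫ x in Ω, inner ℝ (τ0 x) (Ψ (0, x)) = 0 := by
  have hΩm := hΩ.measurableSet
  let q : Fin n → ST n → Mt n := fun j z => v z j • τ z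
  let q0 : ST n → Mt n := fun z => c • sy (G z) - a • τ z - br (τ z) (S z)
  have hq : ∀ (z : ST n) (φ : Eu n → Mt n) (x : Eu n), ∑ j, inner ℝ (q j z) (fderiv ℝ φ x (bv j)) =
      inner ℝ (τ z) (fderiv ℝ φ x (v z)) := by
    intro z φ x
    rw [inner_conv]
  have hsG : MemLp (fun z => sy (G z)) 2 volume := (syL n).comp_memLp' h.vel.memG
  have hbr : Integrable (fun z => br (τ z) (S z)) volume := by
    have h2 : Integrable (fun x => ‖τ x‖ * ‖S x‖) volume := h.memτ.norm.integrable_mul h.memS.norm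
    refine (h2.const_mul 2).mono' ((brL n).aestronglyMeasurable_comp₂ h.memτ.1 h.memS.1)
      (Eventually.of_forall fun x => norm_br_le _ _)
  have hq0i : IntegrableOn q0 (Ioo 0 T ×ˢ Ω) volume :=
    (((slab_int hΩb T hsG).smul c).sub ((slab_int hΩb T h.memτ).smul a)).sub hbr.integrableOn
  have hqi : ∀ j, IntegrableOn (q j) (Ioo 0 T ×ˢ Ω) volume := fun j =>
    (coord_smul_int h.vel.memv h.memτ j).integrableOn
  haveI : IsFiniteMeasure ((volume : Measure (Eu n)).restrict Ω) :=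
    ⟨by rw [Measure.restrict_apply_univ]; exact hΩb.measure_lt_top⟩
  have hu0 : IntegrableOn τ0 Ω volume :=
    memLp_one_iff_integrable.1 ((hτ0.restrict Ω).mono_exponent (by norm_num))
  have main := gt_gen (Ω := Ω) hT (PM Ω) (fun φ hφ => ⟨hφ.1, hφ.2.1⟩)
    (p := τ) (q0 := q0) (q := q) (slab_int hΩb T h.memτ) hq0i hqi
    (ℓ := fun _ _ => 0) (fun t φ _ ψ _ => by simp) (fun t r φ _ => by simp)
    (k0 := fun _ => 0) (fun t => le_rfl) integrableOn_zero
    (fun φ _ c' _ t _ => by simp) (fun φ _ => aestronglyMeasurable_const)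
    (u0 := τ0) hu0 ?_ Ψ hΨ.smooth hΨ.cpt (fun z hz => (hΨ.supp hz).1)
    (fun t => mtest_slice hΨ t) (fun t => mtest_dt_slice hΨ t)
  · refine Eq.trans ?_ main
    congr 1
    refine integral_congr_ae (Eventually.of_forall fun t => ?_)
    simp only [add_zero]
    refine integral_congr_ae (Eventually.of_forall fun x => ?_)
    simp only [prg, hq, q0]
    rw [slice_fderiv hΨ.smooth]
    ring
  · intro η hη φ hφ
    have h1 := str_matrix h hτ0 hη hφ.1 hφ.2.1
    have e1 : ∫ z in Ioo 0 T ×ˢ Ω, (deriv η z.1 * inner ℝ (τ z) (φ z.2) +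
        η z.1 * prg q0 q φ z.1 z.2) =
        ∫ z : ST n, (deriv η z.1 * inner ℝ (τ z) (φ z.2) + η z.1 *
      (inner ℝ (c • sy (G z) - a • τ z - br (τ z) (S z)) (φ z.2) +
        inner ℝ (τ z) (fderiv ℝ φ z.2 (v z)))) := by
      refine int_slab_eq hΩm ?_ ?_
      · filter_upwards [(h.vel.zero_out hΩm).2] with z hz2 hz
        have hs0 : sy (0 : Mt n) = 0 := (syL n).map_zero
        by_cases hx : z.2 ∈ Ω
        · have ht : z.1 ∉ Ioo 0 T := fun hc => hz ⟨hc, hx⟩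
          simp only [hz2 (Or.inl ht), h.supτ z ht, hs0, smul_zero, br_zero_left, sub_zero,
            inner_zero_left, mul_zero, add_zero]
        · obtain ⟨k1, k2⟩ := pm_zero_out hφ hx
          simp only [k1, k2, inner_zero_right, mul_zero, _root_.zero_apply, add_zero]
      · intro z _
        simp only [prg, Prod.mk.eta, hq, q0]
    have e2 : ∫ x in Ω, inner ℝ (τ0 x) (φ x) = ∫ x, inner ℝ (τ0 x) (φ x) := by
      rw [← integral_indicator hΩm]
      refine integral_congr_ae (Eventually.of_forall fun x => ?_)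
      by_cases hx : x ∈ Ω
      · rw [indicator_of_mem hx]
      · rw [indicator_of_notMem hx]
        simp only [(pm_zero_out hφ hx).1, inner_zero_right]
    rw [e1, e2]
    simp only [mul_zero, integral_zero, add_zero]
    exact h1

end Pool.Agent.Helper42.Jef
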