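import Pool.Agent.Helper42.Jef.Glob1
import Pool.Agent.Helper42.Jef.Clo3

/-! # Global existence for the rescaled system -/

open MeasureTheory Set Filter Topology
open scoped ENNReal NNReal ContDiff

namespace Pool.Agent.Helper42.Jef

open Pool.Agent.Helper44.Diag

set_option maxHeartbeats 1000000

variable {n : ℕ} {Ω : Set (Eu n)}

/-- codomains of the two kinds of fields -/
abbrev ET (n : ℕ) : Bool → Type
  | true => Eu n
  | false => Mt n

theorem slab_eLpNorm_ae {E : Type*} [NormedAddCommGroup E] {T M : ℝ} (hM : 0 ≤ M)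
    {u : ST n → E} (h0 : ∀ᵐ z : ST n, z.1 ∉ Ioo 0 T → u z = 0)
    (h : ∫⁻ z in Ioo 0 T ×ˢ (univ : Set (Eu n)), ‖u z‖ₑ ^ 2 ≤ ENNReal.ofReal M) :
    eLpNorm u 2 volume ≤ ENNReal.ofReal (Real.sqrt M) := by
  have h1 : u =ᵐ[volume] rs T u := by
    filter_upwards [h0] with z hz
    by_cases hz' : z.1 ∈ Ioo 0 T
    · rw [rs_mem hz']
    · rw [rs_notMem hz', hz hz']
  rw [eLpNorm_congr_ae h1]
  refine slab_eLpNorm hM (fun z hz => rs_notMem hz u) ?_
  refine le_trans (le_of_eq ?_) h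
  refine setLIntegral_congr_fun (measurableSet_Ioo.prod MeasurableSet.univ) fun z hz => ?_
  simp only [rs_mem hz.1]

theorem glob_rescaled (hSC : StrongConv n) (hΩ : IsOpen Ω) (hΩb : Bornology.IsBounded Ω)
    {μ a c : ℝ} (hμ : 0 < μ) (ha : 0 ≤ a) (hRS : Pool.Agent.Helper41.Jef.ReprStar n μ c)
    {f : ℝ → (Eu n → Eu n) → ℝ} {g : ℝ → ℝ} (hf : IsForce Ω f g) {v0 : Eu n → Eu n}
    {τ0 : Eu n → Mt n} (hv0 : MemLp v0 2 volume) (hτ0 : MemLp τ0 2 volume) :
    ∃ (v : ST n → Eu n) (G τ : ST n → Mt n), ∀ T : ℝ, 0 < T →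
      IsSol Ω T μ a c f v0 τ0 (fun z => sp (rs T G z)) (rs T v) (rs T G) (rs T τ) ∧
      (∃ M : ℝ, LB T M (rs T v)) ∧ (∃ M : ℝ, LB T M (rs T τ)) := by
  set X := (∫ x, ‖v0 x‖ ^ 2) + ∫ x, ‖τ0 x‖ ^ 2 with hXdef
  have hX : 0 ≤ X := add_nonneg (integral_nonneg fun x => by positivity)
    (integral_nonneg fun x => by positivity)
  set Mf := Mb μ X g with hMf
  have hMb : ∀ T, 0 ≤ Mf T := fun T => Mb_nonneg hμ hX g T
  have hex := fun m : ℕ => reg_exists hSC hΩ hΩb (δ := 1 / ((m : ℝ) + 1)) (by positivity)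
    (T := (m : ℝ) + 1) (by positivity) hμ ha c hf hv0 hτ0
  choose v G τ hsol hBd using hex
  have hΩm := hΩ.measurableSet
  have hδ : ∀ m : ℕ, (0:ℝ) < 1 / ((m : ℝ) + 1) := fun m => by positivity
  have hδ0 : Tendsto (fun m : ℕ => 1 / ((m : ℝ) + 1)) atTop (𝓝 0) :=
    tendsto_one_div_add_atTop_nhds_zero_nat
  -- bounds on fixed intervals
  have hcast : ∀ {T m : ℕ}, T ≤ m → (T : ℝ) ≤ (m : ℝ) + 1 := by
    intro T m h
    have : (T : ℝ) ≤ m := by exact_mod_cast h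
    linarith
  have bv : ∀ T : ℕ, ∀ m, T ≤ m → eLpNorm (rs (T : ℝ) (v m)) 2 volume ≤
      ENNReal.ofReal (Real.sqrt (Mf T * T)) := by
    intro T m hm
    have h1 := ((hBd m).v T (Nat.cast_nonneg T) (hcast hm)).rs
    exact h1.eLpNorm (hMb T) (Nat.cast_nonneg T) (fun z hz => rs_notMem hz _)
  have bτ : ∀ T : ℕ, ∀ m, T ≤ m → eLpNorm (rs (T : ℝ) (τ m)) 2 volume ≤
      ENNReal.ofReal (Real.sqrt (Mf T * T)) := by
    intro T m hm
    have h1 := ((hBd m).τ T (Nat.cast_nonneg T) (hcast hm)).rs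
    exact h1.eLpNorm (hMb T) (Nat.cast_nonneg T) (fun z hz => rs_notMem hz _)
  have bG : ∀ T : ℕ, ∀ m, T ≤ m → eLpNorm (rs (T : ℝ) (G m)) 2 volume ≤
      ENNReal.ofReal (Real.sqrt (Mf T)) := by
    intro T m hm
    have h1 := (hBd m).G T (Nat.cast_nonneg T) (hcast hm)
    refine slab_eLpNorm (hMb T) (fun z hz => rs_notMem hz _) (le_trans (le_of_eq ?_) h1)
    refine setLIntegral_congr_fun (measurableSet_Ioo.prod MeasurableSet.univ) fun z hz => ?_
    simp only [rs_mem hz.1]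
  have mv : ∀ (T : ℕ) m, MemLp (rs (T : ℝ) (v m)) 2 volume := fun T m =>
    rs_memLp (hsol m).vel.memv T
  have mG : ∀ (T : ℕ) m, MemLp (rs (T : ℝ) (G m)) 2 volume := fun T m =>
    rs_memLp (hsol m).vel.memG T
  have mτ : ∀ (T : ℕ) m, MemLp (rs (T : ℝ) (τ m)) 2 volume := fun T m =>
    rs_memLp (hsol m).memτ T
  -- diagonal subsequence for the three fields
  obtain ⟨φ1, hφ1, U1, hU1⟩ := diag_compact (ι := Unit) (E := fun _ => Eu n) (fun _ m => v m)
    (fun _ T m => mv T m) (fun _ T => bdd_of_eventually (fun m => (mv T m).2.ne) (bv T))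
  obtain ⟨φ2, hφ2, U2, hU2⟩ := diag_compact (ι := Bool) (E := fun _ => Mt n)
    (fun b m => if b then G (φ1 m) else τ (φ1 m))
    (fun b T m => by
      cases b
      · simpa using mτ T (φ1 m)
      · simpa using mG T (φ1 m))
    (fun b T => by
      cases b
      · obtain ⟨C, hC⟩ := bdd_of_eventually (fun m => (mτ T m).2.ne) (bτ T)
        exact ⟨C, fun m => by simpa using hC (φ1 m)⟩
      · obtain ⟨C, hC⟩ := bdd_of_eventually (fun m => (mG T m).2.ne) (bG T)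
        exact ⟨C, fun m => by simpa using hC (φ1 m)⟩)
  set φ : ℕ → ℕ := fun m => φ1 (φ2 m) with hφdef
  have hφ : StrictMono φ := hφ1.comp hφ2
  have hφge : ∀ m, m ≤ φ m := hφ.id_le
  have wv : ∀ T : ℕ, WC volume (fun m => rs (T : ℝ) (v (φ m))) (rs (T : ℝ) (U1 ())) := fun T =>
    (hU1 () T).subseq hφ2
  have wG : ∀ T : ℕ, WC volume (fun m => rs (T : ℝ) (G (φ m))) (rs (T : ℝ) (U2 true)) := by
    intro T
    have := hU2 true T
    simpa using this
  have wτ : ∀ T : ℕ, WC volume (fun m => rs (T : ℝ) (τ (φ m))) (rs (T : ℝ) (U2 false)) := by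
    intro T
    have := hU2 false T
    simpa using this
  -- the limit on integer intervals
  have hint : ∀ T : ℕ, 0 < T →
      IsSol Ω T μ a c f v0 τ0 (fun z => sp (rs T (U2 true) z)) (rs T (U1 ())) (rs T (U2 true))
        (rs T (U2 false)) ∧ LB T (Mf T) (rs (T : ℝ) (U1 ())) ∧
        LB T (Mf T) (rs (T : ℝ) (U2 false)) := by
    intro T hT
    have hT' : (0:ℝ) < T := by exact_mod_cast hT
    have hsh : StrictMono fun m : ℕ => m + T := fun a b h => Nat.add_lt_add_right h T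
    have hge : ∀ m, T ≤ φ (m + T) := fun m => (Nat.le_add_left T m).trans (hφge _)
    have LBv : ∀ m, LB (T : ℝ) (Mf T) (rs (T : ℝ) (v (φ (m + T)))) := fun m =>
      ((hBd _).v T hT'.le (hcast (hge m))).rs
    have LBτ : ∀ m, LB (T : ℝ) (Mf T) (rs (T : ℝ) (τ (φ (m + T)))) := fun m =>
      ((hBd _).τ T hT'.le (hcast (hge m))).rs
    have wv' := (wv T).subseq hsh
    have wG' := (wG T).subseq hsh
    have wτ' := (wτ T).subseq hsh
    have hsolT : ∀ m, IsSol Ω T μ a c f v0 τ0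
        (mspin Ω (1 / ((φ (m + T) : ℝ) + 1)) (rs (T : ℝ) (G (φ (m + T)))))
        (rs T (v (φ (m + T)))) (rs T (G (φ (m + T)))) (rs T (τ (φ (m + T)))) := by
      intro m
      have h1 := (hsol (φ (m + T))).rs hΩm (hcast (hge m))
      rw [← mspin_rs] at h1
      exact h1
    have hδ' : Tendsto (fun m : ℕ => 1 / ((φ (m + T) : ℝ) + 1)) atTop (𝓝 0) :=
      hδ0.comp (hφ.comp hsh).tendsto_atTop
    refine ⟨closure_thm hSC hΩ hΩb hT' hμ hRS hf hτ0 (fun m => hδ _) hδ' hsolT LBv wv' wG' wτ'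
      (fun z hz => rs_notMem hz _), LB.of_wc (hMb T) wv' LBv, LB.of_wc (hMb T) wτ' LBτ⟩
  refine ⟨U1 (), U2 true, U2 false, fun T hT => ?_⟩
  obtain ⟨N, hN⟩ := exists_nat_ge T
  have hN0 : 0 < N := by
    have : (0:ℝ) < N := hT.trans_le hN
    exact_mod_cast this
  obtain ⟨h1, h2, h3⟩ := hint N hN0
  have h4 := h1.rs hΩm hN
  rw [rs_rs hN, rs_rs hN, rs_rs hN, ← sp_rs, rs_rs hN] at h4
  have hLB : ∀ {E : Type} [NormedAddCommGroup E] {u : ST n → E}, LB (N : ℝ) (Mf N) (rs (N : ℝ) u) →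
      LB T (Mf N) (rs T u) := by
    intro E _ u h I hI hIT
    refine le_trans (le_of_eq ?_) (h I hI (hIT.trans (Ioo_subset_Ioo le_rfl hN)))
    refine setLIntegral_congr_fun (hI.prod MeasurableSet.univ) fun z hz => ?_
    have e1 : z.1 ∈ Ioo 0 T := hIT hz.1
    have e2 : z.1 ∈ Ioo 0 (N : ℝ) := ⟨e1.1, e1.2.trans_le hN⟩
    simp only [rs_mem e1, rs_mem e2]
  exact ⟨h4, ⟨_, hLB h2⟩, ⟨_, hLB h3⟩⟩

end Pool.Agent.Helper42.Jef
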