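import Pool.Agent.Helper42.Jef.Fin4
import Pool.Agent.Helper42.Jef.Glob2

/-! # Forces and slices -/

open MeasureTheory Set Filter Topology
open scoped ENNReal NNReal ContDiff

namespace Pool.Agent.Helper42.Jef

open Pool.Agent.Helper44.Diag

set_option maxHeartbeats 1000000

variable {n : ℕ} {Ω : Set (Eu n)}

theorem dual_norm_cont {H : Type*} [NormedAddCommGroup H] [InnerProductSpace ℝ H]
    (V : Submodule ℝ H) : Continuous (fun f : StrongDual ℝ V => ‖f‖) := by
  have := @continuous_norm (StrongDual ℝ V)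
    (inferInstance : SeminormedAddCommGroup (StrongDual ℝ V)).toSeminormedAddGroup
  exact this

theorem toVV_add {φ ψ : Eu n → Eu n} (h : IsVT Ω φ) (h' : IsVT Ω ψ) :
    toVV (h.add h') = toVV h + toVV h' := by
  apply Subtype.ext
  show toPair (h.add h') = toPair h + toPair h'
  have e1 : (vt_memLp (h.add h')).toLp (φ + ψ) = (vt_memLp h).toLp φ + (vt_memLp h').toLp ψ :=
    MemLp.toLp_add (vt_memLp h) (vt_memLp h')
  have e2 : (vt_grad_memLp (h.add h')).toLp (grad (φ + ψ)) =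
      (vt_grad_memLp h).toLp (grad φ) + (vt_grad_memLp h').toLp (grad ψ) := by
    rw [← MemLp.toLp_add]
    refine MemLp.toLp_congr _ _ (Eventually.of_forall fun x => ?_)
    exact grad_add h.diff h'.diff x
  simp only [toPair]
  rw [e1, e2]
  rfl

theorem toVV_smul {φ : Eu n → Eu n} (h : IsVT Ω φ) (r : ℝ) :
    toVV (h.smul r) = r • toVV h := by
  apply Subtype.ext
  show toPair (h.smul r) = r • toPair h
  have e1 : (vt_memLp (h.smul r)).toLp (r • φ) = r • (vt_memLp h).toLp φ :=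
    MemLp.toLp_const_smul r (vt_memLp h)
  have e2 : (vt_grad_memLp (h.smul r)).toLp (grad (r • φ)) =
      r • (vt_grad_memLp h).toLp (grad φ) := by
    rw [← MemLp.toLp_const_smul]
    refine MemLp.toLp_congr _ _ (Eventually.of_forall fun x => ?_)
    exact grad_smul h.diff r x
  simp only [toPair]
  rw [e1, e2]
  rfl

theorem norm_toVV_le {φ : Eu n → Eu n} (h : IsVT Ω φ) :
    ‖toVV h‖ ≤ Real.sqrt ((∫ x, ‖φ x‖ ^ 2) + ∫ x, ‖grad φ x‖ ^ 2) := by
  have h0 : ‖toVV h‖ = ‖toPair h‖ := rfl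
  rw [h0, WithLp.prod_norm_eq_of_L2]
  refine Real.sqrt_le_sqrt ?_
  have e1 : ‖(toPair h).fst‖ ^ 2 = ∫ x in Ω, ‖φ x‖ ^ 2 := by
    have : (toPair h).fst = (vt_memLp h).toLp φ := rfl
    rw [this, Lp.norm_toLp, toReal_eLpNorm_sq (vt_memLp h)]
  have e2 : ‖(toPair h).snd‖ ^ 2 = ∫ x in Ω, ‖grad φ x‖ ^ 2 := by
    have : (toPair h).snd = (vt_grad_memLp h).toLp (grad φ) := rfl
    rw [this, Lp.norm_toLp, toReal_eLpNorm_sq (vt_grad_memLp h)]
  rw [e1, e2]
  have i1 : Integrable (fun x => ‖φ x‖ ^ 2) := by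
    have := (memLp_cc h.smooth.continuous h.cpt 2).norm.integrable_sq
    exact this
  have i2 : Integrable (fun x => ‖grad φ x‖ ^ 2) := by
    have := (memLp_cc h.grad_cont h.grad_cpt 2).norm.integrable_sq
    exact this
  exact add_le_add (setIntegral_le_integral i1 (Eventually.of_forall fun x => by positivity))
    (setIntegral_le_integral i2 (Eventually.of_forall fun x => by positivity))

/-- the force functional associated with `f : ℝ → V*` -/
theorem force_of_dual {f : ℝ → VDual Ω} (hf : AEStronglyMeasurable f (volume.restrict (Ioi 0)))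
    (hfi : ∀ T : ℝ, 0 < T → IntegrableOn (fun t => ‖f t‖ ^ 2) (Ioo 0 T)) :
    IsForce Ω (fun t φ => pairV Ω ((Ioi (0:ℝ)).indicator f t) φ)
      (fun t => ‖(Ioi (0:ℝ)).indicator f t‖) where
  add := by
    intro t φ ψ hφ hψ
    simp only [pairV, dif_pos hφ, dif_pos hψ, dif_pos (hφ.add hψ)]
    rw [← map_add, ← toVV_add]
  smul := by
    intro t c φ hφ
    simp only [pairV, dif_pos hφ, dif_pos (hφ.smul c)]
    rw [toVV_smul, map_smul, smul_eq_mul]
  bound := by
    intro t φ hφ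
    simp only [pairV, dif_pos hφ]
    rw [← Real.norm_eq_abs]
    exact (ContinuousLinearMap.le_opNorm _ _).trans
      (mul_le_mul_of_nonneg_left (norm_toVV_le hφ) (ContinuousLinearMap.opNorm_nonneg _))
  meas := by
    intro φ hφ
    simp only [pairV, dif_pos hφ]
    have h1 : AEStronglyMeasurable ((Ioi (0:ℝ)).indicator f) volume :=
      (aestronglyMeasurable_indicator_iff measurableSet_Ioi).2 hf
    exact (ContinuousLinearMap.apply ℝ ℝ (toVV hφ)).continuous.comp_aestronglyMeasurable h1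
  gmeas := (dual_norm_cont (VV Ω)).comp_aestronglyMeasurable
    ((aestronglyMeasurable_indicator_iff measurableSet_Ioi).2 hf)
  gnn := fun t => ContinuousLinearMap.opNorm_nonneg _
  gint := by
    intro T
    rcases le_or_gt T 0 with hT | hT
    · rw [Ioo_eq_empty (not_lt.2 hT)]
      exact integrableOn_empty
    · refine (hfi T hT).congr_fun (fun t ht => ?_) measurableSet_Ioo
      simp only [indicator_of_mem (show t ∈ Ioi (0:ℝ) from ht.1)]

/-- membership in `V` from approximation by test fields -/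
theorem inV_of_approx {u : Eu n → Eu n} {U : Eu n → Mt n} (hu : MemLp u 2 volume)
    (hU : MemLp U 2 volume)
    (h : ∀ ε : ℝ, 0 < ε → ∃ φ, IsVT Ω φ ∧
      eLpNorm (fun x => u x - φ x) 2 volume ≤ ENNReal.ofReal ε ∧
      eLpNorm (fun x => U x - grad φ x) 2 volume ≤ ENNReal.ofReal ε) : InV Ω u U := by
  have hu' : MemLp u 2 (volume.restrict Ω) := hu.restrict Ω
  have hU' : MemLp U 2 (volume.restrict Ω) := hU.restrict Ω
  set p : PairSp Ω := WithLp.toLp 2 (hu'.toLp u, hU'.toLp U) with hp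
  have hpV : p ∈ VV Ω := by
    show p ∈ closure ((Submodule.span ℝ {p : PairSp Ω | ∃ (φ : Eu n → Eu n) (h : IsVT Ω φ),
      p = toPair h} : Submodule ℝ (PairSp Ω)) : Set (PairSp Ω))
    rw [Metric.mem_closure_iff]
    intro ε hε
    obtain ⟨φ, hφ, h1, h2⟩ := h (ε / 4) (by positivity)
    refine ⟨toPair hφ, Submodule.subset_span ⟨φ, hφ, rfl⟩, ?_⟩
    rw [dist_eq_norm, WithLp.prod_norm_eq_of_L2]
    have e1 : ‖(p - toPair hφ).fst‖ ≤ ε / 4 := by
      have : (p - toPair hφ).fst = hu'.toLp u - (vt_memLp hφ).toLp φ := rfl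
      rw [this, ← MemLp.toLp_sub, Lp.norm_toLp]
      refine ENNReal.toReal_le_of_le_ofReal (by positivity) ?_
      exact (eLpNorm_mono_measure _ Measure.restrict_le_self).trans h1
    have e2 : ‖(p - toPair hφ).snd‖ ≤ ε / 4 := by
      have : (p - toPair hφ).snd = hU'.toLp U - (vt_grad_memLp hφ).toLp (grad φ) := rfl
      rw [this, ← MemLp.toLp_sub, Lp.norm_toLp]
      refine ENNReal.toReal_le_of_le_ofReal (by positivity) ?_
      exact (eLpNorm_mono_measure _ Measure.restrict_le_self).trans h2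
    have e3 : ‖(p - toPair hφ).fst‖ ^ 2 + ‖(p - toPair hφ).snd‖ ^ 2 ≤ (ε / 2) ^ 2 := by
      nlinarith [norm_nonneg (p - toPair hφ).fst, norm_nonneg (p - toPair hφ).snd]
    calc Real.sqrt (‖(p - toPair hφ).fst‖ ^ 2 + ‖(p - toPair hφ).snd‖ ^ 2)
        ≤ Real.sqrt ((ε / 2) ^ 2) := Real.sqrt_le_sqrt e3
      _ = ε / 2 := Real.sqrt_sq (by positivity)
      _ < ε := by linarith
  exact ⟨⟨p, hpV⟩, hu'.coeFn_toLp, hU'.coeFn_toLp⟩

theorem rs_slice {E : Type*} [Zero E] {T : ℝ} {t : ℝ} (ht : t ∈ Ioo 0 T) (u : ST n → E)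
    (x : Eu n) : rs T u (t, x) = u (t, x) := rs_mem (z := (t, x)) ht u

theorem meas_of_rs {E : Type*} [NormedAddCommGroup E] {T : ℝ} {u : ST n → E}
    (hΩ : MeasurableSet Ω) (h : AEStronglyMeasurable (rs T u) volume) :
    AEStronglyMeasurable u (volume.restrict (Ioo 0 T ×ˢ Ω)) := by
  refine (h.restrict (s := Ioo 0 T ×ˢ Ω)).congr ?_
  rw [EventuallyEq, ae_restrict_iff' (measurableSet_Ioo.prod hΩ)]
  exact Eventually.of_forall fun z hz => rs_mem hz.1 u

end Pool.Agent.Helper42.Jef
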