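import Pool.Agent.Helper42.Jef.Fin5

/-! # Global weak solutions of the corotational Jeffreys system -/

open MeasureTheory Set Filter Topology
open scoped ENNReal NNReal ContDiff

namespace Pool.Agent.Helper42.Jef

open Pool.Agent.Helper44.Diag

set_option maxHeartbeats 2000000

theorem main_theorem : FinalStatement := by
  intro n Ω hΩ hΩb η lam1 lam2 hη hlam2 hlam v0 _ τ0 hsym f hfm hfi
  have hlam1 : 0 < lam1 := hlam2.trans hlam
  have hΩm := hΩ.measurableSet
  set μ := η * lam2 / lam1 with hμdef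
  set a := 1 / lam1 with hadef
  set b := 2 * η * (1 - lam2 / lam1) / lam1 with hbdef
  have hμ : 0 < μ := by positivity
  have ha : 0 ≤ a := by positivity
  have hb : 0 < b := by
    have h1 : 0 < 1 - lam2 / lam1 := by
      rw [sub_pos, div_lt_one hlam1]; exact hlam
    positivity
  set c := Real.sqrt b with hcdef
  have hc : 0 < c := Real.sqrt_pos.2 hb
  have hcc : c * c = b := Real.mul_self_sqrt hb.le
  have hF := force_of_dual hfm hfi
  set F : ℝ → (Eu n → Eu n) → ℝ := fun t φ => pairV Ω ((Ioi (0:ℝ)).indicator f t) φ with hFdef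
  set v0' : Eu n → Eu n := Ω.indicator v0 with hv0'
  set τ0' : Eu n → Mt n := fun x => c⁻¹ • Ω.indicator τ0 x with hτ0'
  have mv0 : MemLp v0' 2 volume := (memLp_indicator_iff_restrict hΩm).2 (Lp.memLp v0)
  have mτ0 : MemLp τ0' 2 volume :=
    ((memLp_indicator_iff_restrict hΩm).2 (Lp.memLp τ0)).const_smul c⁻¹
  have hsym' : ∀ᵐ x, tr (τ0' x) = τ0' x := by
    rw [ae_restrict_iff' hΩm] at hsym
    filter_upwards [hsym] with x hx
    simp only [hτ0', tr_smul]
    congr 1
    by_cases hxΩ : x ∈ Ω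
    · rw [indicator_of_mem hxΩ]; exact hx hxΩ
    · rw [indicator_of_notMem hxΩ]; exact (trL n).map_zero
  obtain ⟨v, G, τ, hglob⟩ := glob_rescaled (strongConv n) hΩ hΩb hμ ha
    (Pool.Agent.Helper41.Jef.reprStar n hμ c) hF mv0 mτ0
  refine ⟨v, fun z => c • sy (τ z), fun T hT => ⟨G, ?_⟩⟩
  obtain ⟨hsol, ⟨M1, hLB1⟩, ⟨M2, hLB2⟩⟩ := hglob T hT
  have hspa : ∀ z : ST n, tr (sp (rs T G z)) = - sp (rs T G z) := fun z => tr_sp _
  have hs := hsol.symm hspa mτ0 hsym'
  have hsyrs : ∀ t ∈ Ioo 0 T, ∀ x, sy (rs T τ (t, x)) = sy (τ (t, x)) := fun t ht x => by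
    rw [rs_slice ht]
  have mτ : AEStronglyMeasurable τ (volume.restrict (Ioo 0 T ×ˢ Ω)) :=
    meas_of_rs hΩm hsol.memτ.1
  refine
    { meas_v := meas_of_rs hΩm hsol.vel.memv.1
      meas_G := meas_of_rs hΩm hsol.vel.memG.1
      meas_τ := ((syL n).continuous.comp_aestronglyMeasurable mτ).const_smul c
      in_V := ?_
      sq_G := ?_
      bd_v := ?_
      bd_τ := ?_
      symm := ?_
      mom := ?_
      law := ?_ }
  · -- slices
    filter_upwards [Pool.Agent.Helper50.JS.vel_slices hsol.vel] with t ht htT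
    have h1 := inV_of_approx (Ω := Ω) ht.1 ht.2.1 ht.2.2
    simpa only [rs_slice htT] using h1
  · -- square integrability
    have h1 : ∫⁻ z : ST n, (‖rs T v z‖ₑ ^ 2 + ‖rs T G z‖ₑ ^ 2) < ⊤ := by
      have hm1 : AEMeasurable (fun z : ST n => ‖rs T v z‖ₑ ^ 2) volume :=
        hsol.vel.memv.1.enorm.pow_const 2
      rw [lintegral_add_left' hm1, lint_sq_eq, lint_sq_eq]
      exact ENNReal.add_lt_top.2 ⟨ENNReal.pow_lt_top hsol.vel.memv.2,
        ENNReal.pow_lt_top hsol.vel.memG.2⟩
    have hm : AEMeasurable (fun z : ST n => ‖rs T v z‖ₑ ^ 2 + ‖rs T G z‖ₑ ^ 2) volume :=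
      (hsol.vel.memv.1.enorm.pow_const 2).add (hsol.vel.memG.1.enorm.pow_const 2)
    have h2 := lint_slab hm (I := Ioo 0 T)
    have h3 : ∫⁻ t in Ioo 0 T, ∫⁻ x in Ω, (‖v (t, x)‖ₑ ^ 2 + ‖G (t, x)‖ₑ ^ 2) ≤
        ∫⁻ t in Ioo 0 T, ∫⁻ x, (‖rs T v (t, x)‖ₑ ^ 2 + ‖rs T G (t, x)‖ₑ ^ 2) := by
      refine setLIntegral_mono' measurableSet_Ioo fun t ht => ?_
      simp only [rs_slice ht]
      exact setLIntegral_le_lintegral _ _
    refine h3.trans_lt ?_
    rw [← h2]
    exact (setLIntegral_le_lintegral _ _).trans_lt h1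
  · -- bound of v
    refine ⟨M1, ?_⟩
    filter_upwards [Pool.Agent.Helper50.JS.slices_bound hsol.vel.memv.1 hLB1] with t ht htT
    refine (setLIntegral_le_lintegral _ _).trans ?_
    simpa only [rs_slice htT] using ht htT
  · -- bound of τ
    refine ⟨c ^ 2 * M2, ?_⟩
    filter_upwards [Pool.Agent.Helper50.JS.slices_bound hsol.memτ.1 hLB2] with t ht htT
    refine (setLIntegral_le_lintegral _ _).trans ?_
    have h1 : ∫⁻ x, ‖c • sy (τ (t, x))‖ₑ ^ 2 ≤ ∫⁻ x, ENNReal.ofReal (c ^ 2) * ‖τ (t, x)‖ₑ ^ 2 := by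
      refine lintegral_mono fun x => ?_
      rw [← ofReal_norm, ← ofReal_norm, ← ENNReal.ofReal_pow (norm_nonneg _),
        ← ENNReal.ofReal_pow (norm_nonneg _), ← ENNReal.ofReal_mul (by positivity)]
      refine ENNReal.ofReal_le_ofReal ?_
      rw [norm_smul, mul_pow, Real.norm_eq_abs, sq_abs]
      exact mul_le_mul_of_nonneg_left (pow_le_pow_left₀ (norm_nonneg _) (norm_sy_le _) 2)
        (by positivity)
    refine h1.trans ?_
    rw [lintegral_const_mul' _ _ ENNReal.ofReal_ne_top, ENNReal.ofReal_mul (by positivity)]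
    refine mul_le_mul_right ?_ _
    simpa only [rs_slice htT] using ht htT
  · -- symmetry
    refine Eventually.of_forall fun z _ => ?_
    rw [tr_smul, tr_sy]
  · -- momentum
    intro Φ hΦ
    have h1 := mom_final hΩ hΩb hT hF mv0 hs hΦ
    refine Eq.trans ?_ h1
    congr 1
    · refine setIntegral_congr_fun measurableSet_Ioo fun t ht => ?_
      have e1 : (Ioi (0:ℝ)).indicator f t = f t := indicator_of_mem (show t ∈ Ioi (0:ℝ) from ht.1) f
      simp only [hFdef, e1, rs_slice ht]
      congr 1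
      refine integral_congr_ae (Eventually.of_forall fun x => ?_)
      have e2 : inner ℝ (c • sy (τ (t, x))) (grad (fun y => Φ (t, y)) x) =
          c * inner ℝ (sy (τ (t, x))) (sy (grad (fun y => Φ (t, y)) x)) := by
        rw [inner_smul_left, conj_trivial, ← inner_sy_left, sy_sy]
      simp only [e2, hμdef]
    · refine setIntegral_congr_fun hΩm fun x hx => ?_
      simp only [hv0', indicator_of_mem hx]
  · -- constitutive law
    intro Ψ hΨ
    have h1 := law_final hΩ hΩb hT mτ0 hs hΨ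
    have h2 := congrArg (fun r => (-(lam1 * c)) * r) h1
    simp only [mul_zero, mul_add] at h2
    rw [← integral_const_mul, ← integral_const_mul] at h2
    rw [sub_eq_add_neg]
    refine Eq.trans ?_ h2
    have hla : lam1 * a = 1 := by rw [hadef]; field_simp
    have hlc : lam1 * (c * c) = 2 * η * (1 - lam2 / lam1) := by
      rw [hcc, hbdef]; field_simp
    congr 1
    · refine setIntegral_congr_fun measurableSet_Ioo fun t ht => ?_
      rw [← integral_const_mul]
      refine integral_congr_ae (Eventually.of_forall fun x => ?_)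
      simp only [rs_slice ht]
      set A := sy (τ (t, x))
      set W := sp (G (t, x))
      set E := sy (G (t, x))
      rw [br_smul_left]
      simp only [inner_smul_left, inner_sub_left, conj_trivial]
      linear_combination (c * inner ℝ A (Ψ (t, x))) * hla.symm - (inner ℝ E (Ψ (t, x))) * hlc.symm
    · rw [← integral_const_mul, ← integral_neg]
      refine setIntegral_congr_fun hΩm fun x hx => ?_
      simp only [hτ0', indicator_of_mem hx, inner_smul_left, conj_trivial]
      field_simp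

end Pool.Agent.Helper42.Jef
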