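import Pool.Agent.Helper42.Jef.Fin5

/-! # Global weak solutions, function level -/

open MeasureTheory Set Filter Topology
open scoped ENNReal NNReal ContDiff

namespace Pool.Agent.Helper42.Jef

open Pool.Agent.Helper44.Diag

set_option maxHeartbeats 2000000

variable {n : ℕ} {Ω : Set (Eu n)}

/-- vector level weak solutions, with force functional `F` -/
structure WS (Ω : Set (Eu n)) (η lam1 lam2 : ℝ) (F : ℝ → (Eu n → Eu n) → ℝ)
    (v0 : Eu n → Eu n) (τ0 : Eu n → Mt n) (T : ℝ)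
    (v : ST n → Eu n) (G τ : ST n → Mt n) : Prop where
  mem_v : MemLp v 2 (volume.restrict (Ioo 0 T ×ˢ Ω))
  mem_G : MemLp G 2 (volume.restrict (Ioo 0 T ×ˢ Ω))
  mem_τ : MemLp τ 2 (volume.restrict (Ioo 0 T ×ˢ Ω))
  slices : ∀ᵐ t : ℝ, t ∈ Ioo 0 T → MemLp (fun x => v (t, x)) 2 volume ∧
    MemLp (fun x => G (t, x)) 2 volume ∧
    ∀ ε : ℝ, 0 < ε → ∃ φ, IsVT Ω φ ∧
      eLpNorm (fun x => v (t, x) - φ x) 2 volume ≤ ENNReal.ofReal ε ∧
      eLpNorm (fun x => G (t, x) - grad φ x) 2 volume ≤ ENNReal.ofReal ε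
  bd_v : ∃ C : ℝ, ∀ᵐ t : ℝ, t ∈ Ioo 0 T → ∫⁻ x in Ω, ‖v (t, x)‖ₑ ^ 2 ≤ ENNReal.ofReal C
  bd_τ : ∃ C : ℝ, ∀ᵐ t : ℝ, t ∈ Ioo 0 T → ∫⁻ x in Ω, ‖τ (t, x)‖ₑ ^ 2 ≤ ENNReal.ofReal C
  symm : ∀ z : ST n, tr (τ z) = τ z
  mom : ∀ Φ : ST n → Eu n, IsVTest Ω T Φ →
    (∫ t in Ioo 0 T, ((∫ x in Ω, (inner ℝ (v (t, x)) (fderiv ℝ Φ (t, x) (1, 0)) +
      inner ℝ (v (t, x)) (fderiv ℝ Φ (t, x) (0, v (t, x))) -
      η * lam2 / lam1 * inner ℝ (G (t, x)) (grad (fun y => Φ (t, y)) x) -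
      inner ℝ (τ (t, x)) (grad (fun y => Φ (t, y)) x))) +
      F t (fun x => Φ (t, x)))) +
    ∫ x in Ω, inner ℝ (v0 x) (Φ (0, x)) = 0
  law : ∀ Ψ : ST n → Mt n, IsMTest Ω T Ψ →
    (∫ t in Ioo 0 T, ∫ x in Ω, (inner ℝ (τ (t, x)) (Ψ (t, x)) -
      lam1 * inner ℝ (τ (t, x)) (fderiv ℝ Ψ (t, x) (1, 0)) -
      lam1 * inner ℝ (τ (t, x)) (fderiv ℝ Ψ (t, x) (0, v (t, x))) +
      lam1 * inner ℝ (br (τ (t, x)) (sp (G (t, x)))) (Ψ (t, x)) -
      2 * η * (1 - lam2 / lam1) * inner ℝ (sy (G (t, x))) (Ψ (t, x)))) -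
    lam1 * ∫ x in Ω, inner ℝ (τ0 x) (Ψ (0, x)) = 0

theorem memLp_of_rs {E : Type*} [NormedAddCommGroup E] {T : ℝ} {u : ST n → E}
    (hΩ : MeasurableSet Ω) (h : MemLp (rs T u) 2 volume) :
    MemLp u 2 (volume.restrict (Ioo 0 T ×ˢ Ω)) := by
  refine (h.restrict (Ioo 0 T ×ˢ Ω)).ae_eq ?_
  rw [EventuallyEq, ae_restrict_iff' (measurableSet_Ioo.prod hΩ)]
  exact Eventually.of_forall fun z hz => rs_mem hz.1 u

theorem core (hΩ : IsOpen Ω) (hΩb : Bornology.IsBounded Ω) {η lam1 lam2 : ℝ} (hη : 0 < η)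
    (hlam2 : 0 < lam2) (hlam : lam2 < lam1) {v0 : Eu n → Eu n}
    (hv0 : MemLp v0 2 (volume.restrict Ω)) {τ0 : Eu n → Mt n}
    (hτ0 : MemLp τ0 2 (volume.restrict Ω))
    (hsym : ∀ᵐ x ∂(volume.restrict Ω), tr (τ0 x) = τ0 x)
    {F : ℝ → (Eu n → Eu n) → ℝ} {g : ℝ → ℝ} (hF : IsForce Ω F g) :
    ∃ (v : ST n → Eu n) (G τ : ST n → Mt n), ∀ T : ℝ, 0 < T →
      WS Ω η lam1 lam2 F v0 τ0 T v G τ := by
  have hlam1 : 0 < lam1 := hlam2.trans hlam
  have hΩm := hΩ.measurableSet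
  set μ := η * lam2 / lam1 with hμdef
  set a := 1 / lam1 with hadef
  set b := 2 * η * (1 - lam2 / lam1) / lam1 with hbdef
  have hμ : 0 < μ := by positivity
  have ha : 0 ≤ a := by positivity
  have hb : 0 < b := by
    have h1 : 0 < 1 - lam2 / lam1 := by
      rw [sub_pos, div_lt_one hlam1]; exact hlam
    positivity
  set c := Real.sqrt b with hcdef
  have hc : 0 < c := Real.sqrt_pos.2 hb
  have hcc : c * c = b := Real.mul_self_sqrt hb.le
  set v0' : Eu n → Eu n := Ω.indicator v0 with hv0'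
  set τ0' : Eu n → Mt n := fun x => c⁻¹ • Ω.indicator τ0 x with hτ0'
  have mv0 : MemLp v0' 2 volume := (memLp_indicator_iff_restrict hΩm).2 hv0
  have mτ0 : MemLp τ0' 2 volume :=
    ((memLp_indicator_iff_restrict hΩm).2 hτ0).const_smul c⁻¹
  have hsym' : ∀ᵐ x, tr (τ0' x) = τ0' x := by
    rw [ae_restrict_iff' hΩm] at hsym
    filter_upwards [hsym] with x hx
    simp only [hτ0', tr_smul]
    congr 1
    by_cases hxΩ : x ∈ Ω
    · rw [indicator_of_mem hxΩ]; exact hx hxΩ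
    · rw [indicator_of_notMem hxΩ]; exact (trL n).map_zero
  obtain ⟨v, G, τ, hglob⟩ := glob_rescaled (strongConv n) hΩ hΩb hμ ha
    (Pool.Agent.Helper41.Jef.reprStar n hμ c) hF mv0 mτ0
  refine ⟨v, G, fun z => c • sy (τ z), fun T hT => ?_⟩
  obtain ⟨hsol, ⟨M1, hLB1⟩, ⟨M2, hLB2⟩⟩ := hglob T hT
  have hspa : ∀ z : ST n, tr (sp (rs T G z)) = - sp (rs T G z) := fun z => tr_sp _
  have hs := hsol.symm hspa mτ0 hsym'
  refine
    { mem_v := memLp_of_rs hΩm hsol.vel.memv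
      mem_G := memLp_of_rs hΩm hsol.vel.memG
      mem_τ := ((syL n).comp_memLp' (memLp_of_rs hΩm hsol.memτ)).const_smul c
      slices := ?_
      bd_v := ?_
      bd_τ := ?_
      symm := ?_
      mom := ?_
      law := ?_ }
  · -- slices
    filter_upwards [Pool.Agent.Helper50.JS.vel_slices hsol.vel] with t ht htT
    have h1 := And.intro ht.1 (And.intro ht.2.1 ht.2.2)
    simpa only [rs_slice htT] using h1
  · -- bound of v
    refine ⟨M1, ?_⟩
    filter_upwards [Pool.Agent.Helper50.JS.slices_bound hsol.vel.memv.1 hLB1] with t ht htT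
    refine (setLIntegral_le_lintegral _ _).trans ?_
    simpa only [rs_slice htT] using ht htT
  · -- bound of τ
    refine ⟨c ^ 2 * M2, ?_⟩
    filter_upwards [Pool.Agent.Helper50.JS.slices_bound hsol.memτ.1 hLB2] with t ht htT
    refine (setLIntegral_le_lintegral _ _).trans ?_
    have h1 : ∫⁻ x, ‖c • sy (τ (t, x))‖ₑ ^ 2 ≤ ∫⁻ x, ENNReal.ofReal (c ^ 2) * ‖τ (t, x)‖ₑ ^ 2 := by
      refine lintegral_mono fun x => ?_
      rw [← ofReal_norm, ← ofReal_norm, ← ENNReal.ofReal_pow (norm_nonneg _),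
        ← ENNReal.ofReal_pow (norm_nonneg _), ← ENNReal.ofReal_mul (by positivity)]
      refine ENNReal.ofReal_le_ofReal ?_
      rw [norm_smul, mul_pow, Real.norm_eq_abs, sq_abs]
      exact mul_le_mul_of_nonneg_left (pow_le_pow_left₀ (norm_nonneg _) (norm_sy_le _) 2)
        (by positivity)
    refine h1.trans ?_
    rw [lintegral_const_mul' _ _ ENNReal.ofReal_ne_top, ENNReal.ofReal_mul (by positivity)]
    refine mul_le_mul_right ?_ _
    simpa only [rs_slice htT] using ht htT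
  · -- symmetry
    intro z
    rw [tr_smul, tr_sy]
  · -- momentum
    intro Φ hΦ
    have h1 := mom_final hΩ hΩb hT hF mv0 hs hΦ
    refine Eq.trans ?_ h1
    congr 1
    · refine setIntegral_congr_fun measurableSet_Ioo fun t ht => ?_
      simp only [rs_slice ht]
      congr 1
      refine integral_congr_ae (Eventually.of_forall fun x => ?_)
      have e2 : inner ℝ (c • sy (τ (t, x))) (grad (fun y => Φ (t, y)) x) =
          c * inner ℝ (sy (τ (t, x))) (sy (grad (fun y => Φ (t, y)) x)) := by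
        rw [inner_smul_left, conj_trivial, ← inner_sy_left, sy_sy]
      simp only [e2, hμdef]
    · refine setIntegral_congr_fun hΩm fun x hx => ?_
      simp only [hv0', indicator_of_mem hx]
  · -- constitutive law
    intro Ψ hΨ
    have h1 := law_final hΩ hΩb hT mτ0 hs hΨ
    have h2 := congrArg (fun r => (-(lam1 * c)) * r) h1
    simp only [mul_zero, mul_add] at h2
    rw [← integral_const_mul, ← integral_const_mul] at h2
    rw [sub_eq_add_neg]
    refine Eq.trans ?_ h2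
    have hla : lam1 * a = 1 := by rw [hadef]; field_simp
    have hlc : lam1 * (c * c) = 2 * η * (1 - lam2 / lam1) := by
      rw [hcc, hbdef]; field_simp
    congr 1
    · refine setIntegral_congr_fun measurableSet_Ioo fun t ht => ?_
      rw [← integral_const_mul]
      refine integral_congr_ae (Eventually.of_forall fun x => ?_)
      simp only [rs_slice ht]
      set A := sy (τ (t, x))
      set W := sp (G (t, x))
      set E := sy (G (t, x))
      rw [br_smul_left]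
      simp only [inner_smul_left, inner_sub_left, conj_trivial]
      linear_combination (c * inner ℝ A (Ψ (t, x))) * hla.symm - (inner ℝ E (Ψ (t, x))) * hlc.symm
    · rw [← integral_const_mul, ← integral_neg]
      refine setIntegral_congr_fun hΩm fun x hx => ?_
      simp only [hτ0', indicator_of_mem hx, inner_smul_left, conj_trivial]
      field_simp

end Pool.Agent.Helper42.Jef
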