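import Pool.Agent.Helper42.Jef.Vel

/-!
# Corotational Jeffreys model: function spaces and global weak solutions

`Eu n = ℝⁿ`, `Mt n` = real `n × n` matrices with the Frobenius inner product,
`ST n = ℝ × ℝⁿ` = space-time.  `(grad φ x)(i,j) = ∂_j φ_i(x)`, `sy A = (A + Aᵀ)/2`,
`sp A = (A - Aᵀ)/2`, `br A W = A W - W A`, `tr A = Aᵀ`, and `IsVT Ω φ` says that `φ` is a smooth
divergence free field with compact support in `Ω`.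
-/

open MeasureTheory Set Filter Topology
open scoped ENNReal ContDiff

namespace Pool.Agent.Helper42.Jef

variable {n : ℕ}

/-- `L²(Ω;ℝⁿ) × L²(Ω;ℝ^{n×n})` with the norm `(‖u‖² + ‖U‖²)^{1/2}` -/
abbrev PairSp (Ω : Set (Eu n)) : Type :=
  WithLp 2 (Lp (Eu n) 2 (volume.restrict Ω) × Lp (Mt n) 2 (volume.restrict Ω))

theorem vt_memLp {Ω : Set (Eu n)} {φ : Eu n → Eu n} (h : IsVT Ω φ) :
    MemLp φ 2 (volume.restrict Ω) :=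
  (h.smooth.continuous.memLp_of_hasCompactSupport h.cpt).restrict Ω

theorem vt_grad_memLp {Ω : Set (Eu n)} {φ : Eu n → Eu n} (h : IsVT Ω φ) :
    MemLp (grad φ) 2 (volume.restrict Ω) :=
  (h.grad_cont.memLp_of_hasCompactSupport h.grad_cpt).restrict Ω

/-- the pair `(φ, ∇φ)` of a test field `φ` -/
noncomputable def toPair {Ω : Set (Eu n)} {φ : Eu n → Eu n} (h : IsVT Ω φ) : PairSp Ω :=
  WithLp.toLp 2 ((vt_memLp h).toLp φ, (vt_grad_memLp h).toLp (grad φ))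

/-- `V`: the closure in `W^{1,2}(Ω)ⁿ` of the test fields.  A field `u ∈ V` is represented by the
pair `(u, ∇u)`, so that the norm of `V` is the norm of `W^{1,2}(Ω)ⁿ` -/
noncomputable def VV (Ω : Set (Eu n)) : Submodule ℝ (PairSp Ω) :=
  (Submodule.span ℝ {p : PairSp Ω | ∃ (φ : Eu n → Eu n) (h : IsVT Ω φ),
    p = toPair h}).topologicalClosure

/-- `H`: the closure in `L²(Ω)ⁿ` of the test fields -/
noncomputable def HH (Ω : Set (Eu n)) : Submodule ℝ (Lp (Eu n) 2 (volume.restrict Ω)) :=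
  (Submodule.span ℝ {u : Lp (Eu n) 2 (volume.restrict Ω) | ∃ (φ : Eu n → Eu n) (h : IsVT Ω φ),
    u = (vt_memLp h).toLp φ}).topologicalClosure

/-- `V*` -/
abbrev VDual (Ω : Set (Eu n)) : Type := StrongDual ℝ (VV Ω)

/-- a test field as an element of `V` -/
noncomputable def toVV {Ω : Set (Eu n)} {φ : Eu n → Eu n} (h : IsVT Ω φ) : VV Ω :=
  ⟨toPair h, subset_closure (Submodule.subset_span ⟨φ, h, rfl⟩)⟩

/-- the pairing of `ℓ ∈ V*` with the test field `φ` -/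
noncomputable def pairV (Ω : Set (Eu n)) (ℓ : VDual Ω) (φ : Eu n → Eu n) : ℝ :=
  open Classical in if h : IsVT Ω φ then ℓ (toVV h) else 0

/-- `(u, U)` is (a representative of) an element `u` of `V` with gradient `U = ∇u` -/
def InV (Ω : Set (Eu n)) (u : Eu n → Eu n) (U : Eu n → Mt n) : Prop :=
  ∃ p : VV Ω, ((p : PairSp Ω).fst : Eu n → Eu n) =ᵐ[volume.restrict Ω] u ∧
    ((p : PairSp Ω).snd : Eu n → Mt n) =ᵐ[volume.restrict Ω] U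

/-- space-time velocity test fields `Φ ∈ C_c^∞((-∞,T) × Ω)`, divergence free in `x` -/
structure IsVTest (Ω : Set (Eu n)) (T : ℝ) (Φ : ST n → Eu n) : Prop where
  smooth : ContDiff ℝ ∞ Φ
  cpt : HasCompactSupport Φ
  supp : tsupport Φ ⊆ Iio T ×ˢ Ω
  div0 : ∀ t x, dvg (fun y => Φ (t, y)) x = 0

/-- space-time matrix test fields `Ψ ∈ C_c^∞((-∞,T) × Ω; ℝ^{n×n})` -/
structure IsMTest (Ω : Set (Eu n)) (T : ℝ) (Ψ : ST n → Mt n) : Prop where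
  smooth : ContDiff ℝ ∞ Ψ
  cpt : HasCompactSupport Ψ
  supp : tsupport Ψ ⊆ Iio T ×ˢ Ω

/-- Weak solutions `(v, τ)` on `[0,T]` of
`∂_t v + (v·∇)v - μ₀ Δv + ∇p = f + Div τ`, `div v = 0`, `v|_{∂Ω} = 0`, `v(0) = v₀`,
`τ + λ₁ (∂_t τ + (v·∇)τ + τ W(v) - W(v) τ) = 2η(1 - λ₂/λ₁) E(v)`, `τ(0) = τ₀`,
with `μ₀ = η λ₂ / λ₁`; `G` is the gradient of `v`. -/
structure IsWeakSolG (Ω : Set (Eu n)) (η lam1 lam2 : ℝ) (f : ℝ → VDual Ω)
    (v0 : Eu n → Eu n) (τ0 : Eu n → Mt n) (T : ℝ)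
    (v : ST n → Eu n) (G τ : ST n → Mt n) : Prop where
  /-- joint measurability -/
  meas_v : AEStronglyMeasurable v (volume.restrict (Ioo 0 T ×ˢ Ω))
  meas_G : AEStronglyMeasurable G (volume.restrict (Ioo 0 T ×ˢ Ω))
  meas_τ : AEStronglyMeasurable τ (volume.restrict (Ioo 0 T ×ˢ Ω))
  /-- `v(t) ∈ V` with gradient `G(t)` for almost every `t` -/
  in_V : ∀ᵐ t : ℝ, t ∈ Ioo 0 T → InV Ω (fun x => v (t, x)) (fun x => G (t, x))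
  /-- `v ∈ L²(0,T;V)` -/
  sq_G : ∫⁻ t in Ioo 0 T, ∫⁻ x in Ω, (‖v (t, x)‖ₑ ^ 2 + ‖G (t, x)‖ₑ ^ 2) < ⊤
  /-- `v ∈ L^∞(0,T;H)` -/
  bd_v : ∃ C : ℝ, ∀ᵐ t : ℝ, t ∈ Ioo 0 T → ∫⁻ x in Ω, ‖v (t, x)‖ₑ ^ 2 ≤ ENNReal.ofReal C
  /-- `τ ∈ L^∞(0,T;L²)` -/
  bd_τ : ∃ C : ℝ, ∀ᵐ t : ℝ, t ∈ Ioo 0 T → ∫⁻ x in Ω, ‖τ (t, x)‖ₑ ^ 2 ≤ ENNReal.ofReal C
  /-- `τ` is symmetric -/
  symm : ∀ᵐ z : ST n, z ∈ Ioo 0 T ×ˢ Ω → tr (τ z) = τ z
  /-- momentum equation with initial value, tested with divergence free fields -/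
  mom : ∀ Φ : ST n → Eu n, IsVTest Ω T Φ →
    (∫ t in Ioo 0 T, ((∫ x in Ω, (inner ℝ (v (t, x)) (fderiv ℝ Φ (t, x) (1, 0)) +
      inner ℝ (v (t, x)) (fderiv ℝ Φ (t, x) (0, v (t, x))) -
      η * lam2 / lam1 * inner ℝ (G (t, x)) (grad (fun y => Φ (t, y)) x) -
      inner ℝ (τ (t, x)) (grad (fun y => Φ (t, y)) x))) +
      pairV Ω (f t) (fun x => Φ (t, x)))) +
    ∫ x in Ω, inner ℝ (v0 x) (Φ (0, x)) = 0
  /-- constitutive law with initial value -/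
  law : ∀ Ψ : ST n → Mt n, IsMTest Ω T Ψ →
    (∫ t in Ioo 0 T, ∫ x in Ω, (inner ℝ (τ (t, x)) (Ψ (t, x)) -
      lam1 * inner ℝ (τ (t, x)) (fderiv ℝ Ψ (t, x) (1, 0)) -
      lam1 * inner ℝ (τ (t, x)) (fderiv ℝ Ψ (t, x) (0, v (t, x))) +
      lam1 * inner ℝ (br (τ (t, x)) (sp (G (t, x)))) (Ψ (t, x)) -
      2 * η * (1 - lam2 / lam1) * inner ℝ (sy (G (t, x))) (Ψ (t, x)))) -
    lam1 * ∫ x in Ω, inner ℝ (τ0 x) (Ψ (0, x)) = 0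

/-- weak solution on `[0,T]` -/
def IsWeakSol (Ω : Set (Eu n)) (η lam1 lam2 : ℝ) (f : ℝ → VDual Ω)
    (v0 : Eu n → Eu n) (τ0 : Eu n → Mt n) (T : ℝ) (v : ST n → Eu n) (τ : ST n → Mt n) : Prop :=
  ∃ G : ST n → Mt n, IsWeakSolG Ω η lam1 lam2 f v0 τ0 T v G τ

/-- the final statement -/
def FinalStatement : Prop :=
  ∀ (n : ℕ) (Ω : Set (Eu n)), IsOpen Ω → Bornology.IsBounded Ω →
    ∀ (η lam1 lam2 : ℝ), 0 < η → 0 < lam2 → lam2 < lam1 →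
    ∀ (v0 : Lp (Eu n) 2 (volume.restrict Ω)), v0 ∈ HH Ω →
    ∀ (τ0 : Lp (Mt n) 2 (volume.restrict Ω)),
      (∀ᵐ x ∂(volume.restrict Ω), tr (τ0 x) = τ0 x) →
    ∀ (f : ℝ → VDual Ω), AEStronglyMeasurable f (volume.restrict (Ioi 0)) →
      (∀ T : ℝ, 0 < T → IntegrableOn (fun t => ‖f t‖ ^ 2) (Ioo 0 T)) →
    ∃ (v : ST n → Eu n) (τ : ST n → Mt n), ∀ T : ℝ, 0 < T →
      IsWeakSol Ω η lam1 lam2 f v0 τ0 T v τ

end Pool.Agent.Helper42.Jef
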