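import Pool.Agent.Helper42.Jef.Defs

/-! # The Galerkin ODE has a global solution -/

open MeasureTheory Set Filter Topology
open scoped ENNReal NNReal ContDiff

namespace Pool.Agent.Helper42.Jef

set_option maxHeartbeats 400000

variable {S : Type*} [NormedAddCommGroup S] [InnerProductSpace ℝ S] [FiniteDimensional ℝ S]

/-- Riesz representative of `b x x · + l x ·` -/
noncomputable def gf (b : S →ₗ[ℝ] S →ₗ[ℝ] S →ₗ[ℝ] ℝ) (l : S →ₗ[ℝ] S →ₗ[ℝ] ℝ) (x : S) : S :=
  ∑ i, (b x x (stdOrthonormalBasis ℝ S i) + l x (stdOrthonormalBasis ℝ S i)) •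
    stdOrthonormalBasis ℝ S i

theorem gf_inner (b : S →ₗ[ℝ] S →ₗ[ℝ] S →ₗ[ℝ] ℝ) (l : S →ₗ[ℝ] S →ₗ[ℝ] ℝ) (x V : S) :
    inner ℝ (gf b l x) V = b x x V + l x V := by
  set e := stdOrthonormalBasis ℝ S
  have hV : V = ∑ i, inner ℝ (e i) V • e i := (e.sum_repr' V).symm
  have h1 : inner ℝ (gf b l x) V = ∑ i, (b x x (e i) + l x (e i)) * inner ℝ (e i) V := by
    simp only [gf, sum_inner, inner_smul_left]
    rfl
  rw [h1]
  conv_rhs => rw [hV]
  simp only [map_sum, map_smul, smul_eq_mul]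
  rw [← Finset.sum_add_distrib]
  refine Finset.sum_congr rfl fun i _ => ?_
  ring

theorem gf_contDiff (b : S →ₗ[ℝ] S →ₗ[ℝ] S →ₗ[ℝ] ℝ) (l : S →ₗ[ℝ] S →ₗ[ℝ] ℝ) :
    ContDiff ℝ ∞ (gf b l) := by
  set e := stdOrthonormalBasis ℝ S
  have hx : ∀ x : S, x = ∑ i, inner ℝ (e i) x • e i := fun x => (e.sum_repr' x).symm
  have hb : ∀ w : S, ContDiff ℝ ∞ (fun x : S => b x x w) := by
    intro w
    have h : (fun x : S => b x x w) =
        fun x => ∑ i, ∑ j, inner ℝ (e i) x * (inner ℝ (e j) x * b (e i) (e j) w) := by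
      funext x
      conv_lhs => rw [hx x]
      simp only [map_sum, map_smul, smul_eq_mul, LinearMap.sum_apply, LinearMap.smul_apply,
        Finset.mul_sum]
      rw [Finset.sum_comm]
      refine Finset.sum_congr rfl fun i _ => Finset.sum_congr rfl fun j _ => ?_
      ring
    rw [h]
    refine ContDiff.sum fun i _ => ContDiff.sum fun j _ => ?_
    exact (contDiff_const.inner ℝ contDiff_id).mul
      ((contDiff_const.inner ℝ contDiff_id).mul contDiff_const)
  have hl : ∀ w : S, ContDiff ℝ ∞ (fun x : S => l x w) := by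
    intro w
    have h : (fun x : S => l x w) = fun x => ∑ i, inner ℝ (e i) x * l (e i) w := by
      funext x
      conv_lhs => rw [hx x]
      simp only [map_sum, map_smul, smul_eq_mul, LinearMap.sum_apply, LinearMap.smul_apply]
    rw [h]
    exact ContDiff.sum fun i _ => (contDiff_const.inner ℝ contDiff_id).mul contDiff_const
  unfold gf
  exact ContDiff.sum fun i _ => ((hb _).add (hl _)).smul contDiff_const

theorem ode_global' (b : S →ₗ[ℝ] S →ₗ[ℝ] S →ₗ[ℝ] ℝ) (l : S →ₗ[ℝ] S →ₗ[ℝ] ℝ)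
    (F : ℝ → S) (hF : Continuous F) (hb : ∀ x, b x x x = 0) (hl : ∀ x, l x x ≤ 0)
    {T : ℝ} (hT : 0 < T) (U0 : S) :
    ∃ U : ℝ → S, U 0 = U0 ∧ ContinuousOn U (Icc 0 T) ∧ ∀ t ∈ Icc 0 T,
      HasDerivWithinAt U (gf b l (U t) + F t) (Icc 0 T) t := by
  -- bound for `F`
  obtain ⟨CF, hCF⟩ := (isCompact_Icc (a := (0:ℝ)) (b := T)).exists_bound_of_continuousOn
    hF.continuousOn
  have hCF0 : 0 ≤ CF := (norm_nonneg _).trans (hCF 0 ⟨le_rfl, hT.le⟩)
  set X : ℝ := Real.exp T * (‖U0‖ ^ 2 + CF ^ 2) with hX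
  have hX0 : 0 ≤ X := by positivity
  set R : ℝ := Real.sqrt X + 1 with hR
  have hR0 : 0 < R := by positivity
  let bu : ContDiffBump (0 : S) := ⟨R, R + 1, hR0, by linarith⟩
  let P : S → S := fun x => bu x • gf b l x
  have hP : ContDiff ℝ ∞ P := bu.contDiff.smul (gf_contDiff b l)
  have hPs : HasCompactSupport P := bu.hasCompactSupport.smul_right
  have hP1 : ContDiff ℝ 1 P := hP.of_le (by exact_mod_cast le_top)
  obtain ⟨K, hK⟩ := hP1.lipschitzWith_of_hasCompactSupport hPs one_ne_zero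
  obtain ⟨CP, hCP⟩ := hP.continuous.bounded_above_of_compact_support hPs
  have hCP0 : 0 ≤ CP := (norm_nonneg _).trans (hCP 0)
  let f : ℝ → S → S := fun t x => P x + F t
  have hPL : IsPicardLindelof f (tmin := 0) (tmax := T) ⟨0, ⟨le_rfl, hT.le⟩⟩ U0
      (⟨(CP + CF) * T, by positivity⟩ : ℝ≥0) 0 (⟨CP + CF, by positivity⟩ : ℝ≥0) K := by
    refine ⟨?_, ?_, ?_, ?_⟩
    · intro t _
      have : LipschitzWith K (f t) := by
        refine LipschitzWith.of_dist_le_mul fun x y => ?_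
        have := hK.dist_le_mul x y
        simpa [f, dist_add_right] using this
      exact this.lipschitzOnWith
    · intro x _
      exact (continuous_const.add hF).continuousOn
    · intro t ht x _
      calc ‖f t x‖ ≤ ‖P x‖ + ‖F t‖ := norm_add_le _ _
        _ ≤ CP + CF := add_le_add (hCP x) (hCF t ht)
    · have h0 : max (T - 0) ((0:ℝ) - 0) = T := by rw [sub_zero, sub_zero, max_eq_left hT.le]
      show (CP + CF) * max (T - 0) ((0:ℝ) - 0) ≤ (CP + CF) * T - ((0 : ℝ≥0) : ℝ)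
      rw [h0]; simp
  obtain ⟨U, hU0, hU⟩ := hPL.exists_eq_forall_mem_Icc_hasDerivWithinAt₀
  have hU0' : U 0 = U0 := hU0
  have hUc : ContinuousOn U (Icc 0 T) := fun t ht => (hU t ht).continuousWithinAt
  -- a priori bound
  have hbd : ∀ t ∈ Icc 0 T, ‖U t‖ ^ 2 ≤ X := by
    let h : ℝ → ℝ := fun t => Real.exp (-t) * (‖U t‖ ^ 2 + CF ^ 2)
    have hder : ∀ t ∈ Ioo 0 T, HasDerivAt h
        (-Real.exp (-t) * (‖U t‖ ^ 2 + CF ^ 2) +
          Real.exp (-t) * (2 * inner ℝ (U t) (f t (U t)))) t := by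
      intro t ht
      have h1 : HasDerivAt U (f t (U t)) t :=
        (hU t (Ioo_subset_Icc_self ht)).hasDerivAt (Icc_mem_nhds ht.1 ht.2)
      have h2 : HasDerivAt (fun t => ‖U t‖ ^ 2) (2 * inner ℝ (U t) (f t (U t))) t := by
        have := h1.norm_sq
        exact this
      have h3 : HasDerivAt (fun t : ℝ => Real.exp (-t)) (-Real.exp (-t)) t := by
        have := (hasDerivAt_neg t).exp
        simpa using this
      exact h3.mul (h2.add_const _)
    have hanti : AntitoneOn h (Icc 0 T) := by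
      refine antitoneOn_of_deriv_nonpos (convex_Icc 0 T) ?_ ?_ ?_
      · exact (Real.continuous_exp.comp continuous_neg).continuousOn.mul
          ((hUc.norm.pow 2).add continuousOn_const)
      · rw [interior_Icc]
        exact fun t ht => (hder t ht).differentiableAt.differentiableWithinAt
      · rw [interior_Icc]
        intro t ht
        rw [(hder t ht).deriv]
        have hin : inner ℝ (U t) (f t (U t)) ≤ ‖U t‖ * CF := by
          have h1 : inner ℝ (U t) (P (U t)) ≤ 0 := by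
            have h2 : inner ℝ (gf b l (U t)) (U t) ≤ 0 := by
              rw [gf_inner, hb, zero_add]; exact hl _
            simp only [P]
            rw [inner_smul_right, real_inner_comm]
            exact mul_nonpos_of_nonneg_of_nonpos bu.nonneg h2
          have h3 : inner ℝ (U t) (F t) ≤ ‖U t‖ * CF :=
            (real_inner_le_norm _ _).trans
              (mul_le_mul_of_nonneg_left (hCF t (Ioo_subset_Icc_self ht)) (norm_nonneg _))
          simp only [f]
          rw [inner_add_right]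
          linarith
        have h4 : 2 * inner ℝ (U t) (f t (U t)) ≤ ‖U t‖ ^ 2 + CF ^ 2 := by
          nlinarith [sq_nonneg (‖U t‖ - CF)]
        have h5 : 0 < Real.exp (-t) := Real.exp_pos _
        nlinarith
    intro t ht
    have h1 := hanti (left_mem_Icc.2 hT.le) ht ht.1
    simp only [h, neg_zero, Real.exp_zero, one_mul, hU0'] at h1
    have h2 : ‖U t‖ ^ 2 + CF ^ 2 = Real.exp t * (Real.exp (-t) * (‖U t‖ ^ 2 + CF ^ 2)) := by
      rw [← mul_assoc, ← Real.exp_add]; simp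
    have h3 : Real.exp t ≤ Real.exp T := Real.exp_le_exp.2 ht.2
    calc ‖U t‖ ^ 2 ≤ ‖U t‖ ^ 2 + CF ^ 2 := by nlinarith [sq_nonneg CF]
      _ = Real.exp t * (Real.exp (-t) * (‖U t‖ ^ 2 + CF ^ 2)) := h2
      _ ≤ Real.exp t * (‖U0‖ ^ 2 + CF ^ 2) :=
        mul_le_mul_of_nonneg_left h1 (Real.exp_pos _).le
      _ ≤ X := mul_le_mul_of_nonneg_right h3 (by positivity)
  refine ⟨U, hU0', hUc, fun t ht => ?_⟩
  have h1 : ‖U t‖ ≤ R := by
    have := Real.le_sqrt_of_sq_le (hbd t ht)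
    linarith
  have h2 : bu (U t) = 1 := bu.one_of_mem_closedBall (by simpa [bu] using h1)
  have h3 := hU t ht
  simp only [f, P, h2, one_smul] at h3
  exact h3

theorem ode_global (b : S →ₗ[ℝ] S →ₗ[ℝ] S →ₗ[ℝ] ℝ) (l : S →ₗ[ℝ] S →ₗ[ℝ] ℝ)
    (F : ℝ → S) (hF : Continuous F) (hb : ∀ x, b x x x = 0) (hl : ∀ x, l x x ≤ 0)
    {T : ℝ} (hT : 0 < T) (U0 : S) :
    ∃ U : ℝ → S, U 0 = U0 ∧ ContinuousOn U (Icc 0 T) ∧ ∀ t ∈ Icc 0 T, ∃ U' : S,
      HasDerivWithinAt U U' (Icc 0 T) t ∧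
      ∀ V, inner ℝ U' V = b (U t) (U t) V + l (U t) V + inner ℝ (F t) V := by
  obtain ⟨U, h0, hc, hd⟩ := ode_global' b l F hF hb hl hT U0
  refine ⟨U, h0, hc, fun t ht => ⟨_, hd t ht, fun V => ?_⟩⟩
  rw [inner_add_left, gf_inner]

end Pool.Agent.Helper42.Jef
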