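import Pool.Agent.Helper42.Jef.Vel2
import Pool.Agent.Helper42.Jef.DenseSeq
import Pool.Agent.Helper42.Jef.Ode

/-! # The multilinear forms of the Galerkin scheme -/

open MeasureTheory Set Filter Topology
open scoped ENNReal NNReal ContDiff

namespace Pool.Agent.Helper42.Jef

set_option maxHeartbeats 400000

variable {n : ℕ} {Ω : Set (Eu n)}

section abstractforms

variable {D : Type*} [AddCommGroup D] [Module ℝ D] {α : Type*} [MeasurableSpace α] {μ : Measure α}

/-- bilinear form from a pointwise bilinear integrand -/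
noncomputable def mkBi (I : D → D → α → ℝ) (hi : ∀ U V, Integrable (I U V) μ)
    (a1 : ∀ U U' V x, I (U + U') V x = I U V x + I U' V x)
    (s1 : ∀ (c : ℝ) U V x, I (c • U) V x = c * I U V x)
    (a2 : ∀ U V V' x, I U (V + V') x = I U V x + I U V' x)
    (s2 : ∀ (c : ℝ) U V x, I U (c • V) x = c * I U V x) : D →ₗ[ℝ] D →ₗ[ℝ] ℝ :=
  LinearMap.mk₂ ℝ (fun U V => ∫ x, I U V x ∂μ)
    (fun U U' V => by simp only [a1]; exact integral_add (hi _ _) (hi _ _))
    (fun c U V => by simp only [s1]; rw [integral_const_mul]; rfl)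
    (fun U V V' => by simp only [a2]; exact integral_add (hi _ _) (hi _ _))
    (fun c U V => by simp only [s2]; rw [integral_const_mul]; rfl)

/-- trilinear form from a pointwise trilinear integrand -/
noncomputable def mkTri (I : D → D → D → α → ℝ) (hi : ∀ U V Z, Integrable (I U V Z) μ)
    (a1 : ∀ U U' V Z x, I (U + U') V Z x = I U V Z x + I U' V Z x)
    (s1 : ∀ (c : ℝ) U V Z x, I (c • U) V Z x = c * I U V Z x)
    (a2 : ∀ U V V' Z x, I U (V + V') Z x = I U V Z x + I U V' Z x)
    (s2 : ∀ (c : ℝ) U V Z x, I U (c • V) Z x = c * I U V Z x)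
    (a3 : ∀ U V Z Z' x, I U V (Z + Z') x = I U V Z x + I U V Z' x)
    (s3 : ∀ (c : ℝ) U V Z x, I U V (c • Z) x = c * I U V Z x) :
    D →ₗ[ℝ] D →ₗ[ℝ] D →ₗ[ℝ] ℝ where
  toFun U := mkBi (μ := μ) (I U) (hi U) (fun V V' Z x => a2 U V V' Z x)
    (fun c V Z x => s2 c U V Z x) (fun V Z Z' x => a3 U V Z Z' x) (fun c V Z x => s3 c U V Z x)
  map_add' U U' := by
    ext V Z
    show ∫ x, I (U + U') V Z x ∂μ = ∫ x, I U V Z x ∂μ + ∫ x, I U' V Z x ∂μ
    simp only [a1]; exact integral_add (hi _ _ _) (hi _ _ _)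
  map_smul' c U := by
    ext V Z
    show ∫ x, I (c • U) V Z x ∂μ = c * ∫ x, I U V Z x ∂μ
    simp only [s1]; rw [integral_const_mul]

end abstractforms

/-! ## mollified spin of a test field -/

theorem rho_cont (n : ℕ) : Continuous (rho n) := by
  unfold rho
  exact (ContDiffBump.contDiff_normed (n := 0) _).continuous

theorem rho_smooth (n : ℕ) : ContDiff ℝ ∞ (rho n) := by
  unfold rho
  exact ContDiffBump.contDiff_normed _

theorem rho_cpt (n : ℕ) : HasCompactSupport (rho n) := by
  unfold rho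
  exact ContDiffBump.hasCompactSupport_normed _

theorem rho_nonneg (x : Eu n) : 0 ≤ rho n x := by
  unfold rho
  exact ContDiffBump.nonneg_normed _ _

theorem rho_integral (n : ℕ) : ∫ x, rho n x = 1 := by
  unfold rho
  exact ContDiffBump.integral_normed _

theorem rho_supp {x : Eu n} (hx : 1 ≤ ‖x‖) : rho n x = 0 := by
  have h : x ∉ Function.support (rho n) := by
    unfold rho
    rw [ContDiffBump.support_normed_eq]
    simp only [Metric.mem_ball, dist_zero_right, not_lt]
    exact hx
  simpa using h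

theorem ro_smooth (ε : ℝ) : ContDiff ℝ ∞ (ro ε : Eu n → ℝ) := by
  unfold ro
  exact contDiff_const.mul ((rho_smooth n).comp (contDiff_const_smul _))

theorem ro_cont (ε : ℝ) : Continuous (ro ε : Eu n → ℝ) := (ro_smooth ε).continuous

theorem ro_cpt {ε : ℝ} (hε : 0 < ε) : HasCompactSupport (ro ε : Eu n → ℝ) := by
  have h1 : HasCompactSupport (fun x : Eu n => rho n (ε⁻¹ • x)) :=
    (rho_cpt n).comp_homeomorph (Homeomorph.smulOfNeZero ε⁻¹ (inv_ne_zero hε.ne'))
  exact h1.mul_left

theorem ro_nonneg {ε : ℝ} (hε : 0 < ε) (x : Eu n) : 0 ≤ ro ε x :=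
  mul_nonneg (by positivity) (rho_nonneg _)

theorem ro_integral {ε : ℝ} (hε : 0 < ε) : ∫ x : Eu n, ro ε x = 1 := by
  unfold ro
  rw [integral_const_mul, Measure.integral_comp_smul, rho_integral, finrank_euclideanSpace,
    Fintype.card_fin, smul_eq_mul, mul_one, inv_pow, inv_inv, abs_of_pos (by positivity)]
  field_simp

theorem ro_integrable {ε : ℝ} (hε : 0 < ε) : Integrable (ro ε : Eu n → ℝ) :=
  (ro_cont ε).integrable_of_hasCompactSupport (ro_cpt hε)

theorem ro_lint {ε : ℝ} (hε : 0 < ε) : ∫⁻ x : Eu n, ‖ro ε x‖ₑ = 1 := by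
  have h1 : ∫⁻ x : Eu n, ‖ro ε x‖ₑ = ∫⁻ x : Eu n, ENNReal.ofReal (ro ε x) := by
    refine lintegral_congr fun x => ?_
    rw [Real.enorm_eq_ofReal (ro_nonneg hε x)]
  rw [h1, ← ofReal_integral_eq_lintegral_ofReal (ro_integrable hε)
    (Eventually.of_forall (ro_nonneg hε)), ro_integral hε, ENNReal.ofReal_one]

/-- mollified, cut off spin of a pair of test fields -/
noncomputable def sm (δ : ℝ) (U : DD Ω) (x : Eu n) : Mt n :=
  Ω.indicator (fun _ => ∫ y, ro δ (x - y) • sp (grad (vf U) y)) x

theorem sm_int {δ : ℝ} (hδ : 0 < δ) (U : DD Ω) (x : Eu n) :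
    Integrable (fun y => ro δ (x - y) • sp (grad (vf U) y)) := by
  have h1 : Continuous fun y => ro δ (x - y) • sp (grad (vf U) y) :=
    ((ro_cont δ).comp (continuous_const.sub continuous_id)).smul
      ((spL n).continuous.comp (vf_vt U).grad_cont)
  refine h1.integrable_of_hasCompactSupport ?_
  refine (vf_vt U).grad_cpt.mono' ?_
  intro y hy
  refine subset_closure fun h0 => hy ?_
  have h0' : grad (vf U) y = 0 := h0
  show ro δ (x - y) • sp (grad (vf U) y) = 0
  rw [h0', show sp (0 : Mt n) = 0 from (spL n).map_zero, smul_zero]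

theorem sm_add {δ : ℝ} (hδ : 0 < δ) (U V : DD Ω) (x : Eu n) :
    sm δ (U + V) x = sm δ U x + sm δ V x := by
  by_cases hx : x ∈ Ω
  · simp only [sm, indicator_of_mem hx]
    rw [← integral_add (sm_int hδ U x) (sm_int hδ V x)]
    refine integral_congr_ae (Eventually.of_forall fun y => ?_)
    simp only [vf_add]
    rw [grad_add (vf_diff U) (vf_diff V), ← smul_add]
    congr 1
    exact (spL n).map_add _ _
  · simp only [sm, indicator_of_notMem hx, add_zero]

theorem sm_smul (δ : ℝ) (c : ℝ) (U : DD Ω) (x : Eu n) : sm δ (c • U) x = c • sm δ U x := by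
  by_cases hx : x ∈ Ω
  · simp only [sm, indicator_of_mem hx]
    rw [← integral_smul]
    refine integral_congr_ae (Eventually.of_forall fun y => ?_)
    simp only [vf_smul]
    rw [grad_smul (vf_diff U), smul_comm]
    congr 1
    exact (spL n).map_smul _ _
  · simp only [sm, indicator_of_notMem hx, smul_zero]

theorem sm_antisym {δ : ℝ} (hδ : 0 < δ) (U : DD Ω) (x : Eu n) :
    tr (sm δ U x) = - sm δ U x := by
  by_cases hx : x ∈ Ω
  · simp only [sm, indicator_of_mem hx]
    have h1 : tr (∫ y, ro δ (x - y) • sp (grad (vf U) y)) =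
        ∫ y, tr (ro δ (x - y) • sp (grad (vf U) y)) :=
      ((trL n).integral_comp_comm (sm_int hδ U x)).symm
    rw [h1, ← integral_neg]
    refine integral_congr_ae (Eventually.of_forall fun y => ?_)
    simp only [tr_smul, tr_sp, smul_neg]
  · simp only [sm, indicator_of_notMem hx, neg_zero]
    exact (trL n).map_zero

theorem sm_bound {δ : ℝ} (hδ : 0 < δ) (U : DD Ω) : ∃ C : ℝ, ∀ x, ‖sm δ U x‖ ≤ C := by
  obtain ⟨C, hC⟩ := (vf_vt U).grad_cont.bounded_above_of_compact_support (vf_vt U).grad_cpt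
  have hC0 : 0 ≤ C := (norm_nonneg _).trans (hC 0)
  refine ⟨C, fun x => ?_⟩
  by_cases hx : x ∈ Ω
  · simp only [sm, indicator_of_mem hx]
    have hi : Integrable (fun y : Eu n => ro δ (x - y)) := by
      have := (ro_integrable (n := n) hδ).comp_sub_left x
      exact this
    calc ‖∫ y, ro δ (x - y) • sp (grad (vf U) y)‖
        ≤ ∫ y, ‖ro δ (x - y) • sp (grad (vf U) y)‖ := norm_integral_le_integral_norm _
      _ ≤ ∫ y, ro δ (x - y) * C := by
          refine integral_mono (sm_int hδ U x).norm (hi.mul_const _) fun y => ?_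
          rw [norm_smul, Real.norm_eq_abs, abs_of_nonneg (ro_nonneg hδ _)]
          exact mul_le_mul_of_nonneg_left ((norm_sp_le _).trans (hC y)) (ro_nonneg hδ _)
      _ = C := by
          rw [integral_mul_const, integral_sub_left_eq_self (fun y => ro δ y) volume x,
            ro_integral hδ, one_mul]
  · simp only [sm, indicator_of_notMem hx, norm_zero]
    exact hC0

theorem sm_meas (hΩ : MeasurableSet Ω) (δ : ℝ) (U : DD Ω) :
    AEStronglyMeasurable (sm δ U) volume := by
  have h1 : Continuous (fun p : Eu n × Eu n => ro δ (p.1 - p.2) • sp (grad (vf U) p.2)) :=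
    ((ro_cont δ).comp (continuous_fst.sub continuous_snd)).smul
      (((spL n).continuous.comp (vf_vt U).grad_cont).comp continuous_snd)
  have h2 : AEStronglyMeasurable (fun x => ∫ y, ro δ (x - y) • sp (grad (vf U) y)) volume :=
    h1.aestronglyMeasurable.integral_prod_right'
  exact h2.indicator hΩ

/-! ## the trilinear form -/

/-- integrand of the trilinear form -/
noncomputable def Ib (δ : ℝ) (U V Z : DD Ω) (x : Eu n) : ℝ :=
  inner ℝ (vf V x) (fderiv ℝ (vf Z) x (vf U x)) + inner ℝ (tf V x) (fderiv ℝ (tf Z) x (vf U x)) -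
    inner ℝ (br (tf V x) (sm δ U x)) (tf Z x)

theorem cc_integrable {f : Eu n → ℝ} (hc : Continuous f) {g : Eu n → Eu n}
    (hg : HasCompactSupport g) (h : ∀ x, g x = 0 → f x = 0) : Integrable f := by
  refine hc.integrable_of_hasCompactSupport (hg.mono' fun x hx => subset_closure fun h0 => hx (h x h0))

theorem Ib_int (hΩ : MeasurableSet Ω) {δ : ℝ} (hδ : 0 < δ) (U V Z : DD Ω) :
    Integrable (Ib δ U V Z) := by
  have cU := (vf_smooth U).continuous
  have cV := (vf_smooth V).continuous
  have cV' := (tf_smooth V).continuous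
  have cZ' := (tf_smooth Z).continuous
  have h1 : Integrable (fun x => inner ℝ (vf V x) (fderiv ℝ (vf Z) x (vf U x))) := by
    refine cc_integrable (cV.inner (((vf_smooth Z).continuous_fderiv (by simp)).clm_apply cU))
      (vf_cpt U) fun x hx => ?_
    rw [hx, map_zero, inner_zero_right]
  have h2 : Integrable (fun x => inner ℝ (tf V x) (fderiv ℝ (tf Z) x (vf U x))) := by
    refine cc_integrable (cV'.inner (((tf_smooth Z).continuous_fderiv (by simp)).clm_apply cU))
      (vf_cpt U) fun x hx => ?_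
    rw [hx, map_zero, inner_zero_right]
  have h3 : Integrable (fun x => inner ℝ (br (tf V x) (sm δ U x)) (tf Z x)) := by
    obtain ⟨C, hC⟩ := sm_bound hδ U
    have h4 : Integrable (fun x => ‖tf V x‖ * ‖tf Z x‖) := by
      refine (cV'.norm.mul cZ'.norm).integrable_of_hasCompactSupport ?_
      refine (tf_cpt Z).mono' fun x hx => subset_closure fun h0 => hx ?_
      have h0' : tf Z x = 0 := h0
      simp [h0']
    refine (h4.const_mul (2 * C)).mono' ?_ (Eventually.of_forall fun x => ?_)
    · exact ((brL n).aestronglyMeasurable_comp₂ cV'.aestronglyMeasurable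
        (sm_meas hΩ δ U)).inner cZ'.aestronglyMeasurable
    · calc ‖inner ℝ (br (tf V x) (sm δ U x)) (tf Z x)‖ ≤ ‖br (tf V x) (sm δ U x)‖ * ‖tf Z x‖ :=
          norm_inner_le_norm _ _
        _ ≤ (2 * (‖tf V x‖ * ‖sm δ U x‖)) * ‖tf Z x‖ :=
          mul_le_mul_of_nonneg_right (norm_br_le _ _) (norm_nonneg _)
        _ ≤ (2 * (‖tf V x‖ * C)) * ‖tf Z x‖ := by
          refine mul_le_mul_of_nonneg_right ?_ (norm_nonneg _)
          exact mul_le_mul_of_nonneg_left (mul_le_mul_of_nonneg_left (hC x) (norm_nonneg _))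
            (by norm_num)
        _ = _ := by ring
  exact (h1.add h2).sub h3

noncomputable def bform (hΩ : MeasurableSet Ω) {δ : ℝ} (hδ : 0 < δ) :
    DD Ω →ₗ[ℝ] DD Ω →ₗ[ℝ] DD Ω →ₗ[ℝ] ℝ :=
  mkTri (μ := volume) (Ib δ) (Ib_int hΩ hδ)
    (fun U U' V Z x => by
      simp only [Ib, vf_add, Pi.add_apply, map_add, inner_add_right, sm_add hδ, br_add_right,
        inner_add_left]
      ring)
    (fun c U V Z x => by
      simp only [Ib, vf_smul, Pi.smul_apply, map_smul, inner_smul_right, sm_smul, br_smul_right,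
        inner_smul_left, conj_trivial]
      ring)
    (fun U V V' Z x => by
      simp only [Ib, vf_add, tf_add, Pi.add_apply, inner_add_left, br_add_left]
      ring)
    (fun c U V Z x => by
      simp only [Ib, vf_smul, tf_smul, Pi.smul_apply, inner_smul_left, br_smul_left, conj_trivial]
      ring)
    (fun U V Z Z' x => by
      simp only [Ib, vf_add, tf_add, fderiv_add (vf_diff Z x) (vf_diff Z' x),
        fderiv_add (tf_diff Z x) (tf_diff Z' x), Pi.add_apply, ContinuousLinearMap.add_apply,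
        inner_add_right]
      ring)
    (fun c U V Z x => by
      simp only [Ib, vf_smul, tf_smul, fderiv_const_smul (vf_diff Z x),
        fderiv_const_smul (tf_diff Z x), Pi.smul_apply, ContinuousLinearMap.smul_apply,
        inner_smul_right]
      ring)

theorem bform_apply (hΩ : MeasurableSet Ω) {δ : ℝ} (hδ : 0 < δ) (U V Z : DD Ω) :
    bform hΩ hδ U V Z = ∫ x, Ib δ U V Z x := rfl

/-! ## the bilinear form -/

noncomputable def Il (μ a c : ℝ) (U Z : DD Ω) (x : Eu n) : ℝ :=
  - (μ * inner ℝ (grad (vf U) x) (grad (vf Z) x)) - c * inner ℝ (tf U x) (sy (grad (vf Z) x)) -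
    a * inner ℝ (tf U x) (tf Z x) + c * inner ℝ (sy (grad (vf U) x)) (tf Z x)

theorem sy_cont {α : Type*} [TopologicalSpace α] {f : α → Mt n} (h : Continuous f) :
    Continuous (fun x => sy (f x)) := (syL n).continuous.comp h

theorem Il_int (μ a c : ℝ) (U Z : DD Ω) : Integrable (Il μ a c U Z) := by
  have cU := (vf_vt U).grad_cont
  have cZ := (vf_vt Z).grad_cont
  have cU' := (tf_smooth U).continuous
  have cZ' := (tf_smooth Z).continuous
  have hs : ∀ (f : Eu n → ℝ), Continuous f → (∀ x, vf Z x = 0 → grad (vf Z) x = 0 → tf Z x = 0 → f x = 0) →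
      Integrable f := by
    intro f hf h0
    refine hf.integrable_of_hasCompactSupport ?_
    have hK : IsCompact (tsupport (vf Z) ∪ (tsupport (grad (vf Z)) ∪ tsupport (tf Z))) :=
      (vf_cpt Z).isCompact.union ((vf_vt Z).grad_cpt.isCompact.union (tf_cpt Z).isCompact)
    refine HasCompactSupport.intro hK fun x hx => ?_
    simp only [mem_union, not_or] at hx
    exact h0 x (image_eq_zero_of_notMem_tsupport hx.1) (image_eq_zero_of_notMem_tsupport hx.2.1)
      (image_eq_zero_of_notMem_tsupport hx.2.2)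
  have h1 := hs (Il μ a c U Z) (by
    unfold Il
    exact (((continuous_const.mul (cU.inner cZ)).neg.sub
      (continuous_const.mul (cU'.inner (sy_cont cZ)))).sub
      (continuous_const.mul (cU'.inner cZ'))).add (continuous_const.mul ((sy_cont cU).inner cZ')))
    (by
      intro x _ h2 h3
      simp only [Il, h2, h3, inner_zero_right, mul_zero, show sy (0 : Mt n) = 0 from (syL n).map_zero]
      ring)
  exact h1

noncomputable def lform (Ω : Set (Eu n)) (μ a c : ℝ) : DD Ω →ₗ[ℝ] DD Ω →ₗ[ℝ] ℝ :=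
  mkBi (μ := volume) (Il μ a c) (Il_int μ a c)
    (fun U U' Z x => by
      have h : sy (grad (vf U) x + grad (vf U') x) = sy (grad (vf U) x) + sy (grad (vf U') x) :=
        (syL n).map_add _ _
      simp only [Il, vf_add, tf_add, Pi.add_apply, grad_add (vf_diff U) (vf_diff U'),
        inner_add_left, h]
      ring)
    (fun r U Z x => by
      have h : sy (r • grad (vf U) x) = r • sy (grad (vf U) x) := (syL n).map_smul _ _
      simp only [Il, vf_smul, tf_smul, Pi.smul_apply, grad_smul (vf_diff U), inner_smul_left, h,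
        conj_trivial]
      ring)
    (fun U Z Z' x => by
      have h : sy (grad (vf Z) x + grad (vf Z') x) = sy (grad (vf Z) x) + sy (grad (vf Z') x) :=
        (syL n).map_add _ _
      simp only [Il, vf_add, tf_add, Pi.add_apply, grad_add (vf_diff Z) (vf_diff Z'),
        inner_add_right, h]
      ring)
    (fun r U Z x => by
      have h : sy (r • grad (vf Z) x) = r • sy (grad (vf Z) x) := (syL n).map_smul _ _
      simp only [Il, vf_smul, tf_smul, Pi.smul_apply, grad_smul (vf_diff Z), inner_smul_right, h]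
      ring)

theorem lform_apply (μ a c : ℝ) (U Z : DD Ω) : lform Ω μ a c U Z = ∫ x, Il μ a c U Z x := rfl

theorem lform_self (μ a c : ℝ) (U : DD Ω) :
    lform Ω μ a c U U = - (μ * ∫ x, ‖grad (vf U) x‖ ^ 2) - a * ∫ x, ‖tf U x‖ ^ 2 := by
  rw [lform_apply]
  have h1 : Integrable (fun x => ‖grad (vf U) x‖ ^ 2) := by
    have : Continuous fun x => ‖grad (vf U) x‖ ^ 2 := (vf_vt U).grad_cont.norm.pow 2
    refine this.integrable_of_hasCompactSupport ?_
    refine (vf_vt U).grad_cpt.mono' fun x hx => subset_closure fun h0 => hx ?_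
    have h0' : grad (vf U) x = 0 := h0
    simp [h0']
  have h2 : Integrable (fun x => ‖tf U x‖ ^ 2) := by
    have : Continuous fun x => ‖tf U x‖ ^ 2 := (tf_smooth U).continuous.norm.pow 2
    refine this.integrable_of_hasCompactSupport ?_
    refine (tf_cpt U).mono' fun x hx => subset_closure fun h0 => hx ?_
    have h0' : tf U x = 0 := h0
    simp [h0']
  have h3 : ∀ x, Il μ a c U U x = - (μ * ‖grad (vf U) x‖ ^ 2) - a * ‖tf U x‖ ^ 2 := by
    intro x
    simp only [Il, real_inner_self_eq_norm_sq]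
    rw [real_inner_comm (sy (grad (vf U) x)) (tf U x)]
    ring
  simp only [h3]
  have h5 : Integrable (fun x => -(μ * ‖grad (vf U) x‖ ^ 2)) := (h1.const_mul μ).neg
  rw [integral_sub h5 (h2.const_mul a), integral_neg, integral_const_mul,
    integral_const_mul]

/-- divergence free fields are orthogonal to gradients -/
theorem vt_div {φ : Eu n → Eu n} (hφ : IsVT Ω φ) {h : Eu n → ℝ} (hh : ContDiff ℝ 1 h) :
    ∫ x, fderiv ℝ h x (φ x) = 0 := by
  have hexp : ∀ x, fderiv ℝ h x (φ x) = ∑ i, φ x i * fderiv ℝ h x (bv i) := by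
    intro x
    have h1 : φ x = ∑ i, φ x i • (bv i : Eu n) := by
      have := (EuclideanSpace.basisFun (Fin n) ℝ).sum_repr (φ x)
      simpa [bv] using this.symm
    conv_lhs => rw [h1]
    simp only [map_sum, map_smul, smul_eq_mul]
  have hci : ∀ i, ContDiff ℝ ∞ (fun x => φ x i) := fun i =>
    (EuclideanSpace.proj (𝕜 := ℝ) i).contDiff.comp hφ.smooth
  have hsi : ∀ i, HasCompactSupport (fun x => φ x i) := by
    intro i
    refine hφ.cpt.mono' fun x hx => subset_closure fun h0 => hx ?_
    have h0' : φ x = 0 := h0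
    simp [h0']
  have hd : Continuous (fderiv ℝ h) := hh.continuous_fderiv (by simp)
  have i1 : ∀ i, Integrable (fun x => φ x i * fderiv ℝ h x (bv i)) := fun i =>
    ((hci i).continuous.mul (hd.clm_apply continuous_const)).integrable_of_hasCompactSupport
      (hsi i).mul_right
  have i2 : ∀ i, Integrable (fun x => fderiv ℝ (fun x => φ x i) x (bv i) * h x) := fun i =>
    ((((hci i).continuous_fderiv (by simp)).clm_apply continuous_const).mul
      hh.continuous).integrable_of_hasCompactSupport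
      (((hsi i).fderiv_apply (𝕜 := ℝ) (bv i)).mul_right)
  have i3 : ∀ i, Integrable (fun x => φ x i * h x) := fun i =>
    ((hci i).continuous.mul hh.continuous).integrable_of_hasCompactSupport (hsi i).mul_right
  simp only [hexp]
  rw [integral_finsetSum _ fun i _ => i1 i]
  have h4 : ∀ i, ∫ x, φ x i * fderiv ℝ h x (bv i) =
      - ∫ x, fderiv ℝ (fun x => φ x i) x (bv i) * h x := fun i =>
    integral_mul_fderiv_eq_neg_fderiv_mul_of_integrable (i2 i) (i1 i) (i3 i)
      (fun x _ => (hci i).differentiable (by simp) x) (fun x _ => hh.differentiable (by simp) x)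
  simp only [h4]
  rw [Finset.sum_neg_distrib, ← integral_finsetSum _ fun i _ => i2 i]
  have h5 : (fun x => ∑ i, fderiv ℝ (fun x => φ x i) x (bv i) * h x) = fun _ => (0 : ℝ) := by
    funext x
    rw [← Finset.sum_mul]
    have h6 : ∑ i, fderiv ℝ (fun x => φ x i) x (bv i) = dvg φ x := by
      refine Finset.sum_congr rfl fun i _ => ?_
      have h7 : HasFDerivAt (fun x => φ x i)
          ((EuclideanSpace.proj (𝕜 := ℝ) i).comp (fderiv ℝ φ x)) x :=
        (EuclideanSpace.proj (𝕜 := ℝ) i).hasFDerivAt.comp x (hφ.diff x).hasFDerivAt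
      rw [h7.fderiv]
      rfl
    rw [h6, hφ.div0, zero_mul]
  rw [h5]; simp

theorem bform_self (hΩ : MeasurableSet Ω) {δ : ℝ} (hδ : 0 < δ) (U : DD Ω) :
    bform hΩ hδ U U U = 0 := by
  rw [bform_apply]
  have h1 : ∀ x, Ib δ U U U x =
      fderiv ℝ (fun x => (1 / 2 : ℝ) * (‖vf U x‖ ^ 2 + ‖tf U x‖ ^ 2)) x (vf U x) := by
    intro x
    have h2 : inner ℝ (br (tf U x) (sm δ U x)) (tf U x) = 0 := inner_br _ _ (sm_antisym hδ U x)
    have h3 : HasFDerivAt (fun x => ‖vf U x‖ ^ 2)
        (2 • (innerSL ℝ (vf U x)).comp (fderiv ℝ (vf U) x)) x :=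
      (vf_diff U x).hasFDerivAt.norm_sq
    have h4 : HasFDerivAt (fun x => ‖tf U x‖ ^ 2)
        (2 • (innerSL ℝ (tf U x)).comp (fderiv ℝ (tf U) x)) x :=
      (tf_diff U x).hasFDerivAt.norm_sq
    have h5 : HasFDerivAt (fun x => (1 / 2 : ℝ) * (‖vf U x‖ ^ 2 + ‖tf U x‖ ^ 2))
        ((1 / 2 : ℝ) • ((2 • (innerSL ℝ (vf U x)).comp (fderiv ℝ (vf U) x)) +
          (2 • (innerSL ℝ (tf U x)).comp (fderiv ℝ (tf U) x)))) x :=
      (h3.add h4).const_mul (1 / 2)
    rw [h5.fderiv]
    simp only [Ib, h2, sub_zero, ContinuousLinearMap.smul_apply, ContinuousLinearMap.add_apply,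
      ContinuousLinearMap.comp_apply, innerSL_apply_apply, smul_eq_mul, nsmul_eq_mul, Nat.cast_ofNat]
    ring
  simp only [h1]
  refine vt_div (vf_vt U) ?_
  refine contDiff_const.mul (ContDiff.add ?_ ?_)
  · exact ((vf_smooth U).of_le (by exact_mod_cast le_top)).norm_sq ℝ
  · exact ((tf_smooth U).of_le (by exact_mod_cast le_top)).norm_sq ℝ

end Pool.Agent.Helper42.Jef
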