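import Pool.Agent.Helper42.Jef.LL

/-! # Galerkin solutions -/

open MeasureTheory Set Filter Topology
open scoped ENNReal NNReal ContDiff

namespace Pool.Agent.Helper42.Jef

set_option maxHeartbeats 400000

variable {n : ℕ} {Ω : Set (Eu n)}

/-- global solution, extended continuously to all times -/
theorem ode_global_cont {S : Type*} [NormedAddCommGroup S] [InnerProductSpace ℝ S]
    [FiniteDimensional ℝ S] (b : S →ₗ[ℝ] S →ₗ[ℝ] S →ₗ[ℝ] ℝ) (l : S →ₗ[ℝ] S →ₗ[ℝ] ℝ)
    (F : ℝ → S) (hF : Continuous F) (hb : ∀ x, b x x x = 0) (hl : ∀ x, l x x ≤ 0)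
    {T : ℝ} (hT : 0 < T) (U0 : S) :
    ∃ U : ℝ → S, U 0 = U0 ∧ Continuous U ∧ ∀ t ∈ Ioo 0 T,
      HasDerivAt U (gf b l (U t) + F t) t := by
  obtain ⟨U, h0, hc, hd⟩ := ode_global' b l F hF hb hl hT U0
  let U' : ℝ → S := fun t => U (max 0 (min t T))
  have hm : ∀ t, max 0 (min t T) ∈ Icc 0 T := fun t =>
    ⟨le_max_left _ _, max_le hT.le (min_le_right _ _)⟩
  have he : ∀ t ∈ Icc 0 T, U' t = U t := by
    intro t ht
    simp only [U', min_eq_left ht.2, max_eq_right ht.1]
  refine ⟨U', ?_, ?_, ?_⟩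
  · rw [he 0 ⟨le_rfl, hT.le⟩, h0]
  · exact hc.comp_continuous (by fun_prop) hm
  · intro t ht
    have ht' := Ioo_subset_Icc_self ht
    rw [he t ht']
    have h1 : HasDerivAt U (gf b l (U t) + F t) t := (hd t ht').hasDerivAt (Icc_mem_nhds ht.1 ht.2)
    refine h1.congr_of_eventuallyEq ?_
    filter_upwards [Icc_mem_nhds ht.1 ht.2] with s hs
    exact he s hs

/-! ## mollified spin in `L²` -/

theorem mspin_eq (Ω : Set (Eu n)) (δ : ℝ) (G : ST n → Mt n) :
    mspin Ω δ G = (univ ×ˢ Ω : Set (ST n)).indicator (spc (ro δ) fun z => sp (G z)) := by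
  funext z
  by_cases hz : z.2 ∈ Ω
  · rw [indicator_of_mem (by exact ⟨trivial, hz⟩)]
    simp only [mspin, indicator_of_mem hz]
    rfl
  · rw [indicator_of_notMem (by exact fun h => hz h.2)]
    simp only [mspin, indicator_of_notMem hz]

theorem sp_memLp {G : ST n → Mt n} (hG : MemLp G 2 volume) : MemLp (fun z => sp (G z)) 2 volume :=
  (spL n).comp_memLp' hG

theorem mspin_memLp (hΩ : MeasurableSet Ω) {δ : ℝ} (hδ : 0 < δ) {G : ST n → Mt n}
    (hG : MemLp G 2 volume) : MemLp (mspin Ω δ G) 2 volume := by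
  rw [mspin_eq]
  exact (spc_memLp (ro_integrable hδ) (sp_memLp hG)).indicator (MeasurableSet.univ.prod hΩ)

theorem mspin_antisym (Ω : Set (Eu n)) (δ : ℝ) (G : ST n → Mt n) (z : ST n) :
    tr (mspin Ω δ G z) = - mspin Ω δ G z := by
  rw [mspin_eq]
  by_cases hz : z ∈ (univ ×ˢ Ω : Set (ST n))
  · rw [indicator_of_mem hz]
    simp only [spc]
    by_cases hi : Integrable (fun y => ro δ (z.2 - y) • sp (G (z.1, y)))
    · have h1 : tr (∫ y, ro δ (z.2 - y) • sp (G (z.1, y))) =
          ∫ y, tr (ro δ (z.2 - y) • sp (G (z.1, y))) :=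
        ((trL n).integral_comp_comm hi).symm
      rw [h1, ← integral_neg]
      refine integral_congr_ae (Eventually.of_forall fun y => ?_)
      simp only [tr_smul, tr_sp, smul_neg]
    · rw [integral_undef hi, neg_zero]
      exact (trL n).map_zero
  · rw [indicator_of_notMem hz, neg_zero]
    exact (trL n).map_zero

/-! ## the space-time fields of a curve in a finite dimensional space of test fields -/

noncomputable def gv (T : ℝ) (U : ℝ → DD Ω) (z : ST n) : Eu n :=
  (Ioo 0 T).indicator (fun t => vf (U t) z.2) z.1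
noncomputable def gG (T : ℝ) (U : ℝ → DD Ω) (z : ST n) : Mt n :=
  (Ioo 0 T).indicator (fun t => grad (vf (U t)) z.2) z.1
noncomputable def gt (T : ℝ) (U : ℝ → DD Ω) (z : ST n) : Mt n :=
  (Ioo 0 T).indicator (fun t => tf (U t) z.2) z.1

theorem grad_sum {ι : Type*} (s : Finset ι) (c : ι → ℝ) (e : ι → DD Ω) (x : Eu n) :
    grad (vf (∑ i ∈ s, c i • e i)) x = ∑ i ∈ s, c i • grad (vf (e i)) x := by
  classical
  induction s using Finset.induction_on with
  | empty =>
    simp only [Finset.sum_empty, vf_zero]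
    rw [grad_eq]; simp
  | insert a s ha ih =>
    rw [Finset.sum_insert ha, Finset.sum_insert ha, vf_add, grad_add (vf_diff _) (vf_diff _), ih,
      vf_smul, grad_smul (vf_diff _)]

section curve

variable (S : Submodule ℝ (DD Ω)) [FiniteDimensional ℝ S]

/-- coefficients of a curve in the orthonormal basis, cut off outside `(0,T)` -/
noncomputable def cf (T : ℝ) (U : ℝ → S) (i : Fin (Module.finrank ℝ S)) (t : ℝ) : ℝ :=
  (Ioo 0 T).indicator (fun t => inner ℝ (stdOrthonormalBasis ℝ S i) (U t)) t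

variable {S}

theorem cf_meas (T : ℝ) {U : ℝ → S} (hU : Continuous U) (i : Fin (Module.finrank ℝ S)) :
    Measurable (cf S T U i) := by
  have h1 : Continuous fun t => inner ℝ (stdOrthonormalBasis ℝ S i) (U t) :=
    continuous_const.inner hU
  exact h1.measurable.indicator measurableSet_Ioo

theorem cf_bdd {T : ℝ} (hT : 0 < T) {U : ℝ → S} (hU : Continuous U)
    (i : Fin (Module.finrank ℝ S)) : ∃ C : ℝ, ∀ t, |cf S T U i t| ≤ C := by
  have h1 : Continuous fun t => inner ℝ (stdOrthonormalBasis ℝ S i) (U t) :=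
    continuous_const.inner hU
  obtain ⟨C, hC⟩ := (isCompact_Icc (a := (0:ℝ)) (b := T)).exists_bound_of_continuousOn
    h1.continuousOn
  have hC0 : 0 ≤ C := (norm_nonneg _).trans (hC 0 ⟨le_rfl, hT.le⟩)
  refine ⟨C, fun t => ?_⟩
  by_cases ht : t ∈ Ioo 0 T
  · simp only [cf, indicator_of_mem ht]
    exact hC t (Ioo_subset_Icc_self ht)
  · simp only [cf, indicator_of_notMem ht, abs_zero]
    exact hC0

theorem cf_zero (T : ℝ) (U : ℝ → S) (i : Fin (Module.finrank ℝ S)) (t : ℝ) (ht : t ∉ Ioo 0 T) :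
    cf S T U i t = 0 := by
  simp only [cf, indicator_of_notMem ht]

theorem curve_rep (x : S) : (x : DD Ω) = ∑ i, inner ℝ (stdOrthonormalBasis ℝ S i) x •
    ((stdOrthonormalBasis ℝ S i : S) : DD Ω) := by
  conv_lhs => rw [← (stdOrthonormalBasis ℝ S).sum_repr' x]
  simp only [Submodule.coe_sum, Submodule.coe_smul]

theorem gv_rep (T : ℝ) (U : ℝ → S) (z : ST n) : gv T (fun t => (U t : DD Ω)) z =
    ∑ i, cf S T U i z.1 • vf ((stdOrthonormalBasis ℝ S i : S) : DD Ω) z.2 := by
  by_cases ht : z.1 ∈ Ioo 0 T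
  · simp only [gv, cf, indicator_of_mem ht]
    rw [curve_rep (U z.1), vf_sum]
    simp only [vf_smul, Finset.sum_apply, Pi.smul_apply]
  · simp only [gv, cf, indicator_of_notMem ht, zero_smul, Finset.sum_const_zero]

theorem gt_rep (T : ℝ) (U : ℝ → S) (z : ST n) : gt T (fun t => (U t : DD Ω)) z =
    ∑ i, cf S T U i z.1 • tf ((stdOrthonormalBasis ℝ S i : S) : DD Ω) z.2 := by
  by_cases ht : z.1 ∈ Ioo 0 T
  · simp only [gt, cf, indicator_of_mem ht]
    rw [curve_rep (U z.1), tf_sum]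
    simp only [tf_smul, Finset.sum_apply, Pi.smul_apply]
  · simp only [gt, cf, indicator_of_notMem ht, zero_smul, Finset.sum_const_zero]

theorem gG_rep (T : ℝ) (U : ℝ → S) (z : ST n) : gG T (fun t => (U t : DD Ω)) z =
    ∑ i, cf S T U i z.1 • grad (vf ((stdOrthonormalBasis ℝ S i : S) : DD Ω)) z.2 := by
  by_cases ht : z.1 ∈ Ioo 0 T
  · simp only [gG, cf, indicator_of_mem ht]
    rw [curve_rep (U z.1), grad_sum]
  · simp only [gG, cf, indicator_of_notMem ht, zero_smul, Finset.sum_const_zero]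

theorem curve_elem {T : ℝ} (hT : 0 < T) {U : ℝ → S} (hU : Continuous U) :
    IsElem Ω T (gv T (fun t => (U t : DD Ω))) (gG T (fun t => (U t : DD Ω))) :=
  ⟨_, cf S T U, fun i => vf ((stdOrthonormalBasis ℝ S i : S) : DD Ω), cf_meas T hU,
    cf_bdd hT hU, cf_zero T U, fun i => vf_vt _, gv_rep T U, gG_rep T U⟩

theorem curve_gt {T : ℝ} (hT : 0 < T) {U : ℝ → S} (hU : Continuous U) :
    MemLp (gt T (fun t => (U t : DD Ω))) 2 volume := by
  have h1 : gt T (fun t => (U t : DD Ω)) = fun z : ST n => ∑ i, cf S T U i z.1 •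
      tf ((stdOrthonormalBasis ℝ S i : S) : DD Ω) z.2 := funext (gt_rep T U)
  rw [h1]
  refine memLp_finsetSum _ fun i _ => ?_
  obtain ⟨C, hC⟩ := cf_bdd hT hU i
  exact memLp_prod_smul (memLp_coef (cf_meas T hU i) hC (cf_zero T U i) 2)
    (memLp_cc (tf_smooth _).continuous (tf_cpt _) 2)

end curve

theorem mspin_gG (T δ : ℝ) (U : ℝ → DD Ω) (z : ST n) :
    mspin Ω δ (gG T U) z = (Ioo 0 T).indicator (fun t => sm δ (U t) z.2) z.1 := by
  by_cases ht : z.1 ∈ Ioo 0 T
  · rw [indicator_of_mem ht]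
    by_cases hx : z.2 ∈ Ω
    · simp only [mspin, sm, indicator_of_mem hx, mo, gG, indicator_of_mem ht]
    · simp only [mspin, sm, indicator_of_notMem hx]
  · rw [indicator_of_notMem ht]
    by_cases hx : z.2 ∈ Ω
    · simp only [mspin, indicator_of_mem hx, mo, gG, indicator_of_notMem ht]
      have : sp (0 : Mt n) = 0 := (spL n).map_zero
      simp [this]
    · simp only [mspin, indicator_of_notMem hx]

end Pool.Agent.Helper42.Jef
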