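import Pool.Agent.Helper42.Jef.Gal

/-! # Galerkin solutions: weak form and energy estimate -/

open MeasureTheory Set Filter Topology
open scoped ENNReal NNReal ContDiff

namespace Pool.Agent.Helper42.Jef

set_option maxHeartbeats 400000

variable {n : ℕ} {Ω : Set (Eu n)}

/-- restriction of the trilinear form to a subspace -/
noncomputable def bS (hΩ : MeasurableSet Ω) {δ : ℝ} (hδ : 0 < δ) (S : Submodule ℝ (DD Ω)) :
    S →ₗ[ℝ] S →ₗ[ℝ] S →ₗ[ℝ] ℝ where
  toFun U := (bform hΩ hδ (U : DD Ω)).compl₁₂ S.subtype S.subtype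
  map_add' U U' := by ext V Z; simp
  map_smul' c U := by ext V Z; simp

@[simp] theorem bS_apply (hΩ : MeasurableSet Ω) {δ : ℝ} (hδ : 0 < δ) (S : Submodule ℝ (DD Ω))
    (U V Z : S) : bS hΩ hδ S U V Z = bform hΩ hδ (U : DD Ω) (V : DD Ω) (Z : DD Ω) := rfl

noncomputable def lS (μ a c : ℝ) (S : Submodule ℝ (DD Ω)) : S →ₗ[ℝ] S →ₗ[ℝ] ℝ :=
  (lform Ω μ a c).compl₁₂ S.subtype S.subtype

@[simp] theorem lS_apply (μ a c : ℝ) (S : Submodule ℝ (DD Ω)) (U V : S) :
    lS μ a c S U V = lform Ω μ a c (U : DD Ω) (V : DD Ω) := rfl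

/-- Galerkin solution: continuous curve in `S` solving the projected equation -/
structure IsGal (hΩ : MeasurableSet Ω) {δ : ℝ} (hδ : 0 < δ) (T μ a c : ℝ)
    (S : Submodule ℝ (DD Ω)) [FiniteDimensional ℝ S] (F : ℝ → S) (U : ℝ → S) : Prop where
  cont : Continuous U
  eq : ∀ t ∈ Ioo 0 T, HasDerivAt U (gf (bS hΩ hδ S) (lS μ a c S) (U t) + F t) t

theorem gal_exists (hΩ : MeasurableSet Ω) {δ : ℝ} (hδ : 0 < δ) {T μ a : ℝ} (hT : 0 < T)
    (hμ : 0 ≤ μ) (ha : 0 ≤ a) (c : ℝ) (S : Submodule ℝ (DD Ω)) [FiniteDimensional ℝ S]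
    (F : ℝ → S) (hF : Continuous F) (U0 : S) :
    ∃ U : ℝ → S, U 0 = U0 ∧ IsGal hΩ hδ T μ a c S F U := by
  obtain ⟨U, h0, hc, hd⟩ := ode_global_cont (bS hΩ hδ S) (lS μ a c S) F hF
    (fun x => by rw [bS_apply]; exact bform_self hΩ hδ _)
    (fun x => by
      rw [lS_apply, lform_self]
      have h1 : 0 ≤ ∫ y, ‖grad (vf (x : DD Ω)) y‖ ^ 2 := integral_nonneg fun y => by positivity
      have h2 : 0 ≤ ∫ y, ‖tf (x : DD Ω) y‖ ^ 2 := integral_nonneg fun y => by positivity
      nlinarith [mul_nonneg hμ h1, mul_nonneg ha h2]) hT U0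
  exact ⟨U, h0, hc, hd⟩

section weak

variable {hΩ : MeasurableSet Ω} {δ : ℝ} {hδ : 0 < δ} {T μ a c : ℝ}
  {S : Submodule ℝ (DD Ω)} [FiniteDimensional ℝ S] {F : ℝ → S} {U : ℝ → S}

theorem slice_eq (T : ℝ) {μ a c δ : ℝ} (η : ℝ → ℝ) (W : ℝ → DD Ω) (V : DD Ω) (t : ℝ) (x : Eu n)
    (ht : t ∈ Ioo 0 T) :
    LLi μ a c (gv T W) (gG T W) (gt T W) (mspin Ω δ (gG T W)) η V (t, x) =
      deriv η t * (inner ℝ (vf (W t) x) (vf V x) + inner ℝ (tf (W t) x) (tf V x)) +
        η t * (Ib δ (W t) (W t) V x + Il μ a c (W t) V x) := by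
  have h1 : gv T W (t, x) = vf (W t) x := by simp only [gv, indicator_of_mem ht]
  have h2 : gG T W (t, x) = grad (vf (W t)) x := by simp only [gG, indicator_of_mem ht]
  have h3 : gt T W (t, x) = tf (W t) x := by simp only [gt, indicator_of_mem ht]
  have h4 : mspin Ω δ (gG T W) (t, x) = sm δ (W t) x := by
    rw [mspin_gG]; simp only [indicator_of_mem ht]
  simp only [LLi, h1, h2, h3, h4, Ib, Il]
  ring

theorem slice_zero (T : ℝ) {μ a c δ : ℝ} (η : ℝ → ℝ) (W : ℝ → DD Ω) (V : DD Ω) (t : ℝ) (x : Eu n)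
    (ht : t ∉ Ioo 0 T) :
    LLi μ a c (gv T W) (gG T W) (gt T W) (mspin Ω δ (gG T W)) η V (t, x) = 0 := by
  have h1 : gv T W (t, x) = 0 := by simp only [gv, indicator_of_notMem ht]
  have h2 : gG T W (t, x) = 0 := by simp only [gG, indicator_of_notMem ht]
  have h3 : gt T W (t, x) = 0 := by simp only [gt, indicator_of_notMem ht]
  have h4 : sy (0 : Mt n) = 0 := (syL n).map_zero
  simp only [LLi, h1, h2, h3, h4, br_zero_left, inner_zero_left, map_zero, inner_zero_right,
    mul_zero, add_zero, sub_zero]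

theorem slice_int (hΩ : MeasurableSet Ω) (hδ : 0 < δ) (η : ℝ → ℝ) (W : DD Ω) (V : DD Ω) (t : ℝ) :
    ∫ x, (deriv η t * (inner ℝ (vf W x) (vf V x) + inner ℝ (tf W x) (tf V x)) +
        η t * (Ib δ W W V x + Il μ a c W V x)) =
      deriv η t * inner ℝ W V + η t * (bform hΩ hδ W W V + lform Ω μ a c W V) := by
  have h1 : Integrable (fun x => inner ℝ (vf W x) (vf V x) + inner ℝ (tf W x) (tf V x)) :=
    (int_vv W V).add (int_tt W V)
  have h2 : Integrable (fun x => Ib δ W W V x + Il μ a c W V x) :=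
    (Ib_int hΩ hδ W W V).add (Il_int μ a c W V)
  rw [integral_add (h1.const_mul _) (h2.const_mul _), integral_const_mul, integral_const_mul,
    integral_add (int_vv W V) (int_tt W V), integral_add (Ib_int hΩ hδ W W V) (Il_int μ a c W V)]
  rfl

/-- weak form of the Galerkin equation, as a space-time identity -/
theorem gal_weak (h : IsGal hΩ hδ T μ a c S F U) (hF : Continuous F) (hT : 0 < T) {η : ℝ → ℝ}
    (hη : IsTime (-1) T η) (V : S) :
    (∫ z, LLi μ a c (gv T fun t => (U t : DD Ω)) (gG T fun t => (U t : DD Ω))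
      (gt T fun t => (U t : DD Ω)) (mspin Ω δ (gG T fun t => (U t : DD Ω))) η (V : DD Ω) z) +
      (∫ t in Ioo 0 T, η t * inner ℝ (F t) V) + η 0 * inner ℝ (U 0) V = 0 := by
  set W : ℝ → DD Ω := fun t => (U t : DD Ω) with hW
  have hel := curve_elem hT h.cont
  have hgt := curve_gt hT h.cont
  have hms := mspin_memLp hΩ hδ hel.memLp.2
  have hint := LLi_int (μ := μ) (a := a) (c := c) hel.memLp.1 hel.memLp.2 hgt hms hη (V : DD Ω)
  -- reduce to a time integral
  have h1 : (∫ z, LLi μ a c (gv T W) (gG T W) (gt T W) (mspin Ω δ (gG T W)) η (V : DD Ω) z) =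
      ∫ t, ∫ x, LLi μ a c (gv T W) (gG T W) (gt T W) (mspin Ω δ (gG T W)) η (V : DD Ω) (t, x) := by
    have hvol : (volume : Measure (ST n)) = (volume : Measure ℝ).prod (volume : Measure (Eu n)) :=
      rfl
    rw [hvol]
    exact integral_prod _ hint
  let φ : ℝ → ℝ := fun t => deriv η t * inner ℝ (W t) (V : DD Ω) +
    η t * (bform hΩ hδ (W t) (W t) (V : DD Ω) + lform Ω μ a c (W t) (V : DD Ω))
  have h2 : ∀ t, ∫ x, LLi μ a c (gv T W) (gG T W) (gt T W) (mspin Ω δ (gG T W)) η (V : DD Ω) (t, x) =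
      (Ioo 0 T).indicator φ t := by
    intro t
    by_cases ht : t ∈ Ioo 0 T
    · rw [indicator_of_mem ht]
      simp only [slice_eq T η W (V : DD Ω) t _ ht]
      exact slice_int hΩ hδ η (W t) (V : DD Ω) t
    · rw [indicator_of_notMem ht]
      simp only [slice_zero T η W (V : DD Ω) t _ ht, integral_zero]
  rw [h1]
  simp only [h2]
  rw [integral_indicator measurableSet_Ioo]
  -- the fundamental theorem of calculus
  have hcont1 : Continuous (fun t => gf (bS hΩ hδ S) (lS μ a c S) (U t)) :=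
    (gf_contDiff _ _).continuous.comp h.cont
  have hφc : Continuous φ := by
    have e1 : ∀ t, bform hΩ hδ (W t) (W t) (V : DD Ω) + lform Ω μ a c (W t) (V : DD Ω) =
        inner ℝ (gf (bS hΩ hδ S) (lS μ a c S) (U t)) V := by
      intro t; rw [gf_inner]; rfl
    have e2 : ∀ t, inner ℝ (W t) (V : DD Ω) = inner ℝ (U t) V := fun t => rfl
    simp only [φ, e1, e2]
    exact (hη.dcont.mul (h.cont.inner continuous_const)).add
      (hη.cont.mul (hcont1.inner continuous_const))
  have hFc : Continuous fun t => η t * inner ℝ (F t) V :=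
    hη.cont.mul (hF.inner continuous_const)
  have hder : ∀ t ∈ Ioo 0 T, HasDerivAt (fun t => η t * inner ℝ (U t) V)
      (φ t + η t * inner ℝ (F t) V) t := by
    intro t ht
    have h3 := h.eq t ht
    have h4 : HasDerivAt (fun t => inner ℝ (U t) V)
        (inner ℝ (gf (bS hΩ hδ S) (lS μ a c S) (U t) + F t) V) t := by
      have := h3.inner ℝ (hasDerivAt_const t V)
      simpa using this
    have h5 := (hη.diff t).hasDerivAt.mul h4
    refine h5.congr_deriv ?_
    rw [inner_add_left, gf_inner, bS_apply, lS_apply]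
    simp only [φ, hW]
    have e2 : inner ℝ (U t : DD Ω) (V : DD Ω) = inner ℝ (U t) V := rfl
    rw [e2]
    ring
  have hftc : ∫ t in (0:ℝ)..T, (φ t + η t * inner ℝ (F t) V) =
      η T * inner ℝ (U T) V - η 0 * inner ℝ (U 0) V :=
    intervalIntegral.integral_eq_sub_of_hasDerivAt_of_le hT.le
      (hη.cont.mul (h.cont.inner continuous_const)).continuousOn hder
      ((hφc.add hFc).intervalIntegrable 0 T)
  have hηT : η T = 0 := by
    refine image_eq_zero_of_notMem_tsupport fun hc => ?_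
    exact (lt_irrefl T) (hη.supp hc).2
  rw [hηT, zero_mul, zero_sub] at hftc
  have h6 : ∫ t in (0:ℝ)..T, (φ t + η t * inner ℝ (F t) V) =
      (∫ t in Ioo 0 T, φ t) + ∫ t in Ioo 0 T, η t * inner ℝ (F t) V := by
    rw [intervalIntegral.integral_add (hφc.intervalIntegrable 0 T) (hFc.intervalIntegrable 0 T),
      intervalIntegral.integral_of_le hT.le, intervalIntegral.integral_of_le hT.le,
      integral_Ioc_eq_integral_Ioo, integral_Ioc_eq_integral_Ioo]
  rw [← h6, hftc]
  ring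

end weak

end Pool.Agent.Helper42.Jef
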