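import Pool.Agent.Helper42.Jef.Gal2

/-! # Galerkin solutions: energy estimate -/

open MeasureTheory Set Filter Topology
open scoped ENNReal NNReal ContDiff

namespace Pool.Agent.Helper42.Jef

set_option maxHeartbeats 400000

variable {n : ℕ} {Ω : Set (Eu n)}

section energy

variable {hΩ : MeasurableSet Ω} {δ : ℝ} {hδ : 0 < δ} {T μ a c : ℝ}
  {S : Submodule ℝ (DD Ω)} [FiniteDimensional ℝ S] {F : ℝ → S} {U : ℝ → S}

/-- Dirichlet integral of the velocity -/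
noncomputable def dir (W : DD Ω) : ℝ := ∫ x, ‖grad (vf W) x‖ ^ 2

theorem dir_nonneg (W : DD Ω) : 0 ≤ dir W := integral_nonneg fun x => by positivity

theorem dir_eq (W : DD Ω) : dir W = - lform Ω 1 0 0 W W := by
  rw [lform_self]; simp [dir]

theorem dir_cont {U : ℝ → S} (hU : Continuous U) : Continuous fun t => dir (U t : DD Ω) := by
  have h1 : ∀ t, dir (U t : DD Ω) = - inner ℝ (gf (0 : S →ₗ[ℝ] S →ₗ[ℝ] S →ₗ[ℝ] ℝ)
      (lS 1 0 0 S) (U t)) (U t) := by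
    intro t
    rw [gf_inner, dir_eq]
    simp
  simp only [h1]
  exact (((gf_contDiff _ _).continuous.comp hU).inner hU).neg

theorem vsq_le (W : DD Ω) : ∫ x, ‖vf W x‖ ^ 2 ≤ ‖W‖ ^ 2 := by
  rw [dd_norm_sq]
  have : 0 ≤ ∫ x, ‖tf W x‖ ^ 2 := integral_nonneg fun x => by positivity
  linarith

/-- pointwise energy inequality -/
theorem energy_alg {E2 D tt g e μ a inn : ℝ} {w : ℝ} (hμ : 0 < μ) (ha : 0 ≤ a) (hD : 0 ≤ D)
    (htt : 0 ≤ tt) (hg : 0 ≤ g) (he : 0 ≤ e) (hw : 0 ≤ w) (hE : E2 = w ^ 2)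
    (hin : inn ≤ g * Real.sqrt (E2 + D) + e * w) :
    2 * (-(μ * D) - a * tt) + 2 * inn - E2 ≤ -(μ * D) + ((g + e) ^ 2 + g ^ 2 / μ) := by
  have h1 : Real.sqrt (E2 + D) ≤ w + Real.sqrt D := by
    rw [hE]
    rw [Real.sqrt_le_left (by positivity)]
    have := Real.sq_sqrt hD
    nlinarith [Real.sqrt_nonneg D]
  have h2 : g * Real.sqrt (E2 + D) ≤ g * w + g * Real.sqrt D := by
    have := mul_le_mul_of_nonneg_left h1 hg
    linarith
  have h3 : 2 * (g * Real.sqrt D) ≤ g ^ 2 / μ + μ * D := by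
    have hs := Real.sq_sqrt hD
    have h4 : 0 ≤ (g / Real.sqrt μ - Real.sqrt μ * Real.sqrt D) ^ 2 := sq_nonneg _
    have hsm : Real.sqrt μ ^ 2 = μ := Real.sq_sqrt hμ.le
    have hsm0 : 0 < Real.sqrt μ := Real.sqrt_pos.2 hμ
    have h5 : (g / Real.sqrt μ - Real.sqrt μ * Real.sqrt D) ^ 2 =
        g ^ 2 / Real.sqrt μ ^ 2 - 2 * (g * Real.sqrt D) + Real.sqrt μ ^ 2 * Real.sqrt D ^ 2 := by
      field_simp
      ring
    rw [h5, hsm, hs] at h4
    linarith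
  have h6 : 2 * ((g + e) * w) ≤ (g + e) ^ 2 + E2 := by
    rw [hE]; nlinarith [sq_nonneg (g + e - w)]
  have h7 : 0 ≤ a * tt := mul_nonneg ha htt
  nlinarith

theorem gal_energy (h : IsGal hΩ hδ T μ a c S F U) (hF : Continuous F) (hT : 0 < T)
    (hμ : 0 < μ) (ha : 0 ≤ a) {g e : ℝ → ℝ} (hg0 : ∀ t, 0 ≤ g t) (he0 : ∀ t, 0 ≤ e t)
    (hgi : IntegrableOn (fun t => g t ^ 2) (Ioo 0 T))
    (hgei : IntegrableOn (fun t => (g t + e t) ^ 2) (Ioo 0 T))
    (hFb : ∀ᵐ t ∂(volume.restrict (Ioo 0 T)), ∀ V : S, |inner ℝ (F t) V| ≤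
      g t * Real.sqrt ((∫ x, ‖vf (V : DD Ω) x‖ ^ 2) + ∫ x, ‖grad (vf (V : DD Ω)) x‖ ^ 2) +
        e t * ‖V‖) {t : ℝ} (ht : t ∈ Icc 0 T) :
    Real.exp (-t) * ‖U t‖ ^ 2 + ∫ s in Ioo 0 t, Real.exp (-s) * (μ * dir (U s : DD Ω)) ≤
      ‖U 0‖ ^ 2 + ∫ s in Ioo 0 t, ((g s + e s) ^ 2 + g s ^ 2 / μ) := by
  have hgf : Continuous fun s => gf (bS hΩ hδ S) (lS μ a c S) (U s) + F s :=
    ((gf_contDiff _ _).continuous.comp h.cont).add hF
  let d : ℝ → ℝ := fun s => Real.exp (-s) *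
    (2 * inner ℝ (U s) (gf (bS hΩ hδ S) (lS μ a c S) (U s) + F s) - ‖U s‖ ^ 2)
  have hdc : Continuous d := by
    refine (Real.continuous_exp.comp continuous_neg).mul ?_
    exact ((h.cont.inner hgf).const_mul 2 |> fun h => h).sub (h.cont.norm.pow 2)
  have hder : ∀ s ∈ Ioo 0 t, HasDerivAt (fun s => Real.exp (-s) * ‖U s‖ ^ 2) (d s) s := by
    intro s hs
    have hs' : s ∈ Ioo 0 T := ⟨hs.1, hs.2.trans_le ht.2⟩
    have h1 : HasDerivAt (fun s => ‖U s‖ ^ 2)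
        (2 * inner ℝ (U s) (gf (bS hΩ hδ S) (lS μ a c S) (U s) + F s)) s := (h.eq s hs').norm_sq
    have h2 : HasDerivAt (fun s : ℝ => Real.exp (-s)) (-Real.exp (-s)) s := by
      simpa using (hasDerivAt_neg s).exp
    refine (h2.mul h1).congr_deriv ?_
    simp only [d]; ring
  have hftc : ∫ s in (0:ℝ)..t, d s = Real.exp (-t) * ‖U t‖ ^ 2 - Real.exp (-0) * ‖U 0‖ ^ 2 :=
    intervalIntegral.integral_eq_sub_of_hasDerivAt_of_le ht.1
      ((Real.continuous_exp.comp continuous_neg).mul (h.cont.norm.pow 2)).continuousOn hder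
      (hdc.intervalIntegrable 0 t)
  rw [intervalIntegral.integral_of_le ht.1, integral_Ioc_eq_integral_Ioo] at hftc
  have hsub : Ioo 0 t ⊆ Ioo 0 T := Ioo_subset_Ioo le_rfl ht.2
  have hi1 : IntegrableOn (fun s => (g s + e s) ^ 2 + g s ^ 2 / μ) (Ioo 0 t) :=
    (hgei.mono_set hsub).add ((hgi.mono_set hsub).div_const μ)
  have hc2 : Continuous fun s => Real.exp (-s) * (μ * dir (U s : DD Ω)) :=
    (Real.continuous_exp.comp continuous_neg).mul (continuous_const.mul (dir_cont h.cont))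
  have hi2 : IntegrableOn (fun s => Real.exp (-s) * (μ * dir (U s : DD Ω))) (Ioo 0 t) :=
    (hc2.integrableOn_Icc (a := 0) (b := t)).mono_set Ioo_subset_Icc_self
  have hi3 : IntegrableOn d (Ioo 0 t) :=
    (hdc.integrableOn_Icc (a := 0) (b := t)).mono_set Ioo_subset_Icc_self
  have hle : ∫ s in Ioo 0 t, d s ≤ ∫ s in Ioo 0 t, (((g s + e s) ^ 2 + g s ^ 2 / μ) -
      Real.exp (-s) * (μ * dir (U s : DD Ω))) := by
    refine integral_mono_ae hi3 (hi1.sub hi2) ?_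
    have hFb' := ae_restrict_of_ae_restrict_of_subset hsub hFb
    filter_upwards [hFb', ae_restrict_mem measurableSet_Ioo] with s hs hs0
    have hin : inner ℝ (F s) (U s) ≤ g s * Real.sqrt (‖U s‖ ^ 2 + dir (U s : DD Ω)) +
        e s * ‖U s‖ := by
      refine (le_abs_self _).trans ((hs (U s)).trans ?_)
      refine add_le_add ?_ le_rfl
      refine mul_le_mul_of_nonneg_left (Real.sqrt_le_sqrt ?_) (hg0 s)
      exact add_le_add (vsq_le (U s : DD Ω)) le_rfl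
    have h2 : 0 ≤ ∫ x, ‖tf (U s : DD Ω) x‖ ^ 2 := integral_nonneg fun x => by positivity
    have halg := energy_alg hμ ha (dir_nonneg (U s : DD Ω)) h2 (hg0 s) (he0 s) (norm_nonneg (U s))
      rfl hin
    have hq : 2 * inner ℝ (U s) (gf (bS hΩ hδ S) (lS μ a c S) (U s) + F s) - ‖U s‖ ^ 2 =
        2 * (-(μ * dir (U s : DD Ω)) - a * ∫ x, ‖tf (U s : DD Ω) x‖ ^ 2) +
          2 * inner ℝ (F s) (U s) - ‖U s‖ ^ 2 := by
      rw [real_inner_comm, inner_add_left, gf_inner, bS_apply, bform_self, lS_apply, lform_self]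
      simp only [dir]
      ring
    simp only [d]
    rw [hq]
    have he1 : Real.exp (-s) ≤ 1 := by
      rw [Real.exp_le_one_iff]; linarith [hs0.1]
    have he2 : 0 < Real.exp (-s) := Real.exp_pos _
    have hX : 0 ≤ (g s + e s) ^ 2 + g s ^ 2 / μ := by positivity
    calc Real.exp (-s) * (2 * (-(μ * dir (U s : DD Ω)) - a * ∫ x, ‖tf (U s : DD Ω) x‖ ^ 2) +
          2 * inner ℝ (F s) (U s) - ‖U s‖ ^ 2)
        ≤ Real.exp (-s) * (-(μ * dir (U s : DD Ω)) + ((g s + e s) ^ 2 + g s ^ 2 / μ)) :=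
          mul_le_mul_of_nonneg_left halg he2.le
      _ = Real.exp (-s) * ((g s + e s) ^ 2 + g s ^ 2 / μ) -
          Real.exp (-s) * (μ * dir (U s : DD Ω)) := by ring
      _ ≤ _ := by
          have := mul_le_mul_of_nonneg_right he1 hX
          linarith
  rw [integral_sub hi1 hi2] at hle
  rw [hftc] at hle
  simp only [neg_zero, Real.exp_zero, one_mul] at hle
  linarith

end energy

end Pool.Agent.Helper42.Jef
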