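import Pool.Agent.Helper42.Jef.RegK

/-! # Existence for the regularised problem -/

open MeasureTheory Set Filter Topology
open scoped ENNReal NNReal ContDiff

namespace Pool.Agent.Helper42.Jef

set_option maxHeartbeats 1000000

variable {n : ℕ} {Ω : Set (Eu n)}

/-- cut-off in time of a weak limit of fields supported in `(0,T)` -/
theorem wc_cut {E : Type*} [NormedAddCommGroup E] [InnerProductSpace ℝ E]
    [FiniteDimensional ℝ E] {T : ℝ}
    {us : ℕ → ST n → E} {u : ST n → E} (h : WC volume us u)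
    (h0 : ∀ m, ∀ z : ST n, z.1 ∉ Ioo 0 T → us m z = 0) :
    WC volume us (fun z => (Ioo 0 T ×ˢ (univ : Set (Eu n))).indicator (fun _ => (1:ℝ)) z • u z) := by
  set ζ : ST n → ℝ := (Ioo 0 T ×ˢ (univ : Set (Eu n))).indicator (fun _ => (1:ℝ)) with hζ
  have hm : MeasurableSet (Ioo 0 T ×ˢ (univ : Set (Eu n))) :=
    measurableSet_Ioo.prod MeasurableSet.univ
  have h1 := wc_weight h (ζ := ζ) (C := 1)
    ((measurable_const.indicator hm).aestronglyMeasurable) (fun x => by
      by_cases hx : x ∈ Ioo 0 T ×ˢ (univ : Set (Eu n))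
      · simp [hζ, indicator_of_mem hx]
      · simp [hζ, indicator_of_notMem hx])
  refine h1.congr_seq fun m => Eventually.of_forall fun z => ?_
  by_cases hz : z ∈ Ioo 0 T ×ˢ (univ : Set (Eu n))
  · simp only [hζ, indicator_of_mem hz, one_smul]
  · have hz' : z.1 ∉ Ioo 0 T := fun hc => hz ⟨hc, trivial⟩
    simp only [hζ, indicator_of_notMem hz, zero_smul, h0 m z hz']

theorem reg_exists (hSC : StrongConv n) (hΩ : IsOpen Ω) (hΩb : Bornology.IsBounded Ω) {δ : ℝ}
    (hδ : 0 < δ) {T μ a : ℝ} (hT : 0 < T) (hμ : 0 < μ) (ha : 0 ≤ a) (c : ℝ)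
    {f : ℝ → (Eu n → Eu n) → ℝ} {g : ℝ → ℝ}
    (hf : IsForce Ω f g) {v0 : Eu n → Eu n} {τ0 : Eu n → Mt n} (hv0 : MemLp v0 2 volume)
    (hτ0 : MemLp τ0 2 volume) :
    ∃ (v : ST n → Eu n) (G τ : ST n → Mt n), IsSol Ω T μ a c f v0 τ0 (mspin Ω δ G) v G τ ∧
      Bd (Mb μ ((∫ x, ‖v0 x‖ ^ 2) + ∫ x, ‖τ0 x‖ ^ 2) g) T v G τ := by
  set X := (∫ x, ‖v0 x‖ ^ 2) + ∫ x, ‖τ0 x‖ ^ 2 with hXdef
  have hX : 0 ≤ X := add_nonneg (integral_nonneg fun x => by positivity)
    (integral_nonneg fun x => by positivity)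
  have hMb : ∀ T, 0 ≤ Mb μ X g T := fun T => Mb_nonneg hμ hX g T
  set M := Mb μ X g T with hMdef
  have hM : 0 ≤ M := hMb T
  have hΩm := hΩ.measurableSet
  obtain ⟨d, hd⟩ := dense_seq Ω
  have pk := fun N : ℕ => gal_package hΩm hδ hT hμ ha c hf hv0 hτ0 (SSp d N)
    (ε := 1 / ((N:ℝ) + 1)) (by positivity) (by
      rw [div_le_one (by positivity)]
      have : (0:ℝ) ≤ N := Nat.cast_nonneg N
      linarith)
  choose F U hFc hG hinit hFe hbd using pk
  let W : (N : ℕ) → ℝ → DD Ω := fun N t => (U N t : DD Ω)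
  let vs : ℕ → ST n → Eu n := fun N => gv T (W N)
  let Gs : ℕ → ST n → Mt n := fun N => gG T (W N)
  let τs : ℕ → ST n → Mt n := fun N => gt T (W N)
  have hel : ∀ N, IsElem Ω T (vs N) (Gs N) := fun N => curve_elem hT (hG N).cont
  have hvel : ∀ N, IsVel Ω T (vs N) (Gs N) := fun N => (hel N).isVel
  have hτm : ∀ N, MemLp (τs N) 2 volume := fun N => curve_gt hT (hG N).cont
  have hBd : ∀ N, Bd (Mb μ X g) T (vs N) (Gs N) (τs N) := fun N =>
    gal_bd hT (hG N).cont (hbd N)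
  -- global bounds
  set C := Real.sqrt (M * T) + Real.sqrt M with hC
  have hb1 : ∀ N, eLpNorm (vs N) 2 volume ≤ ENNReal.ofReal C := fun N =>
    (LB.eLpNorm hM hT.le (fun z hz => gv_zero_out z hz) ((hBd N).v T hT.le le_rfl)).trans
      (ENNReal.ofReal_le_ofReal (by rw [hC]; linarith [Real.sqrt_nonneg M]))
  have hb3 : ∀ N, eLpNorm (τs N) 2 volume ≤ ENNReal.ofReal C := fun N =>
    (LB.eLpNorm hM hT.le (fun z hz => gt_zero_out z hz) ((hBd N).τ T hT.le le_rfl)).trans
      (ENNReal.ofReal_le_ofReal (by rw [hC]; linarith [Real.sqrt_nonneg M]))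
  have hb2 : ∀ N, eLpNorm (Gs N) 2 volume ≤ ENNReal.ofReal C := fun N =>
    (slab_eLpNorm hM (fun z hz => gG_zero_out z hz) ((hBd N).G T hT.le le_rfl)).trans
      (ENNReal.ofReal_le_ofReal (by rw [hC]; linarith [Real.sqrt_nonneg (M * T)]))
  -- weak limits
  obtain ⟨φ, hφ, v, G, τ', wv, wG, wτ'⟩ := wc_three (fun m => (hvel m).memv)
    (fun m => (hvel m).memG) hτm hb1 hb2 hb3
  have wτ := wc_cut wτ' (fun m z hz => gt_zero_out z hz)
  set τ : ST n → Mt n := fun z =>
    (Ioo 0 T ×ˢ (univ : Set (Eu n))).indicator (fun _ => (1:ℝ)) z • τ' z with hτdef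
  have hvl : IsVel Ω T v G := IsVel.of_wc (fun m => hvel (φ m)) wv wG
  have hφge : ∀ m, m ≤ φ m := hφ.id_le
  -- strong convergence of the velocities
  have hUM : ∀ N, ∀ t ∈ Ioo 0 T, ‖U N t‖ ^ 2 ≤ M := fun N t ht =>
    (hbd N T hT.le le_rfl).1 t (Ioo_subset_Icc_self ht)
  have hdirM : ∀ N, ∫ s in Ioo 0 T, dir (U N s : DD Ω) ≤ M := fun N => (hbd N T hT.le le_rfl).2
  have hFe1 : ∀ N, eLpNorm (fun t => forceR hf (SSp d N) t - F N t) 2
      (volume.restrict (Ioo 0 T)) ≤ 1 := by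
    intro N
    refine (hFe N).trans ?_
    rw [← ENNReal.ofReal_one]
    refine ENNReal.ofReal_le_ofReal ?_
    rw [div_le_one (by positivity)]
    have : (0:ℝ) ≤ N := Nat.cast_nonneg N
    linarith
  have hstrong : Tendsto (fun m => eLpNorm (fun z => vs (φ m) z - v z) 2 volume) atTop (𝓝 0) := by
    refine hSC Ω hΩ hΩb T hT (fun m => vs (φ m)) (fun m => Gs (φ m)) v G
      (fun m => hvel (φ m)) hvl (C + M) ?_ wv ?_ ?_
    · intro m
      exact (hb2 (φ m)).trans (ENNReal.ofReal_le_ofReal (by linarith))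
    · intro m I hI
      have h1 := slab_bound (hvel (φ m)).memv.1 hI (M := M) (fun t _ =>
        gv_slice_lint t fun ht => hUM (φ m) t ht)
      refine h1.trans ?_
      have hCn : 0 ≤ C := by rw [hC]; positivity
      gcongr
      linarith
    · intro ψ hψ ε hε
      obtain ⟨R, hR, happ⟩ := hd (vpair hψ)
      set B := Real.sqrt (2 * (volume (Metric.closedBall (0 : Eu n) R)).toReal) with hB
      have hB0 : 0 ≤ B := Real.sqrt_nonneg _
      set e := ε / (Real.sqrt M * B + 1) with he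
      have hden : 0 < Real.sqrt M * B + 1 := by positivity
      have he0 : 0 < e := div_pos hε hden
      obtain ⟨i, hi1, hi2, hi3, hi4, hi5⟩ := happ e he0
      have hsm : Small R e (vpair hψ - d i) := by
        have hs : vpair hψ - d i = vpair hψ + (-1 : ℝ) • d i := by
          rw [neg_one_smul, sub_eq_add_neg]
        have hv' : vf (vpair hψ - d i) = vf (vpair hψ) - vf (d i) := by
          rw [hs, vf_add, vf_smul, neg_one_smul, sub_eq_add_neg]
        have ht' : tf (vpair hψ - d i) = tf (vpair hψ) - tf (d i) := by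
          rw [hs, tf_add, tf_smul, neg_one_smul, sub_eq_add_neg]
        refine ⟨fun x hx => ?_, fun x => ?_, fun x => ?_, fun x => ?_, fun x => ?_⟩
        · rw [hv', ht']
          simp only [Pi.sub_apply, (hi1 x hx).1, (hi1 x hx).2, (hR x hx).1, (hR x hx).2, sub_zero]
          exact ⟨trivial, trivial⟩
        · rw [hv', Pi.sub_apply, norm_sub_rev]; exact hi2 x
        · rw [ht', Pi.sub_apply, norm_sub_rev]; exact hi3 x
        · rw [hv', fderiv_sub (vf_diff _ x) (vf_diff _ x), norm_sub_rev]; exact hi4 x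
        · rw [ht', fderiv_sub (tf_diff _ x) (tf_diff _ x), norm_sub_rev]; exact hi5 x
      have hnorm : Real.sqrt M * ‖vpair hψ - d i‖ ≤ ε := by
        have h1 := hsm.norm_le he0.le
        calc Real.sqrt M * ‖vpair hψ - d i‖ ≤ Real.sqrt M * (e * B) :=
              mul_le_mul_of_nonneg_left h1 (Real.sqrt_nonneg _)
          _ = ε * ((Real.sqrt M * B) / (Real.sqrt M * B + 1)) := by rw [he]; ring
          _ ≤ ε * 1 := by
              refine mul_le_mul_of_nonneg_left ?_ hε.le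
              rw [div_le_one hden]; linarith
          _ = ε := mul_one _
      obtain ⟨C', hC'⟩ := gal_tc1 hΩm hδ hT μ a c hM hf hψ (d i) hnorm
      refine ⟨C', i + 1, fun m hm η hη => ?_⟩
      have him : i < φ m := lt_of_lt_of_le (Nat.lt_of_succ_le hm) (hφge m)
      exact hC' (SSp d (φ m)) (F (φ m)) (U (φ m)) (hFc (φ m)) (hG (φ m)) (hUM (φ m))
        (hdirM (φ m)) (hFe1 (φ m)) (mem_SSp d him) η hη
  -- spins
  have hspin := mspin_strong hΩm hδ (fun m => hvel (φ m)) hvl hstrong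
  have hSm : ∀ m, MemLp (mspin Ω δ (Gs (φ m))) 2 volume := fun m =>
    mspin_memLp hΩm hδ (hvel (φ m)).memG
  have hS : MemLp (mspin Ω δ G) 2 volume := mspin_memLp hΩm hδ hvl.memG
  -- the limit identity for the dense family
  have hlim : ∀ η, IsTime (-1) T η → ∀ i,
      Fun μ a c f hv0 hτ0 T v G τ (mspin Ω δ G) η (d i) = 0 := by
    intro η hη i
    have t1 := LL_tendsto (μ := μ) (a := a) (c := c) wv hstrong wG wτ hSm hS hspin hη (d i)
    have hev : ∀ m, i < φ m → ∫ z, LLi μ a c (vs (φ m)) (Gs (φ m)) (τs (φ m))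
        (mspin Ω δ (Gs (φ m))) η (d i) z =
        - (∫ t in Ioo 0 T, η t * inner ℝ (F (φ m) t) (if h : i < φ m then
          (⟨d i, mem_SSp d h⟩ : SSp d (φ m)) else 0)) - η 0 * initL hv0 hτ0 (d i) := by
      intro m hm
      have h1 := gal_weak (hG (φ m)) (hFc (φ m)) hT hη (⟨d i, mem_SSp d hm⟩ : SSp d (φ m))
      rw [hinit] at h1
      rw [dif_pos hm]
      linarith
    have t2 : Tendsto (fun m => ∫ t in Ioo 0 T, η t * inner ℝ (F (φ m) t)
        (if h : i < φ m then (⟨d i, mem_SSp d h⟩ : SSp d (φ m)) else 0)) atTop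
        (𝓝 (∫ t in Ioo 0 T, η t * f t (vf (d i)))) := by
      rw [tendsto_iff_norm_sub_tendsto_zero]
      set K := ‖d i‖ * Real.sqrt (∫ t in Ioo 0 T, ‖η t‖ ^ 2) with hK
      have t3 : Tendsto (fun m : ℕ => K * (1 / ((φ m : ℝ) + 1))) atTop (𝓝 0) := by
        have h1 : Tendsto (fun m : ℕ => 1 / ((m : ℝ) + 1)) atTop (𝓝 0) :=
          tendsto_one_div_add_atTop_nhds_zero_nat
        have h2 := (h1.comp hφ.tendsto_atTop).const_mul K
        rw [mul_zero] at h2
        exact h2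
      refine squeeze_zero' (Eventually.of_forall fun m => norm_nonneg _) ?_ t3
      filter_upwards [eventually_gt_atTop i] with m hm
      have him : i < φ m := lt_of_lt_of_le hm (hφge m)
      rw [dif_pos him, Real.norm_eq_abs]
      exact force_diff hf T (SSp d (φ m)) (hFc (φ m)) (by positivity) (hFe (φ m)) hη
        (⟨d i, mem_SSp d him⟩ : SSp d (φ m))
    have t4 : Tendsto (fun m => ∫ z, LLi μ a c (vs (φ m)) (Gs (φ m)) (τs (φ m))
        (mspin Ω δ (Gs (φ m))) η (d i) z) atTop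
        (𝓝 (-(∫ t in Ioo 0 T, η t * f t (vf (d i))) - η 0 * initL hv0 hτ0 (d i))) := by
      refine (t2.neg.sub_const (η 0 * initL hv0 hτ0 (d i))).congr' ?_
      filter_upwards [eventually_gt_atTop i] with m hm
      exact (hev m (lt_of_lt_of_le hm (hφge m))).symm
    have h5 := tendsto_nhds_unique t1 t4
    simp only [Fun]
    linarith
  have hall : ∀ η, IsTime (-1) T η → ∀ V : DD Ω,
      Fun μ a c f hv0 hτ0 T v G τ (mspin Ω δ G) η V = 0 := fun η hη V =>
    fun_dense hf hv0 hτ0 T hvl.memv hvl.memG wτ.memU hS hη hd (hlim η hη) V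
  refine ⟨v, G, τ, isSol_of_fun hf hv0 hτ0 hvl wτ.memU hS ?_ hall, ?_⟩
  · intro z hz
    have hz' : z ∉ Ioo 0 T ×ˢ (univ : Set (Eu n)) := fun hc => hz hc.1
    simp only [hτdef, indicator_of_notMem hz', zero_smul]
  · exact Bd.of_wc hMb wv wG wτ fun m => hBd (φ m)

end Pool.Agent.Helper42.Jef
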