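import Pool.Agent.Helper42.Jef.Clo2
import Pool.Agent.Helper42.Jef.RegL
import Pool.Agent.Helper44.JefDiag

/-! # Restriction to shorter time intervals -/

open MeasureTheory Set Filter Topology
open scoped ENNReal NNReal ContDiff

namespace Pool.Agent.Helper42.Jef

open Pool.Agent.Helper44.Diag

set_option maxHeartbeats 1000000

variable {n : ℕ} {Ω : Set (Eu n)}

theorem rs_memLp {E : Type*} [NormedAddCommGroup E] [NormedSpace ℝ E] {u : ST n → E}
    (hu : MemLp u 2 volume) (T : ℝ) : MemLp (rs T u) 2 volume := by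
  have h1 : rs T u = (Ioo 0 T ×ˢ (univ : Set (Eu n))).indicator u := by
    funext z
    by_cases hz : z.1 ∈ Ioo 0 T
    · rw [rs_mem hz, indicator_of_mem (by exact ⟨hz, trivial⟩)]
    · rw [rs_notMem hz, indicator_of_notMem (by exact fun hc => hz hc.1)]
  rw [h1]
  exact hu.indicator (measurableSet_Ioo.prod MeasurableSet.univ)

theorem IsElem.rs {T T' : ℝ} (hTT : T ≤ T') {v : ST n → Eu n} {G : ST n → Mt n}
    (h : IsElem Ω T' v G) : IsElem Ω T (rs T v) (rs T G) := by
  obtain ⟨N, c, φ, hc, hb, h0, hφ, hv, hG⟩ := h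
  refine ⟨N, fun j => (Ioo 0 T).indicator (c j), φ, fun j => (hc j).indicator measurableSet_Ioo,
    fun j => ?_, fun j t ht => indicator_of_notMem ht _, hφ, fun z => ?_, fun z => ?_⟩
  · obtain ⟨C, hC⟩ := hb j
    refine ⟨C, fun t => ?_⟩
    show |(Ioo 0 T).indicator (c j) t| ≤ C
    by_cases ht : t ∈ Ioo 0 T
    · rw [indicator_of_mem ht]; exact hC t
    · rw [indicator_of_notMem ht, abs_zero]; exact (abs_nonneg _).trans (hC t)
  · by_cases hz : z.1 ∈ Ioo 0 T
    · rw [rs_mem hz, hv]; simp only [indicator_of_mem hz]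
    · rw [rs_notMem hz]; simp only [indicator_of_notMem hz, zero_smul, Finset.sum_const_zero]
  · by_cases hz : z.1 ∈ Ioo 0 T
    · rw [rs_mem hz, hG]; simp only [indicator_of_mem hz]
    · rw [rs_notMem hz]; simp only [indicator_of_notMem hz, zero_smul, Finset.sum_const_zero]

theorem rs_sub_norm {E : Type*} [NormedAddCommGroup E] (T : ℝ) (u w : ST n → E) :
    eLpNorm (rs T u - rs T w) 2 volume ≤ eLpNorm (u - w) 2 volume := by
  refine eLpNorm_mono fun z => ?_
  by_cases hz : z.1 ∈ Ioo 0 T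
  · simp only [Pi.sub_apply, rs_mem hz]; exact le_rfl
  · simp only [Pi.sub_apply, rs_notMem hz, sub_zero, norm_zero]; exact norm_nonneg _

theorem IsVel.rs {T T' : ℝ} (hTT : T ≤ T') {v : ST n → Eu n} {G : ST n → Mt n}
    (h : IsVel Ω T' v G) : IsVel Ω T (rs T v) (rs T G) where
  memv := rs_memLp h.memv T
  memG := rs_memLp h.memG T
  approx := by
    intro ε hε
    obtain ⟨v', G', hel, h1, h2⟩ := h.approx ε hε
    exact ⟨Pool.Agent.Helper42.Jef.rs T v', Pool.Agent.Helper42.Jef.rs T G', hel.rs hTT,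
      (rs_sub_norm T _ _).trans h1, (rs_sub_norm T _ _).trans h2⟩

theorem mspin_rs (δ T : ℝ) (G : ST n → Mt n) : mspin Ω δ (rs T G) = rs T (mspin Ω δ G) := by
  funext z
  by_cases hz : z.1 ∈ Ioo 0 T
  · rw [rs_mem hz]
    by_cases hx : z.2 ∈ Ω
    · simp only [mspin, indicator_of_mem hx, mo]
      refine integral_congr_ae (Eventually.of_forall fun y => ?_)
      have : rs T G (z.1, y) = G (z.1, y) := rs_mem (z := (z.1, y)) hz G
      simp only [this]
    · simp only [mspin, indicator_of_notMem hx]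
  · rw [rs_notMem hz]
    by_cases hx : z.2 ∈ Ω
    · simp only [mspin, indicator_of_mem hx, mo]
      have h1 : ∀ y, sp (rs T G (z.1, y)) = 0 := by
        intro y
        have : rs T G (z.1, y) = 0 := rs_notMem (z := (z.1, y)) hz G
        rw [this]; exact (spL n).map_zero
      simp only [h1, smul_zero, integral_zero]
    · simp only [mspin, indicator_of_notMem hx]

theorem sp_rs (T : ℝ) (G : ST n → Mt n) : (fun z => sp (rs T G z)) = rs T (fun z => sp (G z)) := by
  funext z
  by_cases hz : z.1 ∈ Ioo 0 T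
  · rw [rs_mem hz, rs_mem hz]
  · rw [rs_notMem hz, rs_notMem hz]; exact (spL n).map_zero

theorem IsTime.weaken {a b b' : ℝ} (hb : b ≤ b') {η : ℝ → ℝ} (h : IsTime a b η) :
    IsTime a b' η := ⟨h.smooth, h.cpt, h.supp.trans (Ioo_subset_Ioo le_rfl hb)⟩

theorem IsTime.zero_ge {a b : ℝ} {η : ℝ → ℝ} (h : IsTime a b η) {t : ℝ} (ht : b ≤ t) :
    η t = 0 ∧ deriv η t = 0 := by
  have h1 : t ∉ tsupport η := fun hc => (not_lt.2 ht) (h.supp hc).2
  refine ⟨image_eq_zero_of_notMem_tsupport h1, ?_⟩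
  have h2 : t ∉ tsupport (deriv η) := fun hc => h1 (tsupport_deriv_subset hc)
  exact image_eq_zero_of_notMem_tsupport h2

/-- weak solutions restrict to shorter time intervals -/
theorem IsSol.rs (hΩ : MeasurableSet Ω) {T T' μ a c : ℝ} (hTT : T ≤ T')
    {f : ℝ → (Eu n → Eu n) → ℝ} {v0 : Eu n → Eu n} {τ0 : Eu n → Mt n} {S : ST n → Mt n}
    {v : ST n → Eu n} {G τ : ST n → Mt n} (h : IsSol Ω T' μ a c f v0 τ0 S v G τ) :
    IsSol Ω T μ a c f v0 τ0 (rs T S) (rs T v) (rs T G) (rs T τ) where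
  vel := h.vel.rs hTT
  memτ := rs_memLp h.memτ T
  supτ := fun z hz => rs_notMem hz τ
  memS := rs_memLp h.memS T
  mom := by
    intro η φ hη hφ
    have h1 := h.mom η φ (hη.weaken hTT) hφ
    refine Eq.trans ?_ h1
    congr 1
    congr 1
    · refine integral_congr_ae ?_
      filter_upwards [(h.vel.zero_out hΩ).1, (h.vel.zero_out hΩ).2] with z hz1 hz2
      by_cases hz : z.1 ∈ Ioo 0 T
      · simp only [rs_mem hz]
      · simp only [rs_notMem hz, inner_zero_left, mul_zero, sub_zero, add_zero]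
        rcases lt_or_ge z.1 T with h3 | h3
        · have h4 : z.1 ∉ Ioo 0 T' := fun hc => hz ⟨hc.1, h3⟩
          simp only [hz1 (Or.inl h4), hz2 (Or.inl h4), h.supτ z h4, inner_zero_left, mul_zero,
            sub_zero, add_zero]
        · simp only [(hη.zero_ge h3).1, (hη.zero_ge h3).2, zero_mul, add_zero]
    · rw [← integral_indicator measurableSet_Ioo, ← integral_indicator measurableSet_Ioo]
      refine integral_congr_ae (Eventually.of_forall fun t => ?_)
      by_cases ht : t ∈ Ioo 0 T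
      · have ht' : t ∈ Ioo 0 T' := ⟨ht.1, ht.2.trans_le hTT⟩
        simp only [indicator_of_mem ht, indicator_of_mem ht']
      · rw [indicator_of_notMem ht]
        by_cases ht' : t ∈ Ioo 0 T'
        · rw [indicator_of_mem ht']
          have h3 : T ≤ t := by
            by_contra hc
            exact ht ⟨ht'.1, not_le.1 hc⟩
          rw [(hη.zero_ge h3).1, zero_mul]
        · rw [indicator_of_notMem ht']
  str := by
    intro η ψ hη hψ
    have h1 := h.str η ψ (hη.weaken hTT) hψ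
    refine Eq.trans ?_ h1
    congr 1
    refine integral_congr_ae ?_
    filter_upwards [(h.vel.zero_out hΩ).1, (h.vel.zero_out hΩ).2] with z hz1 hz2
    by_cases hz : z.1 ∈ Ioo 0 T
    · simp only [rs_mem hz]
    · simp only [rs_notMem hz]
      have hs0 : sy (0 : Mt n) = 0 := (syL n).map_zero
      rcases lt_or_ge z.1 T with h3 | h3
      · have h4 : z.1 ∉ Ioo 0 T' := fun hc => hz ⟨hc.1, h3⟩
        simp only [hz2 (Or.inl h4), h.supτ z h4, smul_zero, br_zero_left, hs0, sub_zero]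
      · simp only [(hη.zero_ge h3).1, (hη.zero_ge h3).2, zero_mul, add_zero, zero_smul]

theorem LB.rs {E : Type*} [NormedAddCommGroup E] {T M : ℝ} {u : ST n → E}
    (h : LB T M u) : LB T M (rs T u) := by
  intro I hI hIT
  refine le_trans (le_of_eq ?_) (h I hI hIT)
  refine setLIntegral_congr_fun (hI.prod MeasurableSet.univ) fun z hz => ?_
  have : z.1 ∈ Ioo 0 T := hIT hz.1
  simp only [rs_mem this]

theorem IsSol.congr_S {T μ a c : ℝ}
    {f : ℝ → (Eu n → Eu n) → ℝ} {v0 : Eu n → Eu n} {τ0 : Eu n → Mt n} {S S' : ST n → Mt n}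
    {v : ST n → Eu n} {G τ : ST n → Mt n} (h : IsSol Ω T μ a c f v0 τ0 S v G τ) (hS : S = S') :
    IsSol Ω T μ a c f v0 τ0 S' v G τ := hS ▸ h

/-- eventually bounded implies bounded -/
theorem bdd_of_eventually {x : ℕ → ℝ≥0∞} (hx : ∀ m, x m ≠ ⊤) {C : ℝ} {N : ℕ}
    (h : ∀ m, N ≤ m → x m ≤ ENNReal.ofReal C) : ∃ C' : ℝ, ∀ m, x m ≤ ENNReal.ofReal C' := by
  refine ⟨|C| + ∑ m ∈ Finset.range N, (x m).toReal, fun m => ?_⟩
  have h0 : 0 ≤ ∑ m ∈ Finset.range N, (x m).toReal :=
    Finset.sum_nonneg fun i _ => ENNReal.toReal_nonneg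
  by_cases hm : N ≤ m
  · refine (h m hm).trans (ENNReal.ofReal_le_ofReal ?_)
    linarith [le_abs_self C]
  · have h1 : (x m).toReal ≤ ∑ m ∈ Finset.range N, (x m).toReal :=
      Finset.single_le_sum (f := fun m => (x m).toReal) (fun i _ => ENNReal.toReal_nonneg)
        (Finset.mem_range.2 (not_le.1 hm))
    rw [← ENNReal.ofReal_toReal (hx m)]
    refine ENNReal.ofReal_le_ofReal ?_
    linarith [abs_nonneg C]

end Pool.Agent.Helper42.Jef
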