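import Pool.Agent.Helper42.Jef.Forms

/-! # The space-time functional of the weak formulation -/

open MeasureTheory Set Filter Topology
open scoped ENNReal NNReal ContDiff

namespace Pool.Agent.Helper42.Jef

set_option maxHeartbeats 400000

variable {n : ℕ} {Ω : Set (Eu n)}

/-- bounded continuous-type weights: products of bounded measurable scalar functions with `L²`
pairings are integrable -/
theorem integrable_bdd_mul {α : Type*} [MeasurableSpace α] {μ : Measure α} {ζ f : α → ℝ}
    (hf : Integrable f μ) (hζ : AEStronglyMeasurable ζ μ) {C : ℝ} (hC : ∀ x, |ζ x| ≤ C) :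
    Integrable (fun x => ζ x * f x) μ := hf.bdd_mul hζ (Eventually.of_forall hC)

/-- time test functions are bounded, with bounded derivative -/
theorem IsTime.bounded {a b : ℝ} {η : ℝ → ℝ} (h : IsTime a b η) :
    (∃ C : ℝ, ∀ t, |η t| ≤ C) ∧ ∃ C : ℝ, ∀ t, |deriv η t| ≤ C := by
  constructor
  · obtain ⟨C, hC⟩ := h.smooth.continuous.bounded_above_of_compact_support h.cpt
    exact ⟨C, hC⟩
  · have h1 : Continuous (deriv η) := h.smooth.continuous_deriv (by simp)
    obtain ⟨C, hC⟩ := h1.bounded_above_of_compact_support h.cpt.deriv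
    exact ⟨C, hC⟩

theorem IsTime.cont {a b : ℝ} {η : ℝ → ℝ} (h : IsTime a b η) : Continuous η := h.smooth.continuous

theorem IsTime.dcont {a b : ℝ} {η : ℝ → ℝ} (h : IsTime a b η) : Continuous (deriv η) :=
  h.smooth.continuous_deriv (by simp)

theorem IsTime.diff {a b : ℝ} {η : ℝ → ℝ} (h : IsTime a b η) : Differentiable ℝ η :=
  h.smooth.differentiable (by simp)

/-- integrand of the weak formulation, for a pair `V` of test fields -/
noncomputable def LLi (μ a c : ℝ) (v : ST n → Eu n) (G τ S : ST n → Mt n) (η : ℝ → ℝ) (V : DD Ω)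
    (z : ST n) : ℝ :=
  deriv η z.1 * (inner ℝ (v z) (vf V z.2) + inner ℝ (τ z) (tf V z.2)) +
    η z.1 * (inner ℝ (v z) (fderiv ℝ (vf V) z.2 (v z)) + inner ℝ (τ z) (fderiv ℝ (tf V) z.2 (v z)) -
      inner ℝ (br (τ z) (S z)) (tf V z.2) - μ * inner ℝ (G z) (grad (vf V) z.2) -
      c * inner ℝ (τ z) (sy (grad (vf V) z.2)) - a * inner ℝ (τ z) (tf V z.2) +
      c * inner ℝ (sy (G z)) (tf V z.2))

section pieces

variable {E F : Type*} [NormedAddCommGroup E] [InnerProductSpace ℝ E]
  [NormedAddCommGroup F] [InnerProductSpace ℝ F]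

/-- pairing of an `L²` field with a time coefficient times a compactly supported field:
the product test function is in `L²` -/
theorem memLp_test {η : ℝ → ℝ} (hη : Continuous η) (hηc : HasCompactSupport η) {φ : Eu n → E}
    (hφ : Continuous φ) (hφc : HasCompactSupport φ) :
    MemLp (fun z : ST n => η z.1 • φ z.2) 2 volume :=
  memLp_prod_smul (hη.memLp_of_hasCompactSupport hηc) (hφ.memLp_of_hasCompactSupport hφc)

theorem int_lin {u : ST n → E} (hu : MemLp u 2 volume) {η : ℝ → ℝ} (hη : Continuous η)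
    (hηc : HasCompactSupport η) {φ : Eu n → E} (hφ : Continuous φ) (hφc : HasCompactSupport φ) :
    Integrable (fun z : ST n => η z.1 * inner ℝ (u z) (φ z.2)) := by
  have := memLp_inner_integrable hu (memLp_test hη hηc hφ hφc)
  refine this.congr (Eventually.of_forall fun z => ?_)
  simp only [inner_smul_right]

/-- quadratic terms with a bounded continuous coefficient -/
theorem int_quad {u : ST n → E} {w : ST n → F} (hu : MemLp u 2 volume) (hw : MemLp w 2 volume)
    {f : ST n → ℝ} (hf : AEStronglyMeasurable f volume) {C : ℝ}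
    (hC : ∀ z, |f z| ≤ C * (‖u z‖ * ‖w z‖)) : Integrable f := by
  have h1 : Integrable (fun z => C * (‖u z‖ * ‖w z‖)) :=
    (hu.norm.integrable_mul hw.norm).const_mul C
  exact h1.mono' hf (Eventually.of_forall hC)

end pieces

/-- convection term -/
theorem int_conv {E : Type*} [NormedAddCommGroup E] [InnerProductSpace ℝ E] [FiniteDimensional ℝ E]
    {u : ST n → E} {v : ST n → Eu n} (hu : MemLp u 2 volume)
    (hv : MemLp v 2 volume) {η : ℝ → ℝ} (hη : Continuous η) (hηc : HasCompactSupport η)
    {φ : Eu n → E} (hφ : ContDiff ℝ ∞ φ) (hφc : HasCompactSupport φ) :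
    Integrable (fun z : ST n => η z.1 * inner ℝ (u z) (fderiv ℝ φ z.2 (v z))) := by
  obtain ⟨C1, hC1⟩ := hη.bounded_above_of_compact_support hηc
  have hd : Continuous (fderiv ℝ φ) := hφ.continuous_fderiv (by simp)
  obtain ⟨C2, hC2⟩ := hd.bounded_above_of_compact_support (hφc.fderiv (𝕜 := ℝ))
  have hC10 : 0 ≤ C1 := (norm_nonneg _).trans (hC1 0)
  have hC20 : 0 ≤ C2 := (norm_nonneg _).trans (hC2 0)
  refine int_quad (C := C1 * C2) hu hv ?_ fun z => ?_
  · have h1 : AEStronglyMeasurable (fun z : ST n => fderiv ℝ φ z.2 (v z)) volume := by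
      have h2 : Continuous fun z : ST n => fderiv ℝ φ z.2 := hd.comp continuous_snd
      exact (ContinuousLinearMap.apply ℝ E).flip.aestronglyMeasurable_comp₂
        h2.aestronglyMeasurable hv.1
    exact ((hη.comp continuous_fst).aestronglyMeasurable).mul (hu.1.inner h1)
  · rw [abs_mul]
    calc |η z.1| * |inner ℝ (u z) (fderiv ℝ φ z.2 (v z))|
        ≤ C1 * (‖u z‖ * (C2 * ‖v z‖)) := by
          refine mul_le_mul (hC1 _) ?_ (abs_nonneg _) hC10
          refine (abs_real_inner_le_norm _ _).trans ?_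
          refine mul_le_mul_of_nonneg_left ?_ (norm_nonneg _)
          exact (ContinuousLinearMap.le_opNorm _ _).trans
            (mul_le_mul_of_nonneg_right (hC2 _) (norm_nonneg _))
      _ = C1 * C2 * (‖u z‖ * ‖v z‖) := by ring

/-- commutator term -/
theorem int_br {τ S : ST n → Mt n} (hτ : MemLp τ 2 volume)
    (hS : MemLp S 2 volume) {η : ℝ → ℝ} (hη : Continuous η) (hηc : HasCompactSupport η)
    {φ : Eu n → Mt n} (hφ : Continuous φ) (hφc : HasCompactSupport φ) :
    Integrable (fun z : ST n => η z.1 * inner ℝ (br (τ z) (S z)) (φ z.2)) := by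
  obtain ⟨C1, hC1⟩ := hη.bounded_above_of_compact_support hηc
  obtain ⟨C2, hC2⟩ := hφ.bounded_above_of_compact_support hφc
  have hC10 : 0 ≤ C1 := (norm_nonneg _).trans (hC1 0)
  have hC20 : 0 ≤ C2 := (norm_nonneg _).trans (hC2 0)
  refine int_quad (C := C1 * (2 * C2)) hτ hS ?_ fun z => ?_
  · have h1 : AEStronglyMeasurable (fun z : ST n => br (τ z) (S z)) volume :=
      (brL n).aestronglyMeasurable_comp₂ hτ.1 hS.1
    exact ((hη.comp continuous_fst).aestronglyMeasurable).mul
      (h1.inner (hφ.comp continuous_snd).aestronglyMeasurable)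
  · rw [abs_mul]
    calc |η z.1| * |inner ℝ (br (τ z) (S z)) (φ z.2)|
        ≤ C1 * ((2 * (‖τ z‖ * ‖S z‖)) * C2) := by
          refine mul_le_mul (hC1 _) ?_ (abs_nonneg _) hC10
          refine (abs_real_inner_le_norm _ _).trans ?_
          exact mul_le_mul (norm_br_le _ _) (hC2 _) (norm_nonneg _) (by positivity)
      _ = C1 * (2 * C2) * (‖τ z‖ * ‖S z‖) := by ring

theorem LLi_int {μ a c : ℝ} {v : ST n → Eu n} {G τ S : ST n → Mt n} (hv : MemLp v 2 volume)
    (hG : MemLp G 2 volume) (hτ : MemLp τ 2 volume) (hS : MemLp S 2 volume) {s b : ℝ}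
    {η : ℝ → ℝ} (hη : IsTime s b η) (V : DD Ω) : Integrable (LLi μ a c v G τ S η V) := by
  have c1 := hη.cont
  have c2 := hη.dcont
  have k1 := hη.cpt
  have k2 : HasCompactSupport (deriv η) := hη.cpt.deriv
  have cs : Continuous (fun x => sy (grad (vf V) x)) := sy_cont (vf_vt V).grad_cont
  have ks : HasCompactSupport (fun x => sy (grad (vf V) x)) := by
    refine (vf_vt V).grad_cpt.mono' fun x hx => subset_closure fun h0 => hx ?_
    have h0' : grad (vf V) x = 0 := h0
    show sy (grad (vf V) x) = 0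
    rw [h0']; exact (syL n).map_zero
  have hsG : MemLp (fun z => sy (G z)) 2 volume := (syL n).comp_memLp' hG
  have i1 := int_lin hv c2 k2 (vf_smooth V).continuous (vf_cpt V)
  have i2 := int_lin hτ c2 k2 (tf_smooth V).continuous (tf_cpt V)
  have i3 := int_conv hv hv c1 k1 (vf_smooth V) (vf_cpt V)
  have i4 := int_conv hτ hv c1 k1 (tf_smooth V) (tf_cpt V)
  have i5 := int_br hτ hS c1 k1 (tf_smooth V).continuous (tf_cpt V)
  have i6 := (int_lin hG c1 k1 (vf_vt V).grad_cont (vf_vt V).grad_cpt).const_mul μ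
  have i7 := (int_lin hτ c1 k1 cs ks).const_mul c
  have i8 := (int_lin hτ c1 k1 (tf_smooth V).continuous (tf_cpt V)).const_mul a
  have i9 := (int_lin hsG c1 k1 (tf_smooth V).continuous (tf_cpt V)).const_mul c
  have h := ((i1.add i2).add (((((((i3.add i4).sub i5).sub i6).sub i7).sub i8)).add i9))
  refine h.congr (Eventually.of_forall fun z => ?_)
  simp only [Pi.add_apply, Pi.sub_apply, LLi]
  ring

end Pool.Agent.Helper42.Jef
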