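import Pool.Agent.Helper42.Jef.LL

/-! # Continuity of the space-time functional -/

open MeasureTheory Set Filter Topology
open scoped ENNReal NNReal ContDiff

namespace Pool.Agent.Helper42.Jef

set_option maxHeartbeats 400000

variable {n : ℕ} {Ω : Set (Eu n)}

section tend

variable {E : Type*} [NormedAddCommGroup E] [InnerProductSpace ℝ E]

theorem tend_lin {us : ℕ → ST n → E} {u : ST n → E} (h : WC volume us u) {η : ℝ → ℝ}
    (hη : Continuous η) (hηc : HasCompactSupport η) {φ : Eu n → E} (hφ : Continuous φ)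
    (hφc : HasCompactSupport φ) :
    Tendsto (fun m => ∫ z : ST n, η z.1 * inner ℝ (us m z) (φ z.2)) atTop
      (𝓝 (∫ z : ST n, η z.1 * inner ℝ (u z) (φ z.2))) := by
  have h1 := h.conv _ (memLp_test hη hηc hφ hφc)
  simpa only [inner_smul_right] using h1

/-- strong `L²` convergence of `η D φ (v_m)` -/
theorem strong_D [FiniteDimensional ℝ E] {vs : ℕ → ST n → Eu n} {v : ST n → Eu n}
    (hvs : ∀ m, MemLp (vs m) 2 volume)
    (hv : MemLp v 2 volume)
    (hs : Tendsto (fun m => eLpNorm (fun z => vs m z - v z) 2 volume) atTop (𝓝 0)) {η : ℝ → ℝ}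
    (hη : Continuous η) (hηc : HasCompactSupport η) {φ : Eu n → E} (hφ : ContDiff ℝ ∞ φ)
    (hφc : HasCompactSupport φ) :
    (∀ m, MemLp (fun z : ST n => η z.1 • fderiv ℝ φ z.2 (vs m z)) 2 volume) ∧
    MemLp (fun z : ST n => η z.1 • fderiv ℝ φ z.2 (v z)) 2 volume ∧
    Tendsto (fun m => eLpNorm (fun z : ST n => η z.1 • fderiv ℝ φ z.2 (vs m z) -
      η z.1 • fderiv ℝ φ z.2 (v z)) 2 volume) atTop (𝓝 0) := by
  obtain ⟨C1, hC1⟩ := hη.bounded_above_of_compact_support hηc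
  have hd : Continuous (fderiv ℝ φ) := hφ.continuous_fderiv (by simp)
  obtain ⟨C2, hC2⟩ := hd.bounded_above_of_compact_support (hφc.fderiv (𝕜 := ℝ))
  have hC10 : 0 ≤ C1 := (norm_nonneg _).trans (hC1 0)
  have hC20 : 0 ≤ C2 := (norm_nonneg _).trans (hC2 0)
  have hm : ∀ {w : ST n → Eu n}, AEStronglyMeasurable w volume →
      AEStronglyMeasurable (fun z : ST n => η z.1 • fderiv ℝ φ z.2 (w z)) volume := by
    intro w hw
    have h2 : Continuous fun z : ST n => fderiv ℝ φ z.2 := hd.comp continuous_snd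
    have h1 : AEStronglyMeasurable (fun z : ST n => fderiv ℝ φ z.2 (w z)) volume :=
      (ContinuousLinearMap.apply ℝ E).flip.aestronglyMeasurable_comp₂
        h2.aestronglyMeasurable hw
    exact ((hη.comp continuous_fst).aestronglyMeasurable).smul h1
  have hb : ∀ (w : Eu n) (z : ST n), ‖η z.1 • fderiv ℝ φ z.2 w‖ ≤ (C1 * C2) * ‖w‖ := by
    intro w z
    rw [norm_smul]
    calc ‖η z.1‖ * ‖fderiv ℝ φ z.2 w‖ ≤ C1 * (C2 * ‖w‖) := by
          refine mul_le_mul (hC1 _) ?_ (norm_nonneg _) hC10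
          exact (ContinuousLinearMap.le_opNorm _ _).trans
            (mul_le_mul_of_nonneg_right (hC2 _) (norm_nonneg _))
      _ = (C1 * C2) * ‖w‖ := by ring
  have hmem : ∀ {w : ST n → Eu n}, MemLp w 2 volume →
      MemLp (fun z : ST n => η z.1 • fderiv ℝ φ z.2 (w z)) 2 volume := fun hw =>
    hw.of_le_mul (hm hw.1) (Eventually.of_forall fun z => hb _ z)
  refine ⟨fun m => hmem (hvs m), hmem hv, ?_⟩
  have h1 : ∀ m, eLpNorm (fun z : ST n => η z.1 • fderiv ℝ φ z.2 (vs m z) -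
      η z.1 • fderiv ℝ φ z.2 (v z)) 2 volume ≤
      ENNReal.ofReal (C1 * C2) * eLpNorm (fun z => vs m z - v z) 2 volume := by
    intro m
    refine eLpNorm_le_mul_eLpNorm_of_ae_le_mul (Eventually.of_forall fun z => ?_) 2
    rw [← smul_sub, ← map_sub]
    exact hb _ z
  have h2 : Tendsto (fun m => ENNReal.ofReal (C1 * C2) * eLpNorm (fun z => vs m z - v z) 2 volume)
      atTop (𝓝 0) := by
    have := ENNReal.Tendsto.const_mul hs (Or.inr (ENNReal.ofReal_ne_top (r := C1 * C2)))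
    simpa using this
  exact tendsto_of_tendsto_of_tendsto_of_le_of_le tendsto_const_nhds h2 (fun _ => zero_le) h1

theorem tend_conv [FiniteDimensional ℝ E] {us : ℕ → ST n → E} {u : ST n → E}
    (h : WC volume us u) {vs : ℕ → ST n → Eu n}
    {v : ST n → Eu n} (hvs : ∀ m, MemLp (vs m) 2 volume)
    (hv : MemLp v 2 volume)
    (hs : Tendsto (fun m => eLpNorm (fun z => vs m z - v z) 2 volume) atTop (𝓝 0)) {η : ℝ → ℝ}
    (hη : Continuous η) (hηc : HasCompactSupport η) {φ : Eu n → E} (hφ : ContDiff ℝ ∞ φ)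
    (hφc : HasCompactSupport φ) :
    Tendsto (fun m => ∫ z : ST n, η z.1 * inner ℝ (us m z) (fderiv ℝ φ z.2 (vs m z))) atTop
      (𝓝 (∫ z : ST n, η z.1 * inner ℝ (u z) (fderiv ℝ φ z.2 (v z)))) := by
  obtain ⟨h1, h2, h3⟩ := strong_D hvs hv hs hη hηc hφ hφc
  have h4 := wc_bilin_strong h h1 h2 h3 (innerSL ℝ)
  have e1 : ∀ {a : ST n → E} {w : ST n → Eu n},
      ∫ z : ST n, (innerSL ℝ (a z)) (η z.1 • fderiv ℝ φ z.2 (w z)) =
        ∫ z : ST n, η z.1 * inner ℝ (a z) (fderiv ℝ φ z.2 (w z)) := by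
    intro a w
    refine integral_congr_ae (Eventually.of_forall fun z => ?_)
    show inner ℝ (a z) (η z.1 • fderiv ℝ φ z.2 (w z)) = _
    rw [inner_smul_right]
  simp only [e1] at h4
  exact h4

theorem tend_br {τs : ℕ → ST n → Mt n} {τ : ST n → Mt n} (h : WC volume τs τ)
    {Ss : ℕ → ST n → Mt n} {S : ST n → Mt n} (hSs : ∀ m, MemLp (Ss m) 2 volume)
    (hS : MemLp S 2 volume)
    (hs : Tendsto (fun m => eLpNorm (fun z => Ss m z - S z) 2 volume) atTop (𝓝 0)) {η : ℝ → ℝ}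
    (hη : Continuous η) (hηc : HasCompactSupport η) {φ : Eu n → Mt n} (hφ : Continuous φ)
    (hφc : HasCompactSupport φ) :
    Tendsto (fun m => ∫ z : ST n, η z.1 * inner ℝ (br (τs m z) (Ss m z)) (φ z.2)) atTop
      (𝓝 (∫ z : ST n, η z.1 * inner ℝ (br (τ z) (S z)) (φ z.2))) := by
  obtain ⟨C1, hC1⟩ := hη.bounded_above_of_compact_support hηc
  obtain ⟨C2, hC2⟩ := hφ.bounded_above_of_compact_support hφc
  have hC10 : 0 ≤ C1 := (norm_nonneg _).trans (hC1 0)
  have hC20 : 0 ≤ C2 := (norm_nonneg _).trans (hC2 0)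
  -- scalar weights
  have hpc : ∀ p : Fin n × Fin n, Continuous fun z : ST n => η z.1 * φ z.2 p := fun p =>
    (hη.comp continuous_fst).mul
      ((EuclideanSpace.proj (𝕜 := ℝ) p).continuous.comp (hφ.comp continuous_snd))
  have hpb : ∀ (p : Fin n × Fin n) (z : ST n), |η z.1 * φ z.2 p| ≤ C1 * C2 := by
    intro p z
    rw [abs_mul]
    exact mul_le_mul (hC1 _) ((PiLp.norm_apply_le (φ z.2) p).trans (hC2 _)) (abs_nonneg _) hC10
  have hpp : ∀ p, Tendsto (fun m => ∫ z : ST n, (η z.1 * φ z.2 p) • br (τs m z) (Ss m z)) atTop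
      (𝓝 (∫ z : ST n, (η z.1 * φ z.2 p) • br (τ z) (S z))) := fun p =>
    wc_mul_strong h hSs hS hs (brL n) (fun z : ST n => η z.1 * φ z.2 p)
      (hpc p).aestronglyMeasurable (C1 * C2) (hpb p)
  have hint : ∀ {a b : ST n → Mt n}, MemLp a 2 volume → MemLp b 2 volume → ∀ p,
      Integrable (fun z : ST n => (η z.1 * φ z.2 p) • br (a z) (b z)) := by
    intro a b ha hb p
    have h1 : Integrable (fun z => br (a z) (b z)) volume := by
      have h2 : Integrable (fun x => ‖a x‖ * ‖b x‖) volume := ha.norm.integrable_mul hb.norm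
      refine (h2.const_mul 2).mono' ((brL n).aestronglyMeasurable_comp₂ ha.1 hb.1)
        (Eventually.of_forall fun x => norm_br_le _ _)
    exact h1.bdd_smul (C1 * C2) (hpc p).aestronglyMeasurable (Eventually.of_forall (hpb p))
  have hrep : ∀ {a b : ST n → Mt n}, MemLp a 2 volume → MemLp b 2 volume →
      ∫ z : ST n, η z.1 * inner ℝ (br (a z) (b z)) (φ z.2) =
      ∑ p, (∫ z : ST n, (η z.1 * φ z.2 p) • br (a z) (b z)) p := by
    intro a b ha hb
    have h1 : ∀ p, (∫ z : ST n, (η z.1 * φ z.2 p) • br (a z) (b z)) p =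
        ∫ z : ST n, (η z.1 * φ z.2 p) * br (a z) (b z) p := by
      intro p
      have := (EuclideanSpace.proj (𝕜 := ℝ) p : Mt n →L[ℝ] ℝ).integral_comp_comm (hint ha hb p)
      exact this.symm
    simp only [h1]
    rw [← integral_finsetSum]
    · refine integral_congr_ae (Eventually.of_forall fun z => ?_)
      simp only [PiLp.inner_apply, RCLike.inner_apply, conj_trivial, Finset.mul_sum]
      exact Finset.sum_congr rfl fun p _ => by ring
    · intro p _
      exact (EuclideanSpace.proj (𝕜 := ℝ) p : Mt n →L[ℝ] ℝ).integrable_comp (hint ha hb p)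
  rw [hrep h.memU hS]
  have h5 : (fun m => ∫ z : ST n, η z.1 * inner ℝ (br (τs m z) (Ss m z)) (φ z.2)) =
      fun m => ∑ p, (∫ z : ST n, (η z.1 * φ z.2 p) • br (τs m z) (Ss m z)) p := by
    funext m; exact hrep (h.mem m) (hSs m)
  rw [h5]
  refine tendsto_finsetSum _ fun p _ => ?_
  exact ((EuclideanSpace.proj (𝕜 := ℝ) p : Mt n →L[ℝ] ℝ).continuous.tendsto _).comp (hpp p)

end tend

theorem nine_int {α : Type*} [MeasurableSpace α] {μ : Measure α}
    {f1 f2 f3 f4 f5 f6 f7 f8 f9 : α → ℝ} (i1 : Integrable f1 μ) (i2 : Integrable f2 μ)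
    (i3 : Integrable f3 μ) (i4 : Integrable f4 μ) (i5 : Integrable f5 μ) (i6 : Integrable f6 μ)
    (i7 : Integrable f7 μ) (i8 : Integrable f8 μ) (i9 : Integrable f9 μ) :
    ∫ x, (f1 x + f2 x + f3 x + f4 x - f5 x - f6 x - f7 x - f8 x + f9 x) ∂μ =
    (∫ x, f1 x ∂μ) + (∫ x, f2 x ∂μ) + (∫ x, f3 x ∂μ) + (∫ x, f4 x ∂μ) - (∫ x, f5 x ∂μ) -
      (∫ x, f6 x ∂μ) - (∫ x, f7 x ∂μ) - (∫ x, f8 x ∂μ) + (∫ x, f9 x ∂μ) := by
  have j2 : Integrable (fun x => f1 x + f2 x) μ := i1.add i2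
  have j3 : Integrable (fun x => f1 x + f2 x + f3 x) μ := j2.add i3
  have j4 : Integrable (fun x => f1 x + f2 x + f3 x + f4 x) μ := j3.add i4
  have j5 : Integrable (fun x => f1 x + f2 x + f3 x + f4 x - f5 x) μ := j4.sub i5
  have j6 : Integrable (fun x => f1 x + f2 x + f3 x + f4 x - f5 x - f6 x) μ := j5.sub i6
  have j7 : Integrable (fun x => f1 x + f2 x + f3 x + f4 x - f5 x - f6 x - f7 x) μ := j6.sub i7
  have j8 : Integrable (fun x => f1 x + f2 x + f3 x + f4 x - f5 x - f6 x - f7 x - f8 x) μ :=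
    j7.sub i8
  rw [integral_add j8 i9, integral_sub j7 i8, integral_sub j6 i7, integral_sub j5 i6,
    integral_sub j4 i5, integral_add j3 i4, integral_add j2 i3, integral_add i1 i2]

/-- convergence of the functional -/
theorem LL_tendsto {μ a c : ℝ} {vs : ℕ → ST n → Eu n} {v : ST n → Eu n}
    {Gs τs Ss : ℕ → ST n → Mt n} {G τ S : ST n → Mt n} (hv : WC volume vs v)
    (hvs : Tendsto (fun m => eLpNorm (fun z => vs m z - v z) 2 volume) atTop (𝓝 0))
    (hG : WC volume Gs G) (hτ : WC volume τs τ) (hS : ∀ m, MemLp (Ss m) 2 volume)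
    (hS' : MemLp S 2 volume)
    (hSs : Tendsto (fun m => eLpNorm (fun z => Ss m z - S z) 2 volume) atTop (𝓝 0))
    {s b : ℝ} {η : ℝ → ℝ} (hη : IsTime s b η) (V : DD Ω) :
    Tendsto (fun m => ∫ z, LLi μ a c (vs m) (Gs m) (τs m) (Ss m) η V z) atTop
      (𝓝 (∫ z, LLi μ a c v G τ S η V z)) := by
  have c1 := hη.cont
  have c2 := hη.dcont
  have k1 := hη.cpt
  have k2 : HasCompactSupport (deriv η) := hη.cpt.deriv
  have cs : Continuous (fun x => sy (grad (vf V) x)) := sy_cont (vf_vt V).grad_cont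
  have ks : HasCompactSupport (fun x => sy (grad (vf V) x)) := by
    refine (vf_vt V).grad_cpt.mono' fun x hx => subset_closure fun h0 => hx ?_
    have h0' : grad (vf V) x = 0 := h0
    show sy (grad (vf V) x) = 0
    rw [h0']; exact (syL n).map_zero
  have hsG : WC volume (fun m z => sy (Gs m z)) (fun z => sy (G z)) := wc_clm hG (syL n)
  have hrep : ∀ {v : ST n → Eu n} {G τ S : ST n → Mt n}, MemLp v 2 volume → MemLp G 2 volume →
      MemLp τ 2 volume → MemLp S 2 volume → ∫ z, LLi μ a c v G τ S η V z =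
      (∫ z : ST n, deriv η z.1 * inner ℝ (v z) (vf V z.2)) +
      (∫ z : ST n, deriv η z.1 * inner ℝ (τ z) (tf V z.2)) +
      (∫ z : ST n, η z.1 * inner ℝ (v z) (fderiv ℝ (vf V) z.2 (v z))) +
      (∫ z : ST n, η z.1 * inner ℝ (τ z) (fderiv ℝ (tf V) z.2 (v z))) -
      (∫ z : ST n, η z.1 * inner ℝ (br (τ z) (S z)) (tf V z.2)) -
      μ * (∫ z : ST n, η z.1 * inner ℝ (G z) (grad (vf V) z.2)) -
      c * (∫ z : ST n, η z.1 * inner ℝ (τ z) (sy (grad (vf V) z.2))) -
      a * (∫ z : ST n, η z.1 * inner ℝ (τ z) (tf V z.2)) +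
      c * (∫ z : ST n, η z.1 * inner ℝ (sy (G z)) (tf V z.2)) := by
    intro v G τ S hv hG hτ hS
    have hsG : MemLp (fun z => sy (G z)) 2 volume := (syL n).comp_memLp' hG
    have i1 := int_lin hv c2 k2 (vf_smooth V).continuous (vf_cpt V)
    have i2 := int_lin hτ c2 k2 (tf_smooth V).continuous (tf_cpt V)
    have i3 := int_conv hv hv c1 k1 (vf_smooth V) (vf_cpt V)
    have i4 := int_conv hτ hv c1 k1 (tf_smooth V) (tf_cpt V)
    have i5 := int_br hτ hS c1 k1 (tf_smooth V).continuous (tf_cpt V)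
    have i6 := (int_lin hG c1 k1 (vf_vt V).grad_cont (vf_vt V).grad_cpt).const_mul μ
    have i7 := (int_lin hτ c1 k1 cs ks).const_mul c
    have i8 := (int_lin hτ c1 k1 (tf_smooth V).continuous (tf_cpt V)).const_mul a
    have i9 := (int_lin hsG c1 k1 (tf_smooth V).continuous (tf_cpt V)).const_mul c
    rw [← integral_const_mul, ← integral_const_mul, ← integral_const_mul, ← integral_const_mul,
      ← nine_int i1 i2 i3 i4 i5 i6 i7 i8 i9]
    refine integral_congr_ae (Eventually.of_forall fun z => ?_)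
    simp only [LLi]
    ring
  rw [hrep hv.memU hG.memU hτ.memU hS']
  have hfun : (fun m => ∫ z, LLi μ a c (vs m) (Gs m) (τs m) (Ss m) η V z) = fun m =>
      (∫ z : ST n, deriv η z.1 * inner ℝ (vs m z) (vf V z.2)) +
      (∫ z : ST n, deriv η z.1 * inner ℝ (τs m z) (tf V z.2)) +
      (∫ z : ST n, η z.1 * inner ℝ (vs m z) (fderiv ℝ (vf V) z.2 (vs m z))) +
      (∫ z : ST n, η z.1 * inner ℝ (τs m z) (fderiv ℝ (tf V) z.2 (vs m z))) -
      (∫ z : ST n, η z.1 * inner ℝ (br (τs m z) (Ss m z)) (tf V z.2)) -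
      μ * (∫ z : ST n, η z.1 * inner ℝ (Gs m z) (grad (vf V) z.2)) -
      c * (∫ z : ST n, η z.1 * inner ℝ (τs m z) (sy (grad (vf V) z.2))) -
      a * (∫ z : ST n, η z.1 * inner ℝ (τs m z) (tf V z.2)) +
      c * (∫ z : ST n, η z.1 * inner ℝ (sy (Gs m z)) (tf V z.2)) := by
    funext m
    exact hrep (hv.mem m) (hG.mem m) (hτ.mem m) (hS m)
  rw [hfun]
  have t1 := tend_lin hv c2 k2 (vf_smooth V).continuous (vf_cpt V)
  have t2 := tend_lin hτ c2 k2 (tf_smooth V).continuous (tf_cpt V)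
  have t3 := tend_conv hv hv.mem hv.memU hvs c1 k1 (vf_smooth V) (vf_cpt V)
  have t4 := tend_conv hτ hv.mem hv.memU hvs c1 k1 (tf_smooth V) (tf_cpt V)
  have t5 := tend_br hτ hS hS' hSs c1 k1 (tf_smooth V).continuous (tf_cpt V)
  have t6 := (tend_lin hG c1 k1 (vf_vt V).grad_cont (vf_vt V).grad_cpt).const_mul μ
  have t7 := (tend_lin hτ c1 k1 cs ks).const_mul c
  have t8 := (tend_lin hτ c1 k1 (tf_smooth V).continuous (tf_cpt V)).const_mul a
  have t9 := (tend_lin hsG c1 k1 (tf_smooth V).continuous (tf_cpt V)).const_mul c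
  exact (((((((t1.add t2).add t3).add t4).sub t5).sub t6).sub t7).sub t8).add t9

end Pool.Agent.Helper42.Jef
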