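import Pool.Agent.Helper42.Jef.LL2

/-! # Extension of the weak formulation from a dense family to all test fields -/

open MeasureTheory Set Filter Topology
open scoped ENNReal NNReal ContDiff

namespace Pool.Agent.Helper42.Jef

set_option maxHeartbeats 400000

variable {n : ℕ} {Ω : Set (Eu n)}

theorem LLi_sub {μ a c : ℝ} {v : ST n → Eu n} {G τ S : ST n → Mt n} {η : ℝ → ℝ} (V W : DD Ω)
    (z : ST n) : LLi μ a c v G τ S η (V - W) z =
      LLi μ a c v G τ S η V z - LLi μ a c v G τ S η W z := by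
  have hs : V - W = V + (-1 : ℝ) • W := by rw [neg_one_smul, sub_eq_add_neg]
  rw [hs]
  have h1 : fderiv ℝ (vf (V + (-1 : ℝ) • W)) z.2 = fderiv ℝ (vf V) z.2 +
      (-1 : ℝ) • fderiv ℝ (vf W) z.2 := by
    rw [vf_add, vf_smul, fderiv_add (vf_diff V z.2) ((vf_diff W z.2).const_smul _),
      fderiv_const_smul (vf_diff W z.2)]
  have h2 : fderiv ℝ (tf (V + (-1 : ℝ) • W)) z.2 = fderiv ℝ (tf V) z.2 +
      (-1 : ℝ) • fderiv ℝ (tf W) z.2 := by
    rw [tf_add, tf_smul, fderiv_add (tf_diff V z.2) ((tf_diff W z.2).const_smul _),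
      fderiv_const_smul (tf_diff W z.2)]
  have h3 : grad (vf (V + (-1 : ℝ) • W)) z.2 = grad (vf V) z.2 + (-1 : ℝ) • grad (vf W) z.2 := by
    rw [grad_eq, h1, map_add, map_smul]; rfl
  have h4 : sy (grad (vf V) z.2 + (-1 : ℝ) • grad (vf W) z.2) =
      sy (grad (vf V) z.2) + (-1 : ℝ) • sy (grad (vf W) z.2) := by
    have := (syL n).map_add (grad (vf V) z.2) ((-1 : ℝ) • grad (vf W) z.2)
    rw [(syL n).map_smul] at this
    exact this
  have h5 : vf (V + (-1 : ℝ) • W) z.2 = vf V z.2 + (-1 : ℝ) • vf W z.2 := rfl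
  have h6 : tf (V + (-1 : ℝ) • W) z.2 = tf V z.2 + (-1 : ℝ) • tf W z.2 := rfl
  unfold LLi
  rw [h1, h2, h3, h4, h5, h6]
  simp only [_root_.add_apply, _root_.smul_apply, inner_add_right, inner_smul_right]
  ring

/-- `C¹` smallness of a pair of test fields -/
def Small (R ε : ℝ) (W : DD Ω) : Prop :=
  Van R W ∧ (∀ x, ‖vf W x‖ ≤ ε) ∧ (∀ x, ‖tf W x‖ ≤ ε) ∧ (∀ x, ‖fderiv ℝ (vf W) x‖ ≤ ε) ∧
    (∀ x, ‖fderiv ℝ (tf W) x‖ ≤ ε)

/-- operator norm of `gradL` -/
noncomputable def cg (n : ℕ) : ℝ := ‖LinearMap.toContinuousLinearMap (gradL n)‖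

theorem cg_nonneg (n : ℕ) : 0 ≤ cg n := ContinuousLinearMap.opNorm_nonneg _

theorem norm_grad_le (φ : Eu n → Eu n) (x : Eu n) : ‖grad φ x‖ ≤ cg n * ‖fderiv ℝ φ x‖ :=
  (LinearMap.toContinuousLinearMap (gradL n)).le_opNorm (fderiv ℝ φ x)

theorem LLi_bound {μ a c : ℝ} {v : ST n → Eu n} {G τ S : ST n → Mt n} {s b : ℝ} {η : ℝ → ℝ}
    (hv : MemLp v 2 volume) (hG : MemLp G 2 volume) (hτ : MemLp τ 2 volume)
    (hS : MemLp S 2 volume) (hη : IsTime s b η) (R : ℝ) :
    ∃ K : ℝ, ∀ ε : ℝ, 0 ≤ ε → ∀ W : DD Ω, Small R ε W →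
      |∫ z, LLi μ a c v G τ S η W z| ≤ ε * K := by
  obtain ⟨C1, hC1⟩ := hη.bounded.1
  obtain ⟨C2, hC2⟩ := hη.bounded.2
  have hC10 : 0 ≤ C1 := (abs_nonneg _).trans (hC1 0)
  have hC20 : 0 ≤ C2 := (abs_nonneg _).trans (hC2 0)
  set K : Set (ST n) := tsupport η ×ˢ Metric.closedBall (0 : Eu n) R with hK
  have hKc : IsCompact K := hη.cpt.isCompact.prod (isCompact_closedBall _ _)
  have hKm : MeasurableSet K := hKc.isClosed.measurableSet
  have hKf : volume K < ⊤ := hKc.measure_lt_top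
  let k : ST n → ℝ := fun z => C2 * (‖v z‖ + ‖τ z‖) + C1 * (‖v z‖ * ‖v z‖ + ‖τ z‖ * ‖v z‖ +
    2 * (‖τ z‖ * ‖S z‖) + |μ| * (cg n * ‖G z‖) + |c| * (cg n * ‖τ z‖) + |a| * ‖τ z‖ +
      |c| * ‖G z‖)
  have hl : ∀ {E : Type} [NormedAddCommGroup E] {u : ST n → E}, MemLp u 2 volume →
      IntegrableOn (fun z => ‖u z‖) K volume := by
    intro E _ u hu
    haveI : IsFiniteMeasure (volume.restrict K) := ⟨by rw [Measure.restrict_apply_univ]; exact hKf⟩
    have h1 : MemLp u 1 (volume.restrict K) := (hu.restrict K).mono_exponent (by norm_num)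
    exact (memLp_one_iff_integrable.1 h1).norm
  have hq : ∀ {E F : Type} [NormedAddCommGroup E] [NormedAddCommGroup F] {u : ST n → E}
      {w : ST n → F}, MemLp u 2 volume → MemLp w 2 volume →
      IntegrableOn (fun z => ‖u z‖ * ‖w z‖) K volume := fun hu hw =>
    (hu.norm.integrable_mul hw.norm).integrableOn
  have hk : IntegrableOn k K volume := by
    refine (((hl hv).add (hl hτ)).const_mul C2).add (Integrable.const_mul ?_ C1)
    exact (((((((hq hv hv).add (hq hτ hv)).add ((hq hτ hS).const_mul 2)).add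
      (((hl hG).const_mul (cg n)).const_mul |μ|)).add
      (((hl hτ).const_mul (cg n)).const_mul |c|)).add ((hl hτ).const_mul |a|)).add
      ((hl hG).const_mul |c|))
  refine ⟨∫ z in K, k z, fun ε hε W hW => ?_⟩
  obtain ⟨hvan, h1, h2, h3, h4⟩ := hW
  have hcg := cg_nonneg n
  have hpt : ∀ z, z ∈ K → |LLi μ a c v G τ S η W z| ≤ ε * k z := by
    intro z _
    have hg : ‖grad (vf W) z.2‖ ≤ cg n * ε :=
      (norm_grad_le _ _).trans (mul_le_mul_of_nonneg_left (h3 _) hcg)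
    have b1 : |inner ℝ (v z) (vf W z.2)| ≤ ‖v z‖ * ε :=
      (abs_real_inner_le_norm _ _).trans (mul_le_mul_of_nonneg_left (h1 _) (norm_nonneg _))
    have b2 : |inner ℝ (τ z) (tf W z.2)| ≤ ‖τ z‖ * ε :=
      (abs_real_inner_le_norm _ _).trans (mul_le_mul_of_nonneg_left (h2 _) (norm_nonneg _))
    have b3 : |inner ℝ (v z) (fderiv ℝ (vf W) z.2 (v z))| ≤ ‖v z‖ * (ε * ‖v z‖) := by
      refine (abs_real_inner_le_norm _ _).trans (mul_le_mul_of_nonneg_left ?_ (norm_nonneg _))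
      exact (ContinuousLinearMap.le_opNorm _ _).trans
        (mul_le_mul_of_nonneg_right (h3 _) (norm_nonneg _))
    have b4 : |inner ℝ (τ z) (fderiv ℝ (tf W) z.2 (v z))| ≤ ‖τ z‖ * (ε * ‖v z‖) := by
      refine (abs_real_inner_le_norm _ _).trans (mul_le_mul_of_nonneg_left ?_ (norm_nonneg _))
      exact (ContinuousLinearMap.le_opNorm _ _).trans
        (mul_le_mul_of_nonneg_right (h4 _) (norm_nonneg _))
    have b5 : |inner ℝ (br (τ z) (S z)) (tf W z.2)| ≤ (2 * (‖τ z‖ * ‖S z‖)) * ε := by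
      refine (abs_real_inner_le_norm _ _).trans ?_
      exact mul_le_mul (norm_br_le _ _) (h2 _) (norm_nonneg _) (by positivity)
    have b6 : |inner ℝ (G z) (grad (vf W) z.2)| ≤ ‖G z‖ * (cg n * ε) :=
      (abs_real_inner_le_norm _ _).trans (mul_le_mul_of_nonneg_left hg (norm_nonneg _))
    have b7 : |inner ℝ (τ z) (sy (grad (vf W) z.2))| ≤ ‖τ z‖ * (cg n * ε) :=
      (abs_real_inner_le_norm _ _).trans (mul_le_mul_of_nonneg_left
        ((norm_sy_le _).trans hg) (norm_nonneg _))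
    have b9 : |inner ℝ (sy (G z)) (tf W z.2)| ≤ ‖G z‖ * ε := by
      refine (abs_real_inner_le_norm _ _).trans ?_
      exact mul_le_mul (norm_sy_le _) (h2 _) (norm_nonneg _) (norm_nonneg _)
    have e1 : |deriv η z.1 * (inner ℝ (v z) (vf W z.2) + inner ℝ (τ z) (tf W z.2))| ≤
        C2 * (‖v z‖ * ε + ‖τ z‖ * ε) := by
      rw [abs_mul]
      exact mul_le_mul (hC2 _) ((abs_add_le _ _).trans (add_le_add b1 b2)) (abs_nonneg _) hC20
    have e2 : |inner ℝ (v z) (fderiv ℝ (vf W) z.2 (v z)) + inner ℝ (τ z) (fderiv ℝ (tf W) z.2 (v z)) -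
      inner ℝ (br (τ z) (S z)) (tf W z.2) - μ * inner ℝ (G z) (grad (vf W) z.2) -
      c * inner ℝ (τ z) (sy (grad (vf W) z.2)) - a * inner ℝ (τ z) (tf W z.2) +
      c * inner ℝ (sy (G z)) (tf W z.2)| ≤ ‖v z‖ * (ε * ‖v z‖) + ‖τ z‖ * (ε * ‖v z‖) +
        (2 * (‖τ z‖ * ‖S z‖)) * ε + |μ| * (‖G z‖ * (cg n * ε)) + |c| * (‖τ z‖ * (cg n * ε)) +
        |a| * (‖τ z‖ * ε) + |c| * (‖G z‖ * ε) := by
      have m6 : |μ * inner ℝ (G z) (grad (vf W) z.2)| ≤ |μ| * (‖G z‖ * (cg n * ε)) := by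
        rw [abs_mul]; exact mul_le_mul_of_nonneg_left b6 (abs_nonneg _)
      have m7 : |c * inner ℝ (τ z) (sy (grad (vf W) z.2))| ≤ |c| * (‖τ z‖ * (cg n * ε)) := by
        rw [abs_mul]; exact mul_le_mul_of_nonneg_left b7 (abs_nonneg _)
      have m8 : |a * inner ℝ (τ z) (tf W z.2)| ≤ |a| * (‖τ z‖ * ε) := by
        rw [abs_mul]; exact mul_le_mul_of_nonneg_left b2 (abs_nonneg _)
      have m9 : |c * inner ℝ (sy (G z)) (tf W z.2)| ≤ |c| * (‖G z‖ * ε) := by
        rw [abs_mul]; exact mul_le_mul_of_nonneg_left b9 (abs_nonneg _)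
      rw [abs_le] at b3 b4 b5 m6 m7 m8 m9 ⊢
      constructor <;> linarith [b3.1, b3.2, b4.1, b4.2, b5.1, b5.2, m6.1, m6.2, m7.1, m7.2, m8.1,
        m8.2, m9.1, m9.2]
    have e3 := mul_le_mul (hC1 z.1) e2 (abs_nonneg _) hC10
    rw [← abs_mul] at e3
    have e4 : LLi μ a c v G τ S η W z = deriv η z.1 * (inner ℝ (v z) (vf W z.2) +
      inner ℝ (τ z) (tf W z.2)) + η z.1 * (inner ℝ (v z) (fderiv ℝ (vf W) z.2 (v z)) +
      inner ℝ (τ z) (fderiv ℝ (tf W) z.2 (v z)) -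
      inner ℝ (br (τ z) (S z)) (tf W z.2) - μ * inner ℝ (G z) (grad (vf W) z.2) -
      c * inner ℝ (τ z) (sy (grad (vf W) z.2)) - a * inner ℝ (τ z) (tf W z.2) +
      c * inner ℝ (sy (G z)) (tf W z.2)) := rfl
    rw [e4]
    refine (abs_add_le _ _).trans ((add_le_add e1 e3).trans (le_of_eq ?_))
    simp only [k]; ring
  have hout : ∀ z, z ∉ K → LLi μ a c v G τ S η W z = 0 := by
    intro z hz
    by_cases h5 : z.1 ∈ tsupport η
    · have h6 : R < ‖z.2‖ := by
        by_contra h7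
        exact hz ⟨h5, by rw [Metric.mem_closedBall, dist_zero_right]; linarith⟩
      have h7 := hvan z.2 h6
      have h8 := hvan.fderiv z.2 h6
      have h9 : grad (vf W) z.2 = 0 := by rw [grad_eq, h8.1, map_zero]
      have h10 : sy (0 : Mt n) = 0 := (syL n).map_zero
      simp only [LLi, h7.1, h7.2, h8.1, h8.2, h9, h10, inner_zero_right,
        _root_.zero_apply, mul_zero, add_zero, sub_zero]
    · have h6 : η z.1 = 0 := image_eq_zero_of_notMem_tsupport h5
      have h7 : deriv η z.1 = 0 := by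
        have : z.1 ∉ tsupport (deriv η) := fun h => h5 (tsupport_deriv_subset h)
        exact image_eq_zero_of_notMem_tsupport this
      simp only [LLi, h6, h7, zero_mul, add_zero]
  have hi := LLi_int (μ := μ) (a := a) (c := c) hv hG hτ hS hη W
  have h5 : ∫ z, LLi μ a c v G τ S η W z = ∫ z in K, LLi μ a c v G τ S η W z := by
    rw [← integral_indicator hKm]
    refine integral_congr_ae (Eventually.of_forall fun z => ?_)
    by_cases hz : z ∈ K
    · simp only [indicator_of_mem hz]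
    · simp only [indicator_of_notMem hz]; exact hout z hz
  rw [h5]
  calc |∫ z in K, LLi μ a c v G τ S η W z| ≤ ∫ z in K, |LLi μ a c v G τ S η W z| :=
        abs_integral_le_integral_abs
    _ ≤ ∫ z in K, ε * k z := by
        refine setIntegral_mono_on hi.abs.integrableOn (hk.const_mul ε) hKm fun z hz => hpt z hz
    _ = ε * ∫ z in K, k z := integral_const_mul _ _

/-- smallness of the force functional -/
theorem force_bound {f : ℝ → (Eu n → Eu n) → ℝ} {g : ℝ → ℝ} (hf : IsForce Ω f g) (R : ℝ) :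
    ∃ K : ℝ, 0 ≤ K ∧ ∀ ε : ℝ, 0 ≤ ε → ∀ W : DD Ω, Small R ε W → ∀ t,
      |f t (vf W)| ≤ g t * (ε * K) := by
  set B := Metric.closedBall (0 : Eu n) R
  have hB : volume B < ⊤ := (isCompact_closedBall _ _).measure_lt_top
  refine ⟨Real.sqrt ((1 + cg n ^ 2) * (volume B).toReal), Real.sqrt_nonneg _,
    fun ε hε W hW t => ?_⟩
  obtain ⟨hvan, h1, h2, h3, h4⟩ := hW
  refine (hf.bound t _ (vf_vt W)).trans (mul_le_mul_of_nonneg_left ?_ (hf.gnn t))
  have hgen : ∀ {E : Type} [NormedAddCommGroup E] (u : Eu n → E) (C : ℝ), 0 ≤ C → (∀ x, ‖u x‖ ≤ C) →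
      (∀ x, x ∉ B → u x = 0) → ∫ x, ‖u x‖ ^ 2 ≤ C ^ 2 * (volume B).toReal := by
    intro E _ u C hC hu h0
    have e1 : ∫ x, ‖u x‖ ^ 2 = ∫ x in B, ‖u x‖ ^ 2 := by
      rw [← integral_indicator Metric.isClosed_closedBall.measurableSet]
      refine integral_congr_ae (Eventually.of_forall fun x => ?_)
      by_cases hx : x ∈ B
      · exact (indicator_of_mem hx (fun x => ‖u x‖ ^ 2)).symm
      · refine Eq.trans ?_ (indicator_of_notMem hx (fun x => ‖u x‖ ^ 2)).symm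
        simp only [h0 x hx, norm_zero]; norm_num
    rw [e1]
    have e2 := norm_setIntegral_le_of_norm_le_const (μ := volume) (s := B)
      (f := fun x => ‖u x‖ ^ 2) (C := C ^ 2) hB (fun x _ => by
        rw [Real.norm_eq_abs, abs_of_nonneg (by positivity)]
        exact pow_le_pow_left₀ (norm_nonneg _) (hu x) 2)
    refine (le_abs_self _).trans ?_
    rw [← Real.norm_eq_abs]
    exact e2
  have hout : ∀ x, x ∉ B → R < ‖x‖ := by
    intro x hx
    by_contra h5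
    exact hx (by rw [Metric.mem_closedBall, dist_zero_right]; linarith)
  have i1 := hgen (vf W) ε hε h1 (fun x hx => (hvan x (hout x hx)).1)
  have i2 := hgen (grad (vf W)) (cg n * ε) (mul_nonneg (cg_nonneg n) hε)
    (fun x => (norm_grad_le _ _).trans (mul_le_mul_of_nonneg_left (h3 x) (cg_nonneg n)))
    (fun x hx => by rw [grad_eq, (hvan.fderiv x (hout x hx)).1, map_zero])
  calc Real.sqrt ((∫ x, ‖vf W x‖ ^ 2) + ∫ x, ‖grad (vf W) x‖ ^ 2)
      ≤ Real.sqrt (ε ^ 2 * ((1 + cg n ^ 2) * (volume B).toReal)) := by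
        refine Real.sqrt_le_sqrt ?_
        calc _ ≤ _ := add_le_add i1 i2
          _ = _ := by ring
    _ = ε * Real.sqrt ((1 + cg n ^ 2) * (volume B).toReal) := by
        rw [Real.sqrt_mul (by positivity), Real.sqrt_sq hε]

end Pool.Agent.Helper42.Jef
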