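import Pool.Agent.Helper42.Jef.Gal3
import Pool.Agent.Helper42.Jef.LL3

/-! # Approximation of data and force; uniform bounds for Galerkin solutions -/

open MeasureTheory Set Filter Topology
open scoped ENNReal NNReal ContDiff

namespace Pool.Agent.Helper42.Jef

set_option maxHeartbeats 400000

variable {n : ℕ} {Ω : Set (Eu n)}

theorem toReal_eLpNorm_sq {α : Type*} [MeasurableSpace α] {μ : Measure α} {E : Type*}
    [NormedAddCommGroup E] [InnerProductSpace ℝ E] {f : α → E} (hf : MemLp f 2 μ) :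
    (eLpNorm f 2 μ).toReal ^ 2 = ∫ x, ‖f x‖ ^ 2 ∂μ := by
  rw [← Lp.norm_toLp f hf, ← real_inner_self_eq_norm_sq, inner_toLp hf hf]
  simp only [real_inner_self_eq_norm_sq]

/-- Riesz representative in finite dimension -/
noncomputable def rz {S : Type*} [NormedAddCommGroup S] [InnerProductSpace ℝ S]
    [FiniteDimensional ℝ S] (Λ : S →ₗ[ℝ] ℝ) : S :=
  ∑ i, Λ (stdOrthonormalBasis ℝ S i) • stdOrthonormalBasis ℝ S i

theorem rz_inner {S : Type*} [NormedAddCommGroup S] [InnerProductSpace ℝ S]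
    [FiniteDimensional ℝ S] (Λ : S →ₗ[ℝ] ℝ) (V : S) : inner ℝ (rz Λ) V = Λ V := by
  have hV : V = ∑ i, inner ℝ (stdOrthonormalBasis ℝ S i) V • stdOrthonormalBasis ℝ S i :=
    ((stdOrthonormalBasis ℝ S).sum_repr' V).symm
  conv_rhs => rw [hV]
  simp only [rz, sum_inner, inner_smul_left, map_sum, map_smul, smul_eq_mul, conj_trivial]
  exact Finset.sum_congr rfl fun i _ => mul_comm _ _

theorem rz_memLp {α : Type*} [MeasurableSpace α] {μ : Measure α} {S : Type*}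
    [NormedAddCommGroup S] [InnerProductSpace ℝ S] [FiniteDimensional ℝ S] (Λ : α → S →ₗ[ℝ] ℝ)
    (h : ∀ V : S, MemLp (fun t => Λ t V) 2 μ) : MemLp (fun t => rz (Λ t)) 2 μ := by
  simp only [rz]
  refine memLp_finsetSum _ fun i _ => ?_
  have h2 := h (stdOrthonormalBasis ℝ S i)
  refine h2.of_le_mul (c := ‖stdOrthonormalBasis ℝ S i‖) (h2.1.smul_const _)
    (Eventually.of_forall fun t => ?_)
  rw [norm_smul, mul_comm]

/-- Riesz representation in finite dimension -/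
theorem riesz_fd {S : Type*} [NormedAddCommGroup S] [InnerProductSpace ℝ S]
    [FiniteDimensional ℝ S] (Λ : S →ₗ[ℝ] ℝ) : ∃ w : S, ∀ V, inner ℝ w V = Λ V :=
  ⟨rz Λ, rz_inner Λ⟩

theorem vf_memLp (V : DD Ω) : MemLp (vf V) 2 volume := memLp_cc (vf_smooth V).continuous (vf_cpt V) 2
theorem tf_memLp (V : DD Ω) : MemLp (tf V) 2 volume := memLp_cc (tf_smooth V).continuous (tf_cpt V) 2

/-- pairing with the initial data -/
noncomputable def initL {v0 : Eu n → Eu n} {τ0 : Eu n → Mt n} (hv0 : MemLp v0 2 volume)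
    (hτ0 : MemLp τ0 2 volume) : DD Ω →ₗ[ℝ] ℝ where
  toFun V := (∫ x, inner ℝ (v0 x) (vf V x)) + ∫ x, inner ℝ (τ0 x) (tf V x)
  map_add' V W := by
    simp only [vf_add, tf_add, Pi.add_apply, inner_add_right]
    rw [integral_add (memLp_inner_integrable hv0 (vf_memLp V))
      (memLp_inner_integrable hv0 (vf_memLp W)),
      integral_add (memLp_inner_integrable hτ0 (tf_memLp V))
      (memLp_inner_integrable hτ0 (tf_memLp W))]
    ring
  map_smul' c V := by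
    simp only [vf_smul, tf_smul, Pi.smul_apply, inner_smul_right, RingHom.id_apply, smul_eq_mul]
    rw [integral_const_mul, integral_const_mul]
    ring

theorem initL_le {v0 : Eu n → Eu n} {τ0 : Eu n → Mt n} (hv0 : MemLp v0 2 volume)
    (hτ0 : MemLp τ0 2 volume) (V : DD Ω) : initL hv0 hτ0 V ≤
      Real.sqrt ((∫ x, ‖v0 x‖ ^ 2) + ∫ x, ‖τ0 x‖ ^ 2) * ‖V‖ := by
  have h1 : initL hv0 hτ0 V = (∫ x, inner ℝ (v0 x) (vf V x)) + ∫ x, inner ℝ (τ0 x) (tf V x) := rfl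
  rw [h1]
  have h2 := (le_abs_self _).trans (integral_inner_le hv0 (vf_memLp V))
  have h3 := (le_abs_self _).trans (integral_inner_le hτ0 (tf_memLp V))
  have e1 := toReal_eLpNorm_sq hv0
  have e2 := toReal_eLpNorm_sq hτ0
  have e3 := toReal_eLpNorm_sq (vf_memLp V)
  have e4 := toReal_eLpNorm_sq (tf_memLp V)
  set p := (eLpNorm v0 2 volume).toReal
  set q := (eLpNorm τ0 2 volume).toReal
  set r := (eLpNorm (vf V) 2 volume).toReal
  set s := (eLpNorm (tf V) 2 volume).toReal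
  have hV : ‖V‖ = Real.sqrt (r ^ 2 + s ^ 2) := by
    rw [e3, e4, ← dd_norm_sq, Real.sqrt_sq (norm_nonneg _)]
  rw [← e1, ← e2, hV, ← Real.sqrt_mul (by positivity)]
  refine (add_le_add h2 h3).trans (Real.le_sqrt_of_sq_le ?_)
  nlinarith [sq_nonneg (p * s - q * r)]

theorem init_exists {v0 : Eu n → Eu n} {τ0 : Eu n → Mt n} (hv0 : MemLp v0 2 volume)
    (hτ0 : MemLp τ0 2 volume) (S : Submodule ℝ (DD Ω)) [FiniteDimensional ℝ S] :
    ∃ w : S, (∀ V : S, inner ℝ w V = initL hv0 hτ0 (V : DD Ω)) ∧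
      ‖w‖ ^ 2 ≤ (∫ x, ‖v0 x‖ ^ 2) + ∫ x, ‖τ0 x‖ ^ 2 := by
  obtain ⟨w, hw⟩ := riesz_fd ((initL hv0 hτ0).comp S.subtype)
  refine ⟨w, fun V => hw V, ?_⟩
  have h1 : ‖w‖ ^ 2 = initL hv0 hτ0 (w : DD Ω) := by
    rw [← real_inner_self_eq_norm_sq]; exact hw w
  have h2 := initL_le hv0 hτ0 (w : DD Ω)
  have h3 : ‖(w : DD Ω)‖ = ‖w‖ := rfl
  rw [h3] at h2
  set X := (∫ x, ‖v0 x‖ ^ 2) + ∫ x, ‖τ0 x‖ ^ 2
  have hX : 0 ≤ X := add_nonneg (integral_nonneg fun x => by positivity)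
    (integral_nonneg fun x => by positivity)
  rw [← h1] at h2
  have h4 : ‖w‖ ≤ Real.sqrt X := by
    rcases eq_or_lt_of_le (norm_nonneg w) with h | h
    · rw [← h]; exact Real.sqrt_nonneg _
    · rw [sq] at h2
      exact le_of_mul_le_mul_right h2 h
  calc ‖w‖ ^ 2 ≤ Real.sqrt X ^ 2 := pow_le_pow_left₀ (norm_nonneg _) h4 2
    _ = X := Real.sq_sqrt hX

/-! ## force -/

/-- the force as a linear functional on pairs of test fields -/
noncomputable def forceL {f : ℝ → (Eu n → Eu n) → ℝ} {g : ℝ → ℝ} (hf : IsForce Ω f g) (t : ℝ) :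
    DD Ω →ₗ[ℝ] ℝ where
  toFun V := f t (vf V)
  map_add' V W := hf.add t _ _ (vf_vt V) (vf_vt W)
  map_smul' c V := hf.smul t c _ (vf_vt V)

@[simp] theorem forceL_apply {f : ℝ → (Eu n → Eu n) → ℝ} {g : ℝ → ℝ} (hf : IsForce Ω f g) (t : ℝ)
    (V : DD Ω) : forceL hf t V = f t (vf V) := rfl

/-- Riesz representative of the force in a finite dimensional subspace -/
noncomputable def forceR {f : ℝ → (Eu n → Eu n) → ℝ} {g : ℝ → ℝ} (hf : IsForce Ω f g)
    (S : Submodule ℝ (DD Ω)) [FiniteDimensional ℝ S] (t : ℝ) : S :=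
  rz ((forceL hf t).comp S.subtype)

theorem forceR_inner {f : ℝ → (Eu n → Eu n) → ℝ} {g : ℝ → ℝ} (hf : IsForce Ω f g)
    (S : Submodule ℝ (DD Ω)) [FiniteDimensional ℝ S] (t : ℝ) (V : S) :
    inner ℝ (forceR hf S t) V = f t (vf (V : DD Ω)) := rz_inner _ _

theorem force_memLp {f : ℝ → (Eu n → Eu n) → ℝ} {g : ℝ → ℝ} (hf : IsForce Ω f g) (T : ℝ)
    {φ : Eu n → Eu n} (hφ : IsVT Ω φ) : MemLp (fun t => f t φ) 2 (volume.restrict (Ioo 0 T)) := by
  have hg : MemLp g 2 (volume.restrict (Ioo 0 T)) := by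
    rw [memLp_two_iff_integrable_sq hf.gmeas.restrict]
    exact hf.gint T
  refine hg.of_le_mul (c := Real.sqrt ((∫ x, ‖φ x‖ ^ 2) + ∫ x, ‖grad φ x‖ ^ 2))
    (hf.meas φ hφ).restrict (Eventually.of_forall fun t => ?_)
  rw [Real.norm_eq_abs, Real.norm_eq_abs, abs_of_nonneg (hf.gnn t), mul_comm]
  exact hf.bound t φ hφ

theorem forceR_memLp {f : ℝ → (Eu n → Eu n) → ℝ} {g : ℝ → ℝ} (hf : IsForce Ω f g)
    (S : Submodule ℝ (DD Ω)) [FiniteDimensional ℝ S] (T : ℝ) :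
    MemLp (forceR hf S) 2 (volume.restrict (Ioo 0 T)) :=
  rz_memLp (fun t => (forceL hf t).comp S.subtype) fun V => force_memLp hf T (vf_vt (V : DD Ω))

theorem force_approx {f : ℝ → (Eu n → Eu n) → ℝ} {g : ℝ → ℝ} (hf : IsForce Ω f g)
    (S : Submodule ℝ (DD Ω)) [FiniteDimensional ℝ S] (T : ℝ) {ε : ℝ} (hε : 0 < ε) :
    ∃ F : ℝ → S, Continuous F ∧
      eLpNorm (fun t => forceR hf S t - F t) 2 (volume.restrict (Ioo 0 T)) ≤ ENNReal.ofReal ε := by
  obtain ⟨F, -, h2, h3, -⟩ := (forceR_memLp hf S T).exists_hasCompactSupport_eLpNorm_sub_le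
    (by norm_num) (ε := ENNReal.ofReal ε) (by simpa using hε)
  exact ⟨F, h3, h2⟩

end Pool.Agent.Helper42.Jef
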