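import Pool.Agent.Helper42.Jef.RegA

/-! # Galerkin solutions with uniform bounds -/

open MeasureTheory Set Filter Topology
open scoped ENNReal NNReal ContDiff

namespace Pool.Agent.Helper42.Jef

set_option maxHeartbeats 400000

variable {n : ℕ} {Ω : Set (Eu n)}

/-- the uniform bound -/
noncomputable def Mb (μ X : ℝ) (g : ℝ → ℝ) (T : ℝ) : ℝ :=
  Real.exp T * (X + (2 + 1 / μ) * (∫ t in Ioo 0 T, g t ^ 2) + 2) * (1 + 1 / μ)

theorem Mb_nonneg {μ X : ℝ} (hμ : 0 < μ) (hX : 0 ≤ X) (g : ℝ → ℝ) (T : ℝ) : 0 ≤ Mb μ X g T := by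
  unfold Mb
  have h1 : 0 ≤ ∫ t in Ioo 0 T, g t ^ 2 := integral_nonneg fun t => by positivity
  positivity

theorem gal_package (hΩ : MeasurableSet Ω) {δ : ℝ} (hδ : 0 < δ) {T μ a : ℝ} (hT : 0 < T)
    (hμ : 0 < μ) (ha : 0 ≤ a) (c : ℝ) {f : ℝ → (Eu n → Eu n) → ℝ} {g : ℝ → ℝ}
    (hf : IsForce Ω f g) {v0 : Eu n → Eu n} {τ0 : Eu n → Mt n} (hv0 : MemLp v0 2 volume)
    (hτ0 : MemLp τ0 2 volume) (S : Submodule ℝ (DD Ω)) [FiniteDimensional ℝ S]
    {ε : ℝ} (hε : 0 < ε) (hε1 : ε ≤ 1) :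
    ∃ F U : ℝ → S, Continuous F ∧ IsGal hΩ hδ T μ a c S F U ∧
      (∀ V : S, inner ℝ (U 0) V = initL hv0 hτ0 (V : DD Ω)) ∧
      eLpNorm (fun t => forceR hf S t - F t) 2 (volume.restrict (Ioo 0 T)) ≤ ENNReal.ofReal ε ∧
      ∀ T' : ℝ, 0 ≤ T' → T' ≤ T →
        (∀ t ∈ Icc 0 T', ‖U t‖ ^ 2 ≤
          Mb μ ((∫ x, ‖v0 x‖ ^ 2) + ∫ x, ‖τ0 x‖ ^ 2) g T') ∧
        ∫ s in Ioo 0 T', dir (U s : DD Ω) ≤
          Mb μ ((∫ x, ‖v0 x‖ ^ 2) + ∫ x, ‖τ0 x‖ ^ 2) g T' := by
  set X := (∫ x, ‖v0 x‖ ^ 2) + ∫ x, ‖τ0 x‖ ^ 2 with hXdef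
  have hX : 0 ≤ X := add_nonneg (integral_nonneg fun x => by positivity)
    (integral_nonneg fun x => by positivity)
  obtain ⟨w, hw1, hw2⟩ := init_exists hv0 hτ0 S
  obtain ⟨F, hFc, hF⟩ := force_approx hf S T hε
  obtain ⟨U, hU0, hU⟩ := gal_exists hΩ hδ hT hμ.le ha c S F hFc w
  refine ⟨F, U, hFc, hU, fun V => by rw [hU0]; exact hw1 V, hF, ?_⟩
  -- the error function
  let e : ℝ → ℝ := fun t => ‖forceR hf S t - F t‖
  have hFm : MemLp (fun t => forceR hf S t - F t) 2 (volume.restrict (Ioo 0 T)) := by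
    refine ⟨(forceR_memLp hf S T).1.sub hFc.aestronglyMeasurable, ?_⟩
    exact hF.trans_lt ENNReal.ofReal_lt_top
  have hem : MemLp e 2 (volume.restrict (Ioo 0 T)) := hFm.norm
  have hgm : MemLp g 2 (volume.restrict (Ioo 0 T)) := by
    rw [memLp_two_iff_integrable_sq hf.gmeas.restrict]
    exact hf.gint T
  have hei : IntegrableOn (fun t => e t ^ 2) (Ioo 0 T) := hem.integrable_sq
  have hgei : IntegrableOn (fun t => (g t + e t) ^ 2) (Ioo 0 T) := (hgm.add hem).integrable_sq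
  have he1 : ∫ t in Ioo 0 T, e t ^ 2 ≤ 1 := by
    have h1 := toReal_eLpNorm_sq hFm
    have h2 : (eLpNorm (fun t => forceR hf S t - F t) 2 (volume.restrict (Ioo 0 T))).toReal ≤ 1 := by
      refine (ENNReal.toReal_le_of_le_ofReal hε.le hF).trans hε1
    rw [← h1]
    have h3 : 0 ≤ (eLpNorm (fun t => forceR hf S t - F t) 2
      (volume.restrict (Ioo 0 T))).toReal := ENNReal.toReal_nonneg
    nlinarith
  have hFb : ∀ᵐ t ∂(volume.restrict (Ioo 0 T)), ∀ V : S, |inner ℝ (F t) V| ≤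
      g t * Real.sqrt ((∫ x, ‖vf (V : DD Ω) x‖ ^ 2) + ∫ x, ‖grad (vf (V : DD Ω)) x‖ ^ 2) +
        e t * ‖V‖ := by
    refine Eventually.of_forall fun t V => ?_
    have h1 : inner ℝ (F t) V = inner ℝ (forceR hf S t) V - inner ℝ (forceR hf S t - F t) V := by
      rw [inner_sub_left]; ring
    rw [h1, forceR_inner]
    refine (abs_sub _ _).trans (add_le_add (hf.bound t _ (vf_vt _)) ?_)
    exact abs_real_inner_le_norm _ _
  intro T' hT'0 hT'T
  have hen : ∀ t ∈ Icc 0 T', Real.exp (-t) * ‖U t‖ ^ 2 +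
      ∫ s in Ioo 0 t, Real.exp (-s) * (μ * dir (U s : DD Ω)) ≤
      X + (2 + 1 / μ) * (∫ t in Ioo 0 T', g t ^ 2) + 2 := by
    intro t ht
    have ht' : t ∈ Icc 0 T := ⟨ht.1, ht.2.trans hT'T⟩
    refine (gal_energy hU hFc hT hμ ha hf.gnn (fun t => norm_nonneg _) (hf.gint T) hgei hFb
      ht').trans ?_
    rw [hU0]
    have hsub : Ioo 0 t ⊆ Ioo 0 T := Ioo_subset_Ioo le_rfl ht'.2
    have hsub' : Ioo 0 t ⊆ Ioo 0 T' := Ioo_subset_Ioo le_rfl ht.2
    have i1 : IntegrableOn (fun s => (g s + e s) ^ 2 + g s ^ 2 / μ) (Ioo 0 t) :=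
      (hgei.mono_set hsub).add (((hf.gint T).mono_set hsub).div_const μ)
    have i2 : IntegrableOn (fun s => (2 + 1 / μ) * g s ^ 2 + 2 * e s ^ 2) (Ioo 0 t) :=
      (((hf.gint T).mono_set hsub).const_mul _).add ((hei.mono_set hsub).const_mul _)
    have h1 : ∫ s in Ioo 0 t, ((g s + e s) ^ 2 + g s ^ 2 / μ) ≤
        ∫ s in Ioo 0 t, ((2 + 1 / μ) * g s ^ 2 + 2 * e s ^ 2) := by
      refine setIntegral_mono_on i1 i2 measurableSet_Ioo fun s _ => ?_
      have h2 : g s ^ 2 / μ = 1 / μ * g s ^ 2 := by ring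
      rw [h2]
      nlinarith [sq_nonneg (g s - e s)]
    have h2 : ∫ s in Ioo 0 t, ((2 + 1 / μ) * g s ^ 2 + 2 * e s ^ 2) =
        (2 + 1 / μ) * (∫ s in Ioo 0 t, g s ^ 2) + 2 * ∫ s in Ioo 0 t, e s ^ 2 := by
      rw [integral_add (((hf.gint T).mono_set hsub).const_mul _) ((hei.mono_set hsub).const_mul _),
        integral_const_mul, integral_const_mul]
    have h3 : ∫ s in Ioo 0 t, g s ^ 2 ≤ ∫ s in Ioo 0 T', g s ^ 2 :=
      setIntegral_mono_set (hf.gint T') (Eventually.of_forall fun s => by positivity)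
        (HasSubset.Subset.eventuallyLE hsub')
    have h4 : ∫ s in Ioo 0 t, e s ^ 2 ≤ ∫ s in Ioo 0 T, e s ^ 2 :=
      setIntegral_mono_set hei (Eventually.of_forall fun s => by positivity)
        (HasSubset.Subset.eventuallyLE hsub)
    have h5 : 0 ≤ 2 + 1 / μ := by positivity
    have h6 := mul_le_mul_of_nonneg_left h3 h5
    linarith
  set K := X + (2 + 1 / μ) * (∫ t in Ioo 0 T', g t ^ 2) + 2 with hK
  have hK0 : 0 ≤ K := by
    have h1 : 0 ≤ ∫ t in Ioo 0 T', g t ^ 2 := integral_nonneg fun t => by positivity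
    positivity
  have hMb : Mb μ X g T' = Real.exp T' * K * (1 + 1 / μ) := rfl
  have hEK : 0 ≤ Real.exp T' * K := by positivity
  have hμ1 : 0 ≤ 1 / μ := by positivity
  constructor
  · intro t ht
    have h1 := hen t ht
    have h2 : 0 ≤ ∫ s in Ioo 0 t, Real.exp (-s) * (μ * dir (U s : DD Ω)) :=
      integral_nonneg fun s => mul_nonneg (Real.exp_pos _).le (mul_nonneg hμ.le (dir_nonneg _))
    have h3 : Real.exp (-t) * ‖U t‖ ^ 2 ≤ K := by linarith
    have h4 : ‖U t‖ ^ 2 ≤ Real.exp t * K := by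
      calc ‖U t‖ ^ 2 = Real.exp t * (Real.exp (-t) * ‖U t‖ ^ 2) := by
            rw [← mul_assoc, ← Real.exp_add]; simp
        _ ≤ Real.exp t * K := mul_le_mul_of_nonneg_left h3 (Real.exp_pos _).le
    have h5 : Real.exp t * K ≤ Real.exp T' * K :=
      mul_le_mul_of_nonneg_right (Real.exp_le_exp.2 ht.2) hK0
    rw [hMb]
    nlinarith
  · have h1 := hen T' ⟨hT'0, le_rfl⟩
    have h2 : 0 ≤ Real.exp (-T') * ‖U T'‖ ^ 2 := by positivity
    have h3 : ∫ s in Ioo 0 T', Real.exp (-s) * (μ * dir (U s : DD Ω)) ≤ K := by linarith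
    have hdc : Continuous fun s => dir (U s : DD Ω) := dir_cont hU.cont
    have i1 : IntegrableOn (fun s => Real.exp (-T') * (μ * dir (U s : DD Ω))) (Ioo 0 T') :=
      (((continuous_const.mul (continuous_const.mul hdc))).integrableOn_Icc
        (a := 0) (b := T')).mono_set Ioo_subset_Icc_self
    have i2 : IntegrableOn (fun s => Real.exp (-s) * (μ * dir (U s : DD Ω))) (Ioo 0 T') :=
      (((Real.continuous_exp.comp continuous_neg).mul (continuous_const.mul hdc)).integrableOn_Icc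
        (a := 0) (b := T')).mono_set Ioo_subset_Icc_self
    have h4 : ∫ s in Ioo 0 T', Real.exp (-T') * (μ * dir (U s : DD Ω)) ≤ K := by
      refine (setIntegral_mono_on i1 i2 measurableSet_Ioo fun s hs => ?_).trans h3
      refine mul_le_mul_of_nonneg_right (Real.exp_le_exp.2 (by linarith [hs.2]))
        (mul_nonneg hμ.le (dir_nonneg _))
    rw [integral_const_mul, integral_const_mul] at h4
    set D := ∫ s in Ioo 0 T', dir (U s : DD Ω)
    have h5 : D ≤ Real.exp T' * K * (1 / μ) := by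
      have h6 : D = Real.exp T' * (Real.exp (-T') * (μ * D)) * (1 / μ) := by
        have h7 : Real.exp T' * (Real.exp (-T') * (μ * D)) = μ * D := by
          rw [← mul_assoc, ← Real.exp_add]; simp
        rw [h7]; field_simp
      rw [h6]
      exact mul_le_mul_of_nonneg_right (mul_le_mul_of_nonneg_left h4 (Real.exp_pos _).le) hμ1
    rw [hMb]
    nlinarith

end Pool.Agent.Helper42.Jef
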