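import Pool.Agent.Helper42.Jef.RegB

/-! # Space-time bounds of Galerkin curves -/

open MeasureTheory Set Filter Topology
open scoped ENNReal NNReal ContDiff

namespace Pool.Agent.Helper42.Jef

set_option maxHeartbeats 400000

variable {n : ℕ} {Ω : Set (Eu n)}

theorem lint_slab {u : ST n → ℝ≥0∞} (hu : AEMeasurable u volume) {I : Set ℝ} :
    ∫⁻ z in I ×ˢ (univ : Set (Eu n)), u z = ∫⁻ t in I, ∫⁻ x, u (t, x) := by
  have hvol : (volume : Measure (ST n)) = (volume : Measure ℝ).prod (volume : Measure (Eu n)) := rfl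
  have h1 : (volume : Measure (ST n)).restrict (I ×ˢ (univ : Set (Eu n))) =
      ((volume : Measure ℝ).restrict I).prod (volume : Measure (Eu n)) := by
    rw [hvol, ← Measure.prod_restrict, Measure.restrict_univ]
  rw [h1, lintegral_prod]
  rw [← h1]
  exact hu.restrict

theorem lint_sq_slab {E : Type*} [NormedAddCommGroup E] {u : ST n → E}
    (hu : AEStronglyMeasurable u volume) {I : Set ℝ} :
    ∫⁻ z in I ×ˢ (univ : Set (Eu n)), ‖u z‖ₑ ^ 2 = ∫⁻ t in I, ∫⁻ x, ‖u (t, x)‖ₑ ^ 2 :=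
  lint_slab (hu.enorm.pow_const 2)

theorem lint_sq_real {α : Type*} [MeasurableSpace α] {μ : Measure α} {E : Type*}
    [NormedAddCommGroup E] [InnerProductSpace ℝ E] {u : α → E} (hu : MemLp u 2 μ) :
    ∫⁻ x, ‖u x‖ₑ ^ 2 ∂μ = ENNReal.ofReal (∫ x, ‖u x‖ ^ 2 ∂μ) := by
  rw [lint_sq_eq, ← toReal_eLpNorm_sq hu, ENNReal.ofReal_pow ENNReal.toReal_nonneg,
    ENNReal.ofReal_toReal hu.2.ne]

theorem slab_bound {E : Type*} [NormedAddCommGroup E] {u : ST n → E}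
    (hu : AEStronglyMeasurable u volume) {I : Set ℝ} (hI : MeasurableSet I) {M : ℝ}
    (h : ∀ t ∈ I, ∫⁻ x, ‖u (t, x)‖ₑ ^ 2 ≤ ENNReal.ofReal M) :
    ∫⁻ z in I ×ˢ (univ : Set (Eu n)), ‖u z‖ₑ ^ 2 ≤ ENNReal.ofReal M * volume I := by
  rw [lint_sq_slab hu]
  calc ∫⁻ t in I, ∫⁻ x, ‖u (t, x)‖ₑ ^ 2 ≤ ∫⁻ _ in I, ENNReal.ofReal M :=
        setLIntegral_mono' hI h
    _ = ENNReal.ofReal M * volume I := setLIntegral_const _ _

theorem gv_slice_lint {T : ℝ} {W : ℝ → DD Ω} {M : ℝ} (t : ℝ)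
    (h : t ∈ Ioo 0 T → ‖W t‖ ^ 2 ≤ M) :
    ∫⁻ x, ‖gv T W (t, x)‖ₑ ^ 2 ≤ ENNReal.ofReal M := by
  by_cases ht : t ∈ Ioo 0 T
  · simp only [gv, indicator_of_mem ht]
    rw [lint_sq_real (vf_memLp (W t))]
    exact ENNReal.ofReal_le_ofReal ((vsq_le _).trans (h ht))
  · simp only [gv, indicator_of_notMem ht, enorm_zero]
    simp

theorem tsq_le (W : DD Ω) : ∫ x, ‖tf W x‖ ^ 2 ≤ ‖W‖ ^ 2 := by
  rw [dd_norm_sq]
  have : 0 ≤ ∫ x, ‖vf W x‖ ^ 2 := integral_nonneg fun x => by positivity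
  linarith

theorem gt_slice_lint {T : ℝ} {W : ℝ → DD Ω} {M : ℝ} (t : ℝ)
    (h : t ∈ Ioo 0 T → ‖W t‖ ^ 2 ≤ M) :
    ∫⁻ x, ‖gt T W (t, x)‖ₑ ^ 2 ≤ ENNReal.ofReal M := by
  by_cases ht : t ∈ Ioo 0 T
  · simp only [gt, indicator_of_mem ht]
    rw [lint_sq_real (tf_memLp (W t))]
    exact ENNReal.ofReal_le_ofReal ((tsq_le _).trans (h ht))
  · simp only [gt, indicator_of_notMem ht, enorm_zero]
    simp

theorem grad_memLp (V : DD Ω) : MemLp (grad (vf V)) 2 volume :=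
  memLp_cc (vf_vt V).grad_cont (vf_vt V).grad_cpt 2

theorem gG_slab {T T' : ℝ} (hTT : T' ≤ T) {W : ℝ → DD Ω}
    (hm : AEStronglyMeasurable (gG T W) volume)
    (hd : IntegrableOn (fun t => dir (W t)) (Ioo 0 T')) :
    ∫⁻ z in Ioo 0 T' ×ˢ (univ : Set (Eu n)), ‖gG T W z‖ₑ ^ 2 =
      ENNReal.ofReal (∫ t in Ioo 0 T', dir (W t)) := by
  rw [lint_sq_slab hm, ofReal_integral_eq_lintegral_ofReal hd
    (Eventually.of_forall fun t => dir_nonneg _)]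
  refine setLIntegral_congr_fun measurableSet_Ioo fun t ht => ?_
  have ht' : t ∈ Ioo 0 T := ⟨ht.1, ht.2.trans_le hTT⟩
  simp only [gG, indicator_of_mem ht']
  rw [lint_sq_real (grad_memLp (W t))]
  rfl

/-- `L²` bound of the whole field from the slab bound -/
theorem eLpNorm_of_slab {E : Type*} [NormedAddCommGroup E] {u : ST n → E} {T : ℝ}
    (h0 : ∀ z : ST n, z.1 ∉ Ioo 0 T → u z = 0) {X : ℝ≥0∞}
    (h : ∫⁻ z in Ioo 0 T ×ˢ (univ : Set (Eu n)), ‖u z‖ₑ ^ 2 ≤ X) :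
    eLpNorm u 2 volume ≤ X ^ (1 / 2 : ℝ) := by
  rw [eLpNorm_two_eq]
  refine ENNReal.rpow_le_rpow ?_ (by norm_num)
  have h1 : ∫⁻ z : ST n, ‖u z‖ₑ ^ 2 = ∫⁻ z in Ioo 0 T ×ˢ (univ : Set (Eu n)), ‖u z‖ₑ ^ 2 := by
    rw [← lintegral_indicator (measurableSet_Ioo.prod MeasurableSet.univ)]
    refine lintegral_congr fun z => ?_
    by_cases hz : z ∈ Ioo 0 T ×ˢ (univ : Set (Eu n))
    · simp only [indicator_of_mem hz]
    · have hz' : z.1 ∉ Ioo 0 T := fun hc => hz ⟨hc, trivial⟩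
      simp only [indicator_of_notMem hz, h0 z hz', enorm_zero]
      simp
  rw [h1]
  exact h

theorem gv_zero_out {T : ℝ} {W : ℝ → DD Ω} (z : ST n) (hz : z.1 ∉ Ioo 0 T) : gv T W z = 0 := by
  simp only [gv, indicator_of_notMem hz]
theorem gG_zero_out {T : ℝ} {W : ℝ → DD Ω} (z : ST n) (hz : z.1 ∉ Ioo 0 T) : gG T W z = 0 := by
  simp only [gG, indicator_of_notMem hz]
theorem gt_zero_out {T : ℝ} {W : ℝ → DD Ω} (z : ST n) (hz : z.1 ∉ Ioo 0 T) : gt T W z = 0 := by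
  simp only [gt, indicator_of_notMem hz]

end Pool.Agent.Helper42.Jef
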