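import Pool.Agent.Helper42.Jef.RegC

/-! # Time regularity of Galerkin curves -/

open MeasureTheory Set Filter Topology
open scoped ENNReal NNReal ContDiff

namespace Pool.Agent.Helper42.Jef

set_option maxHeartbeats 400000

variable {n : ℕ} {Ω : Set (Eu n)}

theorem cs_norm {α : Type*} [MeasurableSpace α] {μ : Measure α} {E F : Type*}
    [NormedAddCommGroup E] [NormedAddCommGroup F] {f : α → E} {g : α → F}
    (hf : MemLp f 2 μ) (hg : MemLp g 2 μ) :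
    ∫ x, ‖f x‖ * ‖g x‖ ∂μ ≤ Real.sqrt (∫ x, ‖f x‖ ^ 2 ∂μ) * Real.sqrt (∫ x, ‖g x‖ ^ 2 ∂μ) := by
  have hf' : MemLp (fun x => ‖f x‖) 2 μ := hf.norm
  have hg' : MemLp (fun x => ‖g x‖) 2 μ := hg.norm
  have h1 := (le_abs_self _).trans (integral_inner_le hf' hg')
  have e1 := toReal_eLpNorm_sq hf'
  have e2 := toReal_eLpNorm_sq hg'
  simp only [norm_norm] at e1 e2
  rw [← e1, ← e2, Real.sqrt_sq ENNReal.toReal_nonneg, Real.sqrt_sq ENNReal.toReal_nonneg]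
  refine le_trans (le_of_eq ?_) h1
  refine integral_congr_ae (Eventually.of_forall fun x => ?_)
  simp only [RCLike.inner_apply, conj_trivial]
  ring

theorem int_lc2 {α : Type*} [MeasurableSpace α] {μ : Measure α} {f g : α → ℝ}
    (hf : Integrable f μ) (hg : Integrable g μ) (a b : ℝ) :
    ∫ x, (a * f x + b * g x) ∂μ = a * (∫ x, f x ∂μ) + b * ∫ x, g x ∂μ := by
  rw [integral_add (hf.const_mul _) (hg.const_mul _), integral_const_mul, integral_const_mul]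

theorem int_lc3 {α : Type*} [MeasurableSpace α] {μ : Measure α} {f g h : α → ℝ}
    (hf : Integrable f μ) (hg : Integrable g μ) (hh : Integrable h μ) (a b c : ℝ) :
    ∫ x, (a * f x + b * g x + c * h x) ∂μ =
      a * (∫ x, f x ∂μ) + b * (∫ x, g x ∂μ) + c * ∫ x, h x ∂μ := by
  have h1 : Integrable (fun x => a * f x + b * g x) μ := (hf.const_mul _).add (hg.const_mul _)
  rw [integral_add h1 (hh.const_mul _), int_lc2 hf hg, integral_const_mul]

theorem int_lc4 {α : Type*} [MeasurableSpace α] {μ : Measure α} {f g h k : α → ℝ}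
    (hf : Integrable f μ) (hg : Integrable g μ) (hh : Integrable h μ) (hk : Integrable k μ)
    (a b c d : ℝ) : ∫ x, (a * f x + b * g x + c * h x + d * k x) ∂μ =
      a * (∫ x, f x ∂μ) + b * (∫ x, g x ∂μ) + c * (∫ x, h x ∂μ) + d * ∫ x, k x ∂μ := by
  have h1 : Integrable (fun x => a * f x + b * g x + c * h x) μ :=
    ((hf.const_mul _).add (hg.const_mul _)).add (hh.const_mul _)
  rw [integral_add h1 (hk.const_mul _), int_lc3 hf hg hh, integral_const_mul]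

theorem sqrt_vsq_le (W : DD Ω) : Real.sqrt (∫ x, ‖vf W x‖ ^ 2) ≤ ‖W‖ := by
  rw [Real.sqrt_le_left (norm_nonneg _)]
  exact vsq_le W

theorem sqrt_tsq_le (W : DD Ω) : Real.sqrt (∫ x, ‖tf W x‖ ^ 2) ≤ ‖W‖ := by
  rw [Real.sqrt_le_left (norm_nonneg _)]
  exact tsq_le W

theorem sm_le {δ : ℝ} (hδ : 0 < δ) : ∃ C : ℝ, 0 ≤ C ∧ ∀ (U : DD Ω) (x : Eu n),
    ‖sm δ U x‖ ≤ C * Real.sqrt (dir U) := by
  refine ⟨Real.sqrt (∫ y : Eu n, ‖ro δ y‖ ^ 2), Real.sqrt_nonneg _, fun U x => ?_⟩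
  have h0 : 0 ≤ Real.sqrt (∫ y : Eu n, ‖ro δ y‖ ^ 2) * Real.sqrt (dir U) := by positivity
  by_cases hx : x ∈ Ω
  · simp only [sm, indicator_of_mem hx]
    have hm : MemLp (fun y : Eu n => ro δ (x - y)) 2 volume := by
      refine memLp_cc ((ro_cont δ).comp (continuous_const.sub continuous_id)) ?_ 2
      have := (ro_cpt (n := n) hδ).comp_homeomorph (Homeomorph.subLeft x)
      exact this
    have h1 := cs_norm hm (grad_memLp U)
    have h2 : ∫ y : Eu n, ‖ro δ (x - y)‖ ^ 2 = ∫ y : Eu n, ‖ro δ y‖ ^ 2 :=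
      integral_sub_left_eq_self (fun y : Eu n => ‖ro δ y‖ ^ 2) volume x
    rw [h2] at h1
    refine le_trans ((norm_integral_le_integral_norm _).trans ?_) h1
    refine integral_mono_of_nonneg (Eventually.of_forall fun y => norm_nonneg _) ?_
      (Eventually.of_forall fun y => ?_)
    · exact hm.norm.integrable_mul (grad_memLp U).norm
    · show ‖ro δ (x - y) • sp (grad (vf U) y)‖ ≤ ‖ro δ (x - y)‖ * ‖grad (vf U) y‖
      rw [norm_smul]
      exact mul_le_mul_of_nonneg_left (norm_sp_le _) (norm_nonneg _)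
  · simp only [sm, indicator_of_notMem hx, norm_zero]
    exact h0

theorem bform_bound (hΩ : MeasurableSet Ω) {δ : ℝ} (hδ : 0 < δ) (Z : DD Ω) :
    ∃ K : ℝ, 0 ≤ K ∧ ∀ U : DD Ω,
      |bform hΩ hδ U U Z| ≤ K * (‖U‖ ^ 2 + Real.sqrt (dir U) * ‖U‖) := by
  obtain ⟨C0, hC00, hC0⟩ := sm_le (Ω := Ω) hδ
  have hd1 : Continuous (fderiv ℝ (vf Z)) := (vf_smooth Z).continuous_fderiv (by simp)
  obtain ⟨C1, hC1⟩ := hd1.bounded_above_of_compact_support ((vf_cpt Z).fderiv (𝕜 := ℝ))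
  have hd2 : Continuous (fderiv ℝ (tf Z)) := (tf_smooth Z).continuous_fderiv (by simp)
  obtain ⟨C2, hC2⟩ := hd2.bounded_above_of_compact_support ((tf_cpt Z).fderiv (𝕜 := ℝ))
  have hC10 : 0 ≤ C1 := (norm_nonneg _).trans (hC1 0)
  have hC20 : 0 ≤ C2 := (norm_nonneg _).trans (hC2 0)
  refine ⟨C1 + C2 + 2 * C0 * ‖Z‖, by positivity, fun U => ?_⟩
  set s := Real.sqrt (dir U) with hs
  have hs0 : 0 ≤ s := Real.sqrt_nonneg _
  rw [bform_apply]
  have i1 : Integrable (fun x => ‖vf U x‖ * ‖vf U x‖) :=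
    (vf_memLp U).norm.integrable_mul (vf_memLp U).norm
  have i2 : Integrable (fun x => ‖tf U x‖ * ‖vf U x‖) :=
    (tf_memLp U).norm.integrable_mul (vf_memLp U).norm
  have i3 : Integrable (fun x => ‖tf U x‖ * ‖tf Z x‖) :=
    (tf_memLp U).norm.integrable_mul (tf_memLp Z).norm
  have hpt : ∀ x, ‖Ib δ U U Z x‖ ≤ C1 * (‖vf U x‖ * ‖vf U x‖) + C2 * (‖tf U x‖ * ‖vf U x‖) +
      (2 * C0 * s) * (‖tf U x‖ * ‖tf Z x‖) := by
    intro x
    have b1 : |inner ℝ (vf U x) (fderiv ℝ (vf Z) x (vf U x))| ≤ C1 * (‖vf U x‖ * ‖vf U x‖) := by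
      refine (abs_real_inner_le_norm _ _).trans ?_
      have := (ContinuousLinearMap.le_opNorm (fderiv ℝ (vf Z) x) (vf U x)).trans
        (mul_le_mul_of_nonneg_right (hC1 x) (norm_nonneg _))
      calc ‖vf U x‖ * ‖fderiv ℝ (vf Z) x (vf U x)‖ ≤ ‖vf U x‖ * (C1 * ‖vf U x‖) :=
            mul_le_mul_of_nonneg_left this (norm_nonneg _)
        _ = _ := by ring
    have b2 : |inner ℝ (tf U x) (fderiv ℝ (tf Z) x (vf U x))| ≤ C2 * (‖tf U x‖ * ‖vf U x‖) := by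
      refine (abs_real_inner_le_norm _ _).trans ?_
      have := (ContinuousLinearMap.le_opNorm (fderiv ℝ (tf Z) x) (vf U x)).trans
        (mul_le_mul_of_nonneg_right (hC2 x) (norm_nonneg _))
      calc ‖tf U x‖ * ‖fderiv ℝ (tf Z) x (vf U x)‖ ≤ ‖tf U x‖ * (C2 * ‖vf U x‖) :=
            mul_le_mul_of_nonneg_left this (norm_nonneg _)
        _ = _ := by ring
    have b3 : |inner ℝ (br (tf U x) (sm δ U x)) (tf Z x)| ≤
        (2 * C0 * s) * (‖tf U x‖ * ‖tf Z x‖) := by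
      refine (abs_real_inner_le_norm _ _).trans ?_
      calc ‖br (tf U x) (sm δ U x)‖ * ‖tf Z x‖ ≤ (2 * (‖tf U x‖ * (C0 * s))) * ‖tf Z x‖ := by
            refine mul_le_mul_of_nonneg_right ((norm_br_le _ _).trans ?_) (norm_nonneg _)
            have := mul_le_mul_of_nonneg_left (hC0 U x) (norm_nonneg (tf U x))
            linarith
        _ = _ := by ring
    rw [Real.norm_eq_abs]
    simp only [Ib]
    rw [abs_le] at b1 b2 b3 ⊢
    constructor <;> linarith [b1.1, b1.2, b2.1, b2.2, b3.1, b3.2]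
  have h1 : |∫ x, Ib δ U U Z x| ≤ ∫ x, (C1 * (‖vf U x‖ * ‖vf U x‖) +
      C2 * (‖tf U x‖ * ‖vf U x‖) + (2 * C0 * s) * (‖tf U x‖ * ‖tf Z x‖)) := by
    rw [← Real.norm_eq_abs]
    refine (norm_integral_le_integral_norm _).trans ?_
    exact integral_mono (Ib_int hΩ hδ U U Z).norm
      (((i1.const_mul _).add (i2.const_mul _)).add (i3.const_mul _)) hpt
  have h2 : ∫ x, (C1 * (‖vf U x‖ * ‖vf U x‖) +
      C2 * (‖tf U x‖ * ‖vf U x‖) + (2 * C0 * s) * (‖tf U x‖ * ‖tf Z x‖)) =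
      C1 * (∫ x, ‖vf U x‖ * ‖vf U x‖) + C2 * (∫ x, ‖tf U x‖ * ‖vf U x‖) +
        (2 * C0 * s) * ∫ x, ‖tf U x‖ * ‖tf Z x‖ := int_lc3 i1 i2 i3 _ _ _
  rw [h2] at h1
  have j1 : ∫ x, ‖vf U x‖ * ‖vf U x‖ ≤ ‖U‖ * ‖U‖ :=
    (cs_norm (vf_memLp U) (vf_memLp U)).trans
      (mul_le_mul (sqrt_vsq_le U) (sqrt_vsq_le U) (Real.sqrt_nonneg _) (norm_nonneg _))
  have j2 : ∫ x, ‖tf U x‖ * ‖vf U x‖ ≤ ‖U‖ * ‖U‖ :=
    (cs_norm (tf_memLp U) (vf_memLp U)).trans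
      (mul_le_mul (sqrt_tsq_le U) (sqrt_vsq_le U) (Real.sqrt_nonneg _) (norm_nonneg _))
  have j3 : ∫ x, ‖tf U x‖ * ‖tf Z x‖ ≤ ‖U‖ * ‖Z‖ :=
    (cs_norm (tf_memLp U) (tf_memLp Z)).trans
      (mul_le_mul (sqrt_tsq_le U) (sqrt_tsq_le Z) (Real.sqrt_nonneg _) (norm_nonneg _))
  refine h1.trans ?_
  have k1 := mul_le_mul_of_nonneg_left j1 hC10
  have k2 := mul_le_mul_of_nonneg_left j2 hC20
  have k3 := mul_le_mul_of_nonneg_left j3 (show 0 ≤ 2 * C0 * s by positivity)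
  have n1 : 0 ≤ C1 * (s * ‖U‖) := by positivity
  have n2 : 0 ≤ C2 * (s * ‖U‖) := by positivity
  have n3 : 0 ≤ 2 * C0 * ‖Z‖ * ‖U‖ ^ 2 := by positivity
  nlinarith [k1, k2, k3, n1, n2, n3]

theorem lform_bound (μ a c : ℝ) (Z : DD Ω) :
    ∃ K : ℝ, 0 ≤ K ∧ ∀ U : DD Ω,
      |lform Ω μ a c U Z| ≤ K * (Real.sqrt (dir U) + ‖U‖) := by
  set D := Real.sqrt (dir Z) with hD
  have hD0 : 0 ≤ D := Real.sqrt_nonneg _
  refine ⟨|μ| * D + |c| * D + |a| * ‖Z‖ + |c| * ‖Z‖, by positivity, fun U => ?_⟩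
  set s := Real.sqrt (dir U) with hs
  have hs0 : 0 ≤ s := Real.sqrt_nonneg _
  rw [lform_apply]
  have i1 : Integrable (fun x => ‖grad (vf U) x‖ * ‖grad (vf Z) x‖) :=
    (grad_memLp U).norm.integrable_mul (grad_memLp Z).norm
  have i2 : Integrable (fun x => ‖tf U x‖ * ‖grad (vf Z) x‖) :=
    (tf_memLp U).norm.integrable_mul (grad_memLp Z).norm
  have i3 : Integrable (fun x => ‖tf U x‖ * ‖tf Z x‖) :=
    (tf_memLp U).norm.integrable_mul (tf_memLp Z).norm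
  have i4 : Integrable (fun x => ‖grad (vf U) x‖ * ‖tf Z x‖) :=
    (grad_memLp U).norm.integrable_mul (tf_memLp Z).norm
  have hpt : ∀ x, ‖Il μ a c U Z x‖ ≤ |μ| * (‖grad (vf U) x‖ * ‖grad (vf Z) x‖) +
      |c| * (‖tf U x‖ * ‖grad (vf Z) x‖) + |a| * (‖tf U x‖ * ‖tf Z x‖) +
      |c| * (‖grad (vf U) x‖ * ‖tf Z x‖) := by
    intro x
    have b1 : |μ * inner ℝ (grad (vf U) x) (grad (vf Z) x)| ≤
        |μ| * (‖grad (vf U) x‖ * ‖grad (vf Z) x‖) := by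
      rw [abs_mul]
      exact mul_le_mul_of_nonneg_left (abs_real_inner_le_norm _ _) (abs_nonneg _)
    have b2 : |c * inner ℝ (tf U x) (sy (grad (vf Z) x))| ≤
        |c| * (‖tf U x‖ * ‖grad (vf Z) x‖) := by
      rw [abs_mul]
      refine mul_le_mul_of_nonneg_left ((abs_real_inner_le_norm _ _).trans ?_) (abs_nonneg _)
      exact mul_le_mul_of_nonneg_left (norm_sy_le _) (norm_nonneg _)
    have b3 : |a * inner ℝ (tf U x) (tf Z x)| ≤ |a| * (‖tf U x‖ * ‖tf Z x‖) := by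
      rw [abs_mul]
      exact mul_le_mul_of_nonneg_left (abs_real_inner_le_norm _ _) (abs_nonneg _)
    have b4 : |c * inner ℝ (sy (grad (vf U) x)) (tf Z x)| ≤
        |c| * (‖grad (vf U) x‖ * ‖tf Z x‖) := by
      rw [abs_mul]
      refine mul_le_mul_of_nonneg_left ((abs_real_inner_le_norm _ _).trans ?_) (abs_nonneg _)
      exact mul_le_mul_of_nonneg_right (norm_sy_le _) (norm_nonneg _)
    rw [Real.norm_eq_abs]
    simp only [Il]
    rw [abs_le] at b1 b2 b3 b4 ⊢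
    constructor <;> linarith [b1.1, b1.2, b2.1, b2.2, b3.1, b3.2, b4.1, b4.2]
  have h1 : |∫ x, Il μ a c U Z x| ≤ ∫ x, (|μ| * (‖grad (vf U) x‖ * ‖grad (vf Z) x‖) +
      |c| * (‖tf U x‖ * ‖grad (vf Z) x‖) + |a| * (‖tf U x‖ * ‖tf Z x‖) +
      |c| * (‖grad (vf U) x‖ * ‖tf Z x‖)) := by
    rw [← Real.norm_eq_abs]
    refine (norm_integral_le_integral_norm _).trans ?_
    exact integral_mono (Il_int μ a c U Z).norm
      ((((i1.const_mul _).add (i2.const_mul _)).add (i3.const_mul _)).add (i4.const_mul _)) hpt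
  have h2 : ∫ x, (|μ| * (‖grad (vf U) x‖ * ‖grad (vf Z) x‖) +
      |c| * (‖tf U x‖ * ‖grad (vf Z) x‖) + |a| * (‖tf U x‖ * ‖tf Z x‖) +
      |c| * (‖grad (vf U) x‖ * ‖tf Z x‖)) =
      |μ| * (∫ x, ‖grad (vf U) x‖ * ‖grad (vf Z) x‖) +
      |c| * (∫ x, ‖tf U x‖ * ‖grad (vf Z) x‖) + |a| * (∫ x, ‖tf U x‖ * ‖tf Z x‖) +
      |c| * (∫ x, ‖grad (vf U) x‖ * ‖tf Z x‖) := int_lc4 i1 i2 i3 i4 _ _ _ _
  rw [h2] at h1
  have j1 : ∫ x, ‖grad (vf U) x‖ * ‖grad (vf Z) x‖ ≤ s * D := cs_norm (grad_memLp U) (grad_memLp Z)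
  have j2 : ∫ x, ‖tf U x‖ * ‖grad (vf Z) x‖ ≤ ‖U‖ * D :=
    (cs_norm (tf_memLp U) (grad_memLp Z)).trans
      (mul_le_mul (sqrt_tsq_le U) le_rfl (Real.sqrt_nonneg _) (norm_nonneg _))
  have j3 : ∫ x, ‖tf U x‖ * ‖tf Z x‖ ≤ ‖U‖ * ‖Z‖ :=
    (cs_norm (tf_memLp U) (tf_memLp Z)).trans
      (mul_le_mul (sqrt_tsq_le U) (sqrt_tsq_le Z) (Real.sqrt_nonneg _) (norm_nonneg _))
  have j4 : ∫ x, ‖grad (vf U) x‖ * ‖tf Z x‖ ≤ s * ‖Z‖ :=
    (cs_norm (grad_memLp U) (tf_memLp Z)).trans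
      (mul_le_mul le_rfl (sqrt_tsq_le Z) (Real.sqrt_nonneg _) hs0)
  refine h1.trans ?_
  have k1 := mul_le_mul_of_nonneg_left j1 (abs_nonneg μ)
  have k2 := mul_le_mul_of_nonneg_left j2 (abs_nonneg c)
  have k3 := mul_le_mul_of_nonneg_left j3 (abs_nonneg a)
  have k4 := mul_le_mul_of_nonneg_left j4 (abs_nonneg c)
  have n1 : 0 ≤ |μ| * D * ‖U‖ := by positivity
  have n2 : 0 ≤ |c| * D * s := by positivity
  have n3 : 0 ≤ |a| * ‖Z‖ * s := by positivity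
  have n4 : 0 ≤ |c| * ‖Z‖ * ‖U‖ := by positivity
  nlinarith [k1, k2, k3, k4, n1, n2, n3, n4]

/-- smallness in norm -/
theorem Small.norm_le {R ε : ℝ} (hε : 0 ≤ ε) {W : DD Ω} (h : Small R ε W) :
    ‖W‖ ≤ ε * Real.sqrt (2 * (volume (Metric.closedBall (0 : Eu n) R)).toReal) := by
  set B := Metric.closedBall (0 : Eu n) R
  have hB : volume B < ⊤ := (isCompact_closedBall _ _).measure_lt_top
  obtain ⟨hvan, h1, h2, -, -⟩ := h
  have hgen : ∀ {E : Type} [NormedAddCommGroup E] (u : Eu n → E), (∀ x, ‖u x‖ ≤ ε) →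
      (∀ x, x ∉ B → u x = 0) → ∫ x, ‖u x‖ ^ 2 ≤ ε ^ 2 * (volume B).toReal := by
    intro E _ u hu h0
    have e1 : ∫ x, ‖u x‖ ^ 2 = ∫ x in B, ‖u x‖ ^ 2 := by
      rw [← integral_indicator Metric.isClosed_closedBall.measurableSet]
      refine integral_congr_ae (Eventually.of_forall fun x => ?_)
      by_cases hx : x ∈ B
      · exact (indicator_of_mem hx (fun x => ‖u x‖ ^ 2)).symm
      · refine Eq.trans ?_ (indicator_of_notMem hx (fun x => ‖u x‖ ^ 2)).symm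
        simp only [h0 x hx, norm_zero]; norm_num
    rw [e1]
    have e2 := norm_setIntegral_le_of_norm_le_const (μ := volume) (s := B)
      (f := fun x => ‖u x‖ ^ 2) (C := ε ^ 2) hB (fun x _ => by
        rw [Real.norm_eq_abs, abs_of_nonneg (by positivity)]
        exact pow_le_pow_left₀ (norm_nonneg _) (hu x) 2)
    refine (le_abs_self _).trans ?_
    rw [← Real.norm_eq_abs]
    exact e2
  have hout : ∀ x, x ∉ B → R < ‖x‖ := by
    intro x hx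
    by_contra h5
    exact hx (by rw [Metric.mem_closedBall, dist_zero_right]; linarith)
  have i1 := hgen (vf W) h1 (fun x hx => (hvan x (hout x hx)).1)
  have i2 := hgen (tf W) h2 (fun x hx => (hvan x (hout x hx)).2)
  have h3 : ‖W‖ = Real.sqrt (‖W‖ ^ 2) := (Real.sqrt_sq (norm_nonneg _)).symm
  rw [h3, dd_norm_sq]
  calc Real.sqrt ((∫ x, ‖vf W x‖ ^ 2) + ∫ x, ‖tf W x‖ ^ 2)
      ≤ Real.sqrt (ε ^ 2 * (2 * (volume B).toReal)) := by
        refine Real.sqrt_le_sqrt ?_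
        calc _ ≤ _ := add_le_add i1 i2
          _ = _ := by ring
    _ = ε * Real.sqrt (2 * (volume B).toReal) := by
        rw [Real.sqrt_mul (by positivity), Real.sqrt_sq hε]

end Pool.Agent.Helper42.Jef
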