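import Pool.Agent.Helper42.Jef.RegD

/-! # Time regularity of Galerkin curves, continued -/

open MeasureTheory Set Filter Topology
open scoped ENNReal NNReal ContDiff

namespace Pool.Agent.Helper42.Jef

set_option maxHeartbeats 400000

variable {n : ℕ} {Ω : Set (Eu n)}

section ibp

variable {hΩ : MeasurableSet Ω} {δ : ℝ} {hδ : 0 < δ} {T μ a c : ℝ}
  {S : Submodule ℝ (DD Ω)} [FiniteDimensional ℝ S] {F : ℝ → S} {U : ℝ → S}

/-- right side of the Galerkin equation tested with `V` -/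
noncomputable def gq (hΩ : MeasurableSet Ω) {δ : ℝ} (hδ : 0 < δ) (μ a c : ℝ)
    (S : Submodule ℝ (DD Ω)) (F : ℝ → S) (U : ℝ → S) (V : S) (t : ℝ) : ℝ :=
  (bform hΩ hδ (U t : DD Ω) (U t : DD Ω) (V : DD Ω) + lform Ω μ a c (U t : DD Ω) (V : DD Ω)) +
    inner ℝ (F t) V

theorem gq_cont (h : IsGal hΩ hδ T μ a c S F U) (hF : Continuous F) (V : S) :
    Continuous (gq hΩ hδ μ a c S F U V) := by
  have hcont1 : Continuous (fun t => gf (bS hΩ hδ S) (lS μ a c S) (U t)) :=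
    (gf_contDiff _ _).continuous.comp h.cont
  have e1 : ∀ t, gq hΩ hδ μ a c S F U V t =
      inner ℝ (gf (bS hΩ hδ S) (lS μ a c S) (U t)) V + inner ℝ (F t) V := by
    intro t; rw [gf_inner]; rfl
  have e2 : gq hΩ hδ μ a c S F U V = fun t =>
      inner ℝ (gf (bS hΩ hδ S) (lS μ a c S) (U t)) V + inner ℝ (F t) V := funext e1
  rw [e2]
  exact (hcont1.inner continuous_const).add (hF.inner continuous_const)

theorem gal_ibp (h : IsGal hΩ hδ T μ a c S F U) (hF : Continuous F) (hT : 0 < T) {η : ℝ → ℝ}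
    (hη : IsTime 0 T η) (V : S) :
    ∫ t in Ioo 0 T, deriv η t * inner ℝ (U t) V =
      - ∫ t in Ioo 0 T, η t * gq hΩ hδ μ a c S F U V t := by
  have hqc := gq_cont h hF V
  have hder : ∀ t ∈ Ioo 0 T, HasDerivAt (fun t => η t * inner ℝ (U t) V)
      (deriv η t * inner ℝ (U t) V + η t * gq hΩ hδ μ a c S F U V t) t := by
    intro t ht
    have h3 := h.eq t ht
    have h4 : HasDerivAt (fun t => inner ℝ (U t) V)
        (inner ℝ (gf (bS hΩ hδ S) (lS μ a c S) (U t) + F t) V) t := by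
      have := h3.inner ℝ (hasDerivAt_const t V)
      simpa using this
    have h5 := (hη.diff t).hasDerivAt.mul h4
    refine h5.congr_deriv ?_
    rw [inner_add_left, gf_inner, bS_apply, lS_apply]
    rfl
  have c1 : Continuous fun t => deriv η t * inner ℝ (U t) V :=
    hη.dcont.mul (h.cont.inner continuous_const)
  have c2 : Continuous fun t => η t * gq hΩ hδ μ a c S F U V t := hη.cont.mul hqc
  have hftc : ∫ t in (0:ℝ)..T, (deriv η t * inner ℝ (U t) V +
      η t * gq hΩ hδ μ a c S F U V t) =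
      η T * inner ℝ (U T) V - η 0 * inner ℝ (U 0) V :=
    intervalIntegral.integral_eq_sub_of_hasDerivAt_of_le hT.le
      (hη.cont.mul (h.cont.inner continuous_const)).continuousOn hder
      ((c1.add c2).intervalIntegrable 0 T)
  have hηT : η T = 0 := by
    refine image_eq_zero_of_notMem_tsupport fun hc => ?_
    exact (lt_irrefl T) (hη.supp hc).2
  have hη0 : η 0 = 0 := by
    refine image_eq_zero_of_notMem_tsupport fun hc => ?_
    exact (lt_irrefl _) (hη.supp hc).1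
  rw [hηT, hη0, zero_mul, zero_mul, sub_zero] at hftc
  have h6 : ∫ t in (0:ℝ)..T, (deriv η t * inner ℝ (U t) V + η t * gq hΩ hδ μ a c S F U V t) =
      (∫ t in Ioo 0 T, deriv η t * inner ℝ (U t) V) +
        ∫ t in Ioo 0 T, η t * gq hΩ hδ μ a c S F U V t := by
    rw [intervalIntegral.integral_add (c1.intervalIntegrable 0 T) (c2.intervalIntegrable 0 T),
      intervalIntegral.integral_of_le hT.le, intervalIntegral.integral_of_le hT.le,
      integral_Ioc_eq_integral_Ioo, integral_Ioc_eq_integral_Ioo]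
  linarith

end ibp

/-- uniform bound of the right side in `L²(0,T)` -/
theorem gq_bound (hΩ : MeasurableSet Ω) {δ : ℝ} (hδ : 0 < δ) (T μ a c : ℝ) {M : ℝ} (hM : 0 ≤ M)
    {f : ℝ → (Eu n → Eu n) → ℝ} {g : ℝ → ℝ} (hf : IsForce Ω f g) (Z : DD Ω) :
    ∃ C : ℝ, 0 ≤ C ∧ ∀ (S : Submodule ℝ (DD Ω)) [FiniteDimensional ℝ S] (F U : ℝ → S),
      Continuous F → IsGal hΩ hδ T μ a c S F U → (∀ t ∈ Ioo 0 T, ‖U t‖ ^ 2 ≤ M) →
      ∫ s in Ioo 0 T, dir (U s : DD Ω) ≤ M →
      eLpNorm (fun t => forceR hf S t - F t) 2 (volume.restrict (Ioo 0 T)) ≤ 1 →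
      ∀ V : S, (V : DD Ω) = Z →
        ∫ t in Ioo 0 T, (gq hΩ hδ μ a c S F U V t) ^ 2 ≤ C := by
  obtain ⟨K1, hK1, hb1⟩ := bform_bound hΩ hδ Z
  obtain ⟨K2, hK2, hb2⟩ := lform_bound (Ω := Ω) μ a c Z
  set m := Real.sqrt M with hm
  have hm0 : 0 ≤ m := Real.sqrt_nonneg _
  have hmm : m ^ 2 = M := Real.sq_sqrt hM
  set K := K1 * (M + m) + K2 * (1 + m) with hK
  have hK0 : 0 ≤ K := by positivity
  have hff : IntegrableOn (fun t => (f t (vf Z)) ^ 2) (Ioo 0 T) :=
    (force_memLp hf T (vf_vt Z)).integrable_sq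
  have hX : 0 ≤ ∫ t in Ioo 0 T, (f t (vf Z)) ^ 2 := integral_nonneg fun t => by positivity
  refine ⟨6 * K ^ 2 * ((volume (Ioo 0 T)).toReal + M) + 3 * (∫ t in Ioo 0 T, (f t (vf Z)) ^ 2) +
    3 * ‖Z‖ ^ 2, by positivity, ?_⟩
  intro S _ F U hF hU hUM hdir hFe V hV
  have hFm : MemLp (fun t => forceR hf S t - F t) 2 (volume.restrict (Ioo 0 T)) := by
    refine ⟨(forceR_memLp hf S T).1.sub hF.aestronglyMeasurable, ?_⟩
    exact hFe.trans_lt ENNReal.one_lt_top
  have hei : IntegrableOn (fun t => ‖forceR hf S t - F t‖ ^ 2) (Ioo 0 T) := by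
    have := hFm.norm.integrable_sq
    exact this
  have he1 : ∫ t in Ioo 0 T, ‖forceR hf S t - F t‖ ^ 2 ≤ 1 := by
    have h1 := toReal_eLpNorm_sq hFm
    have h2 : (eLpNorm (fun t => forceR hf S t - F t) 2
        (volume.restrict (Ioo 0 T))).toReal ≤ 1 := by
      refine ENNReal.toReal_le_of_le_ofReal zero_le_one ?_
      simpa using hFe
    rw [← h1]
    have h3 : 0 ≤ (eLpNorm (fun t => forceR hf S t - F t) 2
      (volume.restrict (Ioo 0 T))).toReal := ENNReal.toReal_nonneg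
    nlinarith
  have hdc : Continuous fun s => dir (U s : DD Ω) := dir_cont hU.cont
  have hdi : IntegrableOn (fun s => dir (U s : DD Ω)) (Ioo 0 T) :=
    (hdc.integrableOn_Icc (a := 0) (b := T)).mono_set Ioo_subset_Icc_self
  have hci : IntegrableOn (fun _ : ℝ => (1:ℝ)) (Ioo 0 T) := by
    exact integrableOn_const (by rw [Real.volume_Ioo]; exact ENNReal.ofReal_ne_top)
  -- pointwise bound
  have hpt : ∀ t ∈ Ioo 0 T, (gq hΩ hδ μ a c S F U V t) ^ 2 ≤
      (6 * K ^ 2) * 1 + (6 * K ^ 2) * dir (U t : DD Ω) + 3 * (f t (vf Z)) ^ 2 +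
        (3 * ‖Z‖ ^ 2) * ‖forceR hf S t - F t‖ ^ 2 := by
    intro t ht
    set s := Real.sqrt (dir (U t : DD Ω)) with hs
    have hs0 : 0 ≤ s := Real.sqrt_nonneg _
    have hss : s ^ 2 = dir (U t : DD Ω) := Real.sq_sqrt (dir_nonneg _)
    have hu : ‖(U t : DD Ω)‖ ≤ m := by
      have h1 : ‖(U t : DD Ω)‖ = ‖U t‖ := rfl
      rw [h1]
      exact Real.le_sqrt_of_sq_le (hUM t ht)
    have hu0 : 0 ≤ ‖(U t : DD Ω)‖ := norm_nonneg _
    have p1 : |bform hΩ hδ (U t : DD Ω) (U t : DD Ω) Z + lform Ω μ a c (U t : DD Ω) Z| ≤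
        K * (1 + s) := by
      refine (abs_add_le _ _).trans ((add_le_add (hb1 _) (hb2 _)).trans ?_)
      have q1 : ‖(U t : DD Ω)‖ ^ 2 ≤ M := by rw [← hmm]; exact pow_le_pow_left₀ hu0 hu 2
      have q2 : s * ‖(U t : DD Ω)‖ ≤ s * m := mul_le_mul_of_nonneg_left hu hs0
      have q3 : K1 * (‖(U t : DD Ω)‖ ^ 2 + s * ‖(U t : DD Ω)‖) ≤ K1 * (M + s * m) :=
        mul_le_mul_of_nonneg_left (add_le_add q1 q2) hK1
      have q4 : K2 * (s + ‖(U t : DD Ω)‖) ≤ K2 * (s + m) :=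
        mul_le_mul_of_nonneg_left (add_le_add le_rfl hu) hK2
      have n1 : 0 ≤ K1 * (M * s) := by positivity
      have n2 : 0 ≤ K1 * m := by positivity
      have n3 : 0 ≤ K2 * (m * s) := by positivity
      have n4 : 0 ≤ K2 * 1 := by positivity
      calc _ ≤ K1 * (M + s * m) + K2 * (s + m) := add_le_add q3 q4
        _ ≤ K * (1 + s) := by rw [hK]; nlinarith
    have p2 : inner ℝ (F t) V = f t (vf Z) - inner ℝ (forceR hf S t - F t) V := by
      rw [inner_sub_left, forceR_inner, hV]; ring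
    have p3 : |inner ℝ (forceR hf S t - F t) V| ≤ ‖forceR hf S t - F t‖ * ‖Z‖ := by
      have h1 : ‖V‖ = ‖(V : DD Ω)‖ := rfl
      rw [← hV, ← h1]
      exact abs_real_inner_le_norm _ _
    have p4 : gq hΩ hδ μ a c S F U V t =
        (bform hΩ hδ (U t : DD Ω) (U t : DD Ω) Z + lform Ω μ a c (U t : DD Ω) Z) +
        f t (vf Z) - inner ℝ (forceR hf S t - F t) V := by
      simp only [gq]
      rw [p2, hV]
      ring
    rw [p4]
    set A := bform hΩ hδ (U t : DD Ω) (U t : DD Ω) Z + lform Ω μ a c (U t : DD Ω) Z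
    set B := f t (vf Z)
    set D := inner ℝ (forceR hf S t - F t) V
    have r1 : (A + B - D) ^ 2 ≤ 3 * (A ^ 2 + B ^ 2 + D ^ 2) := by
      nlinarith [sq_nonneg (A - B), sq_nonneg (A + D), sq_nonneg (B + D)]
    have r2 : A ^ 2 ≤ K ^ 2 * (2 * (1 + dir (U t : DD Ω))) := by
      have h1 : A ^ 2 ≤ (K * (1 + s)) ^ 2 := by
        rw [← sq_abs A]
        exact pow_le_pow_left₀ (abs_nonneg _) p1 2
      have h2 : (K * (1 + s)) ^ 2 = K ^ 2 * (1 + s) ^ 2 := by ring
      rw [h2] at h1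
      refine h1.trans (mul_le_mul_of_nonneg_left ?_ (by positivity))
      rw [← hss]
      nlinarith [sq_nonneg (1 - s)]
    have r3 : D ^ 2 ≤ ‖Z‖ ^ 2 * ‖forceR hf S t - F t‖ ^ 2 := by
      have h1 : D ^ 2 ≤ (‖forceR hf S t - F t‖ * ‖Z‖) ^ 2 := by
        rw [← sq_abs D]
        exact pow_le_pow_left₀ (abs_nonneg _) p3 2
      calc D ^ 2 ≤ _ := h1
        _ = _ := by ring
    nlinarith [r1, r2, r3]
  have hqi : IntegrableOn (fun t => (gq hΩ hδ μ a c S F U V t) ^ 2) (Ioo 0 T) :=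
    (((gq_cont hU hF V).pow 2).integrableOn_Icc (a := 0) (b := T)).mono_set Ioo_subset_Icc_self
  have h1 := setIntegral_mono_on hqi ((((hci.const_mul (6 * K ^ 2)).add
    (hdi.const_mul (6 * K ^ 2))).add (hff.const_mul 3)).add (hei.const_mul (3 * ‖Z‖ ^ 2)))
    measurableSet_Ioo hpt
  have h2 := int_lc4 hci hdi hff hei (6 * K ^ 2) (6 * K ^ 2) 3 (3 * ‖Z‖ ^ 2)
  refine h1.trans (h2.le.trans ?_)
  have h3 : ∫ _ in Ioo 0 T, (1:ℝ) = (volume (Ioo 0 T)).toReal := by
    rw [setIntegral_const, smul_eq_mul, mul_one]; rfl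
  rw [h3]
  have h4 := mul_le_mul_of_nonneg_left hdir (show 0 ≤ 6 * K ^ 2 by positivity)
  have h5 := mul_le_mul_of_nonneg_left he1 (show 0 ≤ 3 * ‖Z‖ ^ 2 by positivity)
  linarith

/-- test of the velocity with a fixed field -/
theorem gv_test {T : ℝ} {W : ℝ → DD Ω} (hm : MemLp (gv T W) 2 volume) {φ : Eu n → Eu n}
    (hφ : IsVT Ω φ) {η : ℝ → ℝ} (hη : Continuous η) (hηc : HasCompactSupport η) :
    ∫ z : ST n, η z.1 * inner ℝ (gv T W z) (φ z.2) =
      ∫ t in Ioo 0 T, η t * inner ℝ (W t)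
        (DD.mk φ 0 hφ contDiff_const (HasCompactSupport.zero) : DD Ω) := by
  have hint := int_lin hm hη hηc hφ.smooth.continuous hφ.cpt
  have hvol : (volume : Measure (ST n)) = (volume : Measure ℝ).prod (volume : Measure (Eu n)) := rfl
  have h1 : ∫ z : ST n, η z.1 * inner ℝ (gv T W z) (φ z.2) =
      ∫ t, ∫ x, η t * inner ℝ (gv T W (t, x)) (φ x) := by
    rw [hvol]; exact integral_prod _ hint
  rw [h1, ← integral_indicator measurableSet_Ioo]
  refine integral_congr_ae (Eventually.of_forall fun t => ?_)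
  by_cases ht : t ∈ Ioo 0 T
  · simp only [indicator_of_mem ht, gv]
    rw [integral_const_mul, dd_inner]
    simp
  · simp only [indicator_of_notMem ht, gv]
    simp

end Pool.Agent.Helper42.Jef
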