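import Pool.Agent.Helper42.Jef.RegE

/-! # Time regularity of Galerkin curves: the test condition -/

open MeasureTheory Set Filter Topology
open scoped ENNReal NNReal ContDiff

namespace Pool.Agent.Helper42.Jef

set_option maxHeartbeats 400000

variable {n : ℕ} {Ω : Set (Eu n)}

/-- the pair `(φ, 0)` -/
noncomputable def vpair {φ : Eu n → Eu n} (hφ : IsVT Ω φ) : DD Ω :=
  DD.mk φ 0 hφ contDiff_const (HasCompactSupport.zero)

theorem memLp_cont_Ioo {E : Type*} [NormedAddCommGroup E] {h : ℝ → E}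
    (hh : Continuous h) (T : ℝ) : MemLp h 2 (volume.restrict (Ioo 0 T)) := by
  haveI : IsFiniteMeasure ((volume : Measure ℝ).restrict (Ioo 0 T)) :=
    ⟨by rw [Measure.restrict_apply_univ, Real.volume_Ioo]; exact ENNReal.ofReal_lt_top⟩
  obtain ⟨C, hC⟩ := (isCompact_Icc (a := (0:ℝ)) (b := T)).exists_bound_of_continuousOn
    hh.continuousOn
  have hsm : AEStronglyMeasurable h (volume.restrict (Ioo 0 T)) := by
    refine ContinuousOn.aestronglyMeasurable_of_isCompact ?_ ?_ ?_ |>.mono_measure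
      (Measure.restrict_mono (s' := Icc 0 T) Ioo_subset_Icc_self le_rfl)
    · exact hh.continuousOn
    · exact isCompact_Icc
    · exact measurableSet_Icc
  refine MemLp.of_bound hsm C ?_
  rw [ae_restrict_iff' measurableSet_Ioo]
  exact Eventually.of_forall fun t ht => hC t (Ioo_subset_Icc_self ht)

theorem IsTime.sq_int {a b : ℝ} {η : ℝ → ℝ} (h : IsTime a b η) :
    Integrable fun t => η t ^ 2 := by
  have h1 : Integrable (fun t => η t * η t) :=
    (h.cont.mul h.cont).integrable_of_hasCompactSupport h.cpt.mul_left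
  exact h1.congr (Eventually.of_forall fun t => (sq (η t)).symm)

theorem IsTime.dabs_int {a b : ℝ} {η : ℝ → ℝ} (h : IsTime a b η) :
    Integrable fun t => |deriv η t| :=
  (h.dcont.integrable_of_hasCompactSupport h.cpt.deriv).abs

theorem gal_tc1 (hΩ : MeasurableSet Ω) {δ : ℝ} (hδ : 0 < δ) {T : ℝ} (hT : 0 < T) (μ a c : ℝ)
    {M : ℝ} (hM : 0 ≤ M) {f : ℝ → (Eu n → Eu n) → ℝ} {g : ℝ → ℝ} (hf : IsForce Ω f g)
    {φ : Eu n → Eu n} (hφ : IsVT Ω φ) (Z : DD Ω) {ε : ℝ}
    (hε : Real.sqrt M * ‖vpair hφ - Z‖ ≤ ε) :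
    ∃ C : ℝ, ∀ (S : Submodule ℝ (DD Ω)) [FiniteDimensional ℝ S] (F U : ℝ → S),
      Continuous F → IsGal hΩ hδ T μ a c S F U → (∀ t ∈ Ioo 0 T, ‖U t‖ ^ 2 ≤ M) →
      ∫ s in Ioo 0 T, dir (U s : DD Ω) ≤ M →
      eLpNorm (fun t => forceR hf S t - F t) 2 (volume.restrict (Ioo 0 T)) ≤ 1 →
      Z ∈ S → ∀ η, IsTime 0 T η →
      |∫ z : ST n, deriv η z.1 * inner ℝ (gv T (fun t => (U t : DD Ω)) z) (φ z.2)| ≤
        C * Real.sqrt (∫ t, η t ^ 2) + ε * ∫ t, |deriv η t| := by
  obtain ⟨C, hC0, hC⟩ := gq_bound hΩ hδ T μ a c hM hf Z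
  refine ⟨Real.sqrt C, ?_⟩
  intro S _ F U hF hU hUM hdir hFe hZ η hη
  have hm := (curve_elem hT hU.cont).memLp.1
  have hε0 : 0 ≤ ε := (mul_nonneg (Real.sqrt_nonneg _) (norm_nonneg _)).trans hε
  rw [gv_test hm hφ hη.dcont hη.cpt.deriv]
  let V : S := ⟨Z, hZ⟩
  have hq := hC S F U hF hU hUM hdir hFe V rfl
  have hibp := gal_ibp hU hF hT hη V
  have hcq := gq_cont hU hF V
  -- split
  have hUc : Continuous fun t => (U t : DD Ω) := continuous_subtype_val.comp hU.cont
  have c1 : Continuous fun t => deriv η t * inner ℝ (U t) V :=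
    hη.dcont.mul (hU.cont.inner continuous_const)
  have c2 : Continuous fun t => deriv η t * inner ℝ (U t : DD Ω) (vpair hφ - Z) :=
    hη.dcont.mul (hUc.inner continuous_const)
  have hIoo : ∀ {h : ℝ → ℝ}, Continuous h → IntegrableOn h (Ioo 0 T) := fun hh =>
    (hh.integrableOn_Icc (a := 0) (b := T)).mono_set Ioo_subset_Icc_self
  have h1 : ∫ t in Ioo 0 T, deriv η t * inner ℝ (U t : DD Ω) (vpair hφ) =
      (∫ t in Ioo 0 T, deriv η t * inner ℝ (U t) V) +
        ∫ t in Ioo 0 T, deriv η t * inner ℝ (U t : DD Ω) (vpair hφ - Z) := by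
    rw [← integral_add (hIoo c1) (hIoo c2)]
    refine integral_congr_ae (Eventually.of_forall fun t => ?_)
    have e1 : inner ℝ (U t) V = inner ℝ (U t : DD Ω) Z := rfl
    simp only [e1, inner_sub_right]
    ring
  have h1' : ∫ t in Ioo 0 T, deriv η t * inner ℝ (U t : DD Ω)
      (DD.mk φ 0 hφ contDiff_const (HasCompactSupport.zero) : DD Ω) =
      (∫ t in Ioo 0 T, deriv η t * inner ℝ (U t) V) +
        ∫ t in Ioo 0 T, deriv η t * inner ℝ (U t : DD Ω) (vpair hφ - Z) := h1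
  rw [h1', hibp]
  -- first part
  have hb1 : |- ∫ t in Ioo 0 T, η t * gq hΩ hδ μ a c S F U V t| ≤
      Real.sqrt C * Real.sqrt (∫ t, η t ^ 2) := by
    rw [abs_neg]
    have k1 := cs_norm (memLp_cont_Ioo hη.cont T) (memLp_cont_Ioo hcq T)
    have k2 : |∫ t in Ioo 0 T, η t * gq hΩ hδ μ a c S F U V t| ≤
        ∫ t in Ioo 0 T, ‖η t‖ * ‖gq hΩ hδ μ a c S F U V t‖ := by
      rw [← Real.norm_eq_abs]
      refine (norm_integral_le_integral_norm _).trans (le_of_eq ?_)
      refine integral_congr_ae (Eventually.of_forall fun t => ?_)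
      simp only [norm_mul]
    refine k2.trans (k1.trans ?_)
    have hηi := hη.sq_int
    have k3 : ∫ t in Ioo 0 T, ‖η t‖ ^ 2 ≤ ∫ t, η t ^ 2 := by
      simp only [Real.norm_eq_abs, sq_abs]
      exact setIntegral_le_integral hηi (Eventually.of_forall fun t => by positivity)
    have k4 : ∫ t in Ioo 0 T, ‖gq hΩ hδ μ a c S F U V t‖ ^ 2 ≤ C := by
      simp only [Real.norm_eq_abs, sq_abs]
      exact hq
    rw [mul_comm]
    exact mul_le_mul (Real.sqrt_le_sqrt k4) (Real.sqrt_le_sqrt k3) (Real.sqrt_nonneg _)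
      (Real.sqrt_nonneg _)
  -- second part
  have hb2 : |∫ t in Ioo 0 T, deriv η t * inner ℝ (U t : DD Ω) (vpair hφ - Z)| ≤
      ε * ∫ t, |deriv η t| := by
    have hdi := hη.dabs_int
    have k1 : |∫ t in Ioo 0 T, deriv η t * inner ℝ (U t : DD Ω) (vpair hφ - Z)| ≤
        ∫ t in Ioo 0 T, ε * |deriv η t| := by
      rw [← Real.norm_eq_abs]
      refine (norm_integral_le_integral_norm _).trans ?_
      refine setIntegral_mono_on (hIoo c2).norm (hdi.integrableOn.const_mul ε) measurableSet_Ioo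
        fun t ht => ?_
      rw [norm_mul, Real.norm_eq_abs, Real.norm_eq_abs, mul_comm]
      refine mul_le_mul_of_nonneg_right ?_ (abs_nonneg _)
      refine (abs_real_inner_le_norm _ _).trans (le_trans ?_ hε)
      refine mul_le_mul_of_nonneg_right ?_ (norm_nonneg _)
      exact Real.le_sqrt_of_sq_le (hUM t ht)
    rw [integral_const_mul] at k1
    refine k1.trans (mul_le_mul_of_nonneg_left ?_ hε0)
    exact setIntegral_le_integral hdi (Eventually.of_forall fun t => abs_nonneg _)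
  exact (abs_add_le _ _).trans (add_le_add hb1 hb2)

end Pool.Agent.Helper42.Jef
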