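import Pool.Agent.Helper42.Jef.RegF

/-! # The mollified spin is bounded by the velocity -/

open MeasureTheory Set Filter Topology
open scoped ENNReal NNReal ContDiff

namespace Pool.Agent.Helper42.Jef

set_option maxHeartbeats 400000

variable {n : ℕ} {Ω : Set (Eu n)}

/-- placing a vector in column `j` -/
noncomputable def colL (j : Fin n) : Eu n →L[ℝ] Mt n :=
  LinearMap.toContinuousLinearMap
    { toFun := fun w => WithLp.toLp 2 fun p => if p.2 = j then w p.1 else 0
      map_add' := fun w w' => by
        ext p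
        by_cases h : p.2 = j <;> simp [h]
      map_smul' := fun c w => by
        ext p
        by_cases h : p.2 = j <;> simp [h] }

theorem colL_apply (j : Fin n) (w : Eu n) (p : Fin n × Fin n) :
    colL j w p = if p.2 = j then w p.1 else 0 := rfl

theorem grad_col (φ : Eu n → Eu n) (x : Eu n) : grad φ x = ∑ j, colL j (fderiv ℝ φ x (bv j)) := by
  ext p
  have h1 : (∑ j, colL j (fderiv ℝ φ x (bv j))) p =
      ∑ j, (colL j (fderiv ℝ φ x (bv j))) p :=
    map_sum (EuclideanSpace.proj (𝕜 := ℝ) p : Mt n →L[ℝ] ℝ) _ _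
  rw [h1]
  simp only [colL_apply]
  rw [Finset.sum_ite_eq]
  simp only [Finset.mem_univ, if_true]
  rfl

/-- directional derivative of the mollifier -/
noncomputable def dro (δ : ℝ) (j : Fin n) (x : Eu n) : ℝ := fderiv ℝ (ro δ) x (bv j)

theorem dro_cont (δ : ℝ) (j : Fin n) : Continuous (dro (n := n) δ j) :=
  ((ro_smooth (n := n) δ).continuous_fderiv (by simp)).clm_apply continuous_const

theorem dro_cpt {δ : ℝ} (hδ : 0 < δ) (j : Fin n) : HasCompactSupport (dro (n := n) δ j) := by
  refine ((ro_cpt (n := n) hδ).fderiv (𝕜 := ℝ)).mono' fun x hx => subset_closure fun h0 => hx ?_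
  have h0' : fderiv ℝ (ro δ) x = 0 := h0
  show fderiv ℝ (ro δ) x (bv j) = 0
  rw [h0']; rfl

theorem dro_integrable {δ : ℝ} (hδ : 0 < δ) (j : Fin n) : Integrable (dro (n := n) δ j) :=
  (dro_cont δ j).integrable_of_hasCompactSupport (dro_cpt hδ j)

/-- space integration by parts against the mollifier -/
theorem ro_ibp {δ : ℝ} (hδ : 0 < δ) {φ : Eu n → Eu n} (hφ : ContDiff ℝ ∞ φ)
    (x : Eu n) (j : Fin n) :
    ∫ y, ro δ (x - y) • fderiv ℝ φ y (bv j) = ∫ y, dro δ j (x - y) • φ y := by
  have hs : HasCompactSupport fun y : Eu n => ro δ (x - y) := by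
    have := (ro_cpt (n := n) hδ).comp_homeomorph (Homeomorph.subLeft x)
    exact this
  have hs' : HasCompactSupport fun y : Eu n => dro δ j (x - y) := by
    have := (dro_cpt (n := n) hδ j).comp_homeomorph (Homeomorph.subLeft x)
    exact this
  have hc : Continuous fun y : Eu n => ro δ (x - y) :=
    (ro_cont δ).comp (continuous_const.sub continuous_id)
  have hc' : Continuous fun y : Eu n => dro δ j (x - y) :=
    (dro_cont δ j).comp (continuous_const.sub continuous_id)
  have hdr : ∀ y, HasFDerivAt (fun y : Eu n => ro δ (x - y)) (-(fderiv ℝ (ro δ) (x - y))) y := by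
    intro y
    have h1 : HasFDerivAt (ro (n := n) δ) (fderiv ℝ (ro δ) (x - y)) (x - y) :=
      ((ro_smooth δ).differentiable (by simp) (x - y)).hasFDerivAt
    have h2 : HasFDerivAt (fun y : Eu n => x - y) (-(ContinuousLinearMap.id ℝ (Eu n))) y :=
      (hasFDerivAt_id y).const_sub x
    have h3 := h1.comp y h2
    refine h3.congr_fderiv ?_
    ext w
    simp
  have hfd : ∀ y, fderiv ℝ (fun y : Eu n => ro δ (x - y)) y (bv j) = - dro δ j (x - y) := by
    intro y
    rw [(hdr y).fderiv]; rfl
  have hd : Continuous (fderiv ℝ φ) := hφ.continuous_fderiv (by simp)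
  have i1 : Integrable (fun y => fderiv ℝ (fun y : Eu n => ro δ (x - y)) y (bv j) • φ y) := by
    simp only [hfd]
    exact (hc'.neg.smul hφ.continuous).integrable_of_hasCompactSupport (hs'.neg.smul_right)
  have i2 : Integrable (fun y => ro δ (x - y) • fderiv ℝ φ y (bv j)) :=
    (hc.smul (hd.clm_apply continuous_const)).integrable_of_hasCompactSupport hs.smul_right
  have i3 : Integrable (fun y => ro δ (x - y) • φ y) :=
    (hc.smul hφ.continuous).integrable_of_hasCompactSupport hs.smul_right
  rw [integral_smul_fderiv_eq_neg_fderiv_smul_of_integrable i1 i2 i3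
    (fun y _ => (hdr y).differentiableAt) (fun y _ => hφ.differentiable (by simp) y)]
  simp only [hfd]
  rw [← integral_neg]
  refine integral_congr_ae (Eventually.of_forall fun y => ?_)
  simp

/-- the spin operator on velocities: `z ↦ sp (∑_j (∂_j ρ_δ * v) ⊗ e_j)` -/
noncomputable def msv (δ : ℝ) (v : ST n → Eu n) (z : ST n) : Mt n :=
  spL n (∑ j, colL j (spc (dro δ j) v z))

theorem elem_mo {T δ : ℝ} (hδ : 0 < δ) {v : ST n → Eu n} {G : ST n → Mt n}
    (h : IsElem Ω T v G) (z : ST n) : mo δ (fun z => sp (G z)) z = msv δ v z := by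
  obtain ⟨N, c, φ, -, -, -, hφ, hv, hG⟩ := h
  have i1 : ∀ k, Integrable (fun y => ro δ (z.2 - y) • grad (φ k) y) := by
    intro k
    have hs : HasCompactSupport fun y : Eu n => ro δ (z.2 - y) := by
      have := (ro_cpt (n := n) hδ).comp_homeomorph (Homeomorph.subLeft z.2)
      exact this
    exact (((ro_cont δ).comp (continuous_const.sub continuous_id)).smul
      (hφ k).grad_cont).integrable_of_hasCompactSupport hs.smul_right
  have hgr : ∀ k, ∫ y, ro δ (z.2 - y) • grad (φ k) y =
      ∑ j, colL j (∫ y, dro δ j (z.2 - y) • φ k y) := by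
    intro k
    have hs : HasCompactSupport fun y : Eu n => ro δ (z.2 - y) := by
      have := (ro_cpt (n := n) hδ).comp_homeomorph (Homeomorph.subLeft z.2)
      exact this
    have hd : Continuous (fderiv ℝ (φ k)) := (hφ k).smooth.continuous_fderiv (by simp)
    have i2 : ∀ j : Fin n, Integrable (fun y => ro δ (z.2 - y) • fderiv ℝ (φ k) y (bv j)) :=
      fun j => (((ro_cont δ).comp (continuous_const.sub continuous_id)).smul
        (hd.clm_apply continuous_const)).integrable_of_hasCompactSupport hs.smul_right
    have e1 : ∀ y, ro δ (z.2 - y) • grad (φ k) y =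
        ∑ j, colL j (ro δ (z.2 - y) • fderiv ℝ (φ k) y (bv j)) := by
      intro y
      rw [grad_col, Finset.smul_sum]
      simp only [map_smul]
    simp only [e1]
    rw [integral_finsetSum _ fun j _ => (colL j).integrable_comp (i2 j)]
    refine Finset.sum_congr rfl fun j _ => ?_
    rw [(colL j).integral_comp_comm (i2 j), ro_ibp hδ (hφ k).smooth]
  -- left side
  have hL : mo δ (fun z => sp (G z)) z = spL n (∑ k, c k z.1 • ∫ y, ro δ (z.2 - y) • grad (φ k) y) := by
    simp only [mo]
    have e2 : ∀ y, ro δ (z.2 - y) • sp (G (z.1, y)) =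
        spL n (∑ k, c k z.1 • (ro δ (z.2 - y) • grad (φ k) y)) := by
      intro y
      rw [hG (z.1, y), ← spL_apply, ← map_smul, Finset.smul_sum]
      congr 1
      refine Finset.sum_congr rfl fun k _ => ?_
      rw [smul_comm]
    simp only [e2]
    rw [(spL n).integral_comp_comm, integral_finsetSum]
    · simp only [integral_smul]
    · intro k _
      exact (i1 k).smul (c k z.1)
    · exact integrable_finsetSum _ fun k _ => (i1 k).smul (c k z.1)
  rw [hL]
  simp only [msv, hgr, spc]
  congr 1
  have i3 : ∀ j k, Integrable (fun y => dro δ j (z.2 - y) • φ k y) := by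
    intro j k
    have hs' : HasCompactSupport fun y : Eu n => dro δ j (z.2 - y) := by
      have := (dro_cpt (n := n) hδ j).comp_homeomorph (Homeomorph.subLeft z.2)
      exact this
    exact (((dro_cont δ j).comp (continuous_const.sub continuous_id)).smul
      (hφ k).smooth.continuous).integrable_of_hasCompactSupport hs'.smul_right
  have hR : ∀ j, ∫ y, dro δ j (z.2 - y) • v (z.1, y) =
      ∑ k, c k z.1 • ∫ y, dro δ j (z.2 - y) • φ k y := by
    intro j
    have e3 : ∀ y, dro δ j (z.2 - y) • v (z.1, y) =
        ∑ k, c k z.1 • (dro δ j (z.2 - y) • φ k y) := by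
      intro y
      rw [hv (z.1, y), Finset.smul_sum]
      exact Finset.sum_congr rfl fun k _ => smul_comm _ _ _
    simp only [e3]
    rw [integral_finsetSum]
    · simp only [integral_smul]
    · intro k _
      exact (i3 j k).smul (c k z.1)
  simp only [hR, map_sum, map_smul, Finset.smul_sum]
  exact Finset.sum_comm

end Pool.Agent.Helper42.Jef
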