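import Pool.Agent.Helper42.Jef.RegG

/-! # Strong convergence of the mollified spins -/

open MeasureTheory Set Filter Topology
open scoped ENNReal NNReal ContDiff

namespace Pool.Agent.Helper42.Jef

set_option maxHeartbeats 400000

variable {n : ℕ} {Ω : Set (Eu n)}

theorem eLpNorm_clm_le {α : Type*} [MeasurableSpace α] {μ : Measure α} {E F : Type*}
    [NormedAddCommGroup E] [NormedSpace ℝ E] [NormedAddCommGroup F] [NormedSpace ℝ F]
    (L : E →L[ℝ] F) (u : α → E) :
    eLpNorm (fun x => L (u x)) 2 μ ≤ ENNReal.ofReal ‖L‖ * eLpNorm u 2 μ :=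
  eLpNorm_le_mul_eLpNorm_of_ae_le_mul (Eventually.of_forall fun x => L.le_opNorm (u x)) 2

theorem spc_dro_memLp {δ : ℝ} (hδ : 0 < δ) (j : Fin n) {v : ST n → Eu n}
    (hv : MemLp v 2 volume) : MemLp (spc (dro δ j) v) 2 volume :=
  spc_memLp (dro_integrable hδ j) hv

theorem msv_bound {δ : ℝ} (hδ : 0 < δ) : ∃ C : ℝ≥0∞, C ≠ ⊤ ∧ ∀ v : ST n → Eu n,
    MemLp v 2 volume → eLpNorm (msv δ v) 2 volume ≤ C * eLpNorm v 2 volume := by
  refine ⟨ENNReal.ofReal ‖spL n‖ * ∑ j : Fin n, ENNReal.ofReal ‖colL j‖ *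
    (∫⁻ x, ‖dro (n := n) δ j x‖ₑ), ?_, fun v hv => ?_⟩
  · refine ENNReal.mul_ne_top ENNReal.ofReal_ne_top ?_
    refine (ENNReal.sum_lt_top.2 fun j _ => ?_).ne
    exact ENNReal.mul_lt_top ENNReal.ofReal_lt_top (dro_integrable hδ j).2
  · have h1 : eLpNorm (msv δ v) 2 volume ≤ ENNReal.ofReal ‖spL n‖ *
        eLpNorm (fun z => ∑ j, colL j (spc (dro δ j) v z)) 2 volume := eLpNorm_clm_le _ _
    have h2 : eLpNorm (fun z => ∑ j, colL j (spc (dro δ j) v z)) 2 volume ≤
        ∑ j, eLpNorm (fun z => colL j (spc (dro δ j) v z)) 2 volume := by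
      have h3 : (fun z => ∑ j, colL j (spc (dro δ j) v z)) =
          ∑ j, fun z => colL j (spc (dro δ j) v z) := by
        funext z; simp
      rw [h3]
      refine eLpNorm_sum_le (fun j _ => ?_) (by norm_num)
      exact (colL j).continuous.comp_aestronglyMeasurable (spc_dro_memLp hδ j hv).1
    refine h1.trans ?_
    rw [mul_assoc]
    refine mul_le_mul_right (h2.trans ?_) _
    rw [Finset.sum_mul]
    refine Finset.sum_le_sum fun j _ => ?_
    refine (eLpNorm_clm_le _ _).trans ?_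
    rw [mul_assoc]
    exact mul_le_mul_right (spc_eLpNorm_le (dro_integrable hδ j).1 hv.1) _

theorem msv_aesm {δ : ℝ} (hδ : 0 < δ) {v : ST n → Eu n} (hv : MemLp v 2 volume) :
    AEStronglyMeasurable (msv δ v) volume := by
  refine (spL n).continuous.comp_aestronglyMeasurable ?_
  have h3 : (fun z => ∑ j, colL j (spc (dro δ j) v z)) =
      ∑ j, fun z => colL j (spc (dro δ j) v z) := by
    funext z; simp
  rw [h3]
  exact Finset.aestronglyMeasurable_sum _ fun j _ =>
    (colL j).continuous.comp_aestronglyMeasurable (spc_dro_memLp hδ j hv).1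

theorem msv_sub {δ : ℝ} (hδ : 0 < δ) {v w : ST n → Eu n} (hv : MemLp v 2 volume)
    (hw : MemLp w 2 volume) :
    msv δ (fun z => v z - w z) =ᵐ[volume] fun z => msv δ v z - msv δ w z := by
  have h1 : ∀ j : Fin n, ∀ᵐ z, spc (dro δ j) (fun z => v z - w z) z =
      spc (dro δ j) v z - spc (dro δ j) w z := fun j => spc_sub (dro_integrable hδ j) hv hw
  filter_upwards [ae_all_iff.2 h1] with z hz
  simp only [msv, hz, map_sub, Finset.sum_sub_distrib]

theorem tendsto_zero_of_le_mul {u w : ℕ → ℝ≥0∞} {C : ℝ≥0∞} (hC : C ≠ ⊤)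
    (hw : Tendsto w atTop (𝓝 0)) (h : ∀ m, u m ≤ C * w m) : Tendsto u atTop (𝓝 0) := by
  have h2 : Tendsto (fun m => C * w m) atTop (𝓝 0) := by
    have := ENNReal.Tendsto.const_mul hw (Or.inr hC)
    simpa using this
  exact tendsto_of_tendsto_of_tendsto_of_le_of_le tendsto_const_nhds h2 (fun _ => zero_le) h

theorem vel_mo {T δ : ℝ} (hδ : 0 < δ) {v : ST n → Eu n} {G : ST n → Mt n}
    (h : IsVel Ω T v G) : mo δ (fun z => sp (G z)) =ᵐ[volume] msv δ v := by
  obtain ⟨vs, Gs, hel, hv, hG, -, -⟩ := h.exists_seq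
  obtain ⟨C, hC, hb⟩ := msv_bound (n := n) hδ
  have hmv : ∀ k, MemLp (vs k) 2 volume := fun k => (hel k).memLp.1
  have hmG : ∀ k, MemLp (Gs k) 2 volume := fun k => (hel k).memLp.2
  -- first difference
  have h1 : Tendsto (fun k => eLpNorm (fun z => mo δ (fun z => sp (Gs k z)) z -
      mo δ (fun z => sp (G z)) z) 2 volume) atTop (𝓝 0) := by
    refine tendsto_zero_of_le_mul (C := ENNReal.ofReal ‖spL n‖) ENNReal.ofReal_ne_top hG
      fun k => ?_
    rw [mo_eq_spc, mo_eq_spc]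
    refine (spc_sub_le (ro_integrable hδ) (sp_memLp (hmG k)) (sp_memLp h.memG)).trans ?_
    rw [ro_lint hδ, one_mul]
    have e1 : (fun z => sp (Gs k z) - sp (G z)) = fun z => spL n (Gs k z - G z) := by
      funext z; rw [map_sub]; rfl
    rw [e1]
    exact eLpNorm_clm_le _ _
  -- second difference
  have h2 : Tendsto (fun k => eLpNorm (fun z => msv δ (vs k) z - msv δ v z) 2 volume) atTop
      (𝓝 0) := by
    refine tendsto_zero_of_le_mul hC hv fun k => ?_
    rw [← eLpNorm_congr_ae (msv_sub hδ (hmv k) h.memv)]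
    exact hb _ ((hmv k).sub h.memv)
  have hm1 : AEStronglyMeasurable (mo δ (fun z => sp (G z))) volume := by
    rw [mo_eq_spc]; exact (spc_memLp (ro_integrable hδ) (sp_memLp h.memG)).1
  have hm1k : ∀ k, AEStronglyMeasurable (mo δ (fun z => sp (Gs k z))) volume := by
    intro k
    rw [mo_eq_spc]; exact (spc_memLp (ro_integrable hδ) (sp_memLp (hmG k))).1
  have h3 : eLpNorm (fun z => mo δ (fun z => sp (G z)) z - msv δ v z) 2 volume = 0 := by
    have h4 : ∀ k, eLpNorm (fun z => mo δ (fun z => sp (G z)) z - msv δ v z) 2 volume ≤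
        eLpNorm (fun z => mo δ (fun z => sp (Gs k z)) z - mo δ (fun z => sp (G z)) z) 2 volume +
        eLpNorm (fun z => msv δ (vs k) z - msv δ v z) 2 volume := by
      intro k
      have e1 : (fun z => mo δ (fun z => sp (G z)) z - msv δ v z) =
          (fun z => msv δ (vs k) z - msv δ v z) -
          (fun z => mo δ (fun z => sp (Gs k z)) z - mo δ (fun z => sp (G z)) z) := by
        funext z
        simp only [Pi.sub_apply]
        rw [elem_mo hδ (hel k) z]
        abel
      rw [e1, add_comm]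
      exact eLpNorm_sub_le ((msv_aesm hδ (hmv k)).sub (msv_aesm hδ h.memv))
        ((hm1k k).sub hm1) (by norm_num)
    have h5 := h1.add h2
    rw [add_zero] at h5
    exact le_antisymm (ge_of_tendsto h5 (Eventually.of_forall h4)) zero_le
  have h6 := (eLpNorm_eq_zero_iff (hm1.sub (msv_aesm hδ h.memv)) (by norm_num)).1 h3
  filter_upwards [h6] with z hz
  exact sub_eq_zero.1 hz

theorem mspin_strong (hΩ : MeasurableSet Ω) {T δ : ℝ} (hδ : 0 < δ) {vs : ℕ → ST n → Eu n}
    {Gs : ℕ → ST n → Mt n} {v : ST n → Eu n} {G : ST n → Mt n}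
    (hv : ∀ m, IsVel Ω T (vs m) (Gs m)) (hvl : IsVel Ω T v G)
    (hs : Tendsto (fun m => eLpNorm (fun z => vs m z - v z) 2 volume) atTop (𝓝 0)) :
    Tendsto (fun m => eLpNorm (fun z => mspin Ω δ (Gs m) z - mspin Ω δ G z) 2 volume) atTop
      (𝓝 0) := by
  obtain ⟨C, hC, hb⟩ := msv_bound (n := n) hδ
  refine tendsto_zero_of_le_mul hC hs fun m => ?_
  have h1 : ∀ᵐ z, ‖mspin Ω δ (Gs m) z - mspin Ω δ G z‖ ≤ ‖msv δ (fun z => vs m z - v z) z‖ := by
    filter_upwards [vel_mo hδ (hv m), vel_mo hδ hvl, msv_sub hδ (hv m).memv hvl.memv]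
      with z h1 h2 h3
    by_cases hz : z.2 ∈ Ω
    · simp only [mspin, indicator_of_mem hz]
      rw [h1, h2, h3]
    · simp only [mspin, indicator_of_notMem hz, sub_zero, norm_zero]
      exact norm_nonneg _
  exact (eLpNorm_mono_ae h1).trans (hb _ ((hv m).memv.sub hvl.memv))

end Pool.Agent.Helper42.Jef
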