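import Pool.Agent.Helper42.Jef.RegI

/-! # The weak formulation as a functional; density of test functions -/

open MeasureTheory Set Filter Topology
open scoped ENNReal NNReal ContDiff

namespace Pool.Agent.Helper42.Jef

set_option maxHeartbeats 400000

variable {n : ℕ} {Ω : Set (Eu n)}

theorem eta_memLp_Ioo {s b : ℝ} {η : ℝ → ℝ} (hη : IsTime s b η) (T : ℝ) :
    MemLp η 2 (volume.restrict (Ioo 0 T)) := memLp_cont_Ioo hη.cont T

theorem force_int {f : ℝ → (Eu n → Eu n) → ℝ} {g : ℝ → ℝ} (hf : IsForce Ω f g) (T : ℝ)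
    {s b : ℝ} {η : ℝ → ℝ} (hη : IsTime s b η) {φ : Eu n → Eu n} (hφ : IsVT Ω φ) :
    IntegrableOn (fun t => η t * f t φ) (Ioo 0 T) :=
  (eta_memLp_Ioo hη T).integrable_mul (force_memLp hf T hφ)

theorem force_zero {f : ℝ → (Eu n → Eu n) → ℝ} {g : ℝ → ℝ} (hf : IsForce Ω f g)
    (h0 : IsVT Ω (0 : Eu n → Eu n)) (t : ℝ) : f t 0 = 0 := by
  have := hf.smul t 0 0 h0
  simpa using this

theorem force_sub {f : ℝ → (Eu n → Eu n) → ℝ} {g : ℝ → ℝ} (hf : IsForce Ω f g) (t : ℝ)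
    (V W : DD Ω) : f t (vf (V - W)) = f t (vf V) - f t (vf W) :=
  (forceL hf t).map_sub V W

/-- error of the approximate force -/
theorem force_diff {f : ℝ → (Eu n → Eu n) → ℝ} {g : ℝ → ℝ} (hf : IsForce Ω f g) (T : ℝ)
    (S : Submodule ℝ (DD Ω)) [FiniteDimensional ℝ S] {F : ℝ → S} (hF : Continuous F) {ε : ℝ}
    (hε : 0 ≤ ε)
    (hFe : eLpNorm (fun t => forceR hf S t - F t) 2 (volume.restrict (Ioo 0 T)) ≤
      ENNReal.ofReal ε) {s b : ℝ} {η : ℝ → ℝ} (hη : IsTime s b η) (V : S) :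
    |(∫ t in Ioo 0 T, η t * inner ℝ (F t) V) - ∫ t in Ioo 0 T, η t * f t (vf (V : DD Ω))| ≤
      ‖V‖ * Real.sqrt (∫ t in Ioo 0 T, ‖η t‖ ^ 2) * ε := by
  have hFm : MemLp (fun t => forceR hf S t - F t) 2 (volume.restrict (Ioo 0 T)) := by
    refine ⟨(forceR_memLp hf S T).1.sub hF.aestronglyMeasurable, ?_⟩
    exact hFe.trans_lt ENNReal.ofReal_lt_top
  have hηm := eta_memLp_Ioo hη T
  have i1 : IntegrableOn (fun t => η t * inner ℝ (F t) V) (Ioo 0 T) :=
    ((hη.cont.mul (hF.inner continuous_const)).integrableOn_Icc (a := 0) (b := T)).mono_set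
      Ioo_subset_Icc_self
  have i2 := force_int hf T hη (vf_vt (V : DD Ω))
  rw [← integral_sub i1 i2]
  have e1 : ∀ t, η t * inner ℝ (F t) V - η t * f t (vf (V : DD Ω)) =
      - (η t * inner ℝ (forceR hf S t - F t) V) := by
    intro t
    rw [inner_sub_left, forceR_inner]; ring
  simp only [e1]
  rw [integral_neg, abs_neg]
  have h1 := cs_norm hηm hFm
  have h2 : |∫ t in Ioo 0 T, η t * inner ℝ (forceR hf S t - F t) V| ≤
      ∫ t in Ioo 0 T, ‖V‖ * (‖η t‖ * ‖forceR hf S t - F t‖) := by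
    rw [← Real.norm_eq_abs]
    refine (norm_integral_le_integral_norm _).trans ?_
    refine integral_mono_of_nonneg (Eventually.of_forall fun t => norm_nonneg _)
      ((hηm.norm.integrable_mul hFm.norm).const_mul _) (Eventually.of_forall fun t => ?_)
    show ‖η t * inner ℝ (forceR hf S t - F t) V‖ ≤ ‖V‖ * (‖η t‖ * ‖forceR hf S t - F t‖)
    rw [norm_mul]
    calc ‖η t‖ * ‖inner ℝ (forceR hf S t - F t) V‖ ≤ ‖η t‖ * (‖forceR hf S t - F t‖ * ‖V‖) :=
          mul_le_mul_of_nonneg_left (norm_inner_le_norm _ _) (norm_nonneg _)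
      _ = _ := by ring
  refine h2.trans ?_
  rw [integral_const_mul, mul_assoc]
  refine mul_le_mul_of_nonneg_left (h1.trans ?_) (norm_nonneg _)
  refine mul_le_mul_of_nonneg_left ?_ (Real.sqrt_nonneg _)
  rw [← toReal_eLpNorm_sq hFm, Real.sqrt_sq ENNReal.toReal_nonneg]
  exact ENNReal.toReal_le_of_le_ofReal hε hFe

/-- the weak formulation as a functional of the test pair -/
noncomputable def Fun (μ a c : ℝ) (f : ℝ → (Eu n → Eu n) → ℝ) {v0 : Eu n → Eu n}
    {τ0 : Eu n → Mt n} (hv0 : MemLp v0 2 volume) (hτ0 : MemLp τ0 2 volume) (T : ℝ)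
    (v : ST n → Eu n) (G τ S : ST n → Mt n) (η : ℝ → ℝ) (V : DD Ω) : ℝ :=
  (∫ z, LLi μ a c v G τ S η V z) + (∫ t in Ioo 0 T, η t * f t (vf V)) + η 0 * initL hv0 hτ0 V

theorem fun_dense {μ a c : ℝ} {f : ℝ → (Eu n → Eu n) → ℝ} {g : ℝ → ℝ} (hf : IsForce Ω f g)
    {v0 : Eu n → Eu n}
    {τ0 : Eu n → Mt n} (hv0 : MemLp v0 2 volume) (hτ0 : MemLp τ0 2 volume) (T : ℝ)
    {v : ST n → Eu n} {G τ S : ST n → Mt n} (hv : MemLp v 2 volume) (hG : MemLp G 2 volume)
    (hτ : MemLp τ 2 volume) (hS : MemLp S 2 volume) {s b : ℝ} {η : ℝ → ℝ} (hη : IsTime s b η)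
    {d : ℕ → DD Ω}
    (hd : ∀ p : DD Ω, ∃ R : ℝ, Van R p ∧ ∀ ε : ℝ, 0 < ε → ∃ i, Van R (d i) ∧
      (∀ x, ‖vf (d i) x - vf p x‖ ≤ ε) ∧ (∀ x, ‖tf (d i) x - tf p x‖ ≤ ε) ∧
      (∀ x, ‖fderiv ℝ (vf (d i)) x - fderiv ℝ (vf p) x‖ ≤ ε) ∧
      (∀ x, ‖fderiv ℝ (tf (d i)) x - fderiv ℝ (tf p) x‖ ≤ ε))
    (h : ∀ i, Fun μ a c f hv0 hτ0 T v G τ S η (d i) = 0) (V : DD Ω) :
    Fun μ a c f hv0 hτ0 T v G τ S η V = 0 := by
  obtain ⟨R, hR, happ⟩ := hd V
  obtain ⟨K1, hK1⟩ := LLi_bound (Ω := Ω) (μ := μ) (a := a) (c := c) hv hG hτ hS hη R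
  obtain ⟨K2, hK20, hK2⟩ := force_bound hf R
  set X := (∫ x, ‖v0 x‖ ^ 2) + ∫ x, ‖τ0 x‖ ^ 2
  set B := Real.sqrt (2 * (volume (Metric.closedBall (0 : Eu n) R)).toReal)
  have hgm : MemLp g 2 (volume.restrict (Ioo 0 T)) := by
    rw [memLp_two_iff_integrable_sq hf.gmeas.restrict]
    exact hf.gint T
  have hgi : IntegrableOn (fun t => ‖η t‖ * ‖g t‖) (Ioo 0 T) :=
    (eta_memLp_Ioo hη T).norm.integrable_mul hgm.norm
  set Y := ∫ t in Ioo 0 T, ‖η t‖ * ‖g t‖
  have hY : 0 ≤ Y := integral_nonneg fun t => by positivity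
  -- linearity
  have hlin : ∀ V W : DD Ω, Fun μ a c f hv0 hτ0 T v G τ S η (V - W) =
      Fun μ a c f hv0 hτ0 T v G τ S η V - Fun μ a c f hv0 hτ0 T v G τ S η W := by
    intro V W
    simp only [Fun]
    have e1 : ∫ z, LLi μ a c v G τ S η (V - W) z =
        (∫ z, LLi μ a c v G τ S η V z) - ∫ z, LLi μ a c v G τ S η W z := by
      rw [← integral_sub (LLi_int hv hG hτ hS hη V) (LLi_int hv hG hτ hS hη W)]
      exact integral_congr_ae (Eventually.of_forall fun z => LLi_sub V W z)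
    have e2 : ∫ t in Ioo 0 T, η t * f t (vf (V - W)) =
        (∫ t in Ioo 0 T, η t * f t (vf V)) - ∫ t in Ioo 0 T, η t * f t (vf W) := by
      rw [← integral_sub (force_int hf T hη (vf_vt V)) (force_int hf T hη (vf_vt W))]
      refine integral_congr_ae (Eventually.of_forall fun t => ?_)
      simp only [force_sub hf]
      ring
    rw [e1, e2, map_sub]
    ring
  -- bound
  have hbd : ∀ ε : ℝ, 0 < ε → |Fun μ a c f hv0 hτ0 T v G τ S η V| ≤
      ε * (K1 + K2 * Y + |η 0| * (Real.sqrt X * B)) := by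
    intro ε hε
    obtain ⟨i, hi1, hi2, hi3, hi4, hi5⟩ := happ ε hε
    have hsm : Small R ε (d i - V) := by
      have hs : d i - V = d i + (-1 : ℝ) • V := by rw [neg_one_smul, sub_eq_add_neg]
      have hv' : vf (d i - V) = vf (d i) - vf V := by
        rw [hs, vf_add, vf_smul, neg_one_smul, sub_eq_add_neg]
      have ht' : tf (d i - V) = tf (d i) - tf V := by
        rw [hs, tf_add, tf_smul, neg_one_smul, sub_eq_add_neg]
      refine ⟨fun x hx => ?_, fun x => ?_, fun x => ?_, fun x => ?_, fun x => ?_⟩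
      · rw [hv', ht']
        simp only [Pi.sub_apply, (hi1 x hx).1, (hi1 x hx).2, (hR x hx).1, (hR x hx).2, sub_zero]
        exact ⟨trivial, trivial⟩
      · rw [hv']; exact hi2 x
      · rw [ht']; exact hi3 x
      · rw [hv', fderiv_sub (vf_diff _ x) (vf_diff _ x)]; exact hi4 x
      · rw [ht', fderiv_sub (tf_diff _ x) (tf_diff _ x)]; exact hi5 x
    have h0 : Fun μ a c f hv0 hτ0 T v G τ S η V =
        - Fun μ a c f hv0 hτ0 T v G τ S η (d i - V) := by
      rw [hlin, h i]; ring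
    rw [h0, abs_neg]
    have b1 := hK1 ε hε.le _ hsm
    have b2 : |∫ t in Ioo 0 T, η t * f t (vf (d i - V))| ≤ ε * (K2 * Y) := by
      have c1 : |∫ t in Ioo 0 T, η t * f t (vf (d i - V))| ≤
          ∫ t in Ioo 0 T, (ε * K2) * (‖η t‖ * ‖g t‖) := by
        rw [← Real.norm_eq_abs]
        refine (norm_integral_le_integral_norm _).trans ?_
        refine integral_mono_of_nonneg (Eventually.of_forall fun t => norm_nonneg _)
          (hgi.const_mul _) (Eventually.of_forall fun t => ?_)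
        show ‖η t * f t (vf (d i - V))‖ ≤ (ε * K2) * (‖η t‖ * ‖g t‖)
        rw [norm_mul]
        have c2 := hK2 ε hε.le _ hsm t
        calc ‖η t‖ * ‖f t (vf (d i - V))‖ ≤ ‖η t‖ * (g t * (ε * K2)) :=
              mul_le_mul_of_nonneg_left c2 (norm_nonneg _)
          _ = (ε * K2) * (‖η t‖ * ‖g t‖) := by
              rw [Real.norm_eq_abs (g t), abs_of_nonneg (hf.gnn t)]; ring
      rw [integral_const_mul] at c1
      calc _ ≤ _ := c1
        _ = _ := by ring
    have b3 : |initL hv0 hτ0 (d i - V)| ≤ ε * (Real.sqrt X * B) := by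
      have c1 := initL_le hv0 hτ0 (d i - V)
      have c2 := initL_le hv0 hτ0 (-(d i - V))
      rw [map_neg, norm_neg] at c2
      have c3 := hsm.norm_le hε.le
      have c4 : Real.sqrt X * ‖d i - V‖ ≤ ε * (Real.sqrt X * B) := by
        calc Real.sqrt X * ‖d i - V‖ ≤ Real.sqrt X * (ε * B) :=
              mul_le_mul_of_nonneg_left c3 (Real.sqrt_nonneg _)
          _ = _ := by ring
      rw [abs_le]
      constructor
      · linarith
      · exact c1.trans c4
    have b4 : |η 0 * initL hv0 hτ0 (d i - V)| ≤ ε * (|η 0| * (Real.sqrt X * B)) := by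
      rw [abs_mul]
      calc |η 0| * |initL hv0 hτ0 (d i - V)| ≤ |η 0| * (ε * (Real.sqrt X * B)) :=
            mul_le_mul_of_nonneg_left b3 (abs_nonneg _)
        _ = _ := by ring
    simp only [Fun]
    refine (abs_add_le _ _).trans ((add_le_add (abs_add_le _ _) le_rfl).trans ?_)
    calc _ ≤ ε * K1 + ε * (K2 * Y) + ε * (|η 0| * (Real.sqrt X * B)) :=
          add_le_add (add_le_add b1 b2) b4
      _ = _ := by ring
  set K := K1 + K2 * Y + |η 0| * (Real.sqrt X * B)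
  have hK : 0 ≤ K := by
    have := (abs_nonneg _).trans (hbd 1 one_pos)
    linarith
  by_contra hne
  have hpos : 0 < |Fun μ a c f hv0 hτ0 T v G τ S η V| := abs_pos.2 hne
  have h1 := hbd (|Fun μ a c f hv0 hτ0 T v G τ S η V| / (2 * (K + 1)))
    (div_pos hpos (by positivity))
  set A := |Fun μ a c f hv0 hτ0 T v G τ S η V|
  have h2 : A / (2 * (K + 1)) * K ≤ A / 2 := by
    have h3 : A / (2 * (K + 1)) * K = A / 2 * (K / (K + 1)) := by
      field_simp
    rw [h3]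
    have h4 : K / (K + 1) ≤ 1 := by
      rw [div_le_one (by positivity)]; linarith
    nlinarith
  linarith

end Pool.Agent.Helper42.Jef
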