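import Pool.Agent.Helper42.Jef.Mat
import Pool.Agent.Helper42.Jef.Weak

/-! # The inner product space of pairs of test fields -/

open MeasureTheory Set Filter Topology
open scoped ENNReal NNReal ContDiff

namespace Pool.Agent.Helper42.Jef

set_option maxHeartbeats 400000

variable {n : ℕ} {Ω : Set (Eu n)}

/-! ## gradient and divergence are linear -/

theorem grad_apply (φ : Eu n → Eu n) (x : Eu n) (i j : Fin n) :
    grad φ x (i, j) = (fderiv ℝ φ x (bv j)) i := rfl

/-- the gradient as a linear function of the derivative -/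
noncomputable def gradL (n : ℕ) : (Eu n →L[ℝ] Eu n) →ₗ[ℝ] Mt n where
  toFun D := WithLp.toLp 2 fun p => (D (bv p.2)) p.1
  map_add' D D' := by ext p; simp
  map_smul' c D := by ext p; simp

theorem grad_eq (φ : Eu n → Eu n) (x : Eu n) : grad φ x = gradL n (fderiv ℝ φ x) := rfl

theorem gradL_cont (n : ℕ) : Continuous (gradL n) := (gradL n).continuous_of_finiteDimensional

noncomputable def dvgL (n : ℕ) : (Eu n →L[ℝ] Eu n) →ₗ[ℝ] ℝ where
  toFun D := ∑ i, (D (bv i)) i
  map_add' D D' := by simp [Finset.sum_add_distrib]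
  map_smul' c D := by simp [Finset.mul_sum]

theorem dvg_eq (φ : Eu n → Eu n) (x : Eu n) : dvg φ x = dvgL n (fderiv ℝ φ x) := rfl

theorem dvg_eq_grad (φ : Eu n → Eu n) (x : Eu n) : dvg φ x = ∑ i, grad φ x (i, i) := rfl

theorem grad_add {φ ψ : Eu n → Eu n} (hφ : Differentiable ℝ φ) (hψ : Differentiable ℝ ψ)
    (x : Eu n) : grad (φ + ψ) x = grad φ x + grad ψ x := by
  rw [grad_eq, grad_eq, grad_eq, fderiv_add (hφ x) (hψ x), map_add]

theorem grad_smul {φ : Eu n → Eu n} (hφ : Differentiable ℝ φ) (c : ℝ) (x : Eu n) :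
    grad (c • φ) x = c • grad φ x := by
  rw [grad_eq, grad_eq, fderiv_const_smul (hφ x), map_smul]

theorem dvg_add {φ ψ : Eu n → Eu n} (hφ : Differentiable ℝ φ) (hψ : Differentiable ℝ ψ)
    (x : Eu n) : dvg (φ + ψ) x = dvg φ x + dvg ψ x := by
  rw [dvg_eq, dvg_eq, dvg_eq, fderiv_add (hφ x) (hψ x), map_add]

theorem dvg_smul {φ : Eu n → Eu n} (hφ : Differentiable ℝ φ) (c : ℝ) (x : Eu n) :
    dvg (c • φ) x = c • dvg φ x := by
  rw [dvg_eq, dvg_eq, fderiv_const_smul (hφ x), map_smul]

namespace IsVT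

theorem diff {φ : Eu n → Eu n} (h : IsVT Ω φ) : Differentiable ℝ φ :=
  h.smooth.differentiable (by simp)

protected theorem zero : IsVT Ω (0 : Eu n → Eu n) where
  smooth := contDiff_const
  cpt := HasCompactSupport.zero
  supp := by rw [tsupport_zero]; exact empty_subset _
  div0 x := by simp [dvg]

protected theorem add {φ ψ : Eu n → Eu n} (h : IsVT Ω φ) (h' : IsVT Ω ψ) : IsVT Ω (φ + ψ) where
  smooth := h.smooth.add h'.smooth
  cpt := h.cpt.add h'.cpt
  supp := (tsupport_add φ ψ).trans (union_subset h.supp h'.supp)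
  div0 x := by rw [dvg_add h.diff h'.diff, h.div0, h'.div0, add_zero]

protected theorem smul {φ : Eu n → Eu n} (h : IsVT Ω φ) (c : ℝ) : IsVT Ω (c • φ) where
  smooth := h.smooth.const_smul c
  cpt := h.cpt.smul_left (f := fun _ => c)
  supp := (closure_mono (Function.support_const_smul_subset c φ)).trans h.supp
  div0 x := by rw [dvg_smul h.diff, h.div0, smul_zero]

end IsVT

/-- pairs of test fields (velocity, stress), as a submodule -/
def DDs (Ω : Set (Eu n)) : Submodule ℝ ((Eu n → Eu n) × (Eu n → Mt n)) where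
  carrier := {p | IsVT Ω p.1 ∧ ContDiff ℝ ∞ p.2 ∧ HasCompactSupport p.2}
  add_mem' := fun h h' => ⟨h.1.add h'.1, h.2.1.add h'.2.1, h.2.2.add h'.2.2⟩
  zero_mem' := ⟨IsVT.zero, contDiff_const, HasCompactSupport.zero⟩
  smul_mem' := fun c _ h => ⟨h.1.smul c, h.2.1.const_smul c, h.2.2.smul_left (f := fun _ => c)⟩

/-- pairs of test fields, as a type without the inherited product topology -/
def DD (Ω : Set (Eu n)) : Type := DDs Ω

instance (Ω : Set (Eu n)) : AddCommGroup (DD Ω) := inferInstanceAs (AddCommGroup (DDs Ω))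
instance (Ω : Set (Eu n)) : Module ℝ (DD Ω) := inferInstanceAs (Module ℝ (DDs Ω))

/-- the underlying element of the submodule -/
def DD.val (p : DD Ω) : DDs Ω := p

/-- a pair of test fields from its components -/
def DD.mk (φ : Eu n → Eu n) (ψ : Eu n → Mt n) (h1 : IsVT Ω φ) (h2 : ContDiff ℝ ∞ ψ)
    (h3 : HasCompactSupport ψ) : DD Ω := (⟨(φ, ψ), h1, h2, h3⟩ : DDs Ω)

/-- velocity and stress components -/
def vf (p : DD Ω) : Eu n → Eu n := p.val.1.1
def tf (p : DD Ω) : Eu n → Mt n := p.val.1.2

@[simp] theorem vf_mk (φ : Eu n → Eu n) (ψ : Eu n → Mt n) (h1 : IsVT Ω φ) (h2 : ContDiff ℝ ∞ ψ)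
    (h3 : HasCompactSupport ψ) : vf (DD.mk φ ψ h1 h2 h3) = φ := rfl
@[simp] theorem tf_mk (φ : Eu n → Eu n) (ψ : Eu n → Mt n) (h1 : IsVT Ω φ) (h2 : ContDiff ℝ ∞ ψ)
    (h3 : HasCompactSupport ψ) : tf (DD.mk φ ψ h1 h2 h3) = ψ := rfl

theorem vf_vt (p : DD Ω) : IsVT Ω (vf p) := p.val.2.1
theorem vf_smooth (p : DD Ω) : ContDiff ℝ ∞ (vf p) := p.val.2.1.smooth
theorem tf_smooth (p : DD Ω) : ContDiff ℝ ∞ (tf p) := p.val.2.2.1
theorem vf_cpt (p : DD Ω) : HasCompactSupport (vf p) := p.val.2.1.cpt
theorem tf_cpt (p : DD Ω) : HasCompactSupport (tf p) := p.val.2.2.2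
theorem vf_diff (p : DD Ω) : Differentiable ℝ (vf p) := (vf_smooth p).differentiable (by simp)
theorem tf_diff (p : DD Ω) : Differentiable ℝ (tf p) := (tf_smooth p).differentiable (by simp)

@[simp] theorem vf_add (p q : DD Ω) : vf (p + q) = vf p + vf q := rfl
@[simp] theorem tf_add (p q : DD Ω) : tf (p + q) = tf p + tf q := rfl
@[simp] theorem vf_smul (c : ℝ) (p : DD Ω) : vf (c • p) = c • vf p := rfl
@[simp] theorem tf_smul (c : ℝ) (p : DD Ω) : tf (c • p) = c • tf p := rfl
@[simp] theorem vf_zero : vf (0 : DD Ω) = 0 := rfl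
@[simp] theorem tf_zero : tf (0 : DD Ω) = 0 := rfl

theorem vf_sum {ι : Type*} (s : Finset ι) (f : ι → DD Ω) : vf (∑ i ∈ s, f i) = ∑ i ∈ s, vf (f i) := by
  classical
  induction s using Finset.induction_on with
  | empty => simp
  | insert a s ha ih => rw [Finset.sum_insert ha, Finset.sum_insert ha, vf_add, ih]

theorem tf_sum {ι : Type*} (s : Finset ι) (f : ι → DD Ω) : tf (∑ i ∈ s, f i) = ∑ i ∈ s, tf (f i) := by
  classical
  induction s using Finset.induction_on with
  | empty => simp
  | insert a s ha ih => rw [Finset.sum_insert ha, Finset.sum_insert ha, tf_add, ih]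

theorem int_vv (p q : DD Ω) : Integrable (fun x => inner ℝ (vf p x) (vf q x)) := by
  refine Continuous.integrable_of_hasCompactSupport
    ((vf_smooth p).continuous.inner (vf_smooth q).continuous) ?_
  exact (vf_cpt p).mono' (by
    intro x hx
    refine subset_closure ?_
    intro h0
    have h0' : vf p x = 0 := h0
    exact hx (by simp [h0']))

theorem int_tt (p q : DD Ω) : Integrable (fun x => inner ℝ (tf p x) (tf q x)) := by
  refine Continuous.integrable_of_hasCompactSupport
    ((tf_smooth p).continuous.inner (tf_smooth q).continuous) ?_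
  exact (tf_cpt p).mono' (by
    intro x hx
    refine subset_closure ?_
    intro h0
    have h0' : tf p x = 0 := h0
    exact hx (by simp [h0']))

/-- the `L²` inner product on pairs of test fields -/
noncomputable def ddCore (Ω : Set (Eu n)) : InnerProductSpace.Core ℝ (DD Ω) where
  inner p q := (∫ x, inner ℝ (vf p x) (vf q x)) + ∫ x, inner ℝ (tf p x) (tf q x)
  conj_inner_symm p q := by
    simp only [conj_trivial]
    congr 1
    · exact integral_congr_ae (Eventually.of_forall fun x => real_inner_comm _ _)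
    · exact integral_congr_ae (Eventually.of_forall fun x => real_inner_comm _ _)
  re_inner_nonneg p := by
    simp only [RCLike.re_to_real]
    exact add_nonneg (integral_nonneg fun x => real_inner_self_nonneg)
      (integral_nonneg fun x => real_inner_self_nonneg)
  add_left p q r := by
    simp only [vf_add, tf_add, Pi.add_apply, inner_add_left]
    rw [integral_add (int_vv p r) (int_vv q r), integral_add (int_tt p r) (int_tt q r)]
    ring
  smul_left p q c := by
    simp only [vf_smul, tf_smul, Pi.smul_apply, inner_smul_left, conj_trivial]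
    rw [integral_const_mul, integral_const_mul]
    ring
  definite p hp := by
    have h1 : 0 ≤ ∫ x, inner ℝ (vf p x) (vf p x) := integral_nonneg fun x => real_inner_self_nonneg
    have h2 : 0 ≤ ∫ x, inner ℝ (tf p x) (tf p x) := integral_nonneg fun x => real_inner_self_nonneg
    have hp' : (∫ x, inner ℝ (vf p x) (vf p x)) + ∫ x, inner ℝ (tf p x) (tf p x) = 0 := hp
    have h3 : ∫ x, inner ℝ (vf p x) (vf p x) = 0 := by linarith
    have h4 : ∫ x, inner ℝ (tf p x) (tf p x) = 0 := by linarith
    have h5 : (fun x => inner ℝ (vf p x) (vf p x)) = 0 := by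
      have := (integral_eq_zero_iff_of_nonneg (fun x => real_inner_self_nonneg) (int_vv p p)).1 h3
      exact (((vf_smooth p).continuous.inner (vf_smooth p).continuous).ae_eq_iff_eq volume
        continuous_zero).1 this
    have h6 : (fun x => inner ℝ (tf p x) (tf p x)) = 0 := by
      have := (integral_eq_zero_iff_of_nonneg (fun x => real_inner_self_nonneg) (int_tt p p)).1 h4
      exact (((tf_smooth p).continuous.inner (tf_smooth p).continuous).ae_eq_iff_eq volume
        continuous_zero).1 this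
    show p.val = 0
    refine Subtype.ext (Prod.ext ?_ ?_)
    · funext x
      have := congrFun h5 x
      exact inner_self_eq_zero.1 this
    · funext x
      have := congrFun h6 x
      exact inner_self_eq_zero.1 this

noncomputable instance instNACGDD (Ω : Set (Eu n)) : NormedAddCommGroup (DD Ω) :=
  @InnerProductSpace.Core.toNormedAddCommGroup ℝ (DD Ω) _ _ _ (ddCore Ω)

noncomputable instance instIPSDD (Ω : Set (Eu n)) : InnerProductSpace ℝ (DD Ω) :=
  InnerProductSpace.ofCore (ddCore Ω).toCore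

theorem dd_inner (p q : DD Ω) : inner ℝ p q =
    (∫ x, inner ℝ (vf p x) (vf q x)) + ∫ x, inner ℝ (tf p x) (tf q x) := rfl

theorem dd_norm_sq (p : DD Ω) : ‖p‖ ^ 2 = (∫ x, ‖vf p x‖ ^ 2) + ∫ x, ‖tf p x‖ ^ 2 := by
  rw [← real_inner_self_eq_norm_sq, dd_inner]
  simp only [real_inner_self_eq_norm_sq]

end Pool.Agent.Helper42.Jef
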