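import Pool.Agent.Helper42.Jef.Mat
import Pool.Agent.Helper42.Jef.Weak

/-! # Spatial convolution with an `L¹` kernel on space-time functions -/

open MeasureTheory Set Filter Topology
open scoped ENNReal NNReal ContDiff

namespace Pool.Agent.Helper42.Jef

set_option maxHeartbeats 400000

variable {n : ℕ}
variable {E : Type*} [NormedAddCommGroup E] [NormedSpace ℝ E]

/-- spatial convolution -/
noncomputable def spc (k : Eu n → ℝ) (u : ST n → E) (z : ST n) : E :=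
  ∫ y : Eu n, k (z.2 - y) • u (z.1, y)

theorem mo_eq_spc (ε : ℝ) (u : ST n → E) : mo ε u = spc (ro ε) u := rfl

/-- the map `((t,x),y) ↦ x - y` is quasi measure preserving -/
theorem qmp_sub : Measure.QuasiMeasurePreserving (fun p : ST n × Eu n => p.1.2 - p.2)
    (volume.prod volume) volume := by
  have h1 : Measure.QuasiMeasurePreserving (fun p : Eu n × Eu n => p.1 - p.2)
      (volume.prod volume) volume := quasiMeasurePreserving_sub_of_right_invariant _ _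
  have h2 : Measure.QuasiMeasurePreserving (fun p : ST n × Eu n => (p.1.2, p.2))
      ((volume : Measure (ST n)).prod volume) ((volume : Measure (Eu n)).prod volume) := by
    have h3 : Measure.QuasiMeasurePreserving (fun z : ST n => z.2) (volume : Measure (ST n))
        (volume : Measure (Eu n)) := Measure.quasiMeasurePreserving_snd
    exact MeasureTheory.QuasiMeasurePreserving.prodMap h3 (Measure.QuasiMeasurePreserving.id _)
  exact h1.comp h2

/-- the map `((t,x),y) ↦ (t,y)` is quasi measure preserving -/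
theorem qmp_fst : Measure.QuasiMeasurePreserving (fun p : ST n × Eu n => ((p.1.1, p.2) : ST n))
    (volume.prod volume) volume := by
  have h3 : Measure.QuasiMeasurePreserving (fun z : ST n => z.1) (volume : Measure (ST n))
        (volume : Measure ℝ) := Measure.quasiMeasurePreserving_fst
  exact MeasureTheory.QuasiMeasurePreserving.prodMap h3 (Measure.QuasiMeasurePreserving.id _)

theorem spc_integrand_aesm {k : Eu n → ℝ} {u : ST n → E} (hk : AEStronglyMeasurable k volume)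
    (hu : AEStronglyMeasurable u volume) :
    AEStronglyMeasurable (fun p : ST n × Eu n => k (p.1.2 - p.2) • u (p.1.1, p.2))
      (volume.prod volume) :=
  (hk.comp_quasiMeasurePreserving qmp_sub).smul (hu.comp_quasiMeasurePreserving qmp_fst)

theorem spc_aesm {k : Eu n → ℝ} {u : ST n → E} (hk : AEStronglyMeasurable k volume)
    (hu : AEStronglyMeasurable u volume) : AEStronglyMeasurable (spc k u) volume :=
  (spc_integrand_aesm hk hu).integral_prod_right'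

/-- Tonelli part of Young's inequality -/
theorem young_tonelli {k : Eu n → ℝ} {f : ST n → ℝ≥0∞} (hk : AEStronglyMeasurable k volume)
    (hf : AEMeasurable f volume) :
    ∫⁻ z : ST n, ∫⁻ y : Eu n, ‖k (z.2 - y)‖ₑ * f (z.1, y) =
      (∫⁻ x, ‖k x‖ₑ) * ∫⁻ z : ST n, f z := by
  have hm : AEMeasurable (fun p : ST n × Eu n => ‖k (p.1.2 - p.2)‖ₑ * f (p.1.1, p.2))
      (volume.prod volume) :=
    (hk.comp_quasiMeasurePreserving qmp_sub).enorm.mul
      (hf.comp_quasiMeasurePreserving qmp_fst)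
  have hvol : (volume : Measure (ST n)) = (volume : Measure ℝ).prod (volume : Measure (Eu n)) := rfl
  -- rewrite as an iterated integral over t, x, y
  have h1 : ∫⁻ z : ST n, ∫⁻ y : Eu n, ‖k (z.2 - y)‖ₑ * f (z.1, y) =
      ∫⁻ t : ℝ, ∫⁻ x : Eu n, ∫⁻ y : Eu n, ‖k (x - y)‖ₑ * f (t, y) := by
    rw [hvol, lintegral_prod _ hm.lintegral_prod_right']
  have h2 : ∫⁻ z : ST n, f z = ∫⁻ t : ℝ, ∫⁻ y : Eu n, f (t, y) := by
    rw [hvol, lintegral_prod _ hf]
  rw [h1, h2, ← lintegral_const_mul'' _ hf.lintegral_prod_right']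
  have hsl : ∀ᵐ t : ℝ, AEMeasurable (fun y => f (t, y)) (volume : Measure (Eu n)) := by
    have := hf.aestronglyMeasurable
    exact (AEStronglyMeasurable.prodMk_left (μ := volume) (ν := volume) this).mono
      fun t ht => ht.aemeasurable
  refine lintegral_congr_ae ?_
  filter_upwards [hsl] with t ht
  have hm2 : AEMeasurable (fun p : Eu n × Eu n => ‖k (p.1 - p.2)‖ₑ * f (t, p.2))
      (volume.prod volume) :=
    (hk.comp_quasiMeasurePreserving
      (quasiMeasurePreserving_sub_of_right_invariant _ _)).enorm.mul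
      (ht.comp_quasiMeasurePreserving Measure.quasiMeasurePreserving_snd)
  rw [lintegral_lintegral_swap hm2, ← lintegral_const_mul'' _ ht]
  refine lintegral_congr fun y => ?_
  have hk' : AEMeasurable (fun x => ‖k (x - y)‖ₑ) volume :=
    (hk.comp_quasiMeasurePreserving
      (measurePreserving_sub_right volume y).quasiMeasurePreserving).enorm
  rw [lintegral_mul_const'' _ hk']
  congr 1
  exact lintegral_sub_right_eq_self (fun x => ‖k x‖ₑ) y

/-- pointwise Cauchy–Schwarz -/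
theorem young_cs {k : Eu n → ℝ} {f : Eu n → ℝ≥0∞} (hk : AEStronglyMeasurable k volume)
    (hf : AEMeasurable f volume) (x : Eu n) :
    (∫⁻ y : Eu n, ‖k (x - y)‖ₑ * f y) ^ 2 ≤
      (∫⁻ x, ‖k x‖ₑ) * ∫⁻ y : Eu n, ‖k (x - y)‖ₑ * f y ^ 2 := by
  have hk' : AEMeasurable (fun y => ‖k (x - y)‖ₑ) volume :=
    (hk.comp_quasiMeasurePreserving
      (Measure.measurePreserving_sub_left volume x).quasiMeasurePreserving).enorm
  have h1 := ENNReal.lintegral_mul_le_Lp_mul_Lq (volume : Measure (Eu n)) Real.HolderConjugate.two_two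
    (f := fun y => ‖k (x - y)‖ₑ ^ (1 / 2 : ℝ)) (g := fun y => ‖k (x - y)‖ₑ ^ (1 / 2 : ℝ) * f y)
    (hk'.pow_const _) ((hk'.pow_const _).mul hf)
  have h2 : ∫⁻ y : Eu n, ‖k (x - y)‖ₑ * f y = ∫⁻ y, ((fun y => ‖k (x - y)‖ₑ ^ (1 / 2 : ℝ)) *
      fun y => ‖k (x - y)‖ₑ ^ (1 / 2 : ℝ) * f y) y := by
    refine lintegral_congr fun y => ?_
    simp only [Pi.mul_apply]
    rw [← mul_assoc, ← ENNReal.rpow_add_of_nonneg _ _ (by norm_num) (by norm_num)]
    norm_num
  rw [← h2] at h1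
  have h3 : ∫⁻ y, (‖k (x - y)‖ₑ ^ (1 / 2 : ℝ)) ^ (2 : ℝ) = ∫⁻ x, ‖k x‖ₑ := by
    have : ∀ y, (‖k (x - y)‖ₑ ^ (1 / 2 : ℝ)) ^ (2 : ℝ) = ‖k (x - y)‖ₑ := by
      intro y
      rw [← ENNReal.rpow_mul]; norm_num
    simp only [this]
    exact lintegral_sub_left_eq_self (fun x => ‖k x‖ₑ) x
  have h4 : ∫⁻ y, (‖k (x - y)‖ₑ ^ (1 / 2 : ℝ) * f y) ^ (2 : ℝ) =
      ∫⁻ y, ‖k (x - y)‖ₑ * f y ^ 2 := by
    refine lintegral_congr fun y => ?_
    rw [ENNReal.mul_rpow_of_nonneg _ _ (by norm_num), ← ENNReal.rpow_mul]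
    norm_num
  rw [h3, h4] at h1
  calc (∫⁻ y : Eu n, ‖k (x - y)‖ₑ * f y) ^ 2
      ≤ ((∫⁻ x, ‖k x‖ₑ) ^ (1 / 2 : ℝ) * (∫⁻ y, ‖k (x - y)‖ₑ * f y ^ 2) ^ (1 / 2 : ℝ)) ^ 2 :=
        pow_le_pow_left' h1 2
    _ = (∫⁻ x, ‖k x‖ₑ) * ∫⁻ y : Eu n, ‖k (x - y)‖ₑ * f y ^ 2 := by
        rw [mul_pow, ← ENNReal.rpow_natCast, ← ENNReal.rpow_natCast, ← ENNReal.rpow_mul,
          ← ENNReal.rpow_mul]
        norm_num

theorem spc_lint_le {k : Eu n → ℝ} {u : ST n → E} (hk : AEStronglyMeasurable k volume)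
    (hu : AEStronglyMeasurable u volume) :
    ∫⁻ z : ST n, (∫⁻ y : Eu n, ‖k (z.2 - y)‖ₑ * ‖u (z.1, y)‖ₑ) ^ 2 ≤
      (∫⁻ x, ‖k x‖ₑ) ^ 2 * ∫⁻ z : ST n, ‖u z‖ₑ ^ 2 := by
  have hsl : ∀ᵐ z : ST n, AEMeasurable (fun y => ‖u (z.1, y)‖ₑ) (volume : Measure (Eu n)) := by
    have h1 : ∀ᵐ t : ℝ, AEStronglyMeasurable (fun y => u (t, y)) (volume : Measure (Eu n)) :=
      AEStronglyMeasurable.prodMk_left (μ := volume) (ν := volume) hu
    have h2 : ∀ᵐ z : ST n, AEStronglyMeasurable (fun y => u (z.1, y)) (volume : Measure (Eu n)) :=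
      Measure.quasiMeasurePreserving_fst.ae h1
    exact h2.mono fun z hz => hz.enorm
  calc ∫⁻ z : ST n, (∫⁻ y : Eu n, ‖k (z.2 - y)‖ₑ * ‖u (z.1, y)‖ₑ) ^ 2
      ≤ ∫⁻ z : ST n, (∫⁻ x, ‖k x‖ₑ) * ∫⁻ y : Eu n, ‖k (z.2 - y)‖ₑ * ‖u (z.1, y)‖ₑ ^ 2 := by
        refine lintegral_mono_ae ?_
        filter_upwards [hsl] with z hz
        exact young_cs hk hz z.2
    _ = (∫⁻ x, ‖k x‖ₑ) * ∫⁻ z : ST n, ∫⁻ y : Eu n, ‖k (z.2 - y)‖ₑ * ‖u (z.1, y)‖ₑ ^ 2 := by
        refine lintegral_const_mul'' _ ?_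
        have hm : AEMeasurable (fun p : ST n × Eu n => ‖k (p.1.2 - p.2)‖ₑ * ‖u (p.1.1, p.2)‖ₑ ^ 2)
            (volume.prod volume) :=
          (hk.comp_quasiMeasurePreserving qmp_sub).enorm.mul
            ((hu.comp_quasiMeasurePreserving qmp_fst).enorm.pow_const 2)
        exact hm.lintegral_prod_right'
    _ = _ := by
        rw [young_tonelli (f := fun z => ‖u z‖ₑ ^ 2) hk (hu.enorm.pow_const 2)]
        ring

theorem spc_ae_integrable {k : Eu n → ℝ} {u : ST n → E} (hk : Integrable k) (hu : MemLp u 2) :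
    ∀ᵐ z : ST n, Integrable (fun y => k (z.2 - y) • u (z.1, y)) := by
  have h1 : ∫⁻ z : ST n, (∫⁻ y : Eu n, ‖k (z.2 - y)‖ₑ * ‖u (z.1, y)‖ₑ) ^ 2 < ⊤ := by
    refine (spc_lint_le hk.1 hu.1).trans_lt ?_
    refine ENNReal.mul_lt_top (ENNReal.pow_lt_top hk.2) ?_
    have := lintegral_rpow_enorm_lt_top_of_eLpNorm_lt_top (p := 2) (by norm_num) (by norm_num) hu.2
    simpa using this
  have hm : AEMeasurable (fun z : ST n => (∫⁻ y : Eu n, ‖k (z.2 - y)‖ₑ * ‖u (z.1, y)‖ₑ) ^ 2) := by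
    have hm : AEMeasurable (fun p : ST n × Eu n => ‖k (p.1.2 - p.2)‖ₑ * ‖u (p.1.1, p.2)‖ₑ)
        (volume.prod volume) :=
      (hk.1.comp_quasiMeasurePreserving qmp_sub).enorm.mul
        (hu.1.comp_quasiMeasurePreserving qmp_fst).enorm
    exact hm.lintegral_prod_right'.pow_const 2
  have h2 := ae_lt_top' hm h1.ne
  have h3 : ∀ᵐ z : ST n, AEStronglyMeasurable (fun y => k (z.2 - y) • u (z.1, y)) volume :=
    AEStronglyMeasurable.prodMk_left (spc_integrand_aesm hk.1 hu.1)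
  filter_upwards [h2, h3] with z hz hz3
  refine ⟨hz3, ?_⟩
  rw [hasFiniteIntegral_iff_enorm]
  have h4 : ∫⁻ y : Eu n, ‖k (z.2 - y) • u (z.1, y)‖ₑ =
      ∫⁻ y : Eu n, ‖k (z.2 - y)‖ₑ * ‖u (z.1, y)‖ₑ :=
    lintegral_congr fun y => enorm_smul _ _
  rw [h4]
  by_contra h5
  rw [not_lt, top_le_iff] at h5
  rw [h5] at hz
  simp at hz

theorem eLpNorm_two_eq {α : Type*} [MeasurableSpace α] {μ : Measure α} {F : Type*}
    [NormedAddCommGroup F] (u : α → F) :
    eLpNorm u 2 μ = (∫⁻ x, ‖u x‖ₑ ^ 2 ∂μ) ^ (1 / 2 : ℝ) := by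
  rw [eLpNorm_eq_lintegral_rpow_enorm_toReal (by norm_num) (by norm_num)]
  simp

theorem lint_sq_eq {α : Type*} [MeasurableSpace α] {μ : Measure α} {F : Type*}
    [NormedAddCommGroup F] (u : α → F) :
    ∫⁻ x, ‖u x‖ₑ ^ 2 ∂μ = eLpNorm u 2 μ ^ 2 := by
  rw [eLpNorm_two_eq, ← ENNReal.rpow_natCast, ← ENNReal.rpow_mul]
  norm_num

/-- Young's inequality -/
theorem spc_eLpNorm_le {k : Eu n → ℝ} {u : ST n → E} (hk : AEStronglyMeasurable k volume)
    (hu : AEStronglyMeasurable u volume) :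
    eLpNorm (spc k u) 2 volume ≤ (∫⁻ x, ‖k x‖ₑ) * eLpNorm u 2 volume := by
  have h1 : ∫⁻ z, ‖spc k u z‖ₑ ^ 2 ≤ (∫⁻ x, ‖k x‖ₑ) ^ 2 * ∫⁻ z : ST n, ‖u z‖ₑ ^ 2 := by
    refine le_trans (lintegral_mono fun z => ?_) (spc_lint_le hk hu)
    refine pow_le_pow_left' ?_ 2
    refine (enorm_integral_le_lintegral_enorm _).trans (le_of_eq ?_)
    exact lintegral_congr fun y => enorm_smul _ _
  rw [lint_sq_eq, lint_sq_eq, ← mul_pow] at h1
  exact (ENNReal.pow_le_pow_left_iff two_ne_zero).1 h1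

theorem spc_memLp {k : Eu n → ℝ} {u : ST n → E} (hk : Integrable k) (hu : MemLp u 2) :
    MemLp (spc k u) 2 :=
  ⟨spc_aesm hk.1 hu.1, (spc_eLpNorm_le hk.1 hu.1).trans_lt (ENNReal.mul_lt_top hk.2 hu.2)⟩

theorem spc_sub {k : Eu n → ℝ} {u w : ST n → E} (hk : Integrable k) (hu : MemLp u 2)
    (hw : MemLp w 2) : spc k (fun z => u z - w z) =ᵐ[volume] fun z => spc k u z - spc k w z := by
  filter_upwards [spc_ae_integrable hk hu, spc_ae_integrable hk hw] with z h1 h2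
  simp only [spc]
  rw [← integral_sub h1 h2]
  exact integral_congr_ae (Eventually.of_forall fun y => by simp only [smul_sub])

theorem spc_sub_le {k : Eu n → ℝ} {u w : ST n → E} (hk : Integrable k) (hu : MemLp u 2)
    (hw : MemLp w 2) : eLpNorm (fun z => spc k u z - spc k w z) 2 volume ≤
      (∫⁻ x, ‖k x‖ₑ) * eLpNorm (fun z => u z - w z) 2 volume := by
  rw [← eLpNorm_congr_ae (spc_sub hk hu hw)]
  exact spc_eLpNorm_le hk.1 (hu.1.sub hw.1)

end Pool.Agent.Helper42.Jef
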