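import Pool.Agent.Helper42.Jef.TestSpace
import Pool.Agent.Helper42.Jef.Young

/-! # The velocity class -/

open MeasureTheory Set Filter Topology
open scoped ENNReal NNReal ContDiff

namespace Pool.Agent.Helper42.Jef

set_option maxHeartbeats 400000

variable {n : ℕ} {Ω : Set (Eu n)} {T : ℝ}

theorem memLp_prod_smul {E : Type*} [NormedAddCommGroup E] [NormedSpace ℝ E] {c : ℝ → ℝ}
    {φ : Eu n → E} (hc : MemLp c 2) (hφ : MemLp φ 2) :
    MemLp (fun z : ST n => c z.1 • φ z.2) 2 := by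
  have h1 : AEStronglyMeasurable (fun z : ST n => c z.1 • φ z.2) volume :=
    (hc.1.comp_quasiMeasurePreserving Measure.quasiMeasurePreserving_fst).smul
      (hφ.1.comp_quasiMeasurePreserving Measure.quasiMeasurePreserving_snd)
  rw [memLp_two_iff_integrable_sq_norm h1]
  have h2 : Integrable (fun t => ‖c t‖ ^ 2) := (memLp_two_iff_integrable_sq_norm hc.1).1 hc
  have h3 : Integrable (fun x => ‖φ x‖ ^ 2) := (memLp_two_iff_integrable_sq_norm hφ.1).1 hφ
  have h4 := h2.mul_prod h3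
  refine h4.congr (Eventually.of_forall fun z => ?_)
  simp only [norm_smul, mul_pow]

theorem memLp_coef {c : ℝ → ℝ} (hm : Measurable c) {C : ℝ} (hC : ∀ t, |c t| ≤ C)
    (h0 : ∀ t, t ∉ Ioo 0 T → c t = 0) (p : ℝ≥0∞) : MemLp c p := by
  have h1 : c = (Ioo 0 T).indicator c := by
    funext t
    by_cases ht : t ∈ Ioo 0 T
    · rw [indicator_of_mem ht]
    · rw [indicator_of_notMem ht, h0 t ht]
  rw [h1]
  rw [memLp_indicator_iff_restrict measurableSet_Ioo]
  exact MemLp.of_bound hm.aestronglyMeasurable C (Eventually.of_forall hC)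

theorem memLp_cc {E : Type*} [NormedAddCommGroup E] {φ : Eu n → E} (hc : Continuous φ)
    (hs : HasCompactSupport φ) (p : ℝ≥0∞) : MemLp φ p := hc.memLp_of_hasCompactSupport hs

namespace IsVT

theorem grad_cont {φ : Eu n → Eu n} (h : IsVT Ω φ) : Continuous (grad φ) :=
  (gradL_cont n).comp (h.smooth.continuous_fderiv (by simp))

theorem grad_cpt {φ : Eu n → Eu n} (h : IsVT Ω φ) : HasCompactSupport (grad φ) := by
  refine (h.cpt.fderiv (𝕜 := ℝ)).mono' ?_
  intro x hx
  refine subset_closure ?_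
  intro h0
  have h0' : fderiv ℝ φ x = 0 := h0
  exact hx (by show grad φ x = 0; rw [grad_eq, h0', map_zero])

end IsVT

theorem IsElem.memLp {v : ST n → Eu n} {G : ST n → Mt n} (h : IsElem Ω T v G) :
    MemLp v 2 volume ∧ MemLp G 2 volume := by
  obtain ⟨N, c, φ, hm, hb, h0, hφ, hv, hG⟩ := h
  choose C hC using hb
  constructor
  · have : v = fun z => ∑ j, c j z.1 • φ j z.2 := funext hv
    rw [this]
    refine memLp_finset_sum _ fun j _ => ?_
    exact memLp_prod_smul (memLp_coef (hm j) (hC j) (h0 j) 2)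
      (memLp_cc (hφ j).smooth.continuous (hφ j).cpt 2)
  · have : G = fun z => ∑ j, c j z.1 • grad (φ j) z.2 := funext hG
    rw [this]
    refine memLp_finset_sum _ fun j _ => ?_
    exact memLp_prod_smul (memLp_coef (hm j) (hC j) (h0 j) 2)
      (memLp_cc (hφ j).grad_cont (hφ j).grad_cpt 2)

theorem IsElem.isVel {v : ST n → Eu n} {G : ST n → Mt n} (h : IsElem Ω T v G) :
    IsVel Ω T v G := by
  refine ⟨h.memLp.1, h.memLp.2, fun ε hε => ⟨v, G, h, ?_, ?_⟩⟩
  · simp
  · simp

theorem IsElem.add {v v' : ST n → Eu n} {G G' : ST n → Mt n} (h : IsElem Ω T v G)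
    (h' : IsElem Ω T v' G') : IsElem Ω T (v + v') (G + G') := by
  obtain ⟨N, c, φ, hm, hb, h0, hφ, hv, hG⟩ := h
  obtain ⟨N', c', φ', hm', hb', h0', hφ', hv', hG'⟩ := h'
  refine ⟨N + N', fun j => Fin.addCases c c' j, fun j => Fin.addCases φ φ' j, ?_, ?_, ?_, ?_, ?_, ?_⟩
  · intro j
    refine Fin.addCases (fun i => ?_) (fun i => ?_) j
    · simpa using hm i
    · simpa using hm' i
  · intro j
    refine Fin.addCases (fun i => ?_) (fun i => ?_) j
    · simpa using hb i
    · simpa using hb' i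
  · intro j
    refine Fin.addCases (fun i => ?_) (fun i => ?_) j
    · simpa using h0 i
    · simpa using h0' i
  · intro j
    refine Fin.addCases (fun i => ?_) (fun i => ?_) j
    · simpa using hφ i
    · simpa using hφ' i
  · intro z
    rw [Fin.sum_univ_add]
    simp [hv z, hv' z]
  · intro z
    rw [Fin.sum_univ_add]
    simp [hG z, hG' z]

theorem IsElem.smul {v : ST n → Eu n} {G : ST n → Mt n} (h : IsElem Ω T v G) (a : ℝ) :
    IsElem Ω T (a • v) (a • G) := by
  obtain ⟨N, c, φ, hm, hb, h0, hφ, hv, hG⟩ := h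
  choose C hC using hb
  refine ⟨N, fun j t => a * c j t, φ, fun j => (hm j).const_mul a, fun j => ⟨|a| * C j, fun t => ?_⟩,
    fun j t ht => by simp [h0 j t ht], hφ, fun z => ?_, fun z => ?_⟩
  · rw [abs_mul]
    exact mul_le_mul_of_nonneg_left (hC j t) (abs_nonneg _)
  · simp [hv z, Finset.smul_sum, mul_smul]
  · simp [hG z, Finset.smul_sum, mul_smul]

theorem IsElem.zero : IsElem Ω T (0 : ST n → Eu n) (0 : ST n → Mt n) :=
  ⟨0, fun _ _ => 0, fun _ => 0, fun j => j.elim0, fun j => j.elim0, fun j => j.elim0,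
    fun j => j.elim0, fun z => by simp, fun z => by simp⟩

theorem IsVel.add {v v' : ST n → Eu n} {G G' : ST n → Mt n} (h : IsVel Ω T v G)
    (h' : IsVel Ω T v' G') : IsVel Ω T (v + v') (G + G') := by
  refine ⟨h.memv.add h'.memv, h.memG.add h'.memG, fun ε hε => ?_⟩
  obtain ⟨w, W, hw, h1, h2⟩ := h.approx (ε / 2) (by positivity)
  obtain ⟨w', W', hw', h1', h2'⟩ := h'.approx (ε / 2) (by positivity)
  have hε2 : ENNReal.ofReal ε = ENNReal.ofReal (ε / 2) + ENNReal.ofReal (ε / 2) := by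
    rw [← ENNReal.ofReal_add (by positivity) (by positivity)]; ring_nf
  refine ⟨w + w', W + W', hw.add hw', ?_, ?_⟩
  · have : v + v' - (w + w') = (v - w) + (v' - w') := by abel
    rw [this, hε2]
    exact (eLpNorm_add_le (h.memv.sub hw.memLp.1).1 (h'.memv.sub hw'.memLp.1).1
      (by norm_num)).trans (add_le_add h1 h1')
  · have : G + G' - (W + W') = (G - W) + (G' - W') := by abel
    rw [this, hε2]
    exact (eLpNorm_add_le (h.memG.sub hw.memLp.2).1 (h'.memG.sub hw'.memLp.2).1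
      (by norm_num)).trans (add_le_add h2 h2')

theorem IsVel.neg {v : ST n → Eu n} {G : ST n → Mt n} (h : IsVel Ω T v G) :
    IsVel Ω T (-v) (-G) := by
  refine ⟨h.memv.neg, h.memG.neg, fun ε hε => ?_⟩
  obtain ⟨w, W, hw, h1, h2⟩ := h.approx ε hε
  have h3 := hw.smul (-1)
  simp only [neg_one_smul] at h3
  refine ⟨-w, -W, h3, ?_, ?_⟩
  · have : -v - -w = -(v - w) := by abel
    rw [this, eLpNorm_neg]; exact h1
  · have : -G - -W = -(G - W) := by abel
    rw [this, eLpNorm_neg]; exact h2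

theorem IsVel.sub {v v' : ST n → Eu n} {G G' : ST n → Mt n} (h : IsVel Ω T v G)
    (h' : IsVel Ω T v' G') : IsVel Ω T (v - v') (G - G') := by
  have := h.add h'.neg
  simpa only [← sub_eq_add_neg] using this

/-! ## weak closedness -/

/-- the product Hilbert space -/
abbrev HV (n : ℕ) := WithLp 2 (Lp (Eu n) 2 (volume : Measure (ST n)) × Lp (Mt n) 2
  (volume : Measure (ST n)))

/-- class of a pair of `L²` functions -/
noncomputable def mkHV {v : ST n → Eu n} {G : ST n → Mt n} (hv : MemLp v 2 volume)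
    (hG : MemLp G 2 volume) : HV n := WithLp.toLp 2 (hv.toLp v, hG.toLp G)

def elemSub (Ω : Set (Eu n)) (T : ℝ) : Submodule ℝ (HV n) where
  carrier := {x | ∃ (v : ST n → Eu n) (G : ST n → Mt n) (h : IsElem Ω T v G),
    x = mkHV h.memLp.1 h.memLp.2}
  add_mem' := by
    rintro _ _ ⟨v, G, h, rfl⟩ ⟨v', G', h', rfl⟩
    exact ⟨v + v', G + G', h.add h', rfl⟩
  zero_mem' := ⟨0, 0, IsElem.zero, rfl⟩
  smul_mem' := by
    rintro a _ ⟨v, G, h, rfl⟩
    exact ⟨a • v, a • G, h.smul a, rfl⟩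

theorem dist_mkHV_le {v v' : ST n → Eu n} {G G' : ST n → Mt n} (hv : MemLp v 2 volume)
    (hG : MemLp G 2 volume) (hv' : MemLp v' 2 volume) (hG' : MemLp G' 2 volume) :
    (eLpNorm (v - v') 2 volume).toReal ≤ dist (mkHV hv hG) (mkHV hv' hG') ∧
    (eLpNorm (G - G') 2 volume).toReal ≤ dist (mkHV hv hG) (mkHV hv' hG') ∧
    dist (mkHV hv hG) (mkHV hv' hG') ≤ (eLpNorm (v - v') 2 volume).toReal +
      (eLpNorm (G - G') 2 volume).toReal := by
  have h1 : dist (hv.toLp v) (hv'.toLp v') = (eLpNorm (v - v') 2 volume).toReal := by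
    rw [dist_eq_norm, ← MemLp.toLp_sub, Lp.norm_toLp]
  have h2 : dist (hG.toLp G) (hG'.toLp G') = (eLpNorm (G - G') 2 volume).toReal := by
    rw [dist_eq_norm, ← MemLp.toLp_sub, Lp.norm_toLp]
  have h3 : dist (mkHV hv hG) (mkHV hv' hG') ^ 2 =
      (eLpNorm (v - v') 2 volume).toReal ^ 2 + (eLpNorm (G - G') 2 volume).toReal ^ 2 := by
    rw [WithLp.prod_dist_eq_of_L2, Real.sq_sqrt (by positivity), ← h1, ← h2]
    rfl
  set a := (eLpNorm (v - v') 2 volume).toReal
  set b := (eLpNorm (G - G') 2 volume).toReal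
  have ha : 0 ≤ a := ENNReal.toReal_nonneg
  have hb : 0 ≤ b := ENNReal.toReal_nonneg
  have hd : 0 ≤ dist (mkHV hv hG) (mkHV hv' hG') := dist_nonneg
  refine ⟨?_, ?_, ?_⟩
  · exact le_of_sq_le_sq (by nlinarith) hd
  · exact le_of_sq_le_sq (by nlinarith) hd
  · exact le_of_sq_le_sq (by nlinarith) (by positivity)

theorem isVel_iff {v : ST n → Eu n} {G : ST n → Mt n} (hv : MemLp v 2 volume)
    (hG : MemLp G 2 volume) : IsVel Ω T v G ↔ mkHV hv hG ∈ (elemSub Ω T).topologicalClosure := by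
  constructor
  · intro h
    refine Metric.mem_closure_iff.2 fun ε hε => ?_
    obtain ⟨w, W, hw, h1, h2⟩ := h.approx (ε / 3) (by positivity)
    refine ⟨mkHV hw.memLp.1 hw.memLp.2, ⟨w, W, hw, rfl⟩, ?_⟩
    have h3 := (dist_mkHV_le hv hG hw.memLp.1 hw.memLp.2).2.2
    have h4 := ENNReal.toReal_le_of_le_ofReal (by positivity) h1
    have h5 := ENNReal.toReal_le_of_le_ofReal (by positivity) h2
    linarith
  · intro h
    refine ⟨hv, hG, fun ε hε => ?_⟩
    obtain ⟨_, ⟨w, W, hw, rfl⟩, hd⟩ := Metric.mem_closure_iff.1 h ε hε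
    have h3 := dist_mkHV_le hv hG hw.memLp.1 hw.memLp.2
    refine ⟨w, W, hw, ?_, ?_⟩
    · rw [← ENNReal.ofReal_toReal (hv.sub hw.memLp.1).2.ne]
      exact ENNReal.ofReal_le_ofReal (h3.1.trans hd.le)
    · rw [← ENNReal.ofReal_toReal (hG.sub hw.memLp.2).2.ne]
      exact ENNReal.ofReal_le_ofReal (h3.2.1.trans hd.le)

theorem IsVel.of_wc {vs : ℕ → ST n → Eu n} {Gs : ℕ → ST n → Mt n} {v : ST n → Eu n}
    {G : ST n → Mt n} (h : ∀ m, IsVel Ω T (vs m) (Gs m)) (hv : WC volume vs v)
    (hG : WC volume Gs G) : IsVel Ω T v G := by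
  rw [isVel_iff hv.memU hG.memU]
  set K := (elemSub Ω T).topologicalClosure with hK
  have hcl : IsClosed (K : Set (HV n)) := Submodule.isClosed_topologicalClosure _
  haveI : CompleteSpace K := hcl.completeSpace_coe
  rw [← Submodule.orthogonal_orthogonal K, Submodule.mem_orthogonal]
  intro y hy
  have h1 : ∀ m, inner ℝ y (mkHV (h m).memv (h m).memG) = 0 := by
    intro m
    have h2 := (isVel_iff (h m).memv (h m).memG).1 (h m)
    rw [real_inner_comm]
    exact (Submodule.mem_orthogonal _ _).1 hy _ h2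
  have h2 : Tendsto (fun m => inner ℝ y (mkHV (h m).memv (h m).memG)) atTop
      (𝓝 (inner ℝ y (mkHV hv.memU hG.memU))) := by
    have h3 : ∀ {w : ST n → Eu n} {W : ST n → Mt n} (hw : MemLp w 2 volume)
        (hW : MemLp W 2 volume), inner ℝ y (mkHV hw hW) =
        (∫ z, inner ℝ (w z) (y.fst z)) + ∫ z, inner ℝ (W z) (y.snd z) := by
      intro w W hw hW
      rw [WithLp.prod_inner_apply]
      congr 1
      · show inner ℝ y.fst (hw.toLp w) = _
        rw [inner_toLp_left]
        exact integral_congr_ae (Eventually.of_forall fun z => real_inner_comm _ _)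
      · show inner ℝ y.snd (hW.toLp W) = _
        rw [inner_toLp_left]
        exact integral_congr_ae (Eventually.of_forall fun z => real_inner_comm _ _)
    rw [h3]
    have h4 := (hv.conv y.fst (Lp.memLp _)).add (hG.conv y.snd (Lp.memLp _))
    refine h4.congr fun m => ?_
    rw [h3]
  simp only [h1] at h2
  exact (tendsto_nhds_unique h2 tendsto_const_nhds)

end Pool.Agent.Helper42.Jef
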